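import Pool.Agent.Helper53.Chain.Base

/-! CH-CRS: the signs of the volumes give the orders of the heights. -/

namespace Pool.Agent.Helper53.Chain

open Set

theorem crs_T_sub (a b c d : ℝ) : T a b c - T a b d = (c - d) * h2 a b c d := by
  unfold T h2; ring

theorem crs_h2_pos {a b c d : ℝ} (ha : 0 < a) (hb : 0 < b) (hc : 0 < c) (hd : 0 < d) :
    0 < h2 a b c d := by
  unfold h2; positivity

theorem crs_T_lt {a b c d : ℝ} (ha : 0 < a) (hb : 0 < b) (hc : 0 < c) (hd : 0 < d)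
    (h : c < d) : T a b c < T a b d := by
  have h1 := crs_T_sub a b d c
  have h2 := mul_pos (sub_pos.2 h) (crs_h2_pos ha hb hd hc)
  linarith

theorem crs_U_comm (a b : ℝ) : U a b = U b a := by
  ext i; fin_cases i <;> simp [U] <;> ring

theorem crs_Nn_comm (a b : ℝ) : Nn a b = Nn b a := by
  ext i; fin_cases i <;> simp [Nn] <;> ring

theorem crs_T_comm (a b c : ℝ) : T a b c = T b a c := by unfold T; ring

theorem crs_T_comm' (a b c : ℝ) : T a b c = T a c b := by unfold T; ring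

theorem crs_P_comm (a b c : ℝ) : P a b c = P b a c := by
  unfold P; rw [crs_U_comm, crs_Nn_comm, crs_T_comm]

theorem crs_P_comm' (a b c : ℝ) : P a b c = P a c b := by
  ext i; fin_cases i <;> simp [P, Nn, U, T] <;> ring

theorem crs_P_rot (a b c : ℝ) : P a b c = P b c a := by
  rw [crs_P_comm, crs_P_comm']

theorem crs_vol (s p q : ℝ) (r : E3) : vol (U s p) (U s q) r = (p - q) * ev s r := by
  unfold vol ev U; simp; ring

theorem crs_vol_smul (a b : ℝ) (p q r : E3) : vol (a • p) (b • q) r = a * b * vol p q r := by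
  unfold vol; simp only [PiLp.smul_apply, smul_eq_mul]; ring

theorem crs_ev_sub (s : ℝ) (p q : E3) : ev s (p - q) = ev s p - ev s q := by
  unfold ev; simp only [PiLp.sub_apply]; ring

theorem crs_indep {s p q : ℝ} (hpq : p ≠ q) {a b : ℝ} (ha : a ≠ 0) (hb : b ≠ 0) :
    LinearIndependent ℝ ![a • U s p, b • U s q] := by
  rw [LinearIndependent.pair_iff]
  intro x y h
  have h0 := congrArg (fun v : E3 => v 0) h
  have h1 := congrArg (fun v : E3 => v 1) h
  simp [U] at h0 h1
  have e1 : x * a * (p - q) = 0 := by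
    have e0 : y * b = - (x * a) := by linarith
    have : x * a * (p - q) = - ((x * (a * (-p + -s)) + y * (b * (-q + -s)))) - (s + q) * (x * a + y * b) := by ring
    rw [this, h1, h0]; ring
  have e2 : x * a = 0 := by
    rcases mul_eq_zero.1 e1 with h | h
    · exact h
    · exact absurd (sub_eq_zero.1 h) hpq
  have e3 : y * b = 0 := by linarith
  exact ⟨(mul_eq_zero.1 e2).resolve_right ha, (mul_eq_zero.1 e3).resolve_right hb⟩

theorem crs_lerp {t0 t1 t : ℝ} (h : t0 < t1) (p q : E3) :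
    lerp t0 t1 t p q = p + ((t - t0) / (t1 - t0)) • (q - p) := by
  unfold lerp
  have h1 : t1 - t0 ≠ 0 := (sub_pos.2 h).ne'
  have h2 : (t1 - t) / (t1 - t0) = 1 - (t - t0) / (t1 - t0) := by
    field_simp; ring
  rw [h2]; module

theorem crs_core {ι : Type*} {rel : ι → ι → Prop} {X u v : ι → Fin 4 → E3}
    (h : VolOrd rel X u v) {c c' : ι} {r r' : Fin 3} (hrel : rel c c') {s p q : ℝ} (hpq : p ≠ q)
    {t0 t1 tm t0' t1' tm' : ℝ} (htm : tm = T s p q) (htm' : tm' = T s q p)
    (h0 : t0 < tm) (h1 : tm < t1) (h0' : t0' < tm') (h1' : tm' < t1')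
    (e0 : X c r.castSucc = Nn s p + t0 • U s p) (e1 : X c r.succ = Nn s p + t1 • U s p)
    (e0' : X c' r'.castSucc = Nn s q + t0' • U s q) (e1' : X c' r'.succ = Nn s q + t1' • U s q)
    (hu : ev s (lerp t0 t1 tm (u c r.castSucc) (u c r.succ)) <
      ev s (lerp t0' t1' tm' (u c' r'.castSucc) (u c' r'.succ))) :
    ev s (lerp t0 t1 tm (v c r.castSucc) (v c r.succ)) ≤
      ev s (lerp t0' t1' tm' (v c' r'.castSucc) (v c' r'.succ)) := by
  have ht : t0 < t1 := h0.trans h1
  have ht' : t0' < t1' := h0'.trans h1'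
  have hd : hdir X c r = (t1 - t0) • U s p := by
    unfold hdir; rw [e0, e1, sub_smul]; abel
  have hd' : hdir X c' r' = (t1' - t0') • U s q := by
    unfold hdir; rw [e0', e1', sub_smul]; abel
  have hp : 0 < t1 - t0 := sub_pos.2 ht
  have hp' : 0 < t1' - t0' := sub_pos.2 ht'
  set σ := (tm - t0) / (t1 - t0) with hσ
  set τ := (tm' - t0') / (t1' - t0') with hτ
  have hpt : pt X c r σ = P s p q := by
    unfold pt
    rw [show X c r.succ - X c r.castSucc = hdir X c r from rfl, hd, e0, smul_smul, hσ,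
      div_mul_cancel₀ _ hp.ne', htm]
    unfold P; rw [sub_smul]; abel
  have hpt' : pt X c' r' τ = P s q p := by
    unfold pt
    rw [show X c' r'.succ - X c' r'.castSucc = hdir X c' r' from rfl, hd', e0', smul_smul, hτ,
      div_mul_cancel₀ _ hp'.ne', htm']
    unfold P; rw [sub_smul]; abel
  have hcross : IsCross X c r c' r' σ τ := by
    refine ⟨⟨div_pos (by linarith) hp, (div_lt_one hp).2 (by linarith)⟩,
      ⟨div_pos (by linarith) hp', (div_lt_one hp').2 (by linarith)⟩, ?_, ?_⟩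
    · rw [hpt, hpt', crs_P_comm']
    · rw [hd, hd']; exact crs_indep hpq hp.ne' hp'.ne'
  have hdv : ∀ w : ι → Fin 4 → E3, dvol X w c r c' r' σ τ = ((t1 - t0) * (t1' - t0') * (p - q)) *
      (ev s (lerp t0' t1' tm' (w c' r'.castSucc) (w c' r'.succ)) -
        ev s (lerp t0 t1 tm (w c r.castSucc) (w c r.succ))) := by
    intro w
    unfold dvol
    rw [hd, hd', crs_vol_smul, crs_vol, crs_ev_sub, crs_lerp ht, crs_lerp ht']
    unfold pt; ring
  obtain ⟨g1, g2⟩ := h c c' r r' σ τ hrel hcross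
  rw [hdv, hdv] at g1 g2
  have hpp : 0 < (t1 - t0) * (t1' - t0') := mul_pos hp hp'
  rcases lt_or_gt_of_ne hpq with hlt | hgt
  · have hneg : (t1 - t0) * (t1' - t0') * (p - q) < 0 := mul_neg_of_pos_of_neg hpp (by linarith)
    have := g2 (mul_neg_of_neg_of_pos hneg (by linarith))
    by_contra hcon
    push Not at hcon
    have := mul_pos_of_neg_of_neg hneg (sub_neg.2 hcon)
    linarith
  · have hpos : 0 < (t1 - t0) * (t1' - t0') * (p - q) := mul_pos hpp (by linarith)
    have := g1 (mul_pos hpos (by linarith))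
    by_contra hcon
    push Not at hcon
    have := mul_neg_of_pos_of_neg hpos (sub_neg.2 hcon)
    linarith

namespace Nodes

variable (N : Nodes)

theorem crs_wx (i : Fin 3) : N.w < N.x i := N.wx.trans_le (N.hx.monotone (Fin.zero_le i))
theorem crs_xa (i j : Fin 3) : N.x i < N.a j :=
  ((N.hx.monotone (by fin_cases i <;> decide : i ≤ 2)).trans_lt N.xa).trans_le
    (N.ha.monotone (Fin.zero_le j))
theorem crs_ab (j k : Fin 3) : N.a j < N.b k :=
  ((N.ha.monotone (by fin_cases j <;> decide : j ≤ 2)).trans_lt N.ab).trans_le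
    (N.hb.monotone (Fin.zero_le k))
theorem crs_by (k : Fin 3) (l : Fin 7) : N.b k < N.y l :=
  ((N.hb.monotone (by fin_cases k <;> decide : k ≤ 2)).trans_lt N.bY).trans_le
    (N.hy.monotone (Fin.zero_le l))
theorem crs_yz (l : Fin 7) : N.y l < N.z :=
  (N.hy.monotone (by fin_cases l <;> decide : l ≤ 6)).trans_lt N.yz
theorem crs_x_pos (i : Fin 3) : 0 < N.x i := N.w_pos.trans (N.crs_wx i)
theorem crs_a_pos (j : Fin 3) : 0 < N.a j := (N.crs_x_pos 0).trans (N.crs_xa 0 j)
theorem crs_b_pos (k : Fin 3) : 0 < N.b k := (N.crs_a_pos 0).trans (N.crs_ab 0 k)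
theorem crs_y_pos (l : Fin 7) : 0 < N.y l := (N.crs_b_pos 0).trans (N.crs_by 0 l)
theorem crs_z_pos : 0 < N.z := (N.crs_y_pos 0).trans (N.crs_yz 0)

end Nodes

theorem ord_of_vol (N : Nodes) (u v : Copy → Fin 4 → E3)
    (h : VolOrd (fun c c' : Copy => c.1 ≠ c'.1) N.X₀ u v) : N.Ord u v := by
  have hw := N.w_pos
  have hz := N.crs_z_pos
  refine ⟨?_, ?_, ?_, ?_, ?_, ?_⟩
  · -- K1: rods 1, plane x
    intro i j j' k k' l l' κ κ' hne hu
    have hx := N.crs_x_pos i
    have ha := N.crs_a_pos j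
    have ha' := N.crs_a_pos j'
    refine crs_core h (c := ((i, j, k, l), κ)) (c' := ((i, j', k', l'), κ')) (r := 0) (r' := 0)
      (by simp [hne]) (s := N.x i) (p := N.a j) (q := N.a j') (N.ha.injective.ne hne) rfl rfl
      (crs_T_lt hx ha hw ha' ((N.crs_wx i).trans (N.crs_xa i j')))
      (crs_T_lt hx ha ha' (N.crs_b_pos k) (N.crs_ab j' k))
      (crs_T_lt hx ha' hw ha ((N.crs_wx i).trans (N.crs_xa i j)))
      (crs_T_lt hx ha' ha (N.crs_b_pos k') (N.crs_ab j k'))
      ?_ ?_ ?_ ?_ hu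
    · exact crs_P_rot _ _ _
    · rfl
    · exact crs_P_rot _ _ _
    · rfl
  · -- K2: rods 2, plane a
    intro i i' j k k' l l' κ κ' hne hu
    have ha := N.crs_a_pos j
    have hb := N.crs_b_pos k
    have hb' := N.crs_b_pos k'
    refine crs_core h (c := ((i, j, k, l), κ)) (c' := ((i', j, k', l'), κ')) (r := 1) (r' := 1)
      (by simp [hne]) (s := N.a j) (p := N.b k) (q := N.b k') (N.hb.injective.ne hne) rfl rfl
      (crs_T_lt ha hb (N.crs_x_pos i) hb' ((N.crs_xa i j).trans (N.crs_ab j k')))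
      (crs_T_lt ha hb hb' (N.crs_y_pos l) (N.crs_by k' l))
      (crs_T_lt ha hb' (N.crs_x_pos i') hb ((N.crs_xa i' j).trans (N.crs_ab j k)))
      (crs_T_lt ha hb' hb (N.crs_y_pos l') (N.crs_by k l'))
      ?_ ?_ ?_ ?_ hu
    · exact crs_P_rot _ _ _
    · rfl
    · exact crs_P_rot _ _ _
    · rfl
  · -- K3: rods 2, plane b
    intro i i' j j' k l l' κ κ' hne hu
    have ha := N.crs_a_pos j
    have ha' := N.crs_a_pos j'
    have hb := N.crs_b_pos k
    refine crs_core h (c := ((i, j, k, l), κ)) (c' := ((i', j', k, l'), κ')) (r := 1) (r' := 1)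
      (by simp [hne]) (s := N.b k) (p := N.a j) (q := N.a j') (N.ha.injective.ne hne)
      (crs_T_comm _ _ _) (crs_T_comm _ _ _)
      (crs_T_lt ha hb (N.crs_x_pos i) ha' (N.crs_xa i j'))
      (crs_T_lt ha hb ha' (N.crs_y_pos l) ((N.crs_ab j' k).trans (N.crs_by k l)))
      (crs_T_lt ha' hb (N.crs_x_pos i') ha (N.crs_xa i' j))
      (crs_T_lt ha' hb ha (N.crs_y_pos l') ((N.crs_ab j k).trans (N.crs_by k l')))
      ?_ ?_ ?_ ?_ hu
    · rw [crs_Nn_comm, crs_U_comm]; exact crs_P_rot _ _ _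
    · rw [crs_Nn_comm, crs_U_comm]; rfl
    · rw [crs_Nn_comm, crs_U_comm]; exact crs_P_rot _ _ _
    · rw [crs_Nn_comm, crs_U_comm]; rfl
  · -- K4: rods 3, plane y
    intro i i' j j' k k' l κ κ' hne hu
    have hy := N.crs_y_pos l
    have hb := N.crs_b_pos k
    have hb' := N.crs_b_pos k'
    refine crs_core h (c := ((i, j, k, l), κ)) (c' := ((i', j', k', l), κ')) (r := 2) (r' := 2)
      (by simp [hne]) (s := N.y l) (p := N.b k) (q := N.b k') (N.hb.injective.ne hne)
      (crs_T_comm _ _ _) (crs_T_comm _ _ _)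
      (crs_T_lt hb hy (N.crs_a_pos j) hb' (N.crs_ab j k'))
      (crs_T_lt hb hy hb' hz ((N.crs_by k' l).trans (N.crs_yz l)))
      (crs_T_lt hb' hy (N.crs_a_pos j') hb (N.crs_ab j' k))
      (crs_T_lt hb' hy hb hz ((N.crs_by k l).trans (N.crs_yz l)))
      ?_ ?_ ?_ ?_ hu
    · rw [crs_Nn_comm, crs_U_comm]; exact crs_P_rot _ _ _
    · rw [crs_Nn_comm, crs_U_comm]; rfl
    · rw [crs_Nn_comm, crs_U_comm]; exact crs_P_rot _ _ _
    · rw [crs_Nn_comm, crs_U_comm]; rfl
  · -- K5: rods 1, plane a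
    intro i i' j k k' l l' κ κ' hne hu
    have ha := N.crs_a_pos j
    have hx := N.crs_x_pos i
    have hx' := N.crs_x_pos i'
    refine crs_core h (c := ((i, j, k, l), κ)) (c' := ((i', j, k', l'), κ')) (r := 0) (r' := 0)
      (by simp [hne]) (s := N.a j) (p := N.x i) (q := N.x i') (N.hx.injective.ne hne)
      (crs_T_comm _ _ _) (crs_T_comm _ _ _)
      (crs_T_lt hx ha hw hx' (N.crs_wx i'))
      (crs_T_lt hx ha hx' (N.crs_b_pos k) ((N.crs_xa i' j).trans (N.crs_ab j k)))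
      (crs_T_lt hx' ha hw hx (N.crs_wx i))
      (crs_T_lt hx' ha hx (N.crs_b_pos k') ((N.crs_xa i j).trans (N.crs_ab j k')))
      ?_ ?_ ?_ ?_ hu
    · rw [crs_Nn_comm, crs_U_comm]; exact crs_P_rot _ _ _
    · rw [crs_Nn_comm, crs_U_comm]; rfl
    · rw [crs_Nn_comm, crs_U_comm]; exact crs_P_rot _ _ _
    · rw [crs_Nn_comm, crs_U_comm]; rfl
  · -- K6: rods 3, plane b
    intro i i' j j' k l l' κ κ' hne hu
    have hb := N.crs_b_pos k
    have hy := N.crs_y_pos l
    have hy' := N.crs_y_pos l'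
    refine crs_core h (c := ((i, j, k, l), κ)) (c' := ((i', j', k, l'), κ')) (r := 2) (r' := 2)
      (by simp [hne]) (s := N.b k) (p := N.y l) (q := N.y l') (N.hy.injective.ne hne) rfl rfl
      (crs_T_lt hb hy (N.crs_a_pos j) hy' ((N.crs_ab j k).trans (N.crs_by k l')))
      (crs_T_lt hb hy hy' hz (N.crs_yz l'))
      (crs_T_lt hb hy' (N.crs_a_pos j') hy ((N.crs_ab j' k).trans (N.crs_by k l)))
      (crs_T_lt hb hy' hy hz (N.crs_yz l))
      ?_ ?_ ?_ ?_ hu
    · exact crs_P_rot _ _ _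
    · rfl
    · exact crs_P_rot _ _ _
    · rfl

end Pool.Agent.Helper53.Chain
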