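import Pool.Agent.Helper53.Chain.FOR
import Pool.Agent.Helper53.Chain.CRS

/-! # Assembly, part 1: cores with grid displacements are first order rigid -/

namespace Pool.Agent.Helper53.Chain

open Set

namespace Nodes

variable (N : Nodes)

lemma at1_fld (c : Copy) (θ : Fin 12 → ℝ) (s : ℝ) :
    N.at1 c (fun i => fld θ (N.X₀ c i)) s = fld θ (P (N.x c.1.1) (N.a c.1.2.1) s) := by
  simp only [at1, X₀_0, X₀_1]
  rw [P_rot N.w (N.x c.1.1) (N.a c.1.2.1)]
  simp only [P, fld_line]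
  exact lerp_line _ _ _ (N.T1_ne c) _ _

lemma at2_fld (c : Copy) (θ : Fin 12 → ℝ) (s : ℝ) :
    N.at2 c (fun i => fld θ (N.X₀ c i)) s = fld θ (P (N.a c.1.2.1) (N.b c.1.2.2.1) s) := by
  simp only [at2, X₀_1, X₀_2]
  rw [P_rot (N.x c.1.1) (N.a c.1.2.1) (N.b c.1.2.2.1)]
  simp only [P, fld_line]
  exact lerp_line _ _ _ (N.T2_ne c) _ _

lemma at3_fld (c : Copy) (θ : Fin 12 → ℝ) (s : ℝ) :
    N.at3 c (fun i => fld θ (N.X₀ c i)) s = fld θ (P (N.b c.1.2.2.1) (N.y c.1.2.2.2) s) := by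
  simp only [at3, X₀_2, X₀_3]
  rw [P_rot (N.a c.1.2.1) (N.b c.1.2.2.1) (N.y c.1.2.2.2)]
  simp only [P, fld_line]
  exact lerp_line _ _ _ (N.T3_ne c) _ _

/-- The order conditions are invariant under adding a common affine field and scaling. -/
lemma Ord_affine (θ₀ : Fin 12 → ℝ) {lam : ℝ} (hlam : 0 < lam) (θ' : Copy → Fin 12 → ℝ)
    {v : Copy → Fin 4 → E3}
    (h : N.Ord (fun c i => fld (θ₀ + lam • θ' c) (N.X₀ c i)) v) :
    N.Ord (fun c i => fld (θ' c) (N.X₀ c i)) v where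
  K1 := by
    intro i j j' k k' l l' κ κ' hj hu
    refine h.K1 i j j' k k' l l' κ κ' hj ?_
    simp only [h1, at1_fld] at hu ⊢
    rw [P_comm23 (N.x i) (N.a j') (N.a j)] at hu ⊢
    simp only [fld_add, fld_smul, ev_add, ev_smul]
    nlinarith
  K2 := by
    intro i i' j k k' l l' κ κ' hj hu
    refine h.K2 i i' j k k' l l' κ κ' hj ?_
    simp only [h2a, at2_fld] at hu ⊢
    rw [P_comm23 (N.a j) (N.b k') (N.b k)] at hu ⊢
    simp only [fld_add, fld_smul, ev_add, ev_smul]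
    nlinarith
  K3 := by
    intro i i' j j' k l l' κ κ' hj hu
    refine h.K3 i i' j j' k l l' κ κ' hj ?_
    simp only [h2b, at2_fld] at hu ⊢
    rw [P_comm13 (N.a j') (N.b k) (N.a j)] at hu ⊢
    simp only [fld_add, fld_smul, ev_add, ev_smul]
    nlinarith
  K4 := by
    intro i i' j j' k k' l κ κ' hj hu
    refine h.K4 i i' j j' k k' l κ κ' hj ?_
    simp only [h3, at3_fld] at hu ⊢
    rw [P_comm13 (N.b k') (N.y l) (N.b k)] at hu ⊢
    simp only [fld_add, fld_smul, ev_add, ev_smul]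
    nlinarith
  K5 := by
    intro i i' j k k' l l' κ κ' hj hu
    refine h.K5 i i' j k k' l l' κ κ' hj ?_
    simp only [h5, at1_fld] at hu ⊢
    rw [P_comm13 (N.x i') (N.a j) (N.x i)] at hu ⊢
    simp only [fld_add, fld_smul, ev_add, ev_smul]
    nlinarith
  K6 := by
    intro i i' j j' k l l' κ κ' hj hu
    refine h.K6 i i' j j' k l l' κ κ' hj ?_
    simp only [h6, at3_fld] at hu ⊢
    rw [P_comm23 (N.b k) (N.y l') (N.y l)] at hu ⊢
    simp only [fld_add, fld_smul, ev_add, ev_smul]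
    nlinarith

end Nodes

/-- Relation between copies of different types. -/
def relT (c c' : Copy) : Prop := c.1 ≠ c'.1

/-- First order rigidity for abstract data. -/
def Rigid1 (X u : Copy → Fin 4 → E3) : Prop :=
  ∀ v : Copy → Fin 4 → E3, (∀ c r, dot (hdir v c r) (hdir X c r) = 0) →
    VolOrd relT X u v → ∃ ω t : E3, ∀ c i, v c i = inf ω t (X c i)

theorem core_rigid (N : Nodes) (e : ℝ) (he : 0 < e) (θ₀ : Fin 12 → ℝ) {lam : ℝ} (hlam : 0 < lam)
    (θ' : Copy → Fin 12 → ℝ) (hts : Hts N e (fun c i => fld (θ' c) (N.X₀ c i))) :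
    Rigid1 N.X₀ (fun c i => fld (θ₀ + lam • θ' c) (N.X₀ c i)) := by
  intro v hl hv
  have ho := ord_of_vol N _ v hv
  exact first_order_rigid N e he _ v hts (N.Ord_affine θ₀ hlam θ' ho) hl

/-- Rounding: prescribed displacement parameters are realised by grid points. -/
theorem rounding (θ : Copy → Fin 12 → ℝ) (η : ℝ) (hη : 0 < η) :
    ∃ L₀ : ℕ, ∀ L, L₀ ≤ L → ∀ (c : Fin 12 → ℕ) (ℓ : ℕ), 0 < ℓ →
      ∃ κ : Copy → Fin 12 → Fin L, ∀ V : Copy → Fin 12 → ℕ,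
        (∀ p i, c i + (κ p i : ℕ) * ℓ ≤ V p i ∧ V p i < c i + ((κ p i : ℕ) + 1) * ℓ) →
        ∃ (θ₀ : Fin 12 → ℝ) (lam : ℝ) (θ' : Copy → Fin 12 → ℝ), 0 < lam ∧
          (∀ p i, |θ' p i - θ p i| ≤ η) ∧ ∀ p, (fun i => (V p i : ℝ)) = θ₀ + lam • θ' p := by
  obtain ⟨K, hK⟩ : ∃ K : ℕ, ∀ p i, |θ p i| / η + 1 ≤ K := by
    obtain ⟨K, hK⟩ := exists_nat_ge (∑ q : Copy × Fin 12, (|θ q.1 q.2| / η) + 1)
    refine ⟨K, fun p i => le_trans ?_ hK⟩
    have := Finset.single_le_sum (f := fun q : Copy × Fin 12 => |θ q.1 q.2| / η)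
      (fun q _ => by positivity) (Finset.mem_univ (p, i))
    simp only at this
    linarith
  refine ⟨2 * K + 1, fun L hL c ℓ hℓ => ?_⟩
  have hfl : ∀ p i, -(K : ℤ) ≤ ⌊θ p i / η⌋ ∧ ⌊θ p i / η⌋ < (K : ℤ) := by
    intro p i
    have h1 := hK p i
    have h2 : |θ p i / η| = |θ p i| / η := by rw [abs_div, abs_of_pos hη]
    have h3 := neg_abs_le (θ p i / η)
    have h4 := le_abs_self (θ p i / η)
    constructor
    · rw [Int.le_floor]; push_cast; linarith
    · rw [Int.floor_lt]; push_cast; linarith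
  refine ⟨fun p i => ⟨(⌊θ p i / η⌋ + K).toNat, by have := hfl p i; omega⟩, fun V hV => ?_⟩
  have hℓ' : (0 : ℝ) < ℓ := Nat.cast_pos.2 hℓ
  refine ⟨fun i => c i + ℓ * K, ℓ / η, fun p i => (V p i - (c i + ℓ * K)) * (η / ℓ),
    by positivity, fun p i => ?_, fun p => ?_⟩
  · obtain ⟨h1, h2⟩ := hV p i
    have hn : (((⌊θ p i / η⌋ + K).toNat : ℕ) : ℝ) = (⌊θ p i / η⌋ : ℝ) + K := by
      have := hfl p i
      have h0 : (((⌊θ p i / η⌋ + K).toNat : ℕ) : ℤ) = ⌊θ p i / η⌋ + K :=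
        Int.toNat_of_nonneg (by omega)
      have h0' : ((((⌊θ p i / η⌋ + K).toNat : ℕ) : ℤ) : ℝ) = ((⌊θ p i / η⌋ + K : ℤ) : ℝ) := by
        rw [h0]
      push_cast at h0'
      simpa using h0'
    have h1' : (c i : ℝ) + ((⌊θ p i / η⌋ : ℝ) + K) * ℓ ≤ V p i := by
      have : ((c i + (⌊θ p i / η⌋ + K).toNat * ℓ : ℕ) : ℝ) ≤ (V p i : ℝ) := by exact_mod_cast h1
      push_cast at this
      rw [hn] at this
      exact this
    have h2' : (V p i : ℝ) < c i + ((⌊θ p i / η⌋ : ℝ) + K + 1) * ℓ := by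
      have : (V p i : ℝ) < ((c i + ((⌊θ p i / η⌋ + K).toNat + 1) * ℓ : ℕ) : ℝ) := by
        exact_mod_cast h2
      push_cast at this
      rw [hn] at this
      exact this
    have f1 := Int.floor_le (θ p i / η)
    have f2 := Int.lt_floor_add_one (θ p i / η)
    have g : θ p i = (θ p i / η) * η := by field_simp
    have e1 : ((V p i : ℝ) - (c i + ℓ * K)) * (η / ℓ) - θ p i =
        ((V p i : ℝ) - (c i + ℓ * K) - (θ p i / η) * ℓ) * (η / ℓ) := by
      field_simp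
    rw [e1, abs_mul, abs_of_pos (div_pos hη hℓ')]
    have hb : |(V p i : ℝ) - (c i + ℓ * K) - (θ p i / η) * ℓ| ≤ ℓ := by
      rw [abs_le]
      constructor
      · nlinarith
      · nlinarith
    calc |(V p i : ℝ) - (c i + ℓ * K) - (θ p i / η) * ℓ| * (η / ℓ) ≤ ℓ * (η / ℓ) := by
          gcongr
      _ = η := by field_simp
  · funext i
    simp only [Pi.add_apply, Pi.smul_apply, smul_eq_mul]
    field_simp
    ring

end Pool.Agent.Helper53.Chain
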