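import Pool.Agent.Helper53.Chain.Base

/-! # The box lemma -/

namespace Pool.Agent.Helper53.Chain

open Set

/-- The points of `S` in the cube with corner `c` and side `s`. -/
def boxCube {N : ℕ} (S : Finset (Fin 12 → Fin N)) (c : Fin 12 → ℕ) (s : ℕ) :
    Finset (Fin 12 → Fin N) :=
  S.filter fun V => ∀ i, c i ≤ (V i : ℕ) ∧ (V i : ℕ) < c i + s

theorem box_cover {N : ℕ} (S : Finset (Fin 12 → Fin N)) (c : Fin 12 → ℕ) (L s : ℕ) :
    boxCube S c (L * s) ⊆ (Finset.univ : Finset (Fin 12 → Fin L)).biUnion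
      fun κ => boxCube S (fun i => c i + (κ i : ℕ) * s) s := by
  intro V hV
  unfold boxCube at hV
  rw [Finset.mem_filter] at hV
  obtain ⟨hVS, hV⟩ := hV
  have hs : 0 < s := by
    rcases Nat.eq_zero_or_pos s with h | h
    · subst h; have := hV 0; omega
    · exact h
  have hlt : ∀ i, ((V i : ℕ) - c i) / s < L := by
    intro i
    rw [Nat.div_lt_iff_lt_mul hs]
    have := hV i
    omega
  rw [Finset.mem_biUnion]
  refine ⟨fun i => ⟨((V i : ℕ) - c i) / s, hlt i⟩, Finset.mem_univ _, ?_⟩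
  unfold boxCube
  rw [Finset.mem_filter]
  refine ⟨hVS, fun i => ?_⟩
  show c i + ((V i : ℕ) - c i) / s * s ≤ (V i : ℕ) ∧
    (V i : ℕ) < c i + ((V i : ℕ) - c i) / s * s + s
  have h1 := Nat.div_mul_le_self ((V i : ℕ) - c i) s
  have h2 := Nat.lt_div_mul_add (a := (V i : ℕ) - c i) hs
  have h3 := hV i
  constructor <;> omega

theorem box_count {N L : ℕ} (hL : 0 < L) (S : Finset (Fin 12 → Fin N))
    (hno : ¬ ∃ (c : Fin 12 → ℕ) (ℓ : ℕ), 0 < ℓ ∧ (∀ i, c i + L * ℓ ≤ N) ∧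
        ∀ κ : Fin 12 → Fin L, ∃ V ∈ S, ∀ i, c i + (κ i : ℕ) * ℓ ≤ (V i : ℕ) ∧
          (V i : ℕ) < c i + ((κ i : ℕ) + 1) * ℓ) (t : ℕ) :
    ∀ c : Fin 12 → ℕ, (∀ i, c i + L ^ t ≤ N) →
      (boxCube S c (L ^ t)).card ≤ (L ^ 12 - 1) ^ t := by
  induction t with
  | zero =>
    intro c _
    rw [pow_zero, pow_zero, Finset.card_le_one]
    intro V hV W hW
    unfold boxCube at hV hW
    rw [Finset.mem_filter] at hV hW
    funext i
    have h1 := hV.2 i
    have h2 := hW.2 i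
    apply Fin.ext
    omega
  | succ t ih =>
    intro c hc
    have hpos : 0 < L ^ t := pow_pos hL t
    have hc' : ∀ i, c i + L * L ^ t ≤ N := by
      intro i
      have := hc i
      rw [pow_succ] at this
      rw [mul_comm]
      exact this
    -- one subcube is empty
    obtain ⟨κ₀, hκ₀⟩ : ∃ κ₀ : Fin 12 → Fin L,
        boxCube S (fun i => c i + (κ₀ i : ℕ) * L ^ t) (L ^ t) = ∅ := by
      by_contra hcon
      apply hno
      refine ⟨c, L ^ t, hpos, hc', fun κ => ?_⟩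
      have h1 : boxCube S (fun i => c i + (κ i : ℕ) * L ^ t) (L ^ t) ≠ ∅ := fun h => hcon ⟨κ, h⟩
      obtain ⟨V, hV⟩ := Finset.nonempty_iff_ne_empty.mpr h1
      unfold boxCube at hV
      rw [Finset.mem_filter] at hV
      refine ⟨V, hV.1, fun i => ?_⟩
      have h2 := hV.2 i
      simp only at h2
      rw [add_mul, one_mul]
      constructor
      · exact h2.1
      · rw [← add_assoc]; exact h2.2
    have hsub : ∀ κ : Fin 12 → Fin L, ∀ i, (c i + (κ i : ℕ) * L ^ t) + L ^ t ≤ N := by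
      intro κ i
      have h1 := (κ i).isLt
      have h2 : ((κ i : ℕ) + 1) * L ^ t ≤ L * L ^ t := Nat.mul_le_mul_right _ h1
      have h3 := hc' i
      rw [add_mul, one_mul] at h2
      omega
    rw [pow_succ, mul_comm (L ^ t) L]
    calc (boxCube S c (L * L ^ t)).card
        ≤ ((Finset.univ : Finset (Fin 12 → Fin L)).biUnion
            fun κ => boxCube S (fun i => c i + (κ i : ℕ) * L ^ t) (L ^ t)).card :=
          Finset.card_le_card (box_cover S c L (L ^ t))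
      _ ≤ ∑ κ : Fin 12 → Fin L, (boxCube S (fun i => c i + (κ i : ℕ) * L ^ t) (L ^ t)).card :=
          Finset.card_biUnion_le
      _ = (boxCube S (fun i => c i + (κ₀ i : ℕ) * L ^ t) (L ^ t)).card +
          ∑ κ ∈ (Finset.univ : Finset (Fin 12 → Fin L)).erase κ₀,
            (boxCube S (fun i => c i + (κ i : ℕ) * L ^ t) (L ^ t)).card :=
          (Finset.add_sum_erase _ _ (Finset.mem_univ κ₀)).symm
      _ = ∑ κ ∈ (Finset.univ : Finset (Fin 12 → Fin L)).erase κ₀,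
            (boxCube S (fun i => c i + (κ i : ℕ) * L ^ t) (L ^ t)).card := by
          rw [hκ₀, Finset.card_empty, zero_add]
      _ ≤ ∑ κ ∈ (Finset.univ : Finset (Fin 12 → Fin L)).erase κ₀, (L ^ 12 - 1) ^ t :=
          Finset.sum_le_sum fun κ _ => ih _ (hsub κ)
      _ = (L ^ 12 - 1) * (L ^ 12 - 1) ^ t := by
          rw [Finset.sum_const, smul_eq_mul, Finset.card_erase_of_mem (Finset.mem_univ _),
            Finset.card_univ, Fintype.card_fun, Fintype.card_fin, Fintype.card_fin]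
      _ = (L ^ 12 - 1) ^ (t + 1) := by rw [pow_succ (L ^ 12 - 1) t, mul_comm]

theorem box (θ : ℝ) (hθ : 0 < θ) (L : ℕ) (hL : 0 < L) : ∃ N : ℕ, 0 < N ∧
    ∀ S : Finset (Fin 12 → Fin N), θ * (N : ℝ) ^ 12 ≤ (S.card : ℝ) →
      ∃ (c : Fin 12 → ℕ) (ℓ : ℕ), 0 < ℓ ∧ (∀ i, c i + L * ℓ ≤ N) ∧
        ∀ κ : Fin 12 → Fin L, ∃ V ∈ S, ∀ i, c i + (κ i : ℕ) * ℓ ≤ (V i : ℕ) ∧
          (V i : ℕ) < c i + ((κ i : ℕ) + 1) * ℓ := by
  have hLR : (1 : ℝ) ≤ (L : ℝ) ^ 12 := one_le_pow₀ (by exact_mod_cast hL)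
  have hLpos : (0 : ℝ) < (L : ℝ) ^ 12 := by linarith
  have hr : ((L : ℝ) ^ 12 - 1) / (L : ℝ) ^ 12 < 1 := by
    rw [div_lt_one hLpos]; linarith
  obtain ⟨J, hJ⟩ := exists_pow_lt_of_lt_one hθ hr
  refine ⟨L ^ J, pow_pos hL J, fun S hS => ?_⟩
  by_contra hno
  have h1 := box_count hL S hno J (fun _ => 0) (fun i => by simp)
  have h2 : boxCube S (fun _ => 0) (L ^ J) = S := by
    unfold boxCube
    rw [Finset.filter_true_of_mem]
    intro V _ i
    exact ⟨Nat.zero_le _, by rw [zero_add]; exact (V i).isLt⟩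
  rw [h2] at h1
  have h3 : (S.card : ℝ) ≤ ((L : ℝ) ^ 12 - 1) ^ J := by
    have h4 : 1 ≤ L ^ 12 := Nat.one_le_pow _ _ hL
    have h5 : (S.card : ℝ) ≤ (((L ^ 12 - 1) ^ J : ℕ) : ℝ) := by exact_mod_cast h1
    rw [Nat.cast_pow, Nat.cast_sub h4] at h5
    push_cast at h5
    exact h5
  have h6 : ((L : ℝ) ^ 12 - 1) ^ J < θ * ((L : ℝ) ^ 12) ^ J := by
    rw [div_pow, div_lt_iff₀ (pow_pos hLpos J)] at hJ
    exact hJ
  have h7 : ((L ^ J : ℕ) : ℝ) ^ 12 = ((L : ℝ) ^ 12) ^ J := by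
    push_cast
    rw [← pow_mul, ← pow_mul, mul_comm]
  rw [h7] at hS
  linarith

end Pool.Agent.Helper53.Chain
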