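import Pool.Agent.Helper53.Chain.KST
import Pool.Agent.Helper53.Chain.BOX

/-! # CH-COMB: averaging, Kővári–Sós–Turán, pigeonhole, box lemma -/

namespace Pool.Agent.Helper53.Chain

open Set

/-- The number of windows killed by a set of cuts is at most twice the number of cuts. -/
lemma comb_windows (T : ℕ) (hT : 6 ≤ T) (c : Finset ℕ) :
    (T - 5 : ℝ) - 2 * ((c ∩ Finset.range (T - 2)).card : ℝ) ≤
      (((Finset.range (T - 5)).filter fun j => j + 1 ∉ c ∧ j + 2 ∉ c).card : ℝ) := by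
  classical
  have h1 : ((Finset.range (T - 5)).filter fun j => j + 1 ∈ c).card
      ≤ (c ∩ Finset.range (T - 2)).card := by
    apply Finset.card_le_card_of_injOn (fun j => j + 1)
    · intro j hj
      simp only [Finset.coe_filter, Finset.mem_range, Set.mem_setOf_eq] at hj
      simp only [Finset.coe_inter, Set.mem_inter_iff, Finset.mem_coe, Finset.mem_range]
      exact ⟨hj.2, by omega⟩
    · intro a _ b _ h; simpa using h
  have h2 : ((Finset.range (T - 5)).filter fun j => j + 2 ∈ c).card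
      ≤ (c ∩ Finset.range (T - 2)).card := by
    apply Finset.card_le_card_of_injOn (fun j => j + 2)
    · intro j hj
      simp only [Finset.coe_filter, Finset.mem_range, Set.mem_setOf_eq] at hj
      simp only [Finset.coe_inter, Set.mem_inter_iff, Finset.mem_coe, Finset.mem_range]
      exact ⟨hj.2, by omega⟩
    · intro a _ b _ h; simpa using h
  have h3 : (Finset.range (T - 5)) ⊆
      ((Finset.range (T - 5)).filter fun j => j + 1 ∉ c ∧ j + 2 ∉ c) ∪
        (((Finset.range (T - 5)).filter fun j => j + 1 ∈ c) ∪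
          ((Finset.range (T - 5)).filter fun j => j + 2 ∈ c)) := by
    intro j hj
    simp only [Finset.mem_union, Finset.mem_filter]
    tauto
  have h4 := Finset.card_le_card h3
  rw [Finset.card_range] at h4
  have h5 := h4.trans (Finset.card_union_le _ _)
  have h6 := Finset.card_union_le ((Finset.range (T - 5)).filter fun j => j + 1 ∈ c)
    ((Finset.range (T - 5)).filter fun j => j + 2 ∈ c)
  have h7 : T - 5 ≤ ((Finset.range (T - 5)).filter fun j => j + 1 ∉ c ∧ j + 2 ∉ c).card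
      + 2 * (c ∩ Finset.range (T - 2)).card := by omega
  have h8 : ((T - 5 : ℕ) : ℝ) ≤
      (((Finset.range (T - 5)).filter fun j => j + 1 ∉ c ∧ j + 2 ∉ c).card : ℝ)
      + 2 * ((c ∩ Finset.range (T - 2)).card : ℝ) := by exact_mod_cast h7
  rw [Nat.cast_sub (by omega)] at h8
  push_cast at h8
  linarith

/-- Values at the four positions. -/
def combVals {T m : ℕ} (j : ℕ) (hj : j + 5 < T) (α : Fin T → Fin m) :
    Fin m × Fin m × Fin m × Fin m :=
  (α ⟨j + 1, by omega⟩, α ⟨j + 2, by omega⟩, α ⟨j + 3, by omega⟩, α ⟨j + 4, by omega⟩)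

lemma comb_upd_vals {T m : ℕ} (j : ℕ) (hj : j + 5 < T) (α : Fin T → Fin m) (x a b y : Fin m) :
    combVals j hj (upd α j x a b y) = (x, a, b, y) := by
  simp [combVals, upd]

lemma comb_upd_upd {T m : ℕ} (j : ℕ) (hj : j + 5 < T) (α : Fin T → Fin m) (x a b y : Fin m) :
    upd (upd α j x a b y) j (combVals j hj α).1 (combVals j hj α).2.1 (combVals j hj α).2.2.1
      (combVals j hj α).2.2.2 = α := by
  funext t
  simp only [upd, combVals]
  split_ifs with h1 h2 h3 h4
  · congr 1; exact Fin.ext h1.symm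
  · congr 1; exact Fin.ext h2.symm
  · congr 1; exact Fin.ext h3.symm
  · congr 1; exact Fin.ext h4.symm
  · rfl

/-- Averaging over the coordinates outside the window. -/
lemma comb_fix {T m : ℕ} (hm : 0 < m) (j : ℕ) (hj : j + 5 < T) (G : Finset (Fin T → Fin m))
    (δ : ℝ) (hG : δ * (m : ℝ) ^ T ≤ (G.card : ℝ)) :
    ∃ α : Fin T → Fin m, δ * (m : ℝ) ^ 4 ≤
      ((Finset.univ.filter fun q : Fin m × Fin m × Fin m × Fin m =>
        upd α j q.1 q.2.1 q.2.2.1 q.2.2.2 ∈ G).card : ℝ) := by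
  classical
  by_contra hcon
  push_neg at hcon
  haveI : Nonempty (Fin m) := ⟨⟨0, hm⟩⟩
  have hlt : ∑ α : Fin T → Fin m, ((Finset.univ.filter fun q : Fin m × Fin m × Fin m × Fin m =>
        upd α j q.1 q.2.1 q.2.2.1 q.2.2.2 ∈ G).card : ℝ)
      < ∑ α : Fin T → Fin m, δ * (m : ℝ) ^ 4 :=
    Finset.sum_lt_sum_of_nonempty Finset.univ_nonempty fun α _ => hcon α
  rw [Finset.sum_const, Finset.card_univ, Fintype.card_fun, Fintype.card_fin, Fintype.card_fin,
    nsmul_eq_mul, Nat.cast_pow] at hlt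
  -- double counting
  have hdc : G.card * m ^ 4 ≤ ∑ α : Fin T → Fin m,
      (Finset.univ.filter fun q : Fin m × Fin m × Fin m × Fin m =>
        upd α j q.1 q.2.1 q.2.2.1 q.2.2.2 ∈ G).card := by
    have h1 : (G ×ˢ (Finset.univ : Finset (Fin m × Fin m × Fin m × Fin m))).card
        ≤ ((Finset.univ : Finset (Fin T → Fin m)).sigma fun α =>
          Finset.univ.filter fun q : Fin m × Fin m × Fin m × Fin m =>
            upd α j q.1 q.2.1 q.2.2.1 q.2.2.2 ∈ G).card := by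
      apply Finset.card_le_card_of_injOn
        (fun z => ⟨upd z.1 j z.2.1 z.2.2.1 z.2.2.2.1 z.2.2.2.2, combVals j hj z.1⟩)
      · intro z hz
        simp only [Finset.coe_product, Set.mem_prod, Finset.mem_coe] at hz
        simp only [Finset.coe_sigma, Set.mem_sigma_iff, Finset.mem_coe, Finset.mem_univ,
          Finset.mem_filter, true_and]
        rw [comb_upd_upd]
        exact hz.1
      · rintro ⟨α, x, a, b, y⟩ - ⟨α', x', a', b', y'⟩ - h
        simp only [Sigma.mk.injEq, heq_eq_eq] at h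
        have e1 : α = α' := by
          rw [← comb_upd_upd j hj α x a b y, h.1, h.2, comb_upd_upd]
        have e2 : (x, a, b, y) = (x', a', b', y') := by
          rw [← comb_upd_vals j hj α x a b y, h.1, comb_upd_vals]
        rw [e1, e2]
    rw [Finset.card_product, Finset.card_sigma, Finset.card_univ] at h1
    simp only [Fintype.card_prod, Fintype.card_fin] at h1
    calc G.card * m ^ 4 = G.card * (m * (m * (m * m))) := by ring
      _ ≤ _ := h1
  have hdc' : (G.card : ℝ) * (m : ℝ) ^ 4 ≤ ∑ α : Fin T → Fin m,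
      ((Finset.univ.filter fun q : Fin m × Fin m × Fin m × Fin m =>
        upd α j q.1 q.2.1 q.2.2.1 q.2.2.2 ∈ G).card : ℝ) := by exact_mod_cast hdc
  have hm4 : (0:ℝ) ≤ (m : ℝ) ^ 4 := by positivity
  nlinarith [mul_le_mul_of_nonneg_right hG hm4]

/-- Markov type averaging: many `V` carry many `α`. -/
lemma comb_heavy {ι κ : Type*} [Fintype ι] [Fintype κ] [DecidableEq ι] [DecidableEq κ]
    (P : ι → κ → Prop) [∀ i k, Decidable (P i k)] (δ : ℝ)
    (h : 2 * δ * ((Fintype.card ι : ℝ) * (Fintype.card κ : ℝ)) ≤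
      ∑ i, ((Finset.univ.filter fun k => P i k).card : ℝ)) (hκ : 0 < Fintype.card κ)
    (hδ : 0 < δ) :
    δ * (Fintype.card ι : ℝ) ≤ ((Finset.univ.filter fun i =>
      δ * (Fintype.card κ : ℝ) ≤ ((Finset.univ.filter fun k => P i k).card : ℝ)).card : ℝ) := by
  classical
  set H := Finset.univ.filter fun i =>
      δ * (Fintype.card κ : ℝ) ≤ ((Finset.univ.filter fun k => P i k).card : ℝ) with hH
  have hκ' : (0:ℝ) < (Fintype.card κ : ℝ) := by exact_mod_cast hκ
  have hsum : ∑ i, ((Finset.univ.filter fun k => P i k).card : ℝ)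
      ≤ (H.card : ℝ) * (Fintype.card κ : ℝ) + (Fintype.card ι : ℝ) * (δ * (Fintype.card κ : ℝ)) := by
    rw [← Finset.sum_filter_add_sum_filter_not Finset.univ (fun i =>
      δ * (Fintype.card κ : ℝ) ≤ ((Finset.univ.filter fun k => P i k).card : ℝ))]
    apply add_le_add
    · rw [← nsmul_eq_mul]
      apply Finset.sum_le_card_nsmul
      intro i _
      exact_mod_cast Finset.card_le_univ _
    · calc _ ≤ ((Finset.univ.filter fun i => ¬ (δ * (Fintype.card κ : ℝ) ≤
            ((Finset.univ.filter fun k => P i k).card : ℝ))).card) • (δ * (Fintype.card κ : ℝ)) := by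
            apply Finset.sum_le_card_nsmul
            intro i hi
            rw [Finset.mem_filter] at hi
            exact (not_le.1 hi.2).le
        _ ≤ _ := by
            rw [nsmul_eq_mul]
            apply mul_le_mul_of_nonneg_right _ (by positivity)
            exact_mod_cast Finset.card_le_univ _
  have h2 : δ * (Fintype.card ι : ℝ) * (Fintype.card κ : ℝ)
      ≤ (H.card : ℝ) * (Fintype.card κ : ℝ) := by nlinarith
  exact le_of_mul_le_mul_right h2 hκ'

theorem comb (ε : ℝ) (hε : 0 < ε) : ∃ T m : ℕ, 6 ≤ T ∧ 0 < m ∧ ∀ L : ℕ, 0 < L →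
    ∃ N : ℕ, 0 < N ∧ ∀ cut : (Fin 12 → Fin N) → (Fin T → Fin m) → Finset ℕ,
      (∑ V, ∑ α, ((cut V α ∩ Finset.range (T - 2)).card : ℝ)) ≤
        (1 / 2 - ε) * ((N : ℝ) ^ 12 * (m : ℝ) ^ T * ((T : ℝ) - 2)) →
      ∃ j, j + 5 < T ∧ ∃ (α : Fin T → Fin m) (X A B : Fin 3 → Fin m) (Y : Fin 7 → Fin m),
        StrictMono X ∧ StrictMono A ∧ StrictMono B ∧ StrictMono Y ∧
        ∃ (c : Fin 12 → ℕ) (ℓ : ℕ), 0 < ℓ ∧ (∀ i, c i + L * ℓ ≤ N) ∧
          ∀ κ : Fin 12 → Fin L, ∃ V : Fin 12 → Fin N,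
            (∀ i, c i + (κ i : ℕ) * ℓ ≤ (V i : ℕ) ∧ (V i : ℕ) < c i + ((κ i : ℕ) + 1) * ℓ) ∧
            ∀ i k l o, j + 1 ∉ cut V (upd α j (X i) (A k) (B l) (Y o)) ∧
              j + 2 ∉ cut V (upd α j (X i) (A k) (B l) (Y o)) := by
  classical
  obtain ⟨m, hm, hkst⟩ := kst (ε / 2) (half_pos hε)
  haveI : Nonempty (Fin m) := ⟨⟨0, hm⟩⟩
  obtain ⟨T, hT6, hTε⟩ : ∃ T : ℕ, 6 ≤ T ∧ 3 ≤ ε * ((T : ℝ) - 2) := by
    refine ⟨⌈3 / ε⌉₊ + 6, by omega, ?_⟩
    have h1 : 3 / ε ≤ (⌈3 / ε⌉₊ : ℝ) := Nat.le_ceil _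
    rw [div_le_iff₀ hε] at h1
    push_cast
    nlinarith
  refine ⟨T, m, hT6, hm, fun L hL => ?_⟩
  set D := (Fin T → Fin m) × (Fin 3 → Fin m) × (Fin 3 → Fin m) × (Fin 3 → Fin m) × (Fin 7 → Fin m)
    with hD
  have hDpos : 0 < Fintype.card D := Fintype.card_pos
  have hDpos' : (0:ℝ) < (Fintype.card D : ℝ) := by exact_mod_cast hDpos
  obtain ⟨N, hN, hbox⟩ := box ((ε / 2) / Fintype.card D) (by positivity) L hL
  refine ⟨N, hN, fun cut hcut => ?_⟩
  haveI : Nonempty (Fin N) := ⟨⟨0, hN⟩⟩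
  set P : ℕ → (Fin 12 → Fin N) → (Fin T → Fin m) → Prop :=
    fun j V α => j + 1 ∉ cut V α ∧ j + 2 ∉ cut V α with hP
  have hT2 : (4:ℝ) ≤ (T : ℝ) - 2 := by
    have : (6:ℝ) ≤ (T:ℝ) := by exact_mod_cast hT6
    linarith
  have hNm : (0:ℝ) < (N : ℝ) ^ 12 * (m : ℝ) ^ T := by positivity
  have hcardV : (Fintype.card (Fin 12 → Fin N) : ℝ) = (N : ℝ) ^ 12 := by
    simp
  have hcardα : (Fintype.card (Fin T → Fin m) : ℝ) = (m : ℝ) ^ T := by
    simp
  -- step 1: choice of the window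
  obtain ⟨j, hj, hjsum⟩ : ∃ j ∈ Finset.range (T - 5),
      2 * (ε / 2) * ((N : ℝ) ^ 12 * (m : ℝ) ^ T) ≤
        ∑ V, ((Finset.univ.filter fun α => P j V α).card : ℝ) := by
    by_contra hcon
    push_neg at hcon
    have h1 : ∑ j ∈ Finset.range (T - 5), ∑ V, ((Finset.univ.filter fun α => P j V α).card : ℝ)
        < ∑ j ∈ Finset.range (T - 5), 2 * (ε / 2) * ((N : ℝ) ^ 12 * (m : ℝ) ^ T) :=
      Finset.sum_lt_sum_of_nonempty ⟨0, Finset.mem_range.2 (by omega)⟩ hcon
    rw [Finset.sum_const, Finset.card_range, nsmul_eq_mul, Nat.cast_sub (by omega)] at h1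
    have h2 : ∑ j ∈ Finset.range (T - 5), ∑ V, ((Finset.univ.filter fun α => P j V α).card : ℝ)
        = ∑ V, ∑ α, (((Finset.range (T - 5)).filter fun j => P j V α).card : ℝ) := by
      rw [Finset.sum_comm]
      refine Finset.sum_congr rfl fun V _ => ?_
      simp only [Finset.card_filter, Nat.cast_sum]
      rw [Finset.sum_comm]
    have h3 : ∑ V : Fin 12 → Fin N, ∑ α : Fin T → Fin m,
        ((T - 5 : ℝ) - 2 * ((cut V α ∩ Finset.range (T - 2)).card : ℝ))
        ≤ ∑ V, ∑ α, (((Finset.range (T - 5)).filter fun j => P j V α).card : ℝ) :=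
      Finset.sum_le_sum fun V _ => Finset.sum_le_sum fun α _ => comb_windows T hT6 (cut V α)
    have h4 : ∑ V : Fin 12 → Fin N, ∑ α : Fin T → Fin m,
        ((T - 5 : ℝ) - 2 * ((cut V α ∩ Finset.range (T - 2)).card : ℝ))
        = (T - 5) * ((N : ℝ) ^ 12 * (m : ℝ) ^ T)
          - 2 * ∑ V, ∑ α, ((cut V α ∩ Finset.range (T - 2)).card : ℝ) := by
      simp only [Finset.sum_sub_distrib, Finset.sum_const, Finset.card_univ, nsmul_eq_mul,
        ← Finset.mul_sum, hcardV, hcardα]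
      ring
    rw [h2] at h1
    rw [h4] at h3
    push_cast at h1
    nlinarith
  have hj5 : j + 5 < T := by
    have := Finset.mem_range.1 hj
    omega
  -- step 2: heavy V
  have hheavy := comb_heavy (fun V α => P j V α) (ε / 2) (by rw [hcardV, hcardα]; exact hjsum)
    Fintype.card_pos (half_pos hε)
  rw [hcardV] at hheavy
  simp only [hcardα] at hheavy
  set H := Finset.univ.filter fun V : Fin 12 → Fin N =>
    (ε / 2) * (m : ℝ) ^ T ≤ ((Finset.univ.filter fun α => P j V α).card : ℝ) with hH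
  -- step 3: the datum
  have hdat : ∀ V ∈ H, ∃ d : D, StrictMono d.2.1 ∧ StrictMono d.2.2.1 ∧ StrictMono d.2.2.2.1 ∧
      StrictMono d.2.2.2.2 ∧ ∀ i k l o,
        P j V (upd d.1 j (d.2.1 i) (d.2.2.1 k) (d.2.2.2.1 l) (d.2.2.2.2 o)) := by
    intro V hV
    rw [hH, Finset.mem_filter] at hV
    obtain ⟨α, hα⟩ := comb_fix hm j hj5 (Finset.univ.filter fun α => P j V α) (ε / 2) hV.2
    obtain ⟨X, A, B, Y, hX, hA, hB, hY, h⟩ := hkst _ hα
    refine ⟨(α, X, A, B, Y), hX, hA, hB, hY, fun i k l o => ?_⟩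
    have := h i k l o
    rw [Finset.mem_filter, Finset.mem_filter] at this
    exact this.2.2
  choose! d hd using hdat
  -- step 4: pigeonhole
  obtain ⟨d₀, hd₀⟩ : ∃ d₀ : D, (ε / 2) / Fintype.card D * (N : ℝ) ^ 12 ≤
      ((H.filter fun V => d V = d₀).card : ℝ) := by
    by_contra hcon
    push_neg at hcon
    have h1 : ∑ d₀ : D, ((H.filter fun V => d V = d₀).card : ℝ)
        < ∑ d₀ : D, (ε / 2) / Fintype.card D * (N : ℝ) ^ 12 :=
      Finset.sum_lt_sum_of_nonempty Finset.univ_nonempty fun d₀ _ => hcon d₀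
    rw [Finset.sum_const, Finset.card_univ, nsmul_eq_mul] at h1
    have h2 : (H.card : ℝ) = ∑ d₀ : D, ((H.filter fun V => d V = d₀).card : ℝ) := by
      rw [Finset.card_eq_sum_card_fiberwise (f := d) (t := Finset.univ) (by simp)]
      push_cast
      rfl
    rw [← h2] at h1
    have h3 : (Fintype.card D : ℝ) * ((ε / 2) / Fintype.card D * (N : ℝ) ^ 12)
        = (ε / 2) * (N : ℝ) ^ 12 := by
      field_simp
    rw [h3] at h1
    linarith
  obtain ⟨c, ℓ, hℓ, hc, hV⟩ := hbox _ hd₀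
  obtain ⟨α, X, A, B, Y⟩ := d₀
  have hVne : ∃ V ∈ H, d V = (α, X, A, B, Y) := by
    obtain ⟨V, hVS, -⟩ := hV fun _ => ⟨0, hL⟩
    rw [Finset.mem_filter] at hVS
    exact ⟨V, hVS.1, hVS.2⟩
  obtain ⟨V₀, hV₀H, hV₀d⟩ := hVne
  have hmono := hd V₀ hV₀H
  rw [hV₀d] at hmono
  refine ⟨j, hj5, α, X, A, B, Y, hmono.1, hmono.2.1, hmono.2.2.1, hmono.2.2.2.1, c, ℓ, hℓ, hc,
    fun κ => ?_⟩
  obtain ⟨V, hVS, hVc⟩ := hV κ
  rw [Finset.mem_filter] at hVS
  refine ⟨V, hVc, ?_⟩
  have := (hd V hVS.1).2.2.2.2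
  rw [hVS.2] at this
  exact this

end Pool.Agent.Helper53.Chain
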