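import Pool.Agent.Helper53.Chain.Base

/-! # Existence of the displacements -/

namespace Pool.Agent.Helper53.Chain

open Set Filter Topology

/-- Scalar affine interpolation. -/
noncomputable def disp_lw (t0 t1 t p q : ℝ) : ℝ :=
  ((t1 - t) / (t1 - t0)) * p + ((t - t0) / (t1 - t0)) * q

theorem disp_ev_add (s : ℝ) (p q : E3) : ev s (p + q) = ev s p + ev s q := by
  simp only [ev, PiLp.add_apply]
  ring

theorem disp_ev_smul (s c : ℝ) (p : E3) : ev s (c • p) = c * ev s p := by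
  simp only [ev, PiLp.smul_apply, smul_eq_mul]
  ring

theorem disp_ev_zero (s : ℝ) : ev s 0 = 0 := by
  simp [ev]

theorem disp_ev_lerp (s t0 t1 t : ℝ) (p q : E3) :
    ev s (lerp t0 t1 t p q) = disp_lw t0 t1 t (ev s p) (ev s q) := by
  rw [lerp, disp_ev_add, disp_ev_smul, disp_ev_smul, disp_lw]

theorem disp_lw_smul (t0 t1 t c p q : ℝ) :
    disp_lw t0 t1 t (c * p) (c * q) = c * disp_lw t0 t1 t p q := by
  unfold disp_lw
  ring

theorem disp_lw_zero (t0 t1 t : ℝ) : disp_lw t0 t1 t 0 0 = 0 := by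
  simp [disp_lw]

theorem disp_ev_U (s a b : ℝ) : ev s (U a b) = (s - a) * (s - b) := by
  simp [ev, U]
  ring

theorem disp_interp {r s t : ℝ} (hrs : r ≠ s) (hrt : r ≠ t) (hst : s ≠ t) (p1 p2 p3 : ℝ) :
    ∃ q : E3, ev r q = p1 ∧ ev s q = p2 ∧ ev t q = p3 := by
  have h1 : r - s ≠ 0 := sub_ne_zero.mpr hrs
  have h2 : r - t ≠ 0 := sub_ne_zero.mpr hrt
  have h3 : s - t ≠ 0 := sub_ne_zero.mpr hst
  refine ⟨(p1 / ((r - s) * (r - t))) • U s t + (p2 / ((r - s) * (s - t))) • (-U r t) +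
    (p3 / ((r - t) * (s - t))) • U r s, ?_, ?_, ?_⟩
  · rw [disp_ev_add, disp_ev_add, disp_ev_smul, disp_ev_smul, disp_ev_smul, ← neg_one_smul ℝ,
      disp_ev_smul, disp_ev_U, disp_ev_U, disp_ev_U]
    field_simp
    ring
  · rw [disp_ev_add, disp_ev_add, disp_ev_smul, disp_ev_smul, disp_ev_smul, ← neg_one_smul ℝ,
      disp_ev_smul, disp_ev_U, disp_ev_U, disp_ev_U]
    field_simp
    ring
  · rw [disp_ev_add, disp_ev_add, disp_ev_smul, disp_ev_smul, disp_ev_smul, ← neg_one_smul ℝ,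
      disp_ev_smul, disp_ev_U, disp_ev_U, disp_ev_U]
    field_simp
    ring

theorem disp_T_sub (a b c d : ℝ) : T a b c - T a b d = (c - d) * h2 a b c d := by
  unfold T h2
  ring

theorem disp_h2_pos {a b c d : ℝ} (ha : 0 < a) (hb : 0 < b) (hc : 0 < c) (hd : 0 < d) :
    0 < h2 a b c d := by
  unfold h2
  positivity

theorem disp_T_ne {a b c d : ℝ} (ha : 0 < a) (hb : 0 < b) (hc : 0 < c) (hd : 0 < d) (h : c ≠ d) :
    T a b c ≠ T a b d := by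
  rw [← sub_ne_zero, disp_T_sub]
  exact mul_ne_zero (sub_ne_zero.mpr h) (disp_h2_pos ha hb hc hd).ne'

theorem disp_two {t0 t1 : ℝ} (h : t0 ≠ t1) {s : Fin 3 → ℝ} (hs : Function.Injective s) (j : Fin 3)
    (F : Fin 3 → ℝ) : ∃ A B : ℝ, ∀ j', j' ≠ j → disp_lw t0 t1 (s j') A B = F j' := by
  have hj : ∀ j j' : Fin 3, j' ≠ j → j' = j + 1 ∨ j' = j + 2 := by decide
  have hj2 : ∀ j : Fin 3, j + 1 ≠ j + 2 := by decide
  have h1 : s (j + 2) - s (j + 1) ≠ 0 := sub_ne_zero.mpr (hs.ne (hj2 j).symm)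
  have h2 : t1 - t0 ≠ 0 := sub_ne_zero.mpr h.symm
  refine ⟨F (j + 1) + (F (j + 2) - F (j + 1)) / (s (j + 2) - s (j + 1)) * (t0 - s (j + 1)),
    F (j + 1) + (F (j + 2) - F (j + 1)) / (s (j + 2) - s (j + 1)) * (t1 - s (j + 1)), ?_⟩
  intro j' hj'
  rcases hj j j' hj' with h3 | h3
  · rw [h3]
    unfold disp_lw
    field_simp
    ring
  · rw [h3]
    unfold disp_lw
    field_simp
    ring

theorem disp_left {t0 t1 t : ℝ} (h : t0 ≠ t1) (ht : t1 ≠ t) (B : ℝ) :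
    ∃ A : ℝ, disp_lw t0 t1 t A B = 0 := by
  have h1 : t1 - t ≠ 0 := sub_ne_zero.mpr ht
  have h2 : t1 - t0 ≠ 0 := sub_ne_zero.mpr h.symm
  refine ⟨-((t - t0) / (t1 - t)) * B, ?_⟩
  unfold disp_lw
  field_simp
  ring

theorem disp_right {t0 t1 t : ℝ} (h : t0 ≠ t1) (ht : t ≠ t0) (A : ℝ) :
    ∃ B : ℝ, disp_lw t0 t1 t A B = 0 := by
  have h1 : t - t0 ≠ 0 := sub_ne_zero.mpr ht
  have h2 : t1 - t0 ≠ 0 := sub_ne_zero.mpr h.symm
  refine ⟨-((t1 - t) / (t - t0)) * A, ?_⟩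
  unfold disp_lw
  field_simp
  ring

theorem disp_ev_P (s a b c : ℝ) :
    ev s (P a b c) - s ^ 5 = -((s - a) * (s - b) * (s - c) * h2 s a b c) := by
  simp only [ev, P, Nn, T, U, h2, PiLp.add_apply, PiLp.smul_apply, smul_eq_mul]
  simp
  ring

section nodes

variable (N : Nodes)

theorem disp_x_pos (i : Fin 3) : 0 < N.x i :=
  N.w_pos.trans (N.wx.trans_le (N.hx.monotone (Fin.zero_le i)))

theorem disp_w_lt_x (i : Fin 3) : N.w < N.x i := N.wx.trans_le (N.hx.monotone (Fin.zero_le i))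

theorem disp_x_lt_a (i j : Fin 3) : N.x i < N.a j :=
  ((N.hx.monotone (Fin.le_last i)).trans_lt N.xa).trans_le (N.ha.monotone (Fin.zero_le j))

theorem disp_a_lt_b (i j : Fin 3) : N.a i < N.b j :=
  ((N.ha.monotone (Fin.le_last i)).trans_lt N.ab).trans_le (N.hb.monotone (Fin.zero_le j))

theorem disp_b_lt_y (i : Fin 3) (j : Fin 7) : N.b i < N.y j :=
  ((N.hb.monotone (Fin.le_last i)).trans_lt N.bY).trans_le (N.hy.monotone (Fin.zero_le j))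

theorem disp_y_lt_z (i : Fin 7) : N.y i < N.z :=
  (N.hy.monotone (Fin.le_last i)).trans_lt N.yz

theorem disp_a_pos (i : Fin 3) : 0 < N.a i := (disp_x_pos N 0).trans (disp_x_lt_a N 0 i)
theorem disp_b_pos (i : Fin 3) : 0 < N.b i := (disp_a_pos N 0).trans (disp_a_lt_b N 0 i)
theorem disp_y_pos (i : Fin 7) : 0 < N.y i := (disp_b_pos N 0).trans (disp_b_lt_y N 0 i)
theorem disp_z_pos : 0 < N.z := (disp_y_pos N 0).trans (disp_y_lt_z N 0)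

/-- The affine functions separate the four points. -/
theorem disp_affine (c : Copy) (p : Fin 4 → ℝ) : ∃ a : Fin 4 → ℝ, ∀ i,
    a 0 + a 1 * N.X₀ c i 0 + a 2 * N.X₀ c i 1 + a 3 * N.X₀ c i 2 = p i := by
  obtain ⟨⟨i, j, k, l⟩, κ⟩ := c
  have w := N.w_pos
  have x := disp_x_pos N i
  have a := disp_a_pos N j
  have b := disp_b_pos N k
  have y := disp_y_pos N l
  have z := disp_z_pos N
  have wx := disp_w_lt_x N i
  have xa := disp_x_lt_a N i j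
  have ab := disp_a_lt_b N j k
  have bY := disp_b_lt_y N k l
  have yz := disp_y_lt_z N l
  -- values of the affine functions
  have hX : ∀ r : Fin 4, ∀ t : ℝ, ev t (N.X₀ ((i, j, k, l), κ) r) =
      t ^ 2 * N.X₀ ((i, j, k, l), κ) r 0 + t * N.X₀ ((i, j, k, l), κ) r 1 +
        N.X₀ ((i, j, k, l), κ) r 2 := by
    intro r t
    unfold ev
    ring
  have e0 : ∀ t, ev t (N.X₀ ((i, j, k, l), κ) 0) - t ^ 5 =
      -((t - N.w) * (t - N.x i) * (t - N.a j) * h2 t N.w (N.x i) (N.a j)) :=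
    fun t => disp_ev_P t _ _ _
  have e1 : ∀ t, ev t (N.X₀ ((i, j, k, l), κ) 1) - t ^ 5 =
      -((t - N.x i) * (t - N.a j) * (t - N.b k) * h2 t (N.x i) (N.a j) (N.b k)) :=
    fun t => disp_ev_P t _ _ _
  have e2 : ∀ t, ev t (N.X₀ ((i, j, k, l), κ) 2) - t ^ 5 =
      -((t - N.a j) * (t - N.b k) * (t - N.y l) * h2 t (N.a j) (N.b k) (N.y l)) :=
    fun t => disp_ev_P t _ _ _
  have e3 : ∀ t, ev t (N.X₀ ((i, j, k, l), κ) 3) - t ^ 5 =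
      -((t - N.b k) * (t - N.y l) * (t - N.z) * h2 t (N.b k) (N.y l) N.z) :=
    fun t => disp_ev_P t _ _ _
  have hb0 : ev (N.b k) (N.X₀ ((i, j, k, l), κ) 0) - N.b k ^ 5 ≠ 0 := by
    rw [e0]
    refine neg_ne_zero.mpr (mul_ne_zero (mul_ne_zero (mul_ne_zero ?_ ?_) ?_)
      (disp_h2_pos b w x a).ne') <;> apply sub_ne_zero.mpr <;> linarith
  have hy1 : ev (N.y l) (N.X₀ ((i, j, k, l), κ) 1) - N.y l ^ 5 ≠ 0 := by
    rw [e1]
    refine neg_ne_zero.mpr (mul_ne_zero (mul_ne_zero (mul_ne_zero ?_ ?_) ?_)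
      (disp_h2_pos y x a b).ne') <;> apply sub_ne_zero.mpr <;> linarith
  have hx2 : ev (N.x i) (N.X₀ ((i, j, k, l), κ) 2) - N.x i ^ 5 ≠ 0 := by
    rw [e2]
    refine neg_ne_zero.mpr (mul_ne_zero (mul_ne_zero (mul_ne_zero ?_ ?_) ?_)
      (disp_h2_pos x a b y).ne') <;> apply sub_ne_zero.mpr <;> linarith
  have ha3 : ev (N.a j) (N.X₀ ((i, j, k, l), κ) 3) - N.a j ^ 5 ≠ 0 := by
    rw [e3]
    refine neg_ne_zero.mpr (mul_ne_zero (mul_ne_zero (mul_ne_zero ?_ ?_) ?_)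
      (disp_h2_pos a b y z).ne') <;> apply sub_ne_zero.mpr <;> linarith
  have ha0 : ev (N.a j) (N.X₀ ((i, j, k, l), κ) 0) - N.a j ^ 5 = 0 := by rw [e0]; ring
  have hx0 : ev (N.x i) (N.X₀ ((i, j, k, l), κ) 0) - N.x i ^ 5 = 0 := by rw [e0]; ring
  have ha1 : ev (N.a j) (N.X₀ ((i, j, k, l), κ) 1) - N.a j ^ 5 = 0 := by rw [e1]; ring
  have hb1 : ev (N.b k) (N.X₀ ((i, j, k, l), κ) 1) - N.b k ^ 5 = 0 := by rw [e1]; ring
  have hx1 : ev (N.x i) (N.X₀ ((i, j, k, l), κ) 1) - N.x i ^ 5 = 0 := by rw [e1]; ring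
  have ha2 : ev (N.a j) (N.X₀ ((i, j, k, l), κ) 2) - N.a j ^ 5 = 0 := by rw [e2]; ring
  have hb2 : ev (N.b k) (N.X₀ ((i, j, k, l), κ) 2) - N.b k ^ 5 = 0 := by rw [e2]; ring
  have hy2 : ev (N.y l) (N.X₀ ((i, j, k, l), κ) 2) - N.y l ^ 5 = 0 := by rw [e2]; ring
  have hb3 : ev (N.b k) (N.X₀ ((i, j, k, l), κ) 3) - N.b k ^ 5 = 0 := by rw [e3]; ring
  have hy3 : ev (N.y l) (N.X₀ ((i, j, k, l), κ) 3) - N.y l ^ 5 = 0 := by rw [e3]; ring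
  obtain ⟨cy, hcy⟩ : ∃ cy, cy * (ev (N.y l) (N.X₀ ((i, j, k, l), κ) 1) - N.y l ^ 5) = p 1 :=
    ⟨_, div_mul_cancel₀ _ hy1⟩
  obtain ⟨cx, hcx⟩ : ∃ cx, cx * (ev (N.x i) (N.X₀ ((i, j, k, l), κ) 2) - N.x i ^ 5) = p 2 :=
    ⟨_, div_mul_cancel₀ _ hx2⟩
  obtain ⟨cb, hcb⟩ : ∃ cb, cb * (ev (N.b k) (N.X₀ ((i, j, k, l), κ) 0) - N.b k ^ 5) =
      p 0 - cy * (ev (N.y l) (N.X₀ ((i, j, k, l), κ) 0) - N.y l ^ 5) :=
    ⟨_, div_mul_cancel₀ _ hb0⟩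
  obtain ⟨ca, hca⟩ : ∃ ca, ca * (ev (N.a j) (N.X₀ ((i, j, k, l), κ) 3) - N.a j ^ 5) =
      p 3 - cx * (ev (N.x i) (N.X₀ ((i, j, k, l), κ) 3) - N.x i ^ 5) :=
    ⟨_, div_mul_cancel₀ _ ha3⟩
  have key : ∀ r : Fin 4,
      ca * (ev (N.a j) (N.X₀ ((i, j, k, l), κ) r) - N.a j ^ 5) +
      cb * (ev (N.b k) (N.X₀ ((i, j, k, l), κ) r) - N.b k ^ 5) +
      cx * (ev (N.x i) (N.X₀ ((i, j, k, l), κ) r) - N.x i ^ 5) +
      cy * (ev (N.y l) (N.X₀ ((i, j, k, l), κ) r) - N.y l ^ 5) = p r := by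
    intro r
    fin_cases r
    · show ca * (ev (N.a j) (N.X₀ ((i, j, k, l), κ) 0) - N.a j ^ 5) +
        cb * (ev (N.b k) (N.X₀ ((i, j, k, l), κ) 0) - N.b k ^ 5) +
        cx * (ev (N.x i) (N.X₀ ((i, j, k, l), κ) 0) - N.x i ^ 5) +
        cy * (ev (N.y l) (N.X₀ ((i, j, k, l), κ) 0) - N.y l ^ 5) = p 0
      rw [ha0, hx0, hcb]
      ring
    · show ca * (ev (N.a j) (N.X₀ ((i, j, k, l), κ) 1) - N.a j ^ 5) +
        cb * (ev (N.b k) (N.X₀ ((i, j, k, l), κ) 1) - N.b k ^ 5) +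
        cx * (ev (N.x i) (N.X₀ ((i, j, k, l), κ) 1) - N.x i ^ 5) +
        cy * (ev (N.y l) (N.X₀ ((i, j, k, l), κ) 1) - N.y l ^ 5) = p 1
      rw [ha1, hb1, hx1, hcy]
      ring
    · show ca * (ev (N.a j) (N.X₀ ((i, j, k, l), κ) 2) - N.a j ^ 5) +
        cb * (ev (N.b k) (N.X₀ ((i, j, k, l), κ) 2) - N.b k ^ 5) +
        cx * (ev (N.x i) (N.X₀ ((i, j, k, l), κ) 2) - N.x i ^ 5) +
        cy * (ev (N.y l) (N.X₀ ((i, j, k, l), κ) 2) - N.y l ^ 5) = p 2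
      rw [ha2, hb2, hy2, hcx]
      ring
    · show ca * (ev (N.a j) (N.X₀ ((i, j, k, l), κ) 3) - N.a j ^ 5) +
        cb * (ev (N.b k) (N.X₀ ((i, j, k, l), κ) 3) - N.b k ^ 5) +
        cx * (ev (N.x i) (N.X₀ ((i, j, k, l), κ) 3) - N.x i ^ 5) +
        cy * (ev (N.y l) (N.X₀ ((i, j, k, l), κ) 3) - N.y l ^ 5) = p 3
      rw [hb3, hy3, hca]
      ring
  refine ⟨![-(ca * N.a j ^ 5 + cb * N.b k ^ 5 + cx * N.x i ^ 5 + cy * N.y l ^ 5),
    ca * N.a j ^ 2 + cb * N.b k ^ 2 + cx * N.x i ^ 2 + cy * N.y l ^ 2,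
    ca * N.a j + cb * N.b k + cx * N.x i + cy * N.y l, ca + cb + cx + cy], ?_⟩
  intro r
  rw [← key r, hX, hX, hX, hX]
  simp only [Matrix.cons_val_zero, Matrix.cons_val_one, Matrix.cons_val]
  ring

/-- Every displacement of the four vertices of a copy comes from an affine map. -/
theorem disp_onto (c : Copy) (v : Fin 4 → E3) : ∃ θ : Fin 12 → ℝ, ∀ i, fld θ (N.X₀ c i) = v i := by
  obtain ⟨a0, h0⟩ := disp_affine N c fun i => v i 0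
  obtain ⟨a1, h1⟩ := disp_affine N c fun i => v i 1
  obtain ⟨a2, h2⟩ := disp_affine N c fun i => v i 2
  refine ⟨![a0 0, a0 1, a0 2, a0 3, a1 0, a1 1, a1 2, a1 3, a2 0, a2 1, a2 2, a2 3], ?_⟩
  intro i
  have h0 := h0 i
  have h1 := h1 i
  have h2 := h2 i
  ext m
  fin_cases m
  · exact h0
  · exact h1
  · exact h2

/-- The six heights of a copy of type `τ` whose vertices are displaced by `v`. -/
noncomputable def disp_H1 (τ : Ty) (v : Fin 4 → E3) (j' : Fin 3) : ℝ :=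
  disp_lw (T (N.x τ.1) (N.a τ.2.1) N.w) (T (N.x τ.1) (N.a τ.2.1) (N.b τ.2.2.1))
    (T (N.x τ.1) (N.a τ.2.1) (N.a j')) (ev (N.x τ.1) (v 0)) (ev (N.x τ.1) (v 1))

noncomputable def disp_H2a (τ : Ty) (v : Fin 4 → E3) (k' : Fin 3) : ℝ :=
  disp_lw (T (N.a τ.2.1) (N.b τ.2.2.1) (N.x τ.1)) (T (N.a τ.2.1) (N.b τ.2.2.1) (N.y τ.2.2.2))
    (T (N.a τ.2.1) (N.b τ.2.2.1) (N.b k')) (ev (N.a τ.2.1) (v 1)) (ev (N.a τ.2.1) (v 2))

noncomputable def disp_H2b (τ : Ty) (v : Fin 4 → E3) (j' : Fin 3) : ℝ :=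
  disp_lw (T (N.a τ.2.1) (N.b τ.2.2.1) (N.x τ.1)) (T (N.a τ.2.1) (N.b τ.2.2.1) (N.y τ.2.2.2))
    (T (N.a τ.2.1) (N.b τ.2.2.1) (N.a j')) (ev (N.b τ.2.2.1) (v 1)) (ev (N.b τ.2.2.1) (v 2))

noncomputable def disp_H3 (τ : Ty) (v : Fin 4 → E3) (k' : Fin 3) : ℝ :=
  disp_lw (T (N.b τ.2.2.1) (N.y τ.2.2.2) (N.a τ.2.1)) (T (N.b τ.2.2.1) (N.y τ.2.2.2) N.z)
    (T (N.b τ.2.2.1) (N.y τ.2.2.2) (N.b k')) (ev (N.y τ.2.2.2) (v 2)) (ev (N.y τ.2.2.2) (v 3))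

noncomputable def disp_H5 (τ : Ty) (v : Fin 4 → E3) (i' : Fin 3) : ℝ :=
  disp_lw (T (N.x τ.1) (N.a τ.2.1) N.w) (T (N.x τ.1) (N.a τ.2.1) (N.b τ.2.2.1))
    (T (N.x τ.1) (N.a τ.2.1) (N.x i')) (ev (N.a τ.2.1) (v 0)) (ev (N.a τ.2.1) (v 1))

noncomputable def disp_H6 (τ : Ty) (v : Fin 4 → E3) (l' : Fin 7) : ℝ :=
  disp_lw (T (N.b τ.2.2.1) (N.y τ.2.2.2) (N.a τ.2.1)) (T (N.b τ.2.2.1) (N.y τ.2.2.2) N.z)
    (T (N.b τ.2.2.1) (N.y τ.2.2.2) (N.y l')) (ev (N.b τ.2.2.1) (v 2)) (ev (N.b τ.2.2.1) (v 3))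

theorem disp_h1_eq (u : Copy → Fin 4 → E3) (c : Copy) (j' : Fin 3) :
    N.h1 u c j' = disp_H1 N c.1 (u c) j' := disp_ev_lerp _ _ _ _ _ _

theorem disp_h2a_eq (u : Copy → Fin 4 → E3) (c : Copy) (j' : Fin 3) :
    N.h2a u c j' = disp_H2a N c.1 (u c) j' := disp_ev_lerp _ _ _ _ _ _

theorem disp_h2b_eq (u : Copy → Fin 4 → E3) (c : Copy) (j' : Fin 3) :
    N.h2b u c j' = disp_H2b N c.1 (u c) j' := disp_ev_lerp _ _ _ _ _ _

theorem disp_h3_eq (u : Copy → Fin 4 → E3) (c : Copy) (j' : Fin 3) :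
    N.h3 u c j' = disp_H3 N c.1 (u c) j' := disp_ev_lerp _ _ _ _ _ _

theorem disp_h5_eq (u : Copy → Fin 4 → E3) (c : Copy) (j' : Fin 3) :
    N.h5 u c j' = disp_H5 N c.1 (u c) j' := disp_ev_lerp _ _ _ _ _ _

theorem disp_h6_eq (u : Copy → Fin 4 → E3) (c : Copy) (j' : Fin 7) :
    N.h6 u c j' = disp_H6 N c.1 (u c) j' := disp_ev_lerp _ _ _ _ _ _

theorem disp_H_smul (τ : Ty) (r : ℝ) (v : Fin 4 → E3) :
    (∀ j', disp_H1 N τ (r • v) j' = r * disp_H1 N τ v j') ∧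
    (∀ j', disp_H2a N τ (r • v) j' = r * disp_H2a N τ v j') ∧
    (∀ j', disp_H2b N τ (r • v) j' = r * disp_H2b N τ v j') ∧
    (∀ j', disp_H3 N τ (r • v) j' = r * disp_H3 N τ v j') ∧
    (∀ j', disp_H5 N τ (r • v) j' = r * disp_H5 N τ v j') ∧
    (∀ j', disp_H6 N τ (r • v) j' = r * disp_H6 N τ v j') := by
  refine ⟨?_, ?_, ?_, ?_, ?_, ?_⟩ <;> intro j' <;>
    simp only [disp_H1, disp_H2a, disp_H2b, disp_H3, disp_H5, disp_H6, Pi.smul_apply,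
      disp_ev_smul, disp_lw_smul]

theorem disp_H_zero (τ : Ty) :
    (∀ j', disp_H1 N τ 0 j' = 0) ∧ (∀ j', disp_H2a N τ 0 j' = 0) ∧
    (∀ j', disp_H2b N τ 0 j' = 0) ∧ (∀ j', disp_H3 N τ 0 j' = 0) ∧
    (∀ j', disp_H5 N τ 0 j' = 0) ∧ (∀ j', disp_H6 N τ 0 j' = 0) := by
  refine ⟨?_, ?_, ?_, ?_, ?_, ?_⟩ <;> intro j' <;>
    simp only [disp_H1, disp_H2a, disp_H2b, disp_H3, disp_H5, disp_H6, Pi.zero_apply,
      disp_ev_zero, disp_lw_zero]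

theorem disp_values (τ : Ty) (X0 X1 A0 A1 A2 B1 B2 B3 Y2 Y3 : ℝ) : ∃ v : Fin 4 → E3,
    (ev (N.x τ.1) (v 0) = X0 ∧ ev (N.a τ.2.1) (v 0) = A0) ∧
    (ev (N.x τ.1) (v 1) = X1 ∧ ev (N.a τ.2.1) (v 1) = A1 ∧ ev (N.b τ.2.2.1) (v 1) = B1) ∧
    (ev (N.a τ.2.1) (v 2) = A2 ∧ ev (N.b τ.2.2.1) (v 2) = B2 ∧ ev (N.y τ.2.2.2) (v 2) = Y2) ∧
    (ev (N.b τ.2.2.1) (v 3) = B3 ∧ ev (N.y τ.2.2.2) (v 3) = Y3) := by
  obtain ⟨i, j, k, l⟩ := τ
  have wx := disp_w_lt_x N i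
  have xa := disp_x_lt_a N i j
  have ab := disp_a_lt_b N j k
  have bY := disp_b_lt_y N k l
  have yz := disp_y_lt_z N l
  obtain ⟨v0, _, h02, h03⟩ := disp_interp wx.ne (wx.trans xa).ne xa.ne 0 X0 A0
  obtain ⟨v1, h11, h12, h13⟩ := disp_interp xa.ne (xa.trans ab).ne ab.ne X1 A1 B1
  obtain ⟨v2, h21, h22, h23⟩ := disp_interp ab.ne (ab.trans bY).ne bY.ne A2 B2 Y2
  obtain ⟨v3, h31, h32, _⟩ := disp_interp bY.ne (bY.trans yz).ne yz.ne B3 Y3 0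
  exact ⟨![v0, v1, v2, v3], ⟨h02, h03⟩, ⟨h11, h12, h13⟩, ⟨h21, h22, h23⟩, ⟨h31, h32⟩⟩

theorem disp_pm (σ : ℝ) (τ : Ty) : ∃ v : Fin 4 → E3,
    (∀ j', j' ≠ τ.2.1 → disp_H1 N τ v j' = σ * (sg τ.2.1 j' * ((τ.2.1 : ℕ) + 1))) ∧
    (∀ k', k' ≠ τ.2.2.1 → disp_H2a N τ v k' = -(σ * (sg τ.2.2.1 k' * ((τ.2.2.1 : ℕ) + 1)))) ∧
    (∀ j', j' ≠ τ.2.1 → disp_H2b N τ v j' = σ * (sg τ.2.1 j' * ((τ.2.1 : ℕ) + 1))) ∧
    (∀ k', k' ≠ τ.2.2.1 → disp_H3 N τ v k' = σ * (sg τ.2.2.1 k' * ((τ.2.2.1 : ℕ) + 1))) ∧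
    disp_H5 N τ v (jx τ.1) = 0 ∧ disp_H6 N τ v (jy τ.2.2.2) = 0 := by
  have w := N.w_pos
  have x := disp_x_pos N τ.1
  have a := disp_a_pos N τ.2.1
  have b := disp_b_pos N τ.2.2.1
  have y := disp_y_pos N τ.2.2.2
  have z := disp_z_pos N
  have wx := disp_w_lt_x N τ.1
  have xa := disp_x_lt_a N τ.1 τ.2.1
  have ab := disp_a_lt_b N τ.2.1 τ.2.2.1
  have bY := disp_b_lt_y N τ.2.2.1 τ.2.2.2
  have yz := disp_y_lt_z N τ.2.2.2
  have r1 := disp_T_ne x a w b (wx.trans (xa.trans ab)).ne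
  have r2 := disp_T_ne a b x y (xa.trans (ab.trans bY)).ne
  have r3 := disp_T_ne b y a z (ab.trans (bY.trans yz)).ne
  have i1 : Function.Injective fun j' => T (N.x τ.1) (N.a τ.2.1) (N.a j') := by
    intro j1 j2 h
    by_contra hne
    exact disp_T_ne x a (disp_a_pos N j1) (disp_a_pos N j2) (N.ha.injective.ne hne) h
  have i2a : Function.Injective fun k' => T (N.a τ.2.1) (N.b τ.2.2.1) (N.b k') := by
    intro j1 j2 h
    by_contra hne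
    exact disp_T_ne a b (disp_b_pos N j1) (disp_b_pos N j2) (N.hb.injective.ne hne) h
  have i2b : Function.Injective fun j' => T (N.a τ.2.1) (N.b τ.2.2.1) (N.a j') := by
    intro j1 j2 h
    by_contra hne
    exact disp_T_ne a b (disp_a_pos N j1) (disp_a_pos N j2) (N.ha.injective.ne hne) h
  have i3 : Function.Injective fun k' => T (N.b τ.2.2.1) (N.y τ.2.2.2) (N.b k') := by
    intro j1 j2 h
    by_contra hne
    exact disp_T_ne b y (disp_b_pos N j1) (disp_b_pos N j2) (N.hb.injective.ne hne) h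
  obtain ⟨X0, X1, hX⟩ := disp_two r1 i1 τ.2.1 fun j' => σ * (sg τ.2.1 j' * ((τ.2.1 : ℕ) + 1))
  obtain ⟨A1, A2, hA⟩ := disp_two r2 i2a τ.2.2.1
    fun k' => -(σ * (sg τ.2.2.1 k' * ((τ.2.2.1 : ℕ) + 1)))
  obtain ⟨B1, B2, hB⟩ := disp_two r2 i2b τ.2.1 fun j' => σ * (sg τ.2.1 j' * ((τ.2.1 : ℕ) + 1))
  obtain ⟨Y2, Y3, hY⟩ := disp_two r3 i3 τ.2.2.1
    fun k' => σ * (sg τ.2.2.1 k' * ((τ.2.2.1 : ℕ) + 1))
  obtain ⟨A0, hA0⟩ := disp_left (t := T (N.x τ.1) (N.a τ.2.1) (N.x (jx τ.1))) r1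
    (disp_T_ne x a b (disp_x_pos N _)
      ((disp_x_lt_a N _ τ.2.1).trans ab).ne') A1
  obtain ⟨B3, hB3⟩ := disp_right (t := T (N.b τ.2.2.1) (N.y τ.2.2.2) (N.y (jy τ.2.2.2))) r3
    (disp_T_ne b y (disp_y_pos N _) a (ab.trans (disp_b_lt_y N _ _)).ne') B2
  obtain ⟨v, ⟨h1, h2⟩, ⟨h3, h4, h5⟩, ⟨h6, h7, h8⟩, ⟨h9, h10⟩⟩ :=
    disp_values N τ X0 X1 A0 A1 A2 B1 B2 B3 Y2 Y3
  refine ⟨v, ?_, ?_, ?_, ?_, ?_, ?_⟩
  · intro j' hj'
    rw [disp_H1, h1, h3]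
    exact hX j' hj'
  · intro k' hk'
    rw [disp_H2a, h4, h6]
    exact hA k' hk'
  · intro j' hj'
    rw [disp_H2b, h5, h7]
    exact hB j' hj'
  · intro k' hk'
    rw [disp_H3, h8, h10]
    exact hY k' hk'
  · rw [disp_H5, h2, h4]
    exact hA0
  · rw [disp_H6, h7, h9]
    exact hB3

theorem disp_up (τ : Ty) : ∃ v : Fin 4 → E3,
    (∀ j', disp_H1 N τ v j' = 0) ∧ (∀ j', disp_H2b N τ v j' = 0) ∧
    (∀ k', disp_H3 N τ v k' = 0) ∧ (∀ l', disp_H6 N τ v l' = 0) ∧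
    ∀ i', i' ≠ τ.1 → disp_H5 N τ v i' = su τ.1 i' := by
  have w := N.w_pos
  have x := disp_x_pos N τ.1
  have a := disp_a_pos N τ.2.1
  have b := disp_b_pos N τ.2.2.1
  have wx := disp_w_lt_x N τ.1
  have xa := disp_x_lt_a N τ.1 τ.2.1
  have ab := disp_a_lt_b N τ.2.1 τ.2.2.1
  have r1 := disp_T_ne x a w b (wx.trans (xa.trans ab)).ne
  have i1 : Function.Injective fun i' => T (N.x τ.1) (N.a τ.2.1) (N.x i') := by
    intro j1 j2 h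
    by_contra hne
    exact disp_T_ne x a (disp_x_pos N j1) (disp_x_pos N j2) (N.hx.injective.ne hne) h
  obtain ⟨A0, A1, hA⟩ := disp_two r1 i1 τ.1 fun i' => su τ.1 i'
  obtain ⟨v, ⟨h1, h2⟩, ⟨h3, h4, h5⟩, ⟨h6, h7, h8⟩, ⟨h9, h10⟩⟩ :=
    disp_values N τ 0 0 A0 A1 0 0 0 0 0 0
  refine ⟨v, ?_, ?_, ?_, ?_, ?_⟩
  · intro j'
    rw [disp_H1, h1, h3, disp_lw_zero]
  · intro j'
    rw [disp_H2b, h5, h7, disp_lw_zero]
  · intro k'
    rw [disp_H3, h8, h10, disp_lw_zero]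
  · intro l'
    rw [disp_H6, h7, h9, disp_lw_zero]
  · intro i' hi'
    rw [disp_H5, h2, h4]
    exact hA i' hi'

theorem disp_y3_inj : Function.Injective y3 := Fin.castLE_injective (by norm_num)

theorem disp_up' (τ : Ty) : ∃ v : Fin 4 → E3,
    (∀ j', disp_H1 N τ v j' = 0) ∧ (∀ j', disp_H2a N τ v j' = 0) ∧
    (∀ k', disp_H3 N τ v k' = 0) ∧ (∀ l', disp_H5 N τ v l' = 0) ∧
    ∀ l : Fin 3, τ.2.2.2 = y3 l → ∀ l', l' ≠ l → disp_H6 N τ v (y3 l') = su l l' := by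
  have a := disp_a_pos N τ.2.1
  have b := disp_b_pos N τ.2.2.1
  have y := disp_y_pos N τ.2.2.2
  have z := disp_z_pos N
  have ab := disp_a_lt_b N τ.2.1 τ.2.2.1
  have bY := disp_b_lt_y N τ.2.2.1 τ.2.2.2
  have yz := disp_y_lt_z N τ.2.2.2
  have r3 := disp_T_ne b y a z (ab.trans (bY.trans yz)).ne
  have i3 : Function.Injective fun l' : Fin 3 => T (N.b τ.2.2.1) (N.y τ.2.2.2) (N.y (y3 l')) := by
    intro j1 j2 h
    by_contra hne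
    exact disp_T_ne b y (disp_y_pos N _) (disp_y_pos N _)
      (N.hy.injective.ne (disp_y3_inj.ne hne)) h
  obtain ⟨B2, B3, hB⟩ : ∃ B2 B3 : ℝ, ∀ l : Fin 3, τ.2.2.2 = y3 l → ∀ l', l' ≠ l →
      disp_lw (T (N.b τ.2.2.1) (N.y τ.2.2.2) (N.a τ.2.1)) (T (N.b τ.2.2.1) (N.y τ.2.2.2) N.z)
        (T (N.b τ.2.2.1) (N.y τ.2.2.2) (N.y (y3 l'))) B2 B3 = su l l' := by
    by_cases h : ∃ l : Fin 3, τ.2.2.2 = y3 l
    · obtain ⟨l, hl⟩ := h
      obtain ⟨B2, B3, hB⟩ := disp_two r3 i3 l fun l' => su l l'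
      refine ⟨B2, B3, ?_⟩
      intro l1 hl1
      have h1 : l1 = l := disp_y3_inj (hl1.symm.trans hl)
      rw [h1]
      exact hB
    · refine ⟨0, 0, ?_⟩
      intro l hl
      exact absurd ⟨l, hl⟩ h
  obtain ⟨v, ⟨h1, h2⟩, ⟨h3, h4, h5⟩, ⟨h6, h7, h8⟩, ⟨h9, h10⟩⟩ :=
    disp_values N τ 0 0 0 0 0 0 B2 B3 0 0
  refine ⟨v, ?_, ?_, ?_, ?_, ?_⟩
  · intro j'
    rw [disp_H1, h1, h3, disp_lw_zero]
  · intro j'
    rw [disp_H2a, h4, h6, disp_lw_zero]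
  · intro k'
    rw [disp_H3, h8, h10, disp_lw_zero]
  · intro l'
    rw [disp_H5, h2, h4, disp_lw_zero]
  · intro l hl l' hl'
    rw [disp_H6, h7, h9]
    exact hB l hl l' hl'

/-- The exact displacements. -/
theorem disp_exact : ∃ (e : ℝ) (u : Copy → Fin 4 → E3), 0 < e ∧ Hts N e u := by
  classical
  choose vP hP1 hP2 hP3 hP4 hP5 hP6 using disp_pm N 1
  choose vM hM1 hM2 hM3 hM4 hM5 hM6 using disp_pm N (-1)
  choose vU hU1 hU2 hU3 hU6 hU5 using disp_up N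
  choose vV hV1 hV2 hV3 hV5 hV6 using disp_up' N
  obtain ⟨M, hM⟩ : ∃ M : ℝ, ∀ (τ : Ty) (j : Fin 3), |disp_H2a N τ (vU τ) j| ≤ M ∧
      |disp_H2b N τ (vV τ) j| ≤ M := by
    refine ⟨∑ τ : Ty, ∑ j : Fin 3, (|disp_H2a N τ (vU τ) j| + |disp_H2b N τ (vV τ) j|), ?_⟩
    intro τ j
    have h1 : |disp_H2a N τ (vU τ) j| + |disp_H2b N τ (vV τ) j| ≤
        ∑ τ : Ty, ∑ j : Fin 3, (|disp_H2a N τ (vU τ) j| + |disp_H2b N τ (vV τ) j|) := by
      refine le_trans ?_ (Finset.single_le_sum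
        (f := fun τ => ∑ j : Fin 3, (|disp_H2a N τ (vU τ) j| + |disp_H2b N τ (vV τ) j|))
        (fun i _ => Finset.sum_nonneg fun j _ => by positivity) (Finset.mem_univ τ))
      exact Finset.single_le_sum
        (f := fun j => |disp_H2a N τ (vU τ) j| + |disp_H2b N τ (vV τ) j|)
        (fun i _ => by positivity) (Finset.mem_univ j)
    have h2 := abs_nonneg (disp_H2a N τ (vU τ) j)
    have h3 := abs_nonneg (disp_H2b N τ (vV τ) j)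
    constructor <;> linarith
  have hM0 : 0 ≤ M := (abs_nonneg _).trans (hM (0, 0, 0, 0) 0).1
  obtain ⟨e, he, heM⟩ : ∃ e : ℝ, 0 < e ∧ 2 * e * M < 1 / 4 := by
    refine ⟨1 / (8 * (M + 1)), by positivity, ?_⟩
    have : 2 * (1 / (8 * (M + 1))) * M = M / (M + 1) / 4 := by
      field_simp
      ring
    rw [this]
    have h2 : M / (M + 1) < 1 := by
      rw [div_lt_one (by linarith)]
      linarith
    linarith
  set u : Copy → Fin 4 → E3 := fun c =>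
    match c.2 with
    | .plus => vP c.1
    | .minus => vM c.1
    | .zero => 0
    | .up => if c.1.2.2.1 = sel c.1.1 then e • vU c.1 else 0
    | .dn => if c.1.2.2.1 = sel c.1.1 then (-(2 * e)) • vU c.1 else 0
    | .up' => if ∃ l₀ : Fin 3, c.1.2.2.2 = y3 l₀ ∧ c.1.2.1 = sel l₀ then e • vV c.1 else 0
    | .dn' => if ∃ l₀ : Fin 3, c.1.2.2.2 = y3 l₀ ∧ c.1.2.1 = sel l₀ then (-(2 * e)) • vV c.1
      else 0 with hu
  have uP : ∀ τ, u (τ, .plus) = vP τ := fun τ => rfl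
  have uM : ∀ τ, u (τ, .minus) = vM τ := fun τ => rfl
  have uz : ∀ τ, u (τ, .zero) = 0 := fun τ => rfl
  have uU : ∀ τ : Ty, u (τ, .up) = if τ.2.2.1 = sel τ.1 then e • vU τ else 0 := fun τ => rfl
  have uD : ∀ τ : Ty, u (τ, .dn) = if τ.2.2.1 = sel τ.1 then (-(2 * e)) • vU τ else 0 :=
    fun τ => rfl
  have uU' : ∀ τ : Ty, u (τ, .up') = if ∃ l₀ : Fin 3, τ.2.2.2 = y3 l₀ ∧ τ.2.1 = sel l₀
      then e • vV τ else 0 := fun τ => rfl
  have uD' : ∀ τ : Ty, u (τ, .dn') = if ∃ l₀ : Fin 3, τ.2.2.2 = y3 l₀ ∧ τ.2.1 = sel l₀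
      then (-(2 * e)) • vV τ else 0 := fun τ => rfl
  have habs1 : |e| ≤ 2 * e := by rw [abs_of_pos he]; linarith
  have habs2 : |-(2 * e)| ≤ 2 * e := by rw [abs_neg, abs_of_pos (by linarith)]
  have habs0 : |(0 : ℝ)| ≤ 2 * e := by rw [abs_zero]; linarith
  have hz : ∀ τ κ, κ ≠ .plus → κ ≠ .minus →
      ∃ r : ℝ, |r| ≤ 2 * e ∧ (u (τ, κ) = r • vU τ ∨ u (τ, κ) = r • vV τ) := by
    intro τ κ h1 h2
    rcases κ with _ | _ | _ | _ | _ | _ | _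
    · exact absurd rfl h1
    · exact absurd rfl h2
    · exact ⟨0, habs0, Or.inl (by rw [uz τ, zero_smul])⟩
    · by_cases h : τ.2.2.1 = sel τ.1
      · exact ⟨e, habs1, Or.inl (by rw [uU, if_pos h])⟩
      · exact ⟨0, habs0, Or.inl (by rw [uU, if_neg h, zero_smul])⟩
    · by_cases h : τ.2.2.1 = sel τ.1
      · exact ⟨-(2 * e), habs2, Or.inl (by rw [uD, if_pos h])⟩
      · exact ⟨0, habs0, Or.inl (by rw [uD, if_neg h, zero_smul])⟩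
    · by_cases h : ∃ l₀ : Fin 3, τ.2.2.2 = y3 l₀ ∧ τ.2.1 = sel l₀
      · exact ⟨e, habs1, Or.inr (by rw [uU', if_pos h])⟩
      · exact ⟨0, habs0, Or.inr (by rw [uU', if_neg h, zero_smul])⟩
    · by_cases h : ∃ l₀ : Fin 3, τ.2.2.2 = y3 l₀ ∧ τ.2.1 = sel l₀
      · exact ⟨-(2 * e), habs2, Or.inr (by rw [uD', if_pos h])⟩
      · exact ⟨0, habs0, Or.inr (by rw [uD', if_neg h, zero_smul])⟩
  have hbd : ∀ r K : ℝ, |r| ≤ 2 * e → |K| ≤ M → |r * K| < 1 / 4 := by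
    intro r K hr hK
    rw [abs_mul]
    have := mul_le_mul hr hK (abs_nonneg _) (by linarith)
    linarith
  have h4 : (0 : ℝ) < 1 / 4 := by norm_num
  have he4 : 0 < e / 4 := by linarith
  refine ⟨e, u, he, ?_⟩
  refine ⟨?_, ?_, ?_, ?_, ?_, ?_, ?_, ?_, ?_, ?_, ?_, ?_⟩
  · intro τ j' hj'
    rw [disp_h1_eq, disp_h1_eq, uP, uM, hP1 τ j' hj', hM1 τ j' hj']
    constructor
    · rw [one_mul, sub_self, abs_zero]
      exact h4
    · rw [neg_one_mul, neg_add_cancel, abs_zero]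
      exact h4
  · intro τ j' hj'
    rw [disp_h2a_eq, disp_h2a_eq, uP, uM, hP2 τ j' hj', hM2 τ j' hj']
    constructor
    · rw [one_mul, neg_add_cancel, abs_zero]
      exact h4
    · rw [neg_one_mul, neg_neg, sub_self, abs_zero]
      exact h4
  · intro τ j' hj'
    rw [disp_h2b_eq, disp_h2b_eq, uP, uM, hP3 τ j' hj', hM3 τ j' hj']
    constructor
    · rw [one_mul, sub_self, abs_zero]
      exact h4
    · rw [neg_one_mul, neg_add_cancel, abs_zero]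
      exact h4
  · intro τ j' hj'
    rw [disp_h3_eq, disp_h3_eq, uP, uM, hP4 τ j' hj', hM4 τ j' hj']
    constructor
    · rw [one_mul, sub_self, abs_zero]
      exact h4
    · rw [neg_one_mul, neg_add_cancel, abs_zero]
      exact h4
  · intro τ κ hκ hκ' j' _
    rw [disp_h1_eq]
    obtain ⟨r, _, hr | hr⟩ := hz τ κ hκ hκ'
    · show |disp_H1 N τ (u (τ, κ)) j'| < 1 / 4
      rw [hr, (disp_H_smul N τ r _).1, hU1, mul_zero, abs_zero]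
      exact h4
    · show |disp_H1 N τ (u (τ, κ)) j'| < 1 / 4
      rw [hr, (disp_H_smul N τ r _).1, hV1, mul_zero, abs_zero]
      exact h4
  · intro τ κ hκ hκ' j' _
    rw [disp_h2a_eq]
    obtain ⟨r, hr1, hr | hr⟩ := hz τ κ hκ hκ'
    · show |disp_H2a N τ (u (τ, κ)) j'| < 1 / 4
      rw [hr, (disp_H_smul N τ r _).2.1]
      exact hbd _ _ hr1 (hM τ j').1
    · show |disp_H2a N τ (u (τ, κ)) j'| < 1 / 4
      rw [hr, (disp_H_smul N τ r _).2.1, hV2, mul_zero, abs_zero]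
      exact h4
  · intro τ κ hκ hκ' j' _
    rw [disp_h2b_eq]
    obtain ⟨r, hr1, hr | hr⟩ := hz τ κ hκ hκ'
    · show |disp_H2b N τ (u (τ, κ)) j'| < 1 / 4
      rw [hr, (disp_H_smul N τ r _).2.2.1, hU2, mul_zero, abs_zero]
      exact h4
    · show |disp_H2b N τ (u (τ, κ)) j'| < 1 / 4
      rw [hr, (disp_H_smul N τ r _).2.2.1]
      exact hbd _ _ hr1 (hM τ j').2
  · intro τ κ hκ hκ' j' _
    rw [disp_h3_eq]
    obtain ⟨r, _, hr | hr⟩ := hz τ κ hκ hκ'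
    · show |disp_H3 N τ (u (τ, κ)) j'| < 1 / 4
      rw [hr, (disp_H_smul N τ r _).2.2.2.1, hU3, mul_zero, abs_zero]
      exact h4
    · show |disp_H3 N τ (u (τ, κ)) j'| < 1 / 4
      rw [hr, (disp_H_smul N τ r _).2.2.2.1, hV3, mul_zero, abs_zero]
      exact h4
  · intro i j l i' hi'
    rw [disp_h5_eq, disp_h5_eq]
    show |disp_H5 N (i, j, sel i, l) (u ((i, j, sel i, l), .up)) i' - e * su i i'| < e / 4 ∧
      |disp_H5 N (i, j, sel i, l) (u ((i, j, sel i, l), .dn)) i' + 2 * e * su i i'| < e / 4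
    have h5 : disp_H5 N (i, j, sel i, l) (vU (i, j, sel i, l)) i' = su i i' := hU5 _ i' hi'
    rw [uU, uD, if_pos rfl, if_pos rfl, (disp_H_smul N _ _ _).2.2.2.2.1,
      (disp_H_smul N _ _ _).2.2.2.2.1, h5]
    constructor
    · rw [sub_self, abs_zero]
      exact he4
    · rw [neg_mul, neg_add_cancel, abs_zero]
      exact he4
  · intro i j k l κ hκ
    rw [disp_h5_eq]
    show |disp_H5 N (i, j, k, l) (u ((i, j, k, l), κ)) (jx i)| < e / 4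
    have h0 : disp_H5 N (i, j, k, l) (u ((i, j, k, l), κ)) (jx i) = 0 := by
      rcases κ with _ | _ | _ | _ | _ | _ | _
      · exact hP5 (i, j, k, l)
      · exact hM5 (i, j, k, l)
      · rw [uz (i, j, k, l), (disp_H_zero N (i, j, k, l)).2.2.2.2.1]
      · rw [uU, if_neg (fun h => (hκ h).1 rfl), (disp_H_zero N (i, j, k, l)).2.2.2.2.1]
      · rw [uD, if_neg (fun h => (hκ h).2 rfl), (disp_H_zero N (i, j, k, l)).2.2.2.2.1]
      · rw [uU']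
        split_ifs
        · rw [(disp_H_smul N _ _ _).2.2.2.2.1, hV5, mul_zero]
        · rw [(disp_H_zero N (i, j, k, l)).2.2.2.2.1]
      · rw [uD']
        split_ifs
        · rw [(disp_H_smul N _ _ _).2.2.2.2.1, hV5, mul_zero]
        · rw [(disp_H_zero N (i, j, k, l)).2.2.2.2.1]
    rw [h0, abs_zero]
    exact he4
  · intro i k l l' hl'
    rw [disp_h6_eq, disp_h6_eq]
    show |disp_H6 N (i, sel l, k, y3 l) (u ((i, sel l, k, y3 l), .up')) (y3 l') - e * su l l'| <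
        e / 4 ∧
      |disp_H6 N (i, sel l, k, y3 l) (u ((i, sel l, k, y3 l), .dn')) (y3 l') + 2 * e * su l l'| <
        e / 4
    have h6 : disp_H6 N (i, sel l, k, y3 l) (vV (i, sel l, k, y3 l)) (y3 l') = su l l' :=
      hV6 _ l rfl l' hl'
    rw [uU', uD', if_pos ⟨l, rfl, rfl⟩, if_pos ⟨l, rfl, rfl⟩, (disp_H_smul N _ _ _).2.2.2.2.2,
      (disp_H_smul N _ _ _).2.2.2.2.2, h6]
    constructor
    · rw [sub_self, abs_zero]
      exact he4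
    · rw [neg_mul, neg_add_cancel, abs_zero]
      exact he4
  · intro i j k l κ hκ
    rw [disp_h6_eq]
    show |disp_H6 N (i, j, k, l) (u ((i, j, k, l), κ)) (jy l)| < e / 4
    have h0 : disp_H6 N (i, j, k, l) (u ((i, j, k, l), κ)) (jy l) = 0 := by
      rcases κ with _ | _ | _ | _ | _ | _ | _
      · exact hP6 (i, j, k, l)
      · exact hM6 (i, j, k, l)
      · rw [uz (i, j, k, l), (disp_H_zero N (i, j, k, l)).2.2.2.2.2]
      · rw [uU]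
        split_ifs
        · rw [(disp_H_smul N _ _ _).2.2.2.2.2, hU6, mul_zero]
        · rw [(disp_H_zero N (i, j, k, l)).2.2.2.2.2]
      · rw [uD]
        split_ifs
        · rw [(disp_H_smul N _ _ _).2.2.2.2.2, hU6, mul_zero]
        · rw [(disp_H_zero N (i, j, k, l)).2.2.2.2.2]
      · rw [uU', if_neg (fun h => (hκ h).1 rfl), (disp_H_zero N (i, j, k, l)).2.2.2.2.2]
      · rw [uD', if_neg (fun h => (hκ h).2 rfl), (disp_H_zero N (i, j, k, l)).2.2.2.2.2]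
    rw [h0, abs_zero]
    exact he4

/-! ### Openness -/

theorem disp_lw_cont {α : Type*} [TopologicalSpace α] (t0 t1 t : ℝ) {f g : α → ℝ}
    (hf : Continuous f) (hg : Continuous g) :
    Continuous fun x => disp_lw t0 t1 t (f x) (g x) := by
  unfold disp_lw
  fun_prop

theorem disp_ev_cont {α : Type*} [TopologicalSpace α] (s : ℝ) {f : α → E3} (hf : Continuous f) :
    Continuous fun x => ev s (f x) := by
  unfold ev
  fun_prop

theorem disp_H_cont (c : Copy) :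
    (∀ j', Continuous fun u : Copy → Fin 4 → E3 => N.h1 u c j') ∧
    (∀ j', Continuous fun u : Copy → Fin 4 → E3 => N.h2a u c j') ∧
    (∀ j', Continuous fun u : Copy → Fin 4 → E3 => N.h2b u c j') ∧
    (∀ j', Continuous fun u : Copy → Fin 4 → E3 => N.h3 u c j') ∧
    (∀ j', Continuous fun u : Copy → Fin 4 → E3 => N.h5 u c j') ∧
    (∀ j', Continuous fun u : Copy → Fin 4 → E3 => N.h6 u c j') := by
  refine ⟨?_, ?_, ?_, ?_, ?_, ?_⟩ <;> intro j' <;>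
    simp only [disp_h1_eq, disp_h2a_eq, disp_h2b_eq, disp_h3_eq, disp_h5_eq, disp_h6_eq,
      disp_H1, disp_H2a, disp_H2b, disp_H3, disp_H5, disp_H6] <;>
    exact disp_lw_cont _ _ _ (disp_ev_cont _ (by fun_prop)) (disp_ev_cont _ (by fun_prop))

theorem disp_ev_lt {α : Type*} [TopologicalSpace α] {f : α → ℝ} (hf : Continuous f) {x : α}
    {r : ℝ} (h : |f x| < r) : ∀ᶠ y in 𝓝 x, |f y| < r :=
  (hf.abs.tendsto x).eventually_lt_const h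

theorem disp_open {e : ℝ} {u : Copy → Fin 4 → E3} (h : Hts N e u) : ∀ᶠ u' in 𝓝 u, Hts N e u' := by
  have c1 := fun c => (disp_H_cont N c).1
  have c2 := fun c => (disp_H_cont N c).2.1
  have c3 := fun c => (disp_H_cont N c).2.2.1
  have c4 := fun c => (disp_H_cont N c).2.2.2.1
  have c5 := fun c => (disp_H_cont N c).2.2.2.2.1
  have c6 := fun c => (disp_H_cont N c).2.2.2.2.2
  have p1 : ∀ᶠ u' in 𝓝 u, ∀ τ : Ty, ∀ j', j' ≠ τ.2.1 →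
      |N.h1 u' (τ, .plus) j' - sg τ.2.1 j' * ((τ.2.1 : ℕ) + 1)| < 1 / 4 ∧
      |N.h1 u' (τ, .minus) j' + sg τ.2.1 j' * ((τ.2.1 : ℕ) + 1)| < 1 / 4 := by
    simp only [eventually_all]
    intro τ j' hj'
    exact (disp_ev_lt ((c1 _ j').sub continuous_const) (h.p1 τ j' hj').1).and
      (disp_ev_lt ((c1 _ j').add continuous_const) (h.p1 τ j' hj').2)
  have p2 : ∀ᶠ u' in 𝓝 u, ∀ τ : Ty, ∀ k', k' ≠ τ.2.2.1 →
      |N.h2a u' (τ, .plus) k' + sg τ.2.2.1 k' * ((τ.2.2.1 : ℕ) + 1)| < 1 / 4 ∧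
      |N.h2a u' (τ, .minus) k' - sg τ.2.2.1 k' * ((τ.2.2.1 : ℕ) + 1)| < 1 / 4 := by
    simp only [eventually_all]
    intro τ j' hj'
    exact (disp_ev_lt ((c2 _ j').add continuous_const) (h.p2 τ j' hj').1).and
      (disp_ev_lt ((c2 _ j').sub continuous_const) (h.p2 τ j' hj').2)
  have p3 : ∀ᶠ u' in 𝓝 u, ∀ τ : Ty, ∀ j', j' ≠ τ.2.1 →
      |N.h2b u' (τ, .plus) j' - sg τ.2.1 j' * ((τ.2.1 : ℕ) + 1)| < 1 / 4 ∧
      |N.h2b u' (τ, .minus) j' + sg τ.2.1 j' * ((τ.2.1 : ℕ) + 1)| < 1 / 4 := by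
    simp only [eventually_all]
    intro τ j' hj'
    exact (disp_ev_lt ((c3 _ j').sub continuous_const) (h.p3 τ j' hj').1).and
      (disp_ev_lt ((c3 _ j').add continuous_const) (h.p3 τ j' hj').2)
  have p4 : ∀ᶠ u' in 𝓝 u, ∀ τ : Ty, ∀ k', k' ≠ τ.2.2.1 →
      |N.h3 u' (τ, .plus) k' - sg τ.2.2.1 k' * ((τ.2.2.1 : ℕ) + 1)| < 1 / 4 ∧
      |N.h3 u' (τ, .minus) k' + sg τ.2.2.1 k' * ((τ.2.2.1 : ℕ) + 1)| < 1 / 4 := by
    simp only [eventually_all]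
    intro τ j' hj'
    exact (disp_ev_lt ((c4 _ j').sub continuous_const) (h.p4 τ j' hj').1).and
      (disp_ev_lt ((c4 _ j').add continuous_const) (h.p4 τ j' hj').2)
  have z1 : ∀ᶠ u' in 𝓝 u, ∀ τ : Ty, ∀ κ, κ ≠ .plus → κ ≠ .minus → ∀ j', j' ≠ τ.2.1 →
      |N.h1 u' (τ, κ) j'| < 1 / 4 := by
    simp only [eventually_all]
    intro τ κ h1 h2 j' hj'
    exact disp_ev_lt (c1 _ j') (h.z1 τ κ h1 h2 j' hj')
  have z2 : ∀ᶠ u' in 𝓝 u, ∀ τ : Ty, ∀ κ, κ ≠ .plus → κ ≠ .minus → ∀ k', k' ≠ τ.2.2.1 →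
      |N.h2a u' (τ, κ) k'| < 1 / 4 := by
    simp only [eventually_all]
    intro τ κ h1 h2 j' hj'
    exact disp_ev_lt (c2 _ j') (h.z2 τ κ h1 h2 j' hj')
  have z3 : ∀ᶠ u' in 𝓝 u, ∀ τ : Ty, ∀ κ, κ ≠ .plus → κ ≠ .minus → ∀ j', j' ≠ τ.2.1 →
      |N.h2b u' (τ, κ) j'| < 1 / 4 := by
    simp only [eventually_all]
    intro τ κ h1 h2 j' hj'
    exact disp_ev_lt (c3 _ j') (h.z3 τ κ h1 h2 j' hj')
  have z4 : ∀ᶠ u' in 𝓝 u, ∀ τ : Ty, ∀ κ, κ ≠ .plus → κ ≠ .minus → ∀ k', k' ≠ τ.2.2.1 →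
      |N.h3 u' (τ, κ) k'| < 1 / 4 := by
    simp only [eventually_all]
    intro τ κ h1 h2 j' hj'
    exact disp_ev_lt (c4 _ j') (h.z4 τ κ h1 h2 j' hj')
  have u5 : ∀ᶠ u' in 𝓝 u, ∀ i j l, ∀ i', i' ≠ i →
      |N.h5 u' ((i, j, sel i, l), .up) i' - e * su i i'| < e / 4 ∧
      |N.h5 u' ((i, j, sel i, l), .dn) i' + 2 * e * su i i'| < e / 4 := by
    simp only [eventually_all]
    intro i j l i' hi'
    exact (disp_ev_lt ((c5 _ i').sub continuous_const) (h.u5 i j l i' hi').1).and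
      (disp_ev_lt ((c5 _ i').add continuous_const) (h.u5 i j l i' hi').2)
  have o5 : ∀ᶠ u' in 𝓝 u, ∀ i j k l κ, (k = sel i → κ ≠ Kind.up ∧ κ ≠ Kind.dn) →
      |N.h5 u' ((i, j, k, l), κ) (jx i)| < e / 4 := by
    simp only [eventually_all]
    intro i j k l κ hκ
    exact disp_ev_lt (c5 _ (jx i)) (h.o5 i j k l κ hκ)
  have u6 : ∀ᶠ u' in 𝓝 u, ∀ (i k : Fin 3) (l l' : Fin 3), l' ≠ l →
      |N.h6 u' ((i, sel l, k, y3 l), .up') (y3 l') - e * su l l'| < e / 4 ∧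
      |N.h6 u' ((i, sel l, k, y3 l), .dn') (y3 l') + 2 * e * su l l'| < e / 4 := by
    simp only [eventually_all]
    intro i k l l' hl'
    exact (disp_ev_lt ((c6 _ (y3 l')).sub continuous_const) (h.u6 i k l l' hl').1).and
      (disp_ev_lt ((c6 _ (y3 l')).add continuous_const) (h.u6 i k l l' hl').2)
  have o6 : ∀ᶠ u' in 𝓝 u, ∀ i j k l κ,
      ((∃ l₀ : Fin 3, l = y3 l₀ ∧ j = sel l₀) → κ ≠ Kind.up' ∧ κ ≠ Kind.dn') →
      |N.h6 u' ((i, j, k, l), κ) (jy l)| < e / 4 := by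
    simp only [eventually_all]
    intro i j k l κ hκ
    exact disp_ev_lt (c6 _ (jy l)) (h.o6 i j k l κ hκ)
  filter_upwards [p1, p2, p3, p4, z1, z2, z3, z4, u5, o5, u6, o6] with u' a1 a2 a3 a4 b1 b2 b3 b4
    d1 d2 d3 d4
  exact ⟨a1, a2, a3, a4, b1, b2, b3, b4, d1, d2, d3, d4⟩

theorem disp_fld_cont : Continuous fun (θ : Copy → Fin 12 → ℝ) (c : Copy) (i : Fin 4) =>
    fld (θ c) (N.X₀ c i) := by
  refine continuous_pi fun c => continuous_pi fun i => ?_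
  unfold fld
  refine (PiLp.continuous_toLp 2 _).comp (continuous_pi fun m => ?_)
  fin_cases m <;> simp <;> fun_prop

end nodes

theorem exists_disp (N : Nodes) : ∃ (θ : Copy → Fin 12 → ℝ) (e η : ℝ), 0 < e ∧ 0 < η ∧
    ∀ θ' : Copy → Fin 12 → ℝ, (∀ c i, |θ' c i - θ c i| ≤ η) →
      Hts N e (fun c i => fld (θ' c) (N.X₀ c i)) := by
  obtain ⟨e, u, he, hu⟩ := disp_exact N
  choose θ hθ using fun c => disp_onto N c (u c)
  have h1 : (fun c i => fld (θ c) (N.X₀ c i)) = u := by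
    funext c i
    exact hθ c i
  have h2 : ∀ᶠ θ' in 𝓝 θ, Hts N e (fun c i => fld (θ' c) (N.X₀ c i)) := by
    have h3 := disp_open N hu
    rw [← h1] at h3
    exact (disp_fld_cont N).continuousAt.eventually h3
  obtain ⟨ε, hε, hball⟩ := Metric.eventually_nhds_iff.mp h2
  refine ⟨θ, e, ε / 2, he, by linarith, ?_⟩
  intro θ' hθ'
  apply hball
  refine lt_of_le_of_lt ?_ (half_lt_self hε)
  rw [dist_pi_le_iff (by linarith)]
  intro c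
  rw [dist_pi_le_iff (by linarith)]
  intro i
  rw [Real.dist_eq]
  exact hθ' c i

end Pool.Agent.Helper53.Chain
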