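import Pool.Agent.Helper53.Chain.Base
import Pool.Agent.Helper2.Ch.Compact3

/-! CH-LKC: first order rigidity implies that small perturbations are locked. -/

namespace Pool.Agent.Helper53.Chain

open Set
open scoped RealInnerProductSpace

theorem lkc_det3 (p q r : E3) : UnlockChains.det3 p q r = vol p q r := rfl

theorem lkc_inner (p q : E3) : (⟪p, q⟫ : ℝ) = dot q p := by
  rw [PiLp.inner_apply, Fin.sum_univ_three]
  simp [dot]

theorem lkc_vol_smul (p q r : E3) (a : ℝ) : vol p q (a • r) = a * vol p q r := by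
  unfold vol; simp only [PiLp.smul_apply, smul_eq_mul]; ring

theorem lkc_vol_add (p q r s : E3) : vol p q (r + s) = vol p q r + vol p q s := by
  unfold vol; simp only [PiLp.add_apply]; ring

theorem lkc_vol_neg (p q r : E3) : vol p q (-r) = - vol p q r := by
  unfold vol; simp only [PiLp.neg_apply]; ring

/-- the volume with two fixed vectors, as a linear map -/
noncomputable def lkcVolMap (p q : E3) (s : ℝ) : E3 →ₗ[ℝ] ℝ where
  toFun r := s * vol p q r
  map_add' r r' := by rw [lkc_vol_add]; ring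
  map_smul' a r := by rw [lkc_vol_smul]; simp; ring

noncomputable def lkcInf (ω : E3) : E3 →ₗ[ℝ] E3 where
  toFun q := inf ω 0 q
  map_add' q r := by
    ext i; fin_cases i <;> simp [inf] <;> ring
  map_smul' a q := by
    ext i; fin_cases i <;> simp [inf] <;> ring

theorem lkcInf_skew (ω q : E3) : (⟪lkcInf ω q, q⟫ : ℝ) = 0 := by
  rw [lkc_inner]
  simp [lkcInf, inf, dot]; ring

theorem lkcInf_eq (ω t q : E3) : inf ω t q = lkcInf ω q + t := by
  ext i; fin_cases i <;> simp [lkcInf, inf] <;> ring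

theorem lkc_unique {ι : Type*} {X : ι → Fin 4 → E3} {c c' : ι} {r r' : Fin 3} {σ τ σ' τ' : ℝ}
    (h : IsCross X c r c' r' σ τ) (h' : IsCross X c r c' r' σ' τ') : σ = σ' ∧ τ = τ' := by
  have h1 := h.meet
  have h2 := h'.meet
  unfold pt at h1 h2
  have h3 : (σ - σ') • hdir X c r + (τ' - τ) • hdir X c' r' = 0 := by
    unfold hdir
    have e := congrArg₂ (fun a b => a - b) h1 h2
    simp only [add_sub_add_left_eq_sub] at e
    rw [sub_smul, sub_smul, e]; abel
  have h4 := LinearIndependent.pair_iff.1 h.indep _ _ h3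
  exact ⟨by linarith [h4.1], by linarith [h4.2]⟩

theorem lock {ι : Type*} [Fintype ι] (rel : ι → ι → Prop) (X u : ι → Fin 4 → E3)
    (hfor : ∀ v : ι → Fin 4 → E3, (∀ c r, dot (hdir v c r) (hdir X c r) = 0) →
      VolOrd rel X u v → ∃ ω t : E3, ∀ c i, v c i = inf ω t (X c i)) :
    ∃ δ₀ > 0, ∀ δ, 0 < δ → δ < δ₀ → ∀ x : ℝ → ι → Fin 4 → E3,
      (∀ c i, ContinuousOn (fun t => x t c i) (Icc 0 1)) →
      (∀ c i, ‖x 0 c i - (X c i + δ • u c i)‖ ≤ δ ^ 2) →
      (∀ t ∈ Icc (0 : ℝ) 1, ∀ c, ∀ r : Fin 3,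
        dist (x t c r.castSucc) (x t c r.succ) = dist (x 0 c r.castSucc) (x 0 c r.succ)) →
      (∀ t ∈ Icc (0 : ℝ) 1, ∀ c c', ∀ r r' : Fin 3, rel c c' →
        Disjoint (segment ℝ (x t c r.castSucc) (x t c r.succ))
          (segment ℝ (x t c' r'.castSucc) (x t c' r'.succ))) →
      ∀ c, LinearIndependent ℝ ![hdir X c 0, hdir X c 1] →
        dist (x 1 c 0) (x 1 c 2) < dist (x 1 c 0) (x 1 c 1) + dist (x 1 c 1) (x 1 c 2) := by
  classical
  let K := {p : ι × Fin 3 × ι × Fin 3 // rel p.1 p.2.2.1 ∧ ∃ σ τ,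
    IsCross X p.1 p.2.1 p.2.2.1 p.2.2.2 σ τ ∧ dvol X u p.1 p.2.1 p.2.2.1 p.2.2.2 σ τ ≠ 0}
  let σ : K → ℝ := fun p => p.2.2.choose
  let τ : K → ℝ := fun p => p.2.2.choose_spec.choose
  have hst : ∀ p : K, IsCross X p.1.1 p.1.2.1 p.1.2.2.1 p.1.2.2.2 (σ p) (τ p) ∧
      dvol X u p.1.1 p.1.2.1 p.1.2.2.1 p.1.2.2.2 (σ p) (τ p) ≠ 0 :=
    fun p => p.2.2.choose_spec.choose_spec
  let sg : K → ℝ := fun p =>
    if 0 < dvol X u p.1.1 p.1.2.1 p.1.2.2.1 p.1.2.2.2 (σ p) (τ p) then 1 else -1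
  let J : K → UnlockChains.Crossing ι := fun p =>
    { c := p.1.1, i := p.1.2.1, c' := p.1.2.2.1, i' := p.1.2.2.2, s := σ p, s' := τ p,
      κ := sg p,
      φ := lkcVolMap (hdir X p.1.1 p.1.2.1) (hdir X p.1.2.2.1 p.1.2.2.2) (sg p) }
  have hsg : ∀ p, sg p * sg p = 1 := by
    intro p; simp only [sg]; split_ifs <;> norm_num
  have hJ : ∀ p, UnlockChains.IsCrossing X (J p) := by
    intro p
    obtain ⟨h, -⟩ := hst p
    refine ⟨h.hσ.1, h.hσ.2, h.hτ.1, h.hτ.2, h.meet, ?_, ?_⟩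
    · intro h0
      have := hsg p
      change sg p = 0 at h0
      rw [h0] at this; norm_num at this
    · intro w
      change vol (hdir X p.1.1 p.1.2.1) (hdir X p.1.2.2.1 p.1.2.2.2) w =
        sg p * (sg p * vol (hdir X p.1.1 p.1.2.1) (hdir X p.1.2.2.1 p.1.2.2.2) w)
      rw [← mul_assoc, hsg, one_mul]
  have hgap : ∀ (v : ι → Fin 4 → E3) (p : K), (J p).φ ((J p).gap v) =
      - (sg p * dvol X v p.1.1 p.1.2.1 p.1.2.2.1 p.1.2.2.2 (σ p) (τ p)) := by
    intro v p
    have : (J p).gap v = - (pt v p.1.2.2.1 p.1.2.2.2 (τ p) - pt v p.1.1 p.1.2.1 (σ p)) := by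
      rw [neg_sub]; rfl
    rw [this]
    change sg p * vol _ _ _ = _
    rw [lkc_vol_neg]; unfold dvol; ring
  have hu : ∀ p, (J p).φ ((J p).gap u) < 0 := by
    intro p
    rw [hgap]
    obtain ⟨-, h⟩ := hst p
    simp only [sg]
    split_ifs with h1
    · linarith
    · have : dvol X u p.1.1 p.1.2.1 p.1.2.2.1 p.1.2.2.2 (σ p) (τ p) < 0 :=
        lt_of_le_of_ne (not_lt.1 h1) h
      linarith
  obtain ⟨δ₀, hδ₀, hmain⟩ := UnlockChains.core_locked X u J hJ hu (by
    intro v hv1 hv2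
    obtain ⟨ω, t, hωt⟩ := hfor v (fun c r => by
      have := hv1 c r
      rw [lkc_inner] at this; exact this) (by
      intro c c' r r' s s' hrel hcr
      by_cases hd : dvol X u c r c' r' s s' = 0
      · exact ⟨fun h => absurd hd h.ne', fun h => absurd hd h.ne⟩
      · let p : K := ⟨(c, r, c', r'), hrel, s, s', hcr, hd⟩
        obtain ⟨e1, e2⟩ := lkc_unique hcr (hst p).1
        have h2 := hv2 p
        rw [hgap] at h2
        simp only [sg] at h2
        have e1' : σ p = s := e1.symm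
        have e2' : τ p = s' := e2.symm
        rw [e1', e2'] at h2
        change -((if 0 < dvol X u c r c' r' s s' then (1:ℝ) else -1) * dvol X v c r c' r' s s') ≤ 0 at h2
        constructor
        · intro h; rw [if_pos h] at h2; linarith
        · intro h; rw [if_neg (not_lt.2 h.le)] at h2; linarith)
    exact ⟨lkcInf ω, t, lkcInf_skew ω, fun c k => by rw [hωt c k, lkcInf_eq]⟩)
  refine ⟨δ₀, hδ₀, ?_⟩
  intro δ h0 h1 x hx hx0 hlen hdisj c hind
  have hns : ¬ SameRay ℝ (UnlockChains.rodDir X c 0) (UnlockChains.rodDir X c 1) := by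
    intro hs
    exact (sameRay_or_sameRay_neg_iff_not_linearIndependent.1 (Or.inl hs)) hind
  have hfin := hmain δ h0 h1 x hx (fun c k => by rw [dist_eq_norm]; exact hx0 c k)
    (fun t ht c i => by
      have := hlen t ht c i
      rw [dist_comm, dist_eq_norm, dist_comm, dist_eq_norm] at this
      exact this)
    (fun t ht p => hdisj t ht _ _ _ _ p.2.1) c hns
  rw [not_sameRay_iff_norm_add_lt] at hfin
  have e : UnlockChains.rodDir (x 1) c 0 + UnlockChains.rodDir (x 1) c 1 = x 1 c 2 - x 1 c 0 := by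
    change (x 1 c 1 - x 1 c 0) + (x 1 c 2 - x 1 c 1) = _
    abel
  rw [e] at hfin
  rw [dist_eq_norm', dist_eq_norm', dist_eq_norm']
  exact hfin

end Pool.Agent.Helper53.Chain
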