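import Pool.Agent.Helper53.Chain.Base

/-! CH-NOD: fast growing nodes. -/

namespace Pool.Agent.Helper53.Chain

open Set Filter Topology

theorem nod_dot_U (a b c d : ℝ) :
    dot (U a b) (U c d) = 1 + (a + b) * (c + d) + (a * b) * (c * d) := by
  simp [dot, U]
  ring

theorem nod_T_ge (a b t : ℝ) (ha : 0 < a) (hb : 0 < b) (ht : 1 ≤ t) : t ≤ T a b t := by
  have h0 : 0 < t := by linarith
  have h1 : t ≤ t ^ 3 := by nlinarith [mul_nonneg (by linarith : (0:ℝ) ≤ t - 1) (by linarith : (0:ℝ) ≤ t + 1)]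
  unfold T
  have : 0 ≤ a ^ 3 + b ^ 3 + a ^ 2 * b + a ^ 2 * t + b ^ 2 * a + b ^ 2 * t + t ^ 2 * a + t ^ 2 * b
    + a * b * t := by positivity
  linarith

theorem nod_core (κ R B α Tt : ℝ) (hκ : 0 < κ) (hα : κ ≤ α) (hT : R / κ + B < Tt) (hB : B ≤ Tt) :
    R < α * (Tt - B) := by
  have h1 : R / κ < Tt - B := by linarith
  have h2 : R < κ * (Tt - B) := by
    rw [div_lt_iff₀ hκ] at h1
    linarith
  have h3 : 0 ≤ Tt - B := by linarith
  nlinarith

theorem nod_ev1 (x a b b' : ℝ) (ha : 0 < a) (hab : a < b) :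
    ∀ᶠ t in atTop, al1 x a b * (T a b b' - T a b x) < al2 a b t * (T a b t - T a b b') := by
  set κ := (a + b) / (b - a) with hκ
  have hκ0 : 0 < κ := div_pos (by linarith) (by linarith)
  set R := al1 x a b * (T a b b' - T a b x) with hR
  filter_upwards [eventually_gt_atTop (R / κ + T a b b'), eventually_gt_atTop (T a b b'),
    eventually_gt_atTop 1, eventually_gt_atTop a] with t h1 h2 h3 h4
  have h5 := nod_T_ge a b t ha (by linarith) h3.le
  refine nod_core κ R _ _ _ hκ0 ?_ (by linarith) (by linarith)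
  unfold al2
  rw [nod_dot_U, hκ, div_le_div_iff₀ (by linarith) (mul_pos (by linarith) (by linarith))]
  have h6 : 0 < b - a := by linarith
  have h7 : 0 < t - a := by linarith
  have h8 : 0 < b := by linarith
  have h9 : 0 < t := by linarith
  have h10 : (a + b) * (t - a) ≤ 1 + (b + t) * (a + b) + b * t * (a * b) := by
    have : 0 ≤ b * t * (a * b) := by positivity
    nlinarith
  calc (a + b) * ((b - a) * (t - a)) = ((a + b) * (t - a)) * (b - a) := by ring
    _ ≤ _ := mul_le_mul_of_nonneg_right h10 h6.le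

theorem nod_ev2 (x a b a' : ℝ) (ha : 0 < a) (hab : a < b) :
    ∀ᶠ t in atTop, be1 x a b * (T a b a' - T a b x) < be2 a b t * (T a b t - T a b a') := by
  set κ := (a + b) / (b - a) with hκ
  have hκ0 : 0 < κ := div_pos (by linarith) (by linarith)
  set R := be1 x a b * (T a b a' - T a b x) with hR
  filter_upwards [eventually_gt_atTop (R / κ + T a b a'), eventually_gt_atTop (T a b a'),
    eventually_gt_atTop 1, eventually_gt_atTop b] with t h1 h2 h3 h4
  have h5 := nod_T_ge a b t ha (by linarith) h3.le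
  refine nod_core κ R _ _ _ hκ0 ?_ (by linarith) (by linarith)
  unfold be2
  rw [nod_dot_U, hκ, div_le_div_iff₀ (by linarith) (mul_pos (by linarith) (by linarith))]
  have h6 : 0 < b - a := by linarith
  have h7 : 0 < t - b := by linarith
  have h8 : 0 < b := by linarith
  have h9 : 0 < t := by linarith
  have h10 : (a + b) * (t - b) ≤ 1 + (a + t) * (a + b) + a * t * (a * b) := by
    have : 0 ≤ a * t * (a * b) := by positivity
    nlinarith
  calc (a + b) * ((b - a) * (t - b)) = ((a + b) * (t - b)) * (b - a) := by ring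
    _ ≤ _ := mul_le_mul_of_nonneg_right h10 h6.le

theorem nod_thr (M : ℕ) : ∀ᶠ t : ℕ in atTop, ∀ q ∈ (Finset.range (M + 1)) ×ˢ
    (Finset.range (M + 1)) ×ˢ (Finset.range (M + 1)) ×ˢ (Finset.range (M + 1)),
    (0 < q.2.1 → q.2.1 < q.2.2.1 →
      al1 (q.1 : ℝ) q.2.1 q.2.2.1 * (T (q.2.1 : ℝ) q.2.2.1 q.2.2.2 - T (q.2.1 : ℝ) q.2.2.1 q.1) <
        al2 (q.2.1 : ℝ) q.2.2.1 t * (T (q.2.1 : ℝ) q.2.2.1 t - T (q.2.1 : ℝ) q.2.2.1 q.2.2.2)) ∧
    (0 < q.2.1 → q.2.1 < q.2.2.1 →
      be1 (q.1 : ℝ) q.2.1 q.2.2.1 * (T (q.2.1 : ℝ) q.2.2.1 q.2.2.2 - T (q.2.1 : ℝ) q.2.2.1 q.1) <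
        be2 (q.2.1 : ℝ) q.2.2.1 t * (T (q.2.1 : ℝ) q.2.2.1 t - T (q.2.1 : ℝ) q.2.2.1 q.2.2.2)) := by
  rw [Filter.eventually_all_finset]
  rintro ⟨x, a, b, b'⟩ -
  simp only
  by_cases ha : 0 < a
  · by_cases hab : a < b
    · have ha' : (0 : ℝ) < a := by exact_mod_cast ha
      have hab' : (a : ℝ) < b := by exact_mod_cast hab
      have h1 := tendsto_natCast_atTop_atTop.eventually (nod_ev1 (x : ℝ) a b b' ha' hab')
      have h2 := tendsto_natCast_atTop_atTop.eventually (nod_ev2 (x : ℝ) a b b' ha' hab')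
      filter_upwards [h1, h2] with t h3 h4
      exact ⟨fun _ _ => h3, fun _ _ => h4⟩
    · exact Filter.Eventually.of_forall fun t => ⟨fun _ h => absurd h hab, fun _ h => absurd h hab⟩
  · exact Filter.Eventually.of_forall fun t => ⟨fun h => absurd h ha, fun h => absurd h ha⟩

theorem exists_nodes : ∃ s : ℕ → ℝ, (∀ n, 0 < s n) ∧ StrictMono s ∧
    (∀ x a b b' y : ℕ, x < a → a < b → a < b' → b' ≠ b → b < y → b' < y →
      al1 (s x) (s a) (s b) * (T (s a) (s b) (s b') - T (s a) (s b) (s x)) <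
        al2 (s a) (s b) (s y) * (T (s a) (s b) (s y) - T (s a) (s b) (s b'))) ∧
    (∀ x a a' b y : ℕ, x < a → x < a' → a' ≠ a → a < b → a' < b → b < y →
      be1 (s x) (s a) (s b) * (T (s a) (s b) (s a') - T (s a) (s b) (s x)) <
        be2 (s a) (s b) (s y) * (T (s a) (s b) (s y) - T (s a) (s b) (s a'))) := by
  have h := fun M => Filter.eventually_atTop.1 (nod_thr M)
  choose G hG using h
  obtain ⟨s, hs0, hs⟩ : ∃ s : ℕ → ℕ, s 0 = 1 ∧ ∀ n, s (n + 1) = G (s n) + s n + 1 :=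
    ⟨fun n => Nat.rec (motive := fun _ => ℕ) 1 (fun _ m => G m + m + 1) n, rfl, fun n => rfl⟩
  have hmono : StrictMono s := strictMono_nat_of_lt_succ fun n => by rw [hs]; omega
  have hpos : ∀ n, 0 < s n := fun n => by
    rcases n with _ | n
    · rw [hs0]; exact Nat.one_pos
    · rw [hs]; omega
  have hmem : ∀ i n, i ≤ n → s i ∈ Finset.range (s n + 1) := fun i n hi => by
    rw [Finset.mem_range]
    have := hmono.monotone hi
    omega
  have hmono' : StrictMono (fun n => ((s n : ℕ) : ℝ)) := fun m n hmn =>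
    Nat.cast_lt.2 (hmono hmn)
  refine ⟨fun n => ((s n : ℕ) : ℝ), fun n => Nat.cast_pos.2 (hpos n), hmono', ?_, ?_⟩
  · intro x a b b' y hxa hab hab' _ hby hby'
    obtain ⟨y, rfl⟩ : ∃ y', y = y' + 1 := ⟨y - 1, by omega⟩
    have := hG (s y) (s (y + 1)) (by rw [hs]; omega) (s x, s a, s b, s b') (by
      simp only [Finset.mem_product]
      exact ⟨hmem _ _ (by omega), hmem _ _ (by omega), hmem _ _ (by omega), hmem _ _ (by omega)⟩)
    exact this.1 (hpos a) (hmono hab)
  · intro x a a' b y hxa hxa' _ hab hab' hby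
    obtain ⟨y, rfl⟩ : ∃ y', y = y' + 1 := ⟨y - 1, by omega⟩
    have := hG (s y) (s (y + 1)) (by rw [hs]; omega) (s x, s a, s b, s a') (by
      simp only [Finset.mem_product]
      exact ⟨hmem _ _ (by omega), hmem _ _ (by omega), hmem _ _ (by omega), hmem _ _ (by omega)⟩)
    exact this.2 (hpos a) (hmono hab)

end Pool.Agent.Helper53.Chain
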