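import Pool.Agent.Helper53.Chain.ASM1
import Pool.Agent.Helper53.Chain.DISP
import Pool.Agent.Helper53.Chain.LKC
import Pool.Agent.Helper53.Chain.NOD
import Pool.Agent.Helper53.Chain.COMB

/-! # Assembly, part 2: the universal block -/

namespace Pool.Agent.Helper53.Chain

open Set Filter Topology

/-- The node chosen by `α` in class `i`. -/
noncomputable def nodeOf (s : ℕ → ℝ) {T m : ℕ} (α : Fin T → Fin m) (i : ℕ) : ℝ :=
  if h : i < T then s (i * m + (α ⟨i, h⟩ : ℕ)) else 0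

/-- The macro position of the vertex `i` of the run `α`. -/
noncomputable def vtx (s : ℕ → ℝ) {T m : ℕ} (α : Fin T → Fin m) (i : ℕ) : E3 :=
  P (nodeOf s α i) (nodeOf s α (i + 1)) (nodeOf s α (i + 2))

/-- Requirements on the node sequence. -/
structure GoodSeq (s : ℕ → ℝ) : Prop where
  pos : ∀ n, 0 < s n
  mono : StrictMono s
  G1 : ∀ x a b b' y : ℕ, x < a → a < b → a < b' → b' ≠ b → b < y → b' < y →
      al1 (s x) (s a) (s b) * (T (s a) (s b) (s b') - T (s a) (s b) (s x)) <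
        al2 (s a) (s b) (s y) * (T (s a) (s b) (s y) - T (s a) (s b) (s b'))
  G2 : ∀ x a a' b y : ℕ, x < a → x < a' → a' ≠ a → a < b → a' < b → b < y →
      be1 (s x) (s a) (s b) * (T (s a) (s b) (s a') - T (s a) (s b) (s x)) <
        be2 (s a) (s b) (s y) * (T (s a) (s b) (s y) - T (s a) (s b) (s a'))

theorem exists_goodSeq : ∃ s, GoodSeq s := by
  obtain ⟨s, h1, h2, h3, h4⟩ := exists_nodes
  exact ⟨s, h1, h2, h3, h4⟩

/-- The combinatorial data of a core in the universal block. -/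
structure Dat (T m : ℕ) where
  j : ℕ
  hj : j + 5 < T
  α : Fin T → Fin m
  X : Fin 3 → Fin m
  A : Fin 3 → Fin m
  B : Fin 3 → Fin m
  Y : Fin 7 → Fin m
  hX : StrictMono X
  hA : StrictMono A
  hB : StrictMono B
  hY : StrictMono Y

namespace Dat

variable {T m : ℕ} (d : Dat T m)

/-- The run of a copy. -/
def run (c : Ty) : Fin T → Fin m := upd d.α d.j (d.X c.1) (d.A c.2.1) (d.B c.2.2.1) (d.Y c.2.2.2)

instance : Finite (Dat T m) := by
  let φ : Dat T m → Fin T × (Fin T → Fin m) × (Fin 3 → Fin m) × (Fin 3 → Fin m) ×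
      (Fin 3 → Fin m) × (Fin 7 → Fin m) :=
    fun d => (⟨d.j, by have := d.hj; omega⟩, d.α, d.X, d.A, d.B, d.Y)
  refine Finite.of_injective φ ?_
  rintro ⟨j, hj, α, X, A, B, Y, hX, hA, hB, hY⟩ ⟨j', hj', α', X', A', B', Y', hX', hA', hB', hY'⟩ h
  simp only [φ, Prod.mk.injEq, Fin.mk.injEq] at h
  obtain ⟨rfl, rfl, rfl, rfl, rfl, rfl⟩ := h
  rfl

lemma node_lt {s : ℕ → ℝ} (hs : GoodSeq s) {i i' : ℕ} (h : i < i') (a b : Fin m) :
    s (i * m + a) < s (i' * m + b) := by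
  apply hs.mono
  have h1 : (a : ℕ) < m := a.2
  have h2 : (i + 1) * m ≤ i' * m := Nat.mul_le_mul_right m h
  rw [add_mul, one_mul] at h2
  omega

lemma node_lt' {s : ℕ → ℝ} (hs : GoodSeq s) (i : ℕ) {a b : Fin m} (h : a < b) :
    s (i * m + a) < s (i * m + b) := by
  apply hs.mono
  have : (a : ℕ) < b := h
  omega

lemma idx_lt {i i' : ℕ} (h : i < i') (a b : Fin m) : i * m + a < i' * m + b := by
  have h1 : (a : ℕ) < m := a.2
  have h2 : (i + 1) * m ≤ i' * m := Nat.mul_le_mul_right m h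
  rw [add_mul, one_mul] at h2
  omega

/-- The nodes of a core. -/
def nodes {s : ℕ → ℝ} (hs : GoodSeq s) : Nodes where
  w := s (d.j * m + d.α ⟨d.j, by have := d.hj; omega⟩)
  x := fun i => s ((d.j + 1) * m + d.X i)
  a := fun i => s ((d.j + 2) * m + d.A i)
  b := fun i => s ((d.j + 3) * m + d.B i)
  y := fun i => s ((d.j + 4) * m + d.Y i)
  z := s ((d.j + 5) * m + d.α ⟨d.j + 5, d.hj⟩)
  w_pos := hs.pos _
  hx := fun _ _ h => node_lt' hs _ (d.hX h)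
  ha := fun _ _ h => node_lt' hs _ (d.hA h)
  hb := fun _ _ h => node_lt' hs _ (d.hB h)
  hy := fun _ _ h => node_lt' hs _ (d.hY h)
  wx := node_lt hs (by omega) _ _
  xa := node_lt hs (by omega) _ _
  ab := node_lt hs (by omega) _ _
  bY := node_lt hs (by omega) _ _
  yz := node_lt hs (by omega) _ _
  G1 := by
    intro i j k k' l hk
    refine hs.G1 _ _ _ _ _ (idx_lt (by omega) _ _) (idx_lt (by omega) _ _)
      (idx_lt (by omega) _ _) ?_ (idx_lt (by omega) _ _) (idx_lt (by omega) _ _)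
    intro h
    exact hk (d.hB.injective (Fin.ext (by omega)))
  G2 := by
    intro i j j' k l hk
    refine hs.G2 _ _ _ _ _ (idx_lt (by omega) _ _) (idx_lt (by omega) _ _) ?_
      (idx_lt (by omega) _ _) (idx_lt (by omega) _ _) (idx_lt (by omega) _ _)
    intro h
    exact hk (d.hA.injective (Fin.ext (by omega)))

/-- Macro positions of the copies of a core. -/
noncomputable def pos (s : ℕ → ℝ) (c : Copy) (i : Fin 4) : E3 := vtx s (d.run c.1) (d.j + i)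

lemma nodeOf_run_0 (s : ℕ → ℝ) (c : Ty) :
    nodeOf s (d.run c) d.j = s (d.j * m + d.α ⟨d.j, by have := d.hj; omega⟩) := by
  have := d.hj
  rw [nodeOf, dif_pos (by omega : d.j < T)]
  simp [run, upd]
lemma nodeOf_run_1 (s : ℕ → ℝ) (c : Ty) :
    nodeOf s (d.run c) (d.j + 1) = s ((d.j + 1) * m + d.X c.1) := by
  have := d.hj
  rw [nodeOf, dif_pos (by omega : d.j + 1 < T)]
  simp [run, upd]
lemma nodeOf_run_2 (s : ℕ → ℝ) (c : Ty) :
    nodeOf s (d.run c) (d.j + 2) = s ((d.j + 2) * m + d.A c.2.1) := by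
  have := d.hj
  rw [nodeOf, dif_pos (by omega : d.j + 2 < T)]
  simp [run, upd]
lemma nodeOf_run_3 (s : ℕ → ℝ) (c : Ty) :
    nodeOf s (d.run c) (d.j + 3) = s ((d.j + 3) * m + d.B c.2.2.1) := by
  have := d.hj
  rw [nodeOf, dif_pos (by omega : d.j + 3 < T)]
  simp [run, upd]
lemma nodeOf_run_4 (s : ℕ → ℝ) (c : Ty) :
    nodeOf s (d.run c) (d.j + 4) = s ((d.j + 4) * m + d.Y c.2.2.2) := by
  have := d.hj
  rw [nodeOf, dif_pos (by omega : d.j + 4 < T)]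
  simp [run, upd]
lemma nodeOf_run_5 (s : ℕ → ℝ) (c : Ty) :
    nodeOf s (d.run c) (d.j + 5) = s ((d.j + 5) * m + d.α ⟨d.j + 5, d.hj⟩) := by
  have := d.hj
  rw [nodeOf, dif_pos (by omega : d.j + 5 < T)]
  simp [run, upd]

lemma pos_eq {s : ℕ → ℝ} (hs : GoodSeq s) : d.pos s = (d.nodes hs).X₀ := by
  funext c i
  fin_cases i
  · change vtx s (d.run c.1) d.j = (d.nodes hs).X₀ c 0
    rw [Nodes.X₀_0, vtx, nodeOf_run_0, nodeOf_run_1, nodeOf_run_2]
    rfl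
  · change vtx s (d.run c.1) (d.j + 1) = (d.nodes hs).X₀ c 1
    rw [Nodes.X₀_1, vtx, nodeOf_run_1, nodeOf_run_2, nodeOf_run_3]
    rfl
  · change vtx s (d.run c.1) (d.j + 2) = (d.nodes hs).X₀ c 2
    rw [Nodes.X₀_2, vtx, nodeOf_run_2, nodeOf_run_3, nodeOf_run_4]
    rfl
  · change vtx s (d.run c.1) (d.j + 3) = (d.nodes hs).X₀ c 3
    rw [Nodes.X₀_3, vtx, nodeOf_run_3, nodeOf_run_4, nodeOf_run_5]
    rfl

/-- Different types have different runs. -/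
lemma run_ne {c c' : Ty} (h : c ≠ c') : d.run c ≠ d.run c' := by
  intro he
  apply h
  have hj := d.hj
  have e1 := congrFun he ⟨d.j + 1, by omega⟩
  have e2 := congrFun he ⟨d.j + 2, by omega⟩
  have e3 := congrFun he ⟨d.j + 3, by omega⟩
  have e4 := congrFun he ⟨d.j + 4, by omega⟩
  simp [run, upd] at e1 e2 e3 e4
  obtain ⟨i, j, k, l⟩ := c
  obtain ⟨i', j', k', l'⟩ := c'
  simp only at e1 e2 e3 e4
  rw [d.hX.injective e1, d.hA.injective e2, d.hB.injective e3, d.hY.injective e4]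

end Dat

/-- The middle joint of every copy is a proper angle. -/
lemma indep_hdir (N : Nodes) (c : Copy) : LinearIndependent ℝ ![hdir N.X₀ c 0, hdir N.X₀ c 1] := by
  have e0 : hdir N.X₀ c 0 = (T (N.x c.1.1) (N.a c.1.2.1) (N.b c.1.2.2.1) -
      T (N.x c.1.1) (N.a c.1.2.1) N.w) • U (N.x c.1.1) (N.a c.1.2.1) := N.hdir1 c
  have e1 : hdir N.X₀ c 1 = (T (N.a c.1.2.1) (N.b c.1.2.2.1) (N.y c.1.2.2.2) -
      T (N.a c.1.2.1) (N.b c.1.2.2.1) (N.x c.1.1)) • U (N.a c.1.2.1) (N.b c.1.2.2.1) := N.hdir2 c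
  have h0 := sub_ne_zero.2 (N.T1_ne c).symm
  have h1 := sub_ne_zero.2 (N.T2_ne c).symm
  have hxb : N.x c.1.1 ≠ N.b c.1.2.2.1 := ((N.x_lt_a c.1.1 c.1.2.1).trans (N.a_lt_b _ _)).ne
  rw [LinearIndependent.pair_iff]
  intro p q hpq
  rw [e0, e1, smul_smul, smul_smul] at hpq
  set p' := p * (T (N.x c.1.1) (N.a c.1.2.1) (N.b c.1.2.2.1) -
      T (N.x c.1.1) (N.a c.1.2.1) N.w) with hp'
  set q' := q * (T (N.a c.1.2.1) (N.b c.1.2.2.1) (N.y c.1.2.2.2) -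
      T (N.a c.1.2.1) (N.b c.1.2.2.1) (N.x c.1.1)) with hq'
  have g0 := congrArg (fun r : E3 => r 0) hpq
  have g1 := congrArg (fun r : E3 => r 1) hpq
  simp only [PiLp.add_apply, PiLp.smul_apply, smul_eq_mul, U_0, U_1, PiLp.zero_apply] at g0 g1
  have g2 : q' * (N.x c.1.1 - N.b c.1.2.2.1) = 0 := by
    linear_combination g1 + (N.x c.1.1 + N.a c.1.2.1) * g0
  have g3 : q' = 0 := (mul_eq_zero.1 g2).resolve_right (sub_ne_zero.2 hxb)
  have g4 : p' = 0 := by rw [g3] at g0; linarith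
  exact ⟨(mul_eq_zero.1 g4).resolve_right h0, (mul_eq_zero.1 g3).resolve_right h1⟩

/-- The conclusion of the compactness theorem for the scale `δ`. -/
def LockedAt (δ : ℝ) (X u : Copy → Fin 4 → E3) : Prop :=
  ∀ x : ℝ → Copy → Fin 4 → E3,
      (∀ c i, ContinuousOn (fun t => x t c i) (Icc 0 1)) →
      (∀ c i, ‖x 0 c i - (X c i + δ • u c i)‖ ≤ δ ^ 2) →
      (∀ t ∈ Icc (0 : ℝ) 1, ∀ c, ∀ r : Fin 3,
        dist (x t c r.castSucc) (x t c r.succ) = dist (x 0 c r.castSucc) (x 0 c r.succ)) →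
      (∀ t ∈ Icc (0 : ℝ) 1, ∀ c c', ∀ r r' : Fin 3, relT c c' →
        Disjoint (segment ℝ (x t c r.castSucc) (x t c r.succ))
          (segment ℝ (x t c' r'.castSucc) (x t c' r'.succ))) →
      ∀ c, LinearIndependent ℝ ![hdir X c 0, hdir X c 1] →
        dist (x 1 c 0) (x 1 c 2) < dist (x 1 c 0) (x 1 c 1) + dist (x 1 c 1) (x 1 c 2)

/-- The displacement field of a grid point. -/
noncomputable def gfld {N : ℕ} (V : Fin 12 → Fin N) (q : E3) : E3 :=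
  fld (fun i => ((V i : ℕ) : ℝ)) q

/-- One `L` works for all cores. -/
theorem exists_L {s : ℕ → ℝ} (hs : GoodSeq s) (T m : ℕ) :
    ∃ L : ℕ, 0 < L ∧ ∀ (d : Dat T m) (c : Fin 12 → ℕ) (ℓ : ℕ), 0 < ℓ →
      ∃ κ : Copy → Fin 12 → Fin L, ∀ V : Copy → Fin 12 → ℕ,
        (∀ p i, c i + (κ p i : ℕ) * ℓ ≤ V p i ∧ V p i < c i + ((κ p i : ℕ) + 1) * ℓ) →
        Rigid1 (d.pos s) (fun p i => fld (fun i => (V p i : ℝ)) (d.pos s p i)) := by
  have h : ∀ d : Dat T m, ∀ᶠ L : ℕ in atTop, ∀ (c : Fin 12 → ℕ) (ℓ : ℕ), 0 < ℓ →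
      ∃ κ : Copy → Fin 12 → Fin L, ∀ V : Copy → Fin 12 → ℕ,
        (∀ p i, c i + (κ p i : ℕ) * ℓ ≤ V p i ∧ V p i < c i + ((κ p i : ℕ) + 1) * ℓ) →
        Rigid1 (d.pos s) (fun p i => fld (fun i => (V p i : ℝ)) (d.pos s p i)) := by
    intro d
    obtain ⟨θ, e, η, he, hη, hθ⟩ := exists_disp (d.nodes hs)
    obtain ⟨L₀, hL₀⟩ := rounding θ η hη
    refine eventually_atTop.2 ⟨L₀, fun L hL c ℓ hℓ => ?_⟩
    obtain ⟨κ, hκ⟩ := hL₀ L hL c ℓ hℓ
    refine ⟨κ, fun V hV => ?_⟩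
    obtain ⟨θ₀, lam, θ', hlam, h1, h2⟩ := hκ V hV
    have key := core_rigid (d.nodes hs) e he θ₀ hlam θ' (hθ θ' h1)
    rw [d.pos_eq hs]
    simp only [h2]
    exact key
  have h' := (eventually_all.2 h).and (eventually_gt_atTop 0)
  obtain ⟨L, h1, h2⟩ := h'.exists
  exact ⟨L, h2, h1⟩

/-- One scale works for all cores in a universal block. -/
theorem exists_δ (s : ℕ → ℝ) (T m N : ℕ) :
    ∃ δ : ℝ, 0 < δ ∧ ∀ (d : Dat T m) (V : Copy → Fin 12 → Fin N),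
      Rigid1 (d.pos s) (fun p i => gfld (V p) (d.pos s p i)) →
      LockedAt δ (d.pos s) (fun p i => gfld (V p) (d.pos s p i)) := by
  have h : ∀ D : Dat T m × (Copy → Fin 12 → Fin N), ∀ᶠ δ in 𝓝[>] (0 : ℝ),
      Rigid1 (D.1.pos s) (fun p i => gfld (D.2 p) (D.1.pos s p i)) →
      LockedAt δ (D.1.pos s) (fun p i => gfld (D.2 p) (D.1.pos s p i)) := by
    intro D
    by_cases hR : Rigid1 (D.1.pos s) (fun p i => gfld (D.2 p) (D.1.pos s p i))
    · obtain ⟨δ₀, h0, hδ₀⟩ := lock relT (D.1.pos s) _ hR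
      have : Ioo (0 : ℝ) δ₀ ∈ 𝓝[>] (0 : ℝ) := Ioo_mem_nhdsGT h0
      filter_upwards [this] with δ hδ _
      exact hδ₀ δ hδ.1 hδ.2
    · exact Eventually.of_forall fun δ h => absurd h hR
  have h' := (eventually_all.2 h).and self_mem_nhdsWithin
  obtain ⟨δ, h1, h2⟩ := h'.exists
  exact ⟨δ, h2, fun d V => h1 (d, V)⟩

/-- The universal block: whenever few vertices are cut, it contains a locked core. -/
theorem universal_block (ε : ℝ) (hε : 0 < ε) :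
    ∃ (s : ℕ → ℝ) (T m N : ℕ) (δ : ℝ), 6 ≤ T ∧ 0 < m ∧ 0 < N ∧ 0 < δ ∧
      ∀ cut : (Fin 12 → Fin N) → (Fin T → Fin m) → Finset ℕ,
      (∑ V, ∑ α, ((cut V α ∩ Finset.range (T - 2)).card : ℝ)) ≤
        (1 / 2 - ε) * ((N : ℝ) ^ 12 * (m : ℝ) ^ T * ((T : ℝ) - 2)) →
      ∃ (d : Dat T m) (V : Copy → Fin 12 → Fin N),
        (∀ p, d.j + 1 ∉ cut (V p) (d.run p.1) ∧ d.j + 2 ∉ cut (V p) (d.run p.1)) ∧
        LockedAt δ (d.pos s) (fun p i => gfld (V p) (d.pos s p i)) ∧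
        ∀ p, LinearIndependent ℝ ![hdir (d.pos s) p 0, hdir (d.pos s) p 1] := by
  obtain ⟨s, hs⟩ := exists_goodSeq
  obtain ⟨T, m, hT, hm, hcomb⟩ := comb ε hε
  obtain ⟨L, hL, hrig⟩ := exists_L hs T m
  obtain ⟨N, hN, hcut⟩ := hcomb L hL
  obtain ⟨δ, hδ, hlock⟩ := exists_δ s T m N
  refine ⟨s, T, m, N, δ, hT, hm, hN, hδ, fun cut hc => ?_⟩
  obtain ⟨j, hj, α, X, A, B, Y, hX, hA, hB, hY, c, ℓ, hℓ, hbox, hall⟩ := hcut cut hc
  let d : Dat T m := ⟨j, hj, α, X, A, B, Y, hX, hA, hB, hY⟩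
  obtain ⟨κ, hκ⟩ := hrig d c ℓ hℓ
  choose W hW1 hW2 using hall
  refine ⟨d, fun p => W (κ p), fun p => hW2 (κ p) p.1.1 p.1.2.1 p.1.2.2.1 p.1.2.2.2, ?_, ?_⟩
  · exact hlock d _ (hκ (fun p i => (W (κ p) i : ℕ)) (fun p i => hW1 (κ p) i))
  · intro p
    rw [d.pos_eq hs]
    exact indep_hdir _ p

end Pool.Agent.Helper53.Chain
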