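import Pool.Agent.Helper53.Chain.Base

/-! CH-GP: general position perturbation -/

namespace Pool.Agent.Helper53.Chain

open Set MeasureTheory

theorem gp_ne_top (a b c : E3) : affineSpan ℝ ({a, b, c} : Set E3) ≠ ⊤ := by
  intro h
  have h1 : ({a, b, c} : Set E3) = Set.range ![a, b, c] := by
    simp [Matrix.range_cons, Matrix.range_empty, Set.insert_comm]
    ext x; simp; tauto
  have h2 := finrank_vectorSpan_range_le ℝ ![a, b, c] (n := 2) (by simp)
  rw [← h1, ← direction_affineSpan, h, AffineSubspace.direction_top, finrank_top,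
    finrank_euclideanSpace, Fintype.card_fin] at h2
  omega

theorem gp_avoid (p : E3) (ε : ℝ) (hε : 0 < ε) {ι : Type*} [Finite ι] (S : ι → AffineSubspace ℝ E3)
    (hS : ∀ i, S i ≠ ⊤) : ∃ x : E3, ‖x - p‖ < ε ∧ ∀ i, x ∉ S i := by
  have h0 : volume (⋃ i, (S i : Set E3)) = 0 := by
    rw [measure_iUnion_null_iff]
    intro i
    exact Measure.addHaar_affineSubspace volume (S i) (hS i)
  have h1 : 0 < volume (Metric.ball p ε) := Metric.measure_ball_pos volume p hε
  by_contra hcon
  push Not at hcon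
  have hsub : Metric.ball p ε ⊆ ⋃ i, (S i : Set E3) := by
    intro x hx
    rw [mem_ball_iff_norm] at hx
    obtain ⟨i, hi⟩ := hcon x hx
    exact mem_iUnion.2 ⟨i, hi⟩
  have := measure_mono (μ := volume) hsub
  rw [h0] at this
  exact absurd h1 (not_lt.2 this)

theorem gp_seq (q : ℕ → E3) (ε : ℝ) (hε : 0 < ε) (k : ℕ) : ∃ v : ℕ → E3,
    (∀ i < k, ‖v i - q i‖ < ε) ∧
    ∀ i < k, ∀ a < i, ∀ b < i, ∀ c < i, v i ∉ affineSpan ℝ ({v a, v b, v c} : Set E3) := by
  induction k with
  | zero => exact ⟨q, by simp, by simp⟩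
  | succ k ih =>
    obtain ⟨v, h1, h2⟩ := ih
    obtain ⟨x, hx, hxS⟩ := gp_avoid (q k) ε hε
      (fun p : Fin k × Fin k × Fin k => affineSpan ℝ ({v p.1, v p.2.1, v p.2.2} : Set E3))
      (fun p => gp_ne_top _ _ _)
    refine ⟨Function.update v k x, ?_, ?_⟩
    · intro i hi
      rcases Nat.lt_succ_iff_lt_or_eq.1 hi with hlt | rfl
      · rw [Function.update_of_ne hlt.ne]; exact h1 i hlt
      · rw [Function.update_self]; exact hx
    · intro i hi a ha b hb c hc
      rcases Nat.lt_succ_iff_lt_or_eq.1 hi with hlt | rfl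
      · rw [Function.update_of_ne hlt.ne, Function.update_of_ne (ha.trans hlt).ne,
          Function.update_of_ne (hb.trans hlt).ne, Function.update_of_ne (hc.trans hlt).ne]
        exact h2 i hlt a ha b hb c hc
      · rw [Function.update_self, Function.update_of_ne ha.ne, Function.update_of_ne hb.ne,
          Function.update_of_ne hc.ne]
        exact hxS (⟨a, ha⟩, ⟨b, hb⟩, ⟨c, hc⟩)

theorem gp_seg {S : AffineSubspace ℝ E3} {p r z : E3} (hp : p ∈ S) (hr : r ∉ S) (hz : z ∈ S)
    (hzs : z ∈ segment ℝ p r) : z = p := by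
  rw [segment_eq_image'] at hzs
  obtain ⟨θ, -, rfl⟩ := hzs
  by_contra hne
  have hθ : θ ≠ 0 := by
    rintro rfl; simp at hne
  apply hr
  have h1 : AffineMap.lineMap p (p + θ • (r - p)) θ⁻¹ ∈ S := AffineMap.lineMap_mem _ hp hz
  have h2 : AffineMap.lineMap p (p + θ • (r - p)) θ⁻¹ = r := by
    rw [AffineMap.lineMap_apply]
    simp [smul_smul, inv_mul_cancel₀ hθ]
  rwa [h2] at h1

theorem gp_seg_sub {S : AffineSubspace ℝ E3} {p r z : E3} (hp : p ∈ S) (hr : r ∈ S)
    (hzs : z ∈ segment ℝ p r) : z ∈ S := by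
  rw [segment_eq_image_lineMap] at hzs
  obtain ⟨θ, -, rfl⟩ := hzs
  exact AffineMap.lineMap_mem _ hp hr

theorem general_position (n : ℕ) (q : ℕ → E3) (ε : ℝ) (hε : 0 < ε) :
    ∃ v : ℕ → E3, (∀ i ≤ n, ‖v i - q i‖ < ε) ∧ IsChain n v := by
  obtain ⟨v, h1, h2⟩ := gp_seq q ε hε (n + 1)
  refine ⟨v, fun i hi => h1 i (by omega), ?_, ?_, ?_⟩
  · intro i hi he
    apply h2 (i + 1) (by omega) i (by omega) i (by omega) i (by omega)
    rw [← he]; exact subset_affineSpan ℝ _ (by simp)
  · intro i j hij hj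
    rw [Set.disjoint_left]
    intro z hz1 hz2
    have e1 : v i ∈ affineSpan ℝ ({v i, v (i + 1), v j} : Set E3) :=
      subset_affineSpan ℝ _ (by simp)
    have e2 : v (i + 1) ∈ affineSpan ℝ ({v i, v (i + 1), v j} : Set E3) :=
      subset_affineSpan ℝ _ (by simp)
    have e3 : v j ∈ affineSpan ℝ ({v i, v (i + 1), v j} : Set E3) :=
      subset_affineSpan ℝ _ (by simp)
    have hzj := gp_seg e3 (h2 (j + 1) (by omega) i (by omega) (i + 1) (by omega) j (by omega))
      (gp_seg_sub e1 e2 hz1) hz2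
    subst hzj
    refine h2 j (by omega) i (by omega) (i + 1) (by omega) (i + 1) (by omega) ?_
    exact gp_seg_sub (subset_affineSpan ℝ _ (by simp)) (subset_affineSpan ℝ _ (by simp)) hz1
  · intro i hi
    apply Subset.antisymm
    · rintro z ⟨hz1, hz2⟩
      have e1 : v i ∈ affineSpan ℝ ({v i, v (i + 1), v (i + 1)} : Set E3) :=
        subset_affineSpan ℝ _ (by simp)
      have e2 : v (i + 1) ∈ affineSpan ℝ ({v i, v (i + 1), v (i + 1)} : Set E3) :=
        subset_affineSpan ℝ _ (by simp)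
      exact mem_singleton_iff.2 (gp_seg e2 (h2 (i + 2) (by omega) i (by omega) (i + 1) (by omega)
        (i + 1) (by omega)) (gp_seg_sub e1 e2 hz1) hz2)
    · intro z hz
      rw [mem_singleton_iff] at hz
      subst hz
      exact ⟨right_mem_segment _ _ _, left_mem_segment _ _ _⟩

end Pool.Agent.Helper53.Chain
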