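import Pool.Agent.Helper53.Chain.Base
import Pool.Agent.Helper2.Ch.Upper

/-! CH-UB: cutting at every second vertex unlocks every chain. -/

namespace Pool.Agent.Helper53.Chain

open Set

theorem ub_chain {n : ℕ} {v : ℕ → E3} (h : IsChain n v) : UnlockChains.IsChain n v := by
  obtain ⟨h1, h2, h3⟩ := h
  refine ⟨h1, ?_⟩
  intro i j hij hj
  split_ifs with hc
  · subst hc; exact h3 i hj
  · exact Set.disjoint_iff_inter_eq_empty.1 (h2 i j (by omega) hj)

theorem unlocks_even (n : ℕ) (v : ℕ → E3) (h : IsChain n v) :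
    Unlocks n v ((Finset.Ioo 0 n).filter Even) := by
  have hK : (Finset.Ioo 0 n).filter Even = UnlockChains.evenCuts n := by
    ext c
    rw [Finset.mem_filter, Finset.mem_Ioo, UnlockChains.mem_evenCuts, Nat.even_iff]
    tauto
  rw [hK]
  intro d hd
  obtain ⟨a, b, ca, cb, hst, hpos, hstr, hsep⟩ := UnlockChains.unlocks_evenCuts (ub_chain h) d
  have hlen : ∀ t ∈ Icc (0 : ℝ) 1, ∀ i < n, dist (a t i) (b t i) = dist (v i) (v (i + 1)) := by
    intro t ht i hi
    rcases eq_or_lt_of_le ht.1 with h0 | h0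
    · rw [← h0, (hst i hi).1, (hst i hi).2]
    · exact (hpos t ⟨h0, ht.2⟩).1 i hi
  have hjoint : ∀ t ∈ Icc (0 : ℝ) 1, ∀ i, i + 1 < n → i + 1 ∉ UnlockChains.evenCuts n →
      b t i = a t (i + 1) := by
    intro t ht i hi hc
    rcases eq_or_lt_of_le ht.1 with h0 | h0
    · rw [← h0, (hst i (by omega)).2, (hst (i + 1) hi).1]
    · exact (hpos t ⟨h0, ht.2⟩).2.1 i hi hc
  have h11 : (1:ℝ) ∈ Icc (0:ℝ) 1 := by constructor <;> norm_num
  refine ⟨a, b, ⟨ca, cb, fun i hi => (hst i hi).1, fun i hi => (hst i hi).2, hlen, hjoint,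
    ?_, ?_⟩, ?_, ?_⟩
  · intro t ht i hi hc
    have := (hpos t ht).2.2 i (i + 1) (by omega) hi
    rw [if_pos ⟨rfl, hc⟩] at this
    rw [this, hjoint t ⟨ht.1.le, ht.2⟩ i hi hc]
  · intro t ht i j hij hj hc
    have := (hpos t ht).2.2 i j hij hj
    rw [if_neg (by rintro ⟨h1, h2⟩; rcases hc with hc | hc; · omega
                   · exact h2 hc)] at this
    exact Set.disjoint_iff_inter_eq_empty.2 this
  · intro i j hij hj hsp
    rcases eq_or_lt_of_le hij with rfl | hlt
    · rw [Finset.Icc_self, Finset.sum_singleton]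
      exact hlen 1 h11 i hj
    · have hi0 : i % 2 = 0 := by
        by_contra hne
        have := hsp (i + 1) (by omega) (by omega)
        rw [UnlockChains.mem_evenCuts] at this
        omega
      have hj1 : j = i + 1 := by
        by_contra hne
        have := hsp (i + 2) (by omega) (by omega)
        rw [UnlockChains.mem_evenCuts] at this
        omega
      subst hj1
      have hc : i + 1 ∉ UnlockChains.evenCuts n := hsp (i + 1) (by omega) le_rfl
      have hs := hstr i hj hc
      have hsum : ∑ m ∈ Finset.Icc i (i + 1), dist (v m) (v (m + 1)) =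
          dist (v i) (v (i + 1)) + dist (v (i + 1)) (v (i + 1 + 1)) := by
        rw [Finset.sum_Icc_succ_top (by omega), Finset.Icc_self, Finset.sum_singleton]
      rw [hsum, ← hlen 1 h11 i (by omega), ← hlen 1 h11 (i + 1) hj]
      have e : b 1 i = a 1 (i + 1) := hjoint 1 h11 i hj hc
      have hn := hs.norm_add
      rw [dist_eq_norm', dist_eq_norm', dist_eq_norm', ← hn]
      congr 1
      rw [e]; abel
  · intro i j hij hj hsp
    unfold SamePiece at hsp
    push Not at hsp
    obtain ⟨c, hc1, hc2, hc3⟩ := hsp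
    exact hsep i j hij hj ⟨c, hc3, hc1, hc2⟩

end Pool.Agent.Helper53.Chain
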