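import Pool.Agent.Helper53.Chain.ASM2
import Pool.Agent.Helper53.Chain.GP
import Pool.Agent.Helper53.Chain.UB

/-! # Assembly, part 3: the chain, counting, and the limit -/

namespace Pool.Agent.Helper53.Chain

open Set Filter Topology

/-- Runs of the universal block. -/
abbrev Run (T m N : ℕ) := (Fin 12 → Fin N) × (Fin T → Fin m)

/-- Number of runs. -/
noncomputable def nr (T m N : ℕ) : ℕ := Fintype.card (Run T m N)

/-- Numbering of the runs. -/
noncomputable def enc (T m N : ℕ) : Run T m N ≃ Fin (nr T m N) := Fintype.equivFin _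

lemma nr_pos {T m N : ℕ} (hm : 0 < m) (hN : 0 < N) : 0 < nr T m N := by
  haveI : Nonempty (Fin m) := ⟨⟨0, hm⟩⟩
  haveI : Nonempty (Fin N) := ⟨⟨0, hN⟩⟩
  exact Fintype.card_pos

lemma nr_eq (T m N : ℕ) : nr T m N = N ^ 12 * m ^ T := by
  simp [nr, Run]

/-- The target position of vertex number `g`. -/
noncomputable def tgt (s : ℕ → ℝ) (T m N : ℕ) (hr : 0 < nr T m N) (δ : ℝ) (g : ℕ) : E3 :=
  vtx s ((enc T m N).symm ⟨g / (T - 2) % nr T m N, Nat.mod_lt _ hr⟩).2 (g % (T - 2)) +
    δ • gfld ((enc T m N).symm ⟨g / (T - 2) % nr T m N, Nat.mod_lt _ hr⟩).1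
      (vtx s ((enc T m N).symm ⟨g / (T - 2) % nr T m N, Nat.mod_lt _ hr⟩).2 (g % (T - 2)))

/-- Number of vertex `i` of the run `R` in block `β`. -/
noncomputable def num (T m N : ℕ) (β : ℕ) (R : Run T m N) (i : ℕ) : ℕ :=
  β * (nr T m N * (T - 2)) + (enc T m N R : ℕ) * (T - 2) + i

lemma tgt_num (s : ℕ → ℝ) {T m N : ℕ} (hr : 0 < nr T m N) (δ : ℝ) (β : ℕ) (R : Run T m N)
    {i : ℕ} (hi : i < T - 2) :
    tgt s T m N hr δ (num T m N β R i) = vtx s R.2 i + δ • gfld R.1 (vtx s R.2 i) := by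
  have hM : 0 < T - 2 := by omega
  have h1 : num T m N β R i % (T - 2) = i := by
    have : num T m N β R i = i + (T - 2) * (β * nr T m N + (enc T m N R : ℕ)) := by
      rw [num]; ring
    rw [this, Nat.add_mul_mod_self_left, Nat.mod_eq_of_lt hi]
  have h2 : num T m N β R i / (T - 2) = (enc T m N R : ℕ) + nr T m N * β := by
    have : num T m N β R i = i + (T - 2) * ((enc T m N R : ℕ) + nr T m N * β) := by
      rw [num]; ring
    rw [this, Nat.add_mul_div_left _ _ hM, Nat.div_eq_of_lt hi, zero_add]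
  have h3 : num T m N β R i / (T - 2) % nr T m N = (enc T m N R : ℕ) := by
    rw [h2, Nat.add_mul_mod_self_left, Nat.mod_eq_of_lt (enc T m N R).2]
  have h4 : (enc T m N).symm ⟨num T m N β R i / (T - 2) % nr T m N, Nat.mod_lt _ hr⟩ = R := by
    rw [Equiv.symm_apply_eq]
    exact Fin.ext h3
  rw [tgt, h4, h1]

/-- Vertices of different runs of a block are far apart in the numbering. -/
lemma num_lt {T m N : ℕ} (β : ℕ) {R R' : Run T m N} (h : (enc T m N R : ℕ) < enc T m N R')
    {i : ℕ} (hi : i < T - 2) (i' : ℕ) : num T m N β R i < num T m N β R' i' := by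
  have h1 : ((enc T m N R : ℕ) + 1) * (T - 2) ≤ (enc T m N R' : ℕ) * (T - 2) :=
    Nat.mul_le_mul_right _ h
  rw [add_mul, one_mul] at h1
  rw [num, num]
  omega

lemma num_lt_end {T m N : ℕ} (β : ℕ) (R : Run T m N) {i : ℕ} (hi : i < T - 2) :
    num T m N β R i < (β + 1) * (nr T m N * (T - 2)) := by
  have h1 : ((enc T m N R : ℕ) + 1) * (T - 2) ≤ nr T m N * (T - 2) :=
    Nat.mul_le_mul_right _ (enc T m N R).2
  rw [add_mul, one_mul] at h1 ⊢
  rw [num]
  omega

lemma le_num {T m N : ℕ} (β : ℕ) (R : Run T m N) (i : ℕ) :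
    β * (nr T m N * (T - 2)) ≤ num T m N β R i := by
  rw [num]; omega

lemma num_add {T m N : ℕ} (β : ℕ) (R : Run T m N) (i k : ℕ) :
    num T m N β R i + k = num T m N β R (i + k) := by
  rw [num, num]; omega

lemma num_inj {T m N : ℕ} (β : ℕ) {R R' : Run T m N} {i i' : ℕ} (hi : i < T - 2)
    (hi' : i' < T - 2) (h : num T m N β R i = num T m N β R' i') : R = R' ∧ i = i' := by
  rcases lt_trichotomy (enc T m N R : ℕ) (enc T m N R' : ℕ) with h1 | h1 | h1
  · have := num_lt β h1 hi i'; omega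
  · have hR : R = R' := (enc T m N).injective (Fin.ext h1)
    subst hR
    refine ⟨rfl, ?_⟩
    rw [num, num] at h
    omega
  · have := num_lt β h1 hi' i; omega

/-- A motion which straightens the pieces contradicts a locked core. -/
theorem core_contra {s : ℕ → ℝ} {T m N : ℕ} {δ : ℝ} (hr : 0 < nr T m N)
    {n : ℕ} {v : ℕ → E3} (hv : IsChain n v)
    (htgt : ∀ g ≤ n, ‖v g - tgt s T m N hr δ g‖ < δ ^ 2) {K : Finset ℕ} (hK : Unlocks n v K)
    {β : ℕ} (hβ : (β + 1) * (nr T m N * (T - 2)) ≤ n + 1)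
    (d : Dat T m) (V : Copy → Fin 12 → Fin N)
    (hcut : ∀ p : Copy, num T m N β (V p, d.run p.1) (d.j + 1) ∉ K ∧
      num T m N β (V p, d.run p.1) (d.j + 2) ∉ K)
    (hlock : LockedAt δ (d.pos s) (fun p i => gfld (V p) (d.pos s p i)))
    (hind : ∀ p, LinearIndependent ℝ ![hdir (d.pos s) p 0, hdir (d.pos s) p 1]) : False := by
  obtain ⟨pp, qq, hM, hstr, -⟩ := hK 1 one_pos
  have hj := d.hj
  obtain ⟨g, hg⟩ : ∃ g : Copy → ℕ, g = fun p => num T m N β (V p, d.run p.1) d.j := ⟨_, rfl⟩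
  have hgi : ∀ p i, g p + i = num T m N β (V p, d.run p.1) (d.j + i) := by
    intro p i; rw [hg]; exact num_add _ _ _ _
  have hgn : ∀ p, g p + 3 ≤ n := by
    intro p
    have := num_lt_end β (V p, d.run p.1) (i := d.j + 3) (by omega)
    rw [hgi]
    omega
  have hK1 : ∀ p, g p + 1 ∉ K := fun p => by rw [hgi]; exact (hcut p).1
  have hK2 : ∀ p, g p + 2 ∉ K := fun p => by rw [hgi]; exact (hcut p).2
  obtain ⟨x, hx⟩ : ∃ x : ℝ → Copy → Fin 4 → E3, x = fun t p =>
    ![pp t (g p), pp t (g p + 1), pp t (g p + 2), qq t (g p + 2)] := ⟨_, rfl⟩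
  have x0 : ∀ t p, x t p 0 = pp t (g p) := fun t p => by rw [hx]; rfl
  have x1 : ∀ t p, x t p 1 = pp t (g p + 1) := fun t p => by rw [hx]; rfl
  have x2 : ∀ t p, x t p 2 = pp t (g p + 2) := fun t p => by rw [hx]; rfl
  have x3 : ∀ t p, x t p 3 = qq t (g p + 2) := fun t p => by rw [hx]; rfl
  have j1 : ∀ t ∈ Icc (0 : ℝ) 1, ∀ p, qq t (g p) = pp t (g p + 1) := fun t ht p =>
    hM.joint t ht (g p) (by have := hgn p; omega) (hK1 p)
  have j2 : ∀ t ∈ Icc (0 : ℝ) 1, ∀ p, qq t (g p + 1) = pp t (g p + 2) := fun t ht p =>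
    hM.joint t ht (g p + 1) (by have := hgn p; omega) (hK2 p)
  have hca : ∀ t p (r : Fin 3), x t p r.castSucc = pp t (g p + r) := by
    intro t p r
    fin_cases r
    · exact x0 t p
    · exact x1 t p
    · exact x2 t p
  have hsu : ∀ t ∈ Icc (0 : ℝ) 1, ∀ p (r : Fin 3), x t p r.succ = qq t (g p + r) := by
    intro t ht p r
    fin_cases r
    · exact (x1 t p).trans (j1 t ht p).symm
    · exact (x2 t p).trans (j2 t ht p).symm
    · exact x3 t p
  have h0 : (0 : ℝ) ∈ Icc (0 : ℝ) 1 := ⟨le_refl _, zero_le_one⟩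
  have h1 : (1 : ℝ) ∈ Icc (0 : ℝ) 1 := ⟨zero_le_one, le_refl _⟩
  have hstart : ∀ p (i : Fin 4), x 0 p i = v (g p + i) := by
    intro p i
    have := hgn p
    fin_cases i
    · exact (x0 0 p).trans (hM.start_p _ (by omega))
    · exact (x1 0 p).trans (hM.start_p _ (by omega))
    · exact (x2 0 p).trans (hM.start_p _ (by omega))
    · exact (x3 0 p).trans (hM.start_q _ (by omega))
  have key := hlock x ?_ ?_ ?_ ?_ ((0, 0, 0, 0), .zero) (hind _)
  · have hs := hstr (g ((0, 0, 0, 0), .zero)) (g ((0, 0, 0, 0), .zero) + 1) (by omega)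
      (by have := hgn ((0, 0, 0, 0), .zero); omega)
      (by
        intro k hk1 hk2
        have : k = g ((0, 0, 0, 0), .zero) + 1 := by omega
        rw [this]; exact hK1 _)
    have hI : Finset.Icc (g ((0, 0, 0, 0), .zero)) (g ((0, 0, 0, 0), .zero) + 1) =
        {g ((0, 0, 0, 0), .zero), g ((0, 0, 0, 0), .zero) + 1} := by
      ext k
      simp only [Finset.mem_Icc, Finset.mem_insert, Finset.mem_singleton]
      omega
    rw [hI, Finset.sum_pair (by omega)] at hs
    have hn := hgn ((0, 0, 0, 0), .zero)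
    rw [x0, x1, x2, ← j2 1 h1] at key
    have l1 := hM.len 1 h1 (g ((0, 0, 0, 0), .zero)) (by omega)
    have l2 := hM.len 1 h1 (g ((0, 0, 0, 0), .zero) + 1) (by omega)
    rw [j1 1 h1] at l1
    rw [hs, l1, l2] at key
    exact lt_irrefl _ key
  · -- continuity
    intro p i
    have := hgn p
    fin_cases i
    · exact (hM.cont_p (g p) (by omega)).congr fun t _ => x0 t p
    · exact (hM.cont_p (g p + 1) (by omega)).congr fun t _ => x1 t p
    · exact (hM.cont_p (g p + 2) (by omega)).congr fun t _ => x2 t p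
    · exact (hM.cont_q (g p + 2) (by omega)).congr fun t _ => x3 t p
  · -- start
    intro p i
    have := hgn p
    have hi : (i : ℕ) < 4 := i.2
    have h := htgt (g p + i) (by omega)
    rw [hstart]
    rw [hgi, tgt_num s hr δ β _ (by omega)] at h
    rw [hgi]
    exact h.le
  · -- lengths
    intro t ht p r
    have := hgn p
    have hr3 : (r : ℕ) < 3 := r.2
    rw [hca, hsu t ht, hca, hsu 0 h0, hM.len t ht _ (by omega), hM.len 0 h0 _ (by omega)]
  · -- disjointness
    have hd : ∀ t ∈ Icc (0 : ℝ) 1, ∀ i j, i + 1 < j → j < n →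
        Disjoint (segment ℝ (pp t i) (qq t i)) (segment ℝ (pp t j) (qq t j)) := by
      intro t ht i j hij hjn
      rcases eq_or_lt_of_le ht.1 with h | h
      · subst h
        rw [hM.start_p i (by omega), hM.start_q i (by omega), hM.start_p j hjn,
          hM.start_q j hjn]
        exact hv.2.1 i j hij hjn
      · exact hM.disj t ⟨h, ht.2⟩ i j (by omega) hjn (Or.inl hij)
    intro t ht c c' r r' hcc
    rw [hca, hsu t ht, hca, hsu t ht]
    have hr3 : (r : ℕ) < 3 := r.2
    have hr3' : (r' : ℕ) < 3 := r'.2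
    have hne : (enc T m N (V c, d.run c.1) : ℕ) ≠ enc T m N (V c', d.run c'.1) := by
      intro he
      have := (enc T m N).injective (Fin.ext he)
      exact d.run_ne hcc (congrArg Prod.snd this)
    have hn := hgn c
    have hn' := hgn c'
    rcases lt_or_gt_of_ne hne with h | h
    · have h3 := num_lt β h (i := d.j + r + 1) (by omega) (d.j + r')
      refine hd t ht _ _ ?_ (by omega)
      rw [hgi, hgi, num_add]
      exact h3
    · have h3 := num_lt β h (i := d.j + r' + 1) (by omega) (d.j + r)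
      refine (hd t ht _ _ ?_ (by omega)).symm
      rw [hgi, hgi, num_add]
      exact h3

/-- The cut vertices of a block are counted by its runs. -/
lemma block_count (T m N : ℕ) (β : ℕ) (K : Finset ℕ) :
    ∑ R : Run T m N, ((Finset.range (T - 2)).filter (fun i => num T m N β R i ∈ K)).card ≤
      (K ∩ Finset.Ico (β * (nr T m N * (T - 2))) ((β + 1) * (nr T m N * (T - 2)))).card := by
  classical
  rw [← Finset.card_sigma]
  refine Finset.card_le_card_of_injOn (fun p => num T m N β p.1 p.2) ?_ ?_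
  · rintro ⟨R, i⟩ h
    simp only [Finset.coe_sigma, Set.mem_sigma_iff, Finset.coe_univ, Set.mem_univ, true_and,
      Finset.coe_filter, Finset.mem_range, Set.mem_setOf_eq] at h
    simp only [Finset.coe_inter, Finset.coe_Ico, Set.mem_inter_iff, Finset.mem_coe, Set.mem_Ico]
    exact ⟨h.2, le_num β R i, num_lt_end β R h.1⟩
  · rintro ⟨R, i⟩ h ⟨R', i'⟩ h' heq
    simp only [Finset.coe_sigma, Set.mem_sigma_iff, Finset.coe_univ, Set.mem_univ, true_and,
      Finset.coe_filter, Finset.mem_range, Set.mem_setOf_eq] at h h'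
    obtain ⟨h1, h2⟩ := num_inj β h.1 h'.1 heq
    change R = R' at h1
    change i = i' at h2
    subst h1
    subst h2
    rfl

/-- For every `ε > 0` there are chains of any length `n` for which more than about `(1/2 - ε) n`
cuts are needed. -/
theorem exists_chain (ε : ℝ) (hε : 0 < ε) (hε2 : ε < 1 / 2) : ∃ C : ℕ, ∀ n : ℕ,
    ∃ v : ℕ → E3, IsChain n v ∧
      ∀ K : Finset ℕ, Unlocks n v K → (1 / 2 - ε) * ((n : ℝ) - C) ≤ K.card := by
  obtain ⟨s, T, m, N, δ, hT, hm, hN, hδ, hub⟩ := universal_block ε hε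
  have hr : 0 < nr T m N := nr_pos hm hN
  obtain ⟨Bk, hBk⟩ : ∃ Bk, Bk = nr T m N * (T - 2) := ⟨_, rfl⟩
  have hBk0 : 0 < Bk := by rw [hBk]; exact Nat.mul_pos hr (by omega)
  refine ⟨Bk, fun n => ?_⟩
  obtain ⟨v, htgt, hv⟩ := general_position n (tgt s T m N hr δ) (δ ^ 2) (by positivity)
  refine ⟨v, hv, fun K hK => ?_⟩
  -- every complete block
  have hblock : ∀ β, (β + 1) * Bk ≤ n + 1 →
      (1 / 2 - ε) * (Bk : ℝ) ≤ ((K ∩ Finset.Ico (β * Bk) ((β + 1) * Bk)).card : ℝ) := by
    intro β hβ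
    by_contra hcon
    push Not at hcon
    have hcount := block_count T m N β K
    rw [← hBk] at hcount
    have hsum : (∑ V : Fin 12 → Fin N, ∑ α : Fin T → Fin m,
        (((((Finset.range (T - 2)).filter (fun i => num T m N β (V, α) i ∈ K)) ∩
          Finset.range (T - 2)).card : ℕ) : ℝ)) ≤
        (1 / 2 - ε) * ((N : ℝ) ^ 12 * (m : ℝ) ^ T * ((T : ℝ) - 2)) := by
      have e1 : ∀ V : Fin 12 → Fin N, ∀ α : Fin T → Fin m,
          ((Finset.range (T - 2)).filter (fun i => num T m N β (V, α) i ∈ K)) ∩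
          Finset.range (T - 2) =
          (Finset.range (T - 2)).filter (fun i => num T m N β (V, α) i ∈ K) := by
        intro V α
        exact Finset.inter_eq_left.2 (Finset.filter_subset _ _)
      simp only [e1]
      rw [← Fintype.sum_prod_type' (f := fun (V : Fin 12 → Fin N) (α : Fin T → Fin m) =>
        ((((Finset.range (T - 2)).filter (fun i => num T m N β (V, α) i ∈ K)).card : ℕ) : ℝ))]
      rw [← Nat.cast_sum]
      have e2 : (Bk : ℝ) = (N : ℝ) ^ 12 * (m : ℝ) ^ T * ((T : ℝ) - 2) := by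
        rw [hBk, nr_eq, Nat.cast_mul, Nat.cast_sub (by omega : 2 ≤ T)]
        push_cast
        ring
      rw [← e2]
      refine le_trans ?_ hcon.le
      exact_mod_cast hcount
    obtain ⟨d, V, hcut, hlock, hind⟩ := hub _ hsum
    have hj := d.hj
    refine core_contra hr hv htgt hK (β := β) (by rw [← hBk]; exact hβ) d V ?_ hlock hind
    intro p
    obtain ⟨c1, c2⟩ := hcut p
    simp only [Finset.mem_filter, Finset.mem_range, not_and] at c1 c2
    exact ⟨c1 (by omega), c2 (by omega)⟩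
  -- summation over the blocks
  have hall : ∀ b, b * Bk ≤ n + 1 →
      (b : ℝ) * ((1 / 2 - ε) * (Bk : ℝ)) ≤ ((K ∩ Finset.Ico 0 (b * Bk)).card : ℝ) := by
    intro b
    induction b with
    | zero => intro _; simp
    | succ b ih =>
      intro hb
      have h1 : b * Bk ≤ (b + 1) * Bk := Nat.mul_le_mul_right _ (Nat.le_succ b)
      have h2 := ih (h1.trans hb)
      have h3 := hblock b hb
      have h4 : (K ∩ Finset.Ico 0 (b * Bk)).card +
          (K ∩ Finset.Ico (b * Bk) ((b + 1) * Bk)).card ≤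
          (K ∩ Finset.Ico 0 ((b + 1) * Bk)).card := by
        rw [← Finset.card_union_of_disjoint]
        · apply Finset.card_le_card
          intro x hx
          simp only [Finset.mem_union, Finset.mem_inter, Finset.mem_Ico] at hx ⊢
          rcases hx with ⟨a1, a2, a3⟩ | ⟨a1, a2, a3⟩
          · exact ⟨a1, Nat.zero_le _, lt_of_lt_of_le a3 h1⟩
          · exact ⟨a1, Nat.zero_le _, a3⟩
        · rw [Finset.disjoint_left]
          intro x hx hx'
          simp only [Finset.mem_inter, Finset.mem_Ico] at hx hx'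
          omega
      have h5 : (((K ∩ Finset.Ico 0 (b * Bk)).card : ℕ) : ℝ) +
          (((K ∩ Finset.Ico (b * Bk) ((b + 1) * Bk)).card : ℕ) : ℝ) ≤
          (((K ∩ Finset.Ico 0 ((b + 1) * Bk)).card : ℕ) : ℝ) := by exact_mod_cast h4
      push_cast
      linarith
  have hb := hall ((n + 1) / Bk) (Nat.div_mul_le_self _ _)
  have hlt : n + 1 < ((n + 1) / Bk + 1) * Bk := by
    have := Nat.lt_div_mul_add (a := n + 1) hBk0
    rw [add_mul, one_mul]; exact this
  have hlt' : (n : ℝ) + 1 < (((n + 1) / Bk : ℕ) : ℝ) * Bk + Bk := by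
    have : ((n + 1 : ℕ) : ℝ) < ((((n + 1) / Bk + 1) * Bk : ℕ) : ℝ) := by exact_mod_cast hlt
    push_cast at this
    linarith
  have hle : ((K ∩ Finset.Ico 0 ((n + 1) / Bk * Bk)).card : ℝ) ≤ K.card := by
    exact_mod_cast Finset.card_le_card Finset.inter_subset_left
  have hpos : 0 < 1 / 2 - ε := by linarith
  have : (1 / 2 - ε) * ((n : ℝ) - Bk) ≤ (1 / 2 - ε) * ((((n + 1) / Bk : ℕ) : ℝ) * Bk) :=
    mul_le_mul_of_nonneg_left (by linarith) hpos.le
  nlinarith

lemma card_even (n : ℕ) : 2 * ((Finset.Ioo 0 n).filter Even).card ≤ n := by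
  have h : (Finset.Ioo 0 n).filter Even ⊆ (Finset.range ((n - 1) / 2)).image (fun k => 2 * (k + 1)) := by
    intro x hx
    simp only [Finset.mem_filter, Finset.mem_Ioo] at hx
    obtain ⟨⟨h1, h2⟩, k, hk⟩ := hx
    simp only [Finset.mem_image, Finset.mem_range]
    exact ⟨k - 1, by omega, by omega⟩
  have h1 := (Finset.card_le_card h).trans Finset.card_image_le
  rw [Finset.card_range] at h1
  omega

lemma mem_set_even (n : ℕ) : ((Finset.Ioo 0 n).filter Even).card ∈
    {k | ∀ v : ℕ → E3, IsChain n v →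
      ∃ K : Finset ℕ, K ⊆ Finset.Ioo 0 n ∧ K.card = k ∧ Unlocks n v K} := fun v hv =>
  ⟨_, Finset.filter_subset _ _, rfl, unlocks_even n v hv⟩

theorem f_le (n : ℕ) : (f n : ℝ) ≤ n / 2 := by
  have h1 : f n ≤ ((Finset.Ioo 0 n).filter Even).card := Nat.sInf_le (mem_set_even n)
  have h2 := card_even n
  have h3 : 2 * f n ≤ n := by omega
  have h4 : ((2 * f n : ℕ) : ℝ) ≤ n := by exact_mod_cast h3
  push_cast at h4
  linarith

theorem le_f (ε : ℝ) (hε : 0 < ε) (hε2 : ε < 1 / 2) :
    ∃ C : ℕ, ∀ n : ℕ, (1 / 2 - ε) * ((n : ℝ) - C) ≤ f n := by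
  obtain ⟨C, hC⟩ := exists_chain ε hε hε2
  refine ⟨C, fun n => ?_⟩
  obtain ⟨v, hv, hK⟩ := hC n
  have hmem : f n ∈ {k | ∀ v : ℕ → E3, IsChain n v →
      ∃ K : Finset ℕ, K ⊆ Finset.Ioo 0 n ∧ K.card = k ∧ Unlocks n v K} :=
    Nat.sInf_mem ⟨_, mem_set_even n⟩
  obtain ⟨K, -, hcard, hun⟩ := hmem v hv
  rw [← hcard]
  exact hK K hun

/-- The number of cuts that is needed is asymptotically `n / 2`. -/
theorem tendsto_f : Tendsto (fun n : ℕ => (f n : ℝ) / n) atTop (𝓝 (1 / 2)) := by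
  rw [tendsto_order]
  constructor
  · intro a ha
    obtain ⟨ε, hε, hε2, hεa⟩ : ∃ ε : ℝ, 0 < ε ∧ ε < 1 / 2 ∧ a < 1 / 2 - 2 * ε := by
      refine ⟨min ((1 / 2 - a) / 4) (1 / 4), lt_min (by linarith) (by norm_num),
        (min_le_right _ _).trans_lt (by norm_num), ?_⟩
      have := min_le_left ((1 / 2 - a) / 4) (1 / 4)
      linarith
    obtain ⟨C, hC⟩ := le_f ε hε hε2
    obtain ⟨n₀, hn₀⟩ := exists_nat_gt ((C : ℝ) / ε)
    filter_upwards [eventually_ge_atTop n₀, eventually_gt_atTop 0] with n hn hn0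
    have hnpos : (0 : ℝ) < n := Nat.cast_pos.2 hn0
    rw [lt_div_iff₀ hnpos]
    have h1 := hC n
    have h2 : (C : ℝ) < ε * n := by
      have h3 : (C : ℝ) / ε < n := hn₀.trans_le (by exact_mod_cast hn)
      rw [div_lt_iff₀ hε] at h3
      linarith
    have h3 : (1 / 2 - ε) * (C : ℝ) ≤ 1 * C := by
      apply mul_le_mul_of_nonneg_right _ (Nat.cast_nonneg C)
      linarith
    nlinarith
  · intro a ha
    filter_upwards [eventually_gt_atTop 0] with n hn0
    have hnpos : (0 : ℝ) < n := Nat.cast_pos.2 hn0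
    rw [div_lt_iff₀ hnpos]
    have := f_le n
    nlinarith

end Pool.Agent.Helper53.Chain
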