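import Pool.Agent.Helper53.Chain.Base

/-! # Basic algebra for the chain construction -/

namespace Pool.Agent.Helper53.Chain

open Set

@[simp] lemma U_0 (a b : ℝ) : U a b 0 = 1 := by simp [U]
@[simp] lemma U_1 (a b : ℝ) : U a b 1 = -(a + b) := by simp [U]
@[simp] lemma U_2 (a b : ℝ) : U a b 2 = a * b := by simp [U]
@[simp] lemma Nn_0 (a b : ℝ) : Nn a b 0 = 0 := by simp [Nn]
@[simp] lemma Nn_1 (a b : ℝ) :
    Nn a b 1 = a ^ 4 + a ^ 3 * b + a ^ 2 * b ^ 2 + a * b ^ 3 + b ^ 4 := by simp [Nn]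
@[simp] lemma Nn_2 (a b : ℝ) :
    Nn a b 2 = -(a * b * (a ^ 3 + a ^ 2 * b + a * b ^ 2 + b ^ 3)) := by simp [Nn]
@[simp] lemma inf_0 (ω t q : E3) : inf ω t q 0 = t 0 + (ω 1 * q 2 - ω 2 * q 1) := by simp [inf]
@[simp] lemma inf_1 (ω t q : E3) : inf ω t q 1 = t 1 + (ω 2 * q 0 - ω 0 * q 2) := by simp [inf]
@[simp] lemma inf_2 (ω t q : E3) : inf ω t q 2 = t 2 + (ω 0 * q 1 - ω 1 * q 0) := by simp [inf]
@[simp] lemma fld_0 (θ : Fin 12 → ℝ) (q : E3) :
    fld θ q 0 = θ 0 + θ 1 * q 0 + θ 2 * q 1 + θ 3 * q 2 := by simp [fld]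
@[simp] lemma fld_1 (θ : Fin 12 → ℝ) (q : E3) :
    fld θ q 1 = θ 4 + θ 5 * q 0 + θ 6 * q 1 + θ 7 * q 2 := by simp [fld]
@[simp] lemma fld_2 (θ : Fin 12 → ℝ) (q : E3) :
    fld θ q 2 = θ 8 + θ 9 * q 0 + θ 10 * q 1 + θ 11 * q 2 := by simp [fld]

lemma E3_ext {p q : E3} (h0 : p 0 = q 0) (h1 : p 1 = q 1) (h2 : p 2 = q 2) : p = q := by
  ext i
  fin_cases i
  · exact h0
  · exact h1
  · exact h2

lemma inner_eq_dot (p q : E3) : inner ℝ p q = dot p q := by
  simp only [dot, PiLp.inner_apply, Fin.sum_univ_three, RCLike.inner_apply, conj_trivial]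
  ring

lemma dot_self (p : E3) : dot p p = ‖p‖ ^ 2 := by
  rw [← inner_eq_dot, real_inner_self_eq_norm_sq]

lemma dot_self_eq_zero {p : E3} : dot p p = 0 ↔ p = 0 := by
  rw [dot_self]; simp

lemma dot_comm (p q : E3) : dot p q = dot q p := by simp only [dot]; ring
lemma dot_add_left (p q r : E3) : dot (p + q) r = dot p r + dot q r := by
  simp only [dot, PiLp.add_apply]; ring
lemma dot_sub_left (p q r : E3) : dot (p - q) r = dot p r - dot q r := by
  simp only [dot, PiLp.sub_apply]; ring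
lemma dot_smul_left (c : ℝ) (p r : E3) : dot (c • p) r = c * dot p r := by
  simp only [dot, PiLp.smul_apply, smul_eq_mul]; ring
lemma dot_add_right (p q r : E3) : dot p (q + r) = dot p q + dot p r := by
  simp only [dot, PiLp.add_apply]; ring
lemma dot_sub_right (p q r : E3) : dot p (q - r) = dot p q - dot p r := by
  simp only [dot, PiLp.sub_apply]; ring
lemma dot_smul_right (c : ℝ) (p r : E3) : dot p (c • r) = c * dot p r := by
  simp only [dot, PiLp.smul_apply, smul_eq_mul]; ring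
@[simp] lemma dot_zero_left (p : E3) : dot 0 p = 0 := by simp [dot]
@[simp] lemma dot_zero_right (p : E3) : dot p 0 = 0 := by simp [dot]

lemma ev_add (s : ℝ) (p q : E3) : ev s (p + q) = ev s p + ev s q := by
  simp only [ev, PiLp.add_apply]; ring
lemma ev_sub (s : ℝ) (p q : E3) : ev s (p - q) = ev s p - ev s q := by
  simp only [ev, PiLp.sub_apply]; ring
lemma ev_smul (s c : ℝ) (p : E3) : ev s (c • p) = c * ev s p := by
  simp only [ev, PiLp.smul_apply, smul_eq_mul]; ring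
@[simp] lemma ev_zero (s : ℝ) : ev s 0 = 0 := by simp [ev]

lemma ev_U (s a b : ℝ) : ev s (U a b) = (s - a) * (s - b) := by
  simp only [ev, U_0, U_1, U_2]; ring

lemma ev_lerp (s t0 t1 t : ℝ) (p q : E3) :
    ev s (lerp t0 t1 t p q) = (t1 - t) / (t1 - t0) * ev s p + (t - t0) / (t1 - t0) * ev s q := by
  simp only [lerp, ev_add, ev_smul]

/-- A quadratic polynomial vanishing at three distinct points is zero. -/
lemma eq_zero_of_ev {a b c : ℝ} (hab : a ≠ b) (hac : a ≠ c) (hbc : b ≠ c) {p : E3}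
    (h1 : ev a p = 0) (h2 : ev b p = 0) (h3 : ev c p = 0) : p = 0 := by
  simp only [ev] at h1 h2 h3
  have hab' : a - b ≠ 0 := sub_ne_zero.2 hab
  have hac' : a - c ≠ 0 := sub_ne_zero.2 hac
  have hbc' : b - c ≠ 0 := sub_ne_zero.2 hbc
  have e1 : (a - b) * (p 0 * (a + b) + p 1) = 0 := by linear_combination h1 - h2
  have e2 : (a - c) * (p 0 * (a + c) + p 1) = 0 := by linear_combination h1 - h3
  have f1 := (mul_eq_zero.1 e1).resolve_left hab'
  have f2 := (mul_eq_zero.1 e2).resolve_left hac'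
  have e3 : (b - c) * p 0 = 0 := by linear_combination f1 - f2
  have g0 := (mul_eq_zero.1 e3).resolve_left hbc'
  have g1 : p 1 = 0 := by rw [g0] at f1; linarith
  have g2 : p 2 = 0 := by rw [g0, g1] at h1; linarith
  exact E3_ext (by simpa using g0) (by simpa using g1) (by simpa using g2)

lemma eq_of_ev {a b c : ℝ} (hab : a ≠ b) (hac : a ≠ c) (hbc : b ≠ c) {p q : E3}
    (h1 : ev a p = ev a q) (h2 : ev b p = ev b q) (h3 : ev c p = ev c q) : p = q := by
  rw [← sub_eq_zero]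
  exact eq_zero_of_ev hab hac hbc (by rw [ev_sub, h1, sub_self]) (by rw [ev_sub, h2, sub_self])
    (by rw [ev_sub, h3, sub_self])

/-- A quadratic polynomial vanishing at `a` and `b` is a multiple of `U a b`. -/
lemma eq_smul_U {a b : ℝ} (hab : a ≠ b) {p : E3} (h1 : ev a p = 0) (h2 : ev b p = 0) :
    p = p 0 • U a b := by
  simp only [ev] at h1 h2
  have hab' : a - b ≠ 0 := sub_ne_zero.2 hab
  have e1 : (a - b) * (p 0 * (a + b) + p 1) = 0 := by linear_combination h1 - h2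
  have f1 := (mul_eq_zero.1 e1).resolve_left hab'
  refine E3_ext ?_ ?_ ?_ <;> simp only [PiLp.smul_apply, smul_eq_mul, U_0, U_1, U_2]
  · ring
  · linear_combination f1
  · linear_combination h1 - a * f1

lemma T_sub (a b c d : ℝ) : T a b c - T a b d = (c - d) * h2 a b c d := by
  simp only [T, h2]; ring
lemma T_comm12 (a b c : ℝ) : T a b c = T b a c := by simp only [T]; ring
lemma T_comm23 (a b c : ℝ) : T a b c = T a c b := by simp only [T]; ring
lemma T_comm13 (a b c : ℝ) : T a b c = T c b a := by simp only [T]; ring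
lemma U_comm (a b : ℝ) : U a b = U b a := by
  refine E3_ext ?_ ?_ ?_ <;> simp only [U_0, U_1, U_2] <;> ring
lemma Nn_comm (a b : ℝ) : Nn a b = Nn b a := by
  refine E3_ext ?_ ?_ ?_ <;> simp only [Nn_0, Nn_1, Nn_2] <;> ring
lemma P_comm12 (a b c : ℝ) : P a b c = P b a c := by
  rw [P, P, T_comm12, U_comm, Nn_comm]
lemma P_comm23 (a b c : ℝ) : P a b c = P a c b := by
  refine E3_ext ?_ ?_ ?_ <;>
    simp only [P, T, PiLp.add_apply, PiLp.smul_apply, smul_eq_mul, U_0, U_1, U_2, Nn_0, Nn_1,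
      Nn_2] <;> ring
lemma P_comm13 (a b c : ℝ) : P a b c = P c b a := by
  rw [P_comm12, P_comm23, P_comm12]
lemma P_rot (a b c : ℝ) : P a b c = P b c a := by
  rw [P_comm12, P_comm23]

lemma h2_nonneg (a b c d : ℝ) : 0 ≤ h2 a b c d := by
  simp only [h2]; nlinarith [sq_nonneg (a + b + c + d), sq_nonneg a, sq_nonneg b, sq_nonneg c,
    sq_nonneg d]
lemma h2_pos_of_ne {a : ℝ} (ha : a ≠ 0) (b c d : ℝ) : 0 < h2 a b c d := by
  have : 0 < a ^ 2 := by positivity
  simp only [h2]; nlinarith [sq_nonneg (a + b + c + d), sq_nonneg b, sq_nonneg c,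
    sq_nonneg d]
lemma h2_pos {a b c d : ℝ} (ha : 0 < a) : 0 < h2 a b c d := h2_pos_of_ne ha.ne' b c d

/-- `T a b` is strictly increasing. -/
lemma T_lt {a b c d : ℝ} (ha : 0 < a) (hcd : c < d) : T a b c < T a b d := by
  have h := T_sub a b d c
  have := mul_pos (sub_pos.2 hcd) (h2_pos (a := a) (b := b) (c := d) (d := c) ha)
  linarith

lemma T_ne {a b c d : ℝ} (ha : 0 < a) (hcd : c ≠ d) : T a b c ≠ T a b d := by
  rcases lt_or_gt_of_ne hcd with h | h
  · exact (T_lt ha h).ne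
  · exact (T_lt ha h).ne'

lemma P_sub (a b c d : ℝ) : P a b c - P a b d = (T a b c - T a b d) • U a b := by
  rw [P, P, sub_smul]; abel

lemma ev_Nn_left (a b : ℝ) : ev a (Nn a b) = a ^ 5 := by simp only [ev, Nn_0, Nn_1, Nn_2]; ring
lemma ev_Nn_right (a b : ℝ) : ev b (Nn a b) = b ^ 5 := by simp only [ev, Nn_0, Nn_1, Nn_2]; ring
lemma ev_P_left (a b c : ℝ) : ev a (P a b c) = a ^ 5 := by
  rw [P, ev_add, ev_smul, ev_U, ev_Nn_left]; ring
lemma ev_P_mid (a b c : ℝ) : ev b (P a b c) = b ^ 5 := by rw [P_comm12, ev_P_left]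
lemma ev_P_right (a b c : ℝ) : ev c (P a b c) = c ^ 5 := by rw [P_comm13, ev_P_left]

/-- `<U a b, U c d> > 0` for positive nodes. -/
lemma dot_U_pos {a b c d : ℝ} (ha : 0 < a) (hb : 0 < b) (hc : 0 < c) (hd : 0 < d) :
    0 < dot (U a b) (U c d) := by
  simp only [dot, U_0, U_1, U_2]; nlinarith [mul_pos (add_pos ha hb) (add_pos hc hd),
    mul_pos (mul_pos ha hb) (mul_pos hc hd)]

lemma dot_U_self_pos (a b : ℝ) : 0 < dot (U a b) (U a b) := by
  simp only [dot, U_0, U_1, U_2]; nlinarith [sq_nonneg (a + b), sq_nonneg (a * b)]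

/-- The fundamental relation between volumes and heights. -/
lemma vol_U (a b b' : ℝ) (q : E3) : vol (U a b) (U a b') q = (b - b') * ev a q := by
  simp only [vol, ev, U_0, U_1, U_2]; ring

lemma vol_smul_smul (c d : ℝ) (p q r : E3) : vol (c • p) (d • q) r = c * d * vol p q r := by
  simp only [vol, PiLp.smul_apply, smul_eq_mul]; ring

/-- `inf` is affine. -/
lemma inf_line (ω t p u : E3) (s : ℝ) : inf ω t (p + s • u) = inf ω t p + s • inf ω 0 u := by
  refine E3_ext ?_ ?_ ?_ <;>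
    simp only [inf_0, inf_1, inf_2, PiLp.add_apply, PiLp.smul_apply, smul_eq_mul,
      PiLp.zero_apply] <;> ring

lemma inf_sub (ω t p q : E3) : inf ω t p - inf ω t q = inf ω 0 (p - q) := by
  refine E3_ext ?_ ?_ ?_ <;>
    simp only [inf_0, inf_1, inf_2, PiLp.sub_apply, PiLp.zero_apply] <;> ring

lemma dot_inf_self (ω p : E3) : dot (inf ω 0 p) p = 0 := by
  simp only [dot, inf_0, inf_1, inf_2, PiLp.zero_apply]; ring

lemma lerp_line (t0 t1 t : ℝ) (h : t0 ≠ t1) (p u : E3) :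
    lerp t0 t1 t (p + t0 • u) (p + t1 • u) = p + t • u := by
  have h' : t1 - t0 ≠ 0 := sub_ne_zero.2 h.symm
  refine E3_ext ?_ ?_ ?_ <;>
    simp only [lerp, PiLp.add_apply, PiLp.smul_apply, smul_eq_mul] <;> field_simp <;> ring

lemma lerp_sub (t0 t1 t : ℝ) (p q p' q' : E3) :
    lerp t0 t1 t (p - p') (q - q') = lerp t0 t1 t p q - lerp t0 t1 t p' q' := by
  refine E3_ext ?_ ?_ ?_ <;>
    simp only [lerp, PiLp.add_apply, PiLp.sub_apply, PiLp.smul_apply, smul_eq_mul] <;> ring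

lemma lerp_add (t0 t1 t : ℝ) (p q p' q' : E3) :
    lerp t0 t1 t (p + p') (q + q') = lerp t0 t1 t p q + lerp t0 t1 t p' q' := by
  refine E3_ext ?_ ?_ ?_ <;>
    simp only [lerp, PiLp.add_apply, PiLp.smul_apply, smul_eq_mul] <;> ring

lemma lerp_smul (t0 t1 t c : ℝ) (p q : E3) :
    lerp t0 t1 t (c • p) (c • q) = c • lerp t0 t1 t p q := by
  refine E3_ext ?_ ?_ ?_ <;>
    simp only [lerp, PiLp.add_apply, PiLp.smul_apply, smul_eq_mul] <;> ring

lemma lerp_self_left (t0 t1 : ℝ) (h : t0 ≠ t1) (p q : E3) : lerp t0 t1 t0 p q = p := by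
  have h' : t1 - t0 ≠ 0 := sub_ne_zero.2 h.symm
  simp [lerp, div_self h']

lemma lerp_self_right (t0 t1 : ℝ) (h : t0 ≠ t1) (p q : E3) : lerp t0 t1 t1 p q = q := by
  have h' : t1 - t0 ≠ 0 := sub_ne_zero.2 h.symm
  simp [lerp, div_self h']

/-- `affv` is affine. -/
lemma affv_line (A : Fin 3 → ℝ) (p u : E3) (s : ℝ) :
    affv A (p + s • u) = affv A p + s * (A 0 * u 0 + A 1 * u 1) := by
  simp only [affv, PiLp.add_apply, PiLp.smul_apply, smul_eq_mul]; ring

lemma fld_line (θ : Fin 12 → ℝ) (p u : E3) (s : ℝ) :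
    fld θ (p + s • u) = fld θ p + s • (fld θ u - fld θ 0) := by
  refine E3_ext ?_ ?_ ?_ <;>
    simp only [fld_0, fld_1, fld_2, PiLp.add_apply, PiLp.sub_apply, PiLp.smul_apply, smul_eq_mul,
      PiLp.zero_apply] <;> ring

lemma fld_add (θ θ' : Fin 12 → ℝ) (q : E3) : fld (θ + θ') q = fld θ q + fld θ' q := by
  refine E3_ext ?_ ?_ ?_ <;>
    simp only [fld_0, fld_1, fld_2, PiLp.add_apply, Pi.add_apply] <;> ring

lemma fld_smul (c : ℝ) (θ : Fin 12 → ℝ) (q : E3) : fld (c • θ) q = c • fld θ q := by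
  refine E3_ext ?_ ?_ ?_ <;>
    simp only [fld_0, fld_1, fld_2, PiLp.smul_apply, Pi.smul_apply, smul_eq_mul] <;> ring

namespace Nodes

variable (N : Nodes)

@[simp] lemma X₀_0 (c : Copy) : N.X₀ c 0 = P N.w (N.x c.1.1) (N.a c.1.2.1) := rfl
@[simp] lemma X₀_1 (c : Copy) :
    N.X₀ c 1 = P (N.x c.1.1) (N.a c.1.2.1) (N.b c.1.2.2.1) := rfl
@[simp] lemma X₀_2 (c : Copy) :
    N.X₀ c 2 = P (N.a c.1.2.1) (N.b c.1.2.2.1) (N.y c.1.2.2.2) := rfl
@[simp] lemma X₀_3 (c : Copy) :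
    N.X₀ c 3 = P (N.b c.1.2.2.1) (N.y c.1.2.2.2) N.z := rfl

lemma w_lt_x (i : Fin 3) : N.w < N.x i := N.wx.trans_le (N.hx.monotone (Fin.zero_le i))
lemma x_lt_a (i j : Fin 3) : N.x i < N.a j :=
  (N.hx.monotone (Fin.le_last i)).trans_lt (N.xa.trans_le (N.ha.monotone (Fin.zero_le j)))
lemma a_lt_b (j k : Fin 3) : N.a j < N.b k :=
  (N.ha.monotone (Fin.le_last j)).trans_lt (N.ab.trans_le (N.hb.monotone (Fin.zero_le k)))
lemma b_lt_y (k : Fin 3) (l : Fin 7) : N.b k < N.y l :=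
  (N.hb.monotone (Fin.le_last k)).trans_lt (N.bY.trans_le (N.hy.monotone (Fin.zero_le l)))
lemma y_lt_z (l : Fin 7) : N.y l < N.z := (N.hy.monotone (Fin.le_last l)).trans_lt N.yz
lemma x_pos (i : Fin 3) : 0 < N.x i := N.w_pos.trans (N.w_lt_x i)
lemma a_pos (i : Fin 3) : 0 < N.a i := (N.x_pos 0).trans (N.x_lt_a 0 i)
lemma b_pos (i : Fin 3) : 0 < N.b i := (N.a_pos 0).trans (N.a_lt_b 0 i)
lemma y_pos (i : Fin 7) : 0 < N.y i := (N.b_pos 0).trans (N.b_lt_y 0 i)
lemma z_pos : 0 < N.z := (N.y_pos 0).trans (N.y_lt_z 0)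

end Nodes

end Pool.Agent.Helper53.Chain
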