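import Pool.Agent.Helper53.Chain.Defs

/-! # Internal definitions for the lower bound

Points and vectors of `E3` are read as quadratic polynomials
`q(s) = q 0 * s ^ 2 + q 1 * s + q 2`. -/

namespace Pool.Agent.Helper53.Chain

open Set

/-- Value of the quadratic polynomial `q` at `s`. -/
def ev (s : ℝ) (q : E3) : ℝ := q 0 * s ^ 2 + q 1 * s + q 2

/-- Inner product in coordinates. -/
def dot (p q : E3) : ℝ := p 0 * q 0 + p 1 * q 1 + p 2 * q 2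

/-- Triple product (determinant). -/
def vol (p q r : E3) : ℝ :=
  p 0 * (q 1 * r 2 - q 2 * r 1) - p 1 * (q 0 * r 2 - q 2 * r 0) + p 2 * (q 0 * r 1 - q 1 * r 0)

/-- The infinitesimal isometry `q ↦ t + ω × q`. -/
def inf (ω t q : E3) : E3 :=
  !₂[t 0 + (ω 1 * q 2 - ω 2 * q 1), t 1 + (ω 2 * q 0 - ω 0 * q 2),
    t 2 + (ω 0 * q 1 - ω 1 * q 0)]

/-- The polynomial `(z - a) (z - b)`. -/
def U (a b : ℝ) : E3 := !₂[1, -(a + b), a * b]

/-- Complete homogeneous polynomial of degree `3` in `a, b, c`: third divided difference of `s ^ 5`. -/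
def T (a b c : ℝ) : ℝ :=
  a ^ 3 + b ^ 3 + c ^ 3 + a ^ 2 * b + a ^ 2 * c + b ^ 2 * a + b ^ 2 * c + c ^ 2 * a + c ^ 2 * b
    + a * b * c

/-- The linear interpolant of `s ^ 5` at `a, b`. -/
def Nn (a b : ℝ) : E3 :=
  !₂[0, a ^ 4 + a ^ 3 * b + a ^ 2 * b ^ 2 + a * b ^ 3 + b ^ 4,
    -(a * b * (a ^ 3 + a ^ 2 * b + a * b ^ 2 + b ^ 3))]

/-- The quadratic interpolant of `s ^ 5` at `a, b, c`. -/
def P (a b c : ℝ) : E3 := Nn a b + T a b c • U a b

/-- Complete homogeneous polynomial of degree `2` in four variables. -/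
def h2 (a b c d : ℝ) : ℝ :=
  a ^ 2 + b ^ 2 + c ^ 2 + d ^ 2 + a * b + a * c + a * d + b * c + b * d + c * d

/-- Affine interpolation: `p` at parameter `t0`, `q` at parameter `t1`. -/
noncomputable def lerp (t0 t1 t : ℝ) (p q : E3) : E3 :=
  ((t1 - t) / (t1 - t0)) • p + ((t - t0) / (t1 - t0)) • q

/-- The affine function with coefficients `A` on a plane `{q | ev s q = s ^ 5}`, written in the
coordinates `q 0, q 1`. -/
def affv (A : Fin 3 → ℝ) (q : E3) : ℝ := A 0 * q 0 + A 1 * q 1 + A 2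

/-- The affine map of `E3` with the 12 coefficients `θ`. -/
def fld (θ : Fin 12 → ℝ) (q : E3) : E3 :=
  !₂[θ 0 + θ 1 * q 0 + θ 2 * q 1 + θ 3 * q 2, θ 4 + θ 5 * q 0 + θ 6 * q 1 + θ 7 * q 2,
    θ 8 + θ 9 * q 0 + θ 10 * q 1 + θ 11 * q 2]

noncomputable def al1 (x a b : ℝ) : ℝ := dot (U x b) (U a b) / ((a - x) * (b - a))
noncomputable def al2 (a b y : ℝ) : ℝ := dot (U b y) (U a b) / ((b - a) * (y - a))
noncomputable def be1 (x a b : ℝ) : ℝ := dot (U x a) (U a b) / ((b - x) * (b - a))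
noncomputable def be2 (a b y : ℝ) : ℝ := dot (U a y) (U a b) / ((b - a) * (y - b))

/-- The nodes of a core. -/
structure Nodes where
  w : ℝ
  x : Fin 3 → ℝ
  a : Fin 3 → ℝ
  b : Fin 3 → ℝ
  y : Fin 7 → ℝ
  z : ℝ
  w_pos : 0 < w
  hx : StrictMono x
  ha : StrictMono a
  hb : StrictMono b
  hy : StrictMono y
  wx : w < x 0
  xa : x 2 < a 0
  ab : a 2 < b 0
  bY : b 2 < y 0
  yz : y 6 < z
  G1 : ∀ i j k k' l, k' ≠ k →
    al1 (x i) (a j) (b k) * (T (a j) (b k) (b k') - T (a j) (b k) (x i)) <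
      al2 (a j) (b k) (y l) * (T (a j) (b k) (y l) - T (a j) (b k) (b k'))
  G2 : ∀ i j j' k l, j' ≠ j →
    be1 (x i) (a j) (b k) * (T (a j) (b k) (a j') - T (a j) (b k) (x i)) <
      be2 (a j) (b k) (y l) * (T (a j) (b k) (y l) - T (a j) (b k) (a j'))

/-- Types `(i, j, k, l)`: the three rods run through the nodes `w < x i < a j < b k < y l < z`. -/
abbrev Ty := Fin 3 × Fin 3 × Fin 3 × Fin 7

/-- Kinds of copies. -/
inductive Kind
  | plus | minus | zero | up | dn | up' | dn'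
  deriving DecidableEq, Fintype

abbrev Copy := Ty × Kind

namespace Nodes

variable (N : Nodes)

/-- The macro positions of the four vertices of a copy. -/
def X₀ (c : Copy) : Fin 4 → E3 :=
  ![P N.w (N.x c.1.1) (N.a c.1.2.1), P (N.x c.1.1) (N.a c.1.2.1) (N.b c.1.2.2.1),
    P (N.a c.1.2.1) (N.b c.1.2.2.1) (N.y c.1.2.2.2), P (N.b c.1.2.2.1) (N.y c.1.2.2.2) N.z]

/-- Displacement of rod 1 at its point `P x a s`, if the vertices are displaced by `v`. -/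
noncomputable def at1 (c : Copy) (v : Fin 4 → E3) (s : ℝ) : E3 :=
  lerp (T (N.x c.1.1) (N.a c.1.2.1) N.w) (T (N.x c.1.1) (N.a c.1.2.1) (N.b c.1.2.2.1))
    (T (N.x c.1.1) (N.a c.1.2.1) s) (v 0) (v 1)

/-- Displacement of rod 2 at its point `P a b s`. -/
noncomputable def at2 (c : Copy) (v : Fin 4 → E3) (s : ℝ) : E3 :=
  lerp (T (N.a c.1.2.1) (N.b c.1.2.2.1) (N.x c.1.1))
    (T (N.a c.1.2.1) (N.b c.1.2.2.1) (N.y c.1.2.2.2))
    (T (N.a c.1.2.1) (N.b c.1.2.2.1) s) (v 1) (v 2)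

/-- Displacement of rod 3 at its point `P b y s`. -/
noncomputable def at3 (c : Copy) (v : Fin 4 → E3) (s : ℝ) : E3 :=
  lerp (T (N.b c.1.2.2.1) (N.y c.1.2.2.2) (N.a c.1.2.1))
    (T (N.b c.1.2.2.1) (N.y c.1.2.2.2) N.z)
    (T (N.b c.1.2.2.1) (N.y c.1.2.2.2) s) (v 2) (v 3)

/-- Height of rod 1 over the plane `x` at `P x a (a j')`. -/
noncomputable def h1 (v : Copy → Fin 4 → E3) (c : Copy) (j' : Fin 3) : ℝ :=
  ev (N.x c.1.1) (N.at1 c (v c) (N.a j'))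

/-- Height of rod 2 over the plane `a` at `P a b (b k')`. -/
noncomputable def h2a (v : Copy → Fin 4 → E3) (c : Copy) (k' : Fin 3) : ℝ :=
  ev (N.a c.1.2.1) (N.at2 c (v c) (N.b k'))

/-- Height of rod 2 over the plane `b` at `P a b (a j')`. -/
noncomputable def h2b (v : Copy → Fin 4 → E3) (c : Copy) (j' : Fin 3) : ℝ :=
  ev (N.b c.1.2.2.1) (N.at2 c (v c) (N.a j'))

/-- Height of rod 3 over the plane `y` at `P b y (b k')`. -/
noncomputable def h3 (v : Copy → Fin 4 → E3) (c : Copy) (k' : Fin 3) : ℝ :=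
  ev (N.y c.1.2.2.2) (N.at3 c (v c) (N.b k'))

/-- Height of rod 1 over the plane `a` at `P x a (x i')`. -/
noncomputable def h5 (v : Copy → Fin 4 → E3) (c : Copy) (i' : Fin 3) : ℝ :=
  ev (N.a c.1.2.1) (N.at1 c (v c) (N.x i'))

/-- Height of rod 3 over the plane `b` at `P b y (y l')`. -/
noncomputable def h6 (v : Copy → Fin 4 → E3) (c : Copy) (l' : Fin 7) : ℝ :=
  ev (N.b c.1.2.2.1) (N.at3 c (v c) (N.y l'))

/-- The order of the displacements `u` at the common points of two rods in a common plane is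
weakly respected by `v`. -/
structure Ord (u v : Copy → Fin 4 → E3) : Prop where
  K1 : ∀ i j j' k k' l l' κ κ', j ≠ j' →
    N.h1 u ((i, j, k, l), κ) j' < N.h1 u ((i, j', k', l'), κ') j →
    N.h1 v ((i, j, k, l), κ) j' ≤ N.h1 v ((i, j', k', l'), κ') j
  K2 : ∀ i i' j k k' l l' κ κ', k ≠ k' →
    N.h2a u ((i, j, k, l), κ) k' < N.h2a u ((i', j, k', l'), κ') k →
    N.h2a v ((i, j, k, l), κ) k' ≤ N.h2a v ((i', j, k', l'), κ') k
  K3 : ∀ i i' j j' k l l' κ κ', j ≠ j' →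
    N.h2b u ((i, j, k, l), κ) j' < N.h2b u ((i', j', k, l'), κ') j →
    N.h2b v ((i, j, k, l), κ) j' ≤ N.h2b v ((i', j', k, l'), κ') j
  K4 : ∀ i i' j j' k k' l κ κ', k ≠ k' →
    N.h3 u ((i, j, k, l), κ) k' < N.h3 u ((i', j', k', l), κ') k →
    N.h3 v ((i, j, k, l), κ) k' ≤ N.h3 v ((i', j', k', l), κ') k
  K5 : ∀ i i' j k k' l l' κ κ', i ≠ i' →
    N.h5 u ((i, j, k, l), κ) i' < N.h5 u ((i', j, k', l'), κ') i →
    N.h5 v ((i, j, k, l), κ) i' ≤ N.h5 v ((i', j, k', l'), κ') i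
  K6 : ∀ i i' j j' k l l' κ κ', l ≠ l' →
    N.h6 u ((i, j, k, l), κ) l' < N.h6 u ((i', j', k, l'), κ') l →
    N.h6 v ((i, j, k, l), κ) l' ≤ N.h6 v ((i', j', k, l'), κ') l

/-- The rods keep their length to first order. -/
def Len (v : Copy → Fin 4 → E3) : Prop :=
  ∀ c, ∀ r : Fin 3,
    dot (v c r.succ - v c r.castSucc) (N.X₀ c r.succ - N.X₀ c r.castSucc) = 0

end Nodes

/-- Sign pattern: for `j' ≠ j` this is `1` if `j'` is the smaller of the two indices different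
from `j`, and `-1` if it is the larger one. -/
def sg (j j' : Fin 3) : ℝ := if j' = 0 ∨ (j = 0 ∧ j' = 1) then 1 else -1

/-- Pattern of the upward cycle. -/
def su (i i' : Fin 3) : ℝ := if (i = 0 ∧ i' = 1) ∨ (i = 1 ∧ i' = 2) ∨ (i = 2 ∧ i' = 0) then -1 else 1

/-- Index selection `0 ↦ 0`, `1, 2 ↦ 1`. -/
def sel (i : Fin 3) : Fin 3 := if i = 0 then 0 else 1

/-- Index selection `0 ↦ 1`, `1, 2 ↦ 0`. -/
def jx (i : Fin 3) : Fin 3 := if i = 0 then 1 else 0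

/-- Index selection `0 ↦ 1`, everything else `↦ 0`. -/
def jy (l : Fin 7) : Fin 7 := if l = 0 then 1 else 0

/-- The first three indices of `y`. -/
def y3 (l : Fin 3) : Fin 7 := Fin.castLE (by norm_num) l

/-- The heights of the copies of a core. -/
structure Hts (N : Nodes) (e : ℝ) (u : Copy → Fin 4 → E3) : Prop where
  p1 : ∀ τ : Ty, ∀ j', j' ≠ τ.2.1 →
    |N.h1 u (τ, .plus) j' - sg τ.2.1 j' * ((τ.2.1 : ℕ) + 1)| < 1 / 4 ∧
    |N.h1 u (τ, .minus) j' + sg τ.2.1 j' * ((τ.2.1 : ℕ) + 1)| < 1 / 4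
  p2 : ∀ τ : Ty, ∀ k', k' ≠ τ.2.2.1 →
    |N.h2a u (τ, .plus) k' + sg τ.2.2.1 k' * ((τ.2.2.1 : ℕ) + 1)| < 1 / 4 ∧
    |N.h2a u (τ, .minus) k' - sg τ.2.2.1 k' * ((τ.2.2.1 : ℕ) + 1)| < 1 / 4
  p3 : ∀ τ : Ty, ∀ j', j' ≠ τ.2.1 →
    |N.h2b u (τ, .plus) j' - sg τ.2.1 j' * ((τ.2.1 : ℕ) + 1)| < 1 / 4 ∧
    |N.h2b u (τ, .minus) j' + sg τ.2.1 j' * ((τ.2.1 : ℕ) + 1)| < 1 / 4
  p4 : ∀ τ : Ty, ∀ k', k' ≠ τ.2.2.1 →
    |N.h3 u (τ, .plus) k' - sg τ.2.2.1 k' * ((τ.2.2.1 : ℕ) + 1)| < 1 / 4 ∧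
    |N.h3 u (τ, .minus) k' + sg τ.2.2.1 k' * ((τ.2.2.1 : ℕ) + 1)| < 1 / 4
  z1 : ∀ τ : Ty, ∀ κ, κ ≠ .plus → κ ≠ .minus → ∀ j', j' ≠ τ.2.1 → |N.h1 u (τ, κ) j'| < 1 / 4
  z2 : ∀ τ : Ty, ∀ κ, κ ≠ .plus → κ ≠ .minus → ∀ k', k' ≠ τ.2.2.1 → |N.h2a u (τ, κ) k'| < 1 / 4
  z3 : ∀ τ : Ty, ∀ κ, κ ≠ .plus → κ ≠ .minus → ∀ j', j' ≠ τ.2.1 → |N.h2b u (τ, κ) j'| < 1 / 4
  z4 : ∀ τ : Ty, ∀ κ, κ ≠ .plus → κ ≠ .minus → ∀ k', k' ≠ τ.2.2.1 → |N.h3 u (τ, κ) k'| < 1 / 4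
  u5 : ∀ i j l, ∀ i', i' ≠ i →
    |N.h5 u ((i, j, sel i, l), .up) i' - e * su i i'| < e / 4 ∧
    |N.h5 u ((i, j, sel i, l), .dn) i' + 2 * e * su i i'| < e / 4
  o5 : ∀ i j k l κ, (k = sel i → κ ≠ .up ∧ κ ≠ .dn) → |N.h5 u ((i, j, k, l), κ) (jx i)| < e / 4
  u6 : ∀ (i k : Fin 3) (l l' : Fin 3), l' ≠ l →
    |N.h6 u ((i, sel l, k, y3 l), .up') (y3 l') - e * su l l'| < e / 4 ∧
    |N.h6 u ((i, sel l, k, y3 l), .dn') (y3 l') + 2 * e * su l l'| < e / 4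
  o6 : ∀ i j k l κ, ((∃ l₀ : Fin 3, l = y3 l₀ ∧ j = sel l₀) → κ ≠ .up' ∧ κ ≠ .dn') →
    |N.h6 u ((i, j, k, l), κ) (jy l)| < e / 4

section rods

variable {ι : Type*}

/-- Direction of the rod `r` of the copy `c`. -/
def hdir (X : ι → Fin 4 → E3) (c : ι) (r : Fin 3) : E3 := X c r.succ - X c r.castSucc

/-- The point with parameter `σ` on the rod `r` of the copy `c`. -/
def pt (X : ι → Fin 4 → E3) (c : ι) (r : Fin 3) (σ : ℝ) : E3 :=
  X c r.castSucc + σ • (X c r.succ - X c r.castSucc)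

/-- The rods `(c, r)` and `(c', r')` cross transversally at interior points. -/
structure IsCross (X : ι → Fin 4 → E3) (c : ι) (r : Fin 3) (c' : ι) (r' : Fin 3) (σ τ : ℝ) :
    Prop where
  hσ : σ ∈ Ioo (0 : ℝ) 1
  hτ : τ ∈ Ioo (0 : ℝ) 1
  meet : pt X c r σ = pt X c' r' τ
  indep : LinearIndependent ℝ ![hdir X c r, hdir X c' r']

/-- First order change of the volume spanned by the two crossing rods under the displacement
`u`. -/
def dvol (X u : ι → Fin 4 → E3) (c : ι) (r : Fin 3) (c' : ι) (r' : Fin 3) (σ τ : ℝ) : ℝ :=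
  vol (hdir X c r) (hdir X c' r') (pt u c' r' τ - pt u c r σ)

/-- `v` weakly respects the signs of the volumes given by `u` at all crossings of related
copies. -/
def VolOrd (rel : ι → ι → Prop) (X u v : ι → Fin 4 → E3) : Prop :=
  ∀ c c' r r' σ τ, rel c c' → IsCross X c r c' r' σ τ →
    (0 < dvol X u c r c' r' σ τ → 0 ≤ dvol X v c r c' r' σ τ) ∧
    (dvol X u c r c' r' σ τ < 0 → dvol X v c r c' r' σ τ ≤ 0)

end rods

/-- The node sequence of `window` `j` is changed to `x, a, b, y` at the positions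
`j + 1, …, j + 4`. -/
def upd {T m : ℕ} (α : Fin T → Fin m) (j : ℕ) (x a b y : Fin m) : Fin T → Fin m := fun t =>
  if t.val = j + 1 then x else if t.val = j + 2 then a else if t.val = j + 3 then b
  else if t.val = j + 4 then y else α t

end Pool.Agent.Helper53.Chain
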