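import Mathlib

/-! # Cutting polygonal chains in space: definitions used in the statement -/

namespace Pool.Agent.Helper53.Chain

open Set

/-- Euclidean 3-space. -/
abbrev E3 := EuclideanSpace ℝ (Fin 3)

/-- `v 0, …, v n` are the vertices of a non-self-intersecting chain with the `n` links
`[v i, v (i+1)]`, `i < n`: links have positive length, non-adjacent links are disjoint and
adjacent links meet only in their common vertex. -/
def IsChain (n : ℕ) (v : ℕ → E3) : Prop :=
  (∀ i < n, v i ≠ v (i + 1)) ∧
  (∀ i j, i + 1 < j → j < n →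
    Disjoint (segment ℝ (v i) (v (i + 1))) (segment ℝ (v j) (v (j + 1)))) ∧
  (∀ i, i + 1 < n → segment ℝ (v i) (v (i + 1)) ∩ segment ℝ (v (i + 1)) (v (i + 2)) = {v (i + 1)})

/-- The links `i` and `j` (with `i ≤ j`) belong to the same piece after the chain has been cut at
the vertices in `K`: no vertex between them is cut. -/
def SamePiece (K : Finset ℕ) (i j : ℕ) : Prop := ∀ m, i < m → m ≤ j → m ∉ K

/-- A motion of the pieces of the chain `v` cut at the vertices in `K`, during the time interval
`[0, 1]`. At time `t` the link `i` is the segment `[p t i, q t i]`. It starts at the given chain,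
moves continuously, keeps all link lengths, keeps the uncut joints, and at every time `t > 0`
distinct links are disjoint, except that adjacent links of the same piece meet in their common
joint only. (At time `0` two pieces still touch at the vertex where they have been cut.) -/
structure IsMotion (n : ℕ) (v : ℕ → E3) (K : Finset ℕ) (p q : ℝ → ℕ → E3) : Prop where
  cont_p : ∀ i < n, ContinuousOn (fun t => p t i) (Icc 0 1)
  cont_q : ∀ i < n, ContinuousOn (fun t => q t i) (Icc 0 1)
  start_p : ∀ i < n, p 0 i = v i
  start_q : ∀ i < n, q 0 i = v (i + 1)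
  len : ∀ t ∈ Icc (0 : ℝ) 1, ∀ i < n, dist (p t i) (q t i) = dist (v i) (v (i + 1))
  joint : ∀ t ∈ Icc (0 : ℝ) 1, ∀ i, i + 1 < n → i + 1 ∉ K → q t i = p t (i + 1)
  adj : ∀ t ∈ Ioc (0 : ℝ) 1, ∀ i, i + 1 < n → i + 1 ∉ K →
    segment ℝ (p t i) (q t i) ∩ segment ℝ (p t (i + 1)) (q t (i + 1)) = {q t i}
  disj : ∀ t ∈ Ioc (0 : ℝ) 1, ∀ i j, i < j → j < n → (i + 1 < j ∨ j ∈ K) →
    Disjoint (segment ℝ (p t i) (q t i)) (segment ℝ (p t j) (q t j))

/-- The pieces of the chain `v` cut at `K` can be separated and straightened: for every `d > 0`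
some motion ends in a configuration in which every piece is a straight segment (the distance
between the two ends of any run of links of a piece is the sum of their lengths) and points on
different pieces have distance at least `d`. -/
def Unlocks (n : ℕ) (v : ℕ → E3) (K : Finset ℕ) : Prop :=
  ∀ d : ℝ, 0 < d → ∃ p q : ℝ → ℕ → E3, IsMotion n v K p q ∧
    (∀ i j, i ≤ j → j < n → SamePiece K i j →
      dist (p 1 i) (q 1 j) = ∑ m ∈ Finset.Icc i j, dist (v m) (v (m + 1))) ∧
    (∀ i j, i < j → j < n → ¬ SamePiece K i j →
      ∀ x ∈ segment ℝ (p 1 i) (q 1 i), ∀ y ∈ segment ℝ (p 1 j) (q 1 j), d ≤ dist x y)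

/-- `f n` is the least `k` such that every `n`-link chain can be cut at some `k` of its interior
vertices so that the pieces can be separated and straightened. -/
noncomputable def f (n : ℕ) : ℕ :=
  sInf {k | ∀ v : ℕ → E3, IsChain n v →
    ∃ K : Finset ℕ, K ⊆ Finset.Ioo 0 n ∧ K.card = k ∧ Unlocks n v K}

end Pool.Agent.Helper53.Chain
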