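import Pool.Agent.Helper53.Chain.Alg

/-! CH-FA1: the first order length condition of the middle rod in terms of the eight heights. -/

namespace Pool.Agent.Helper53.Chain

open Set

/-- heights along a rod are affine functions of the parameter -/
theorem fa1_aff (s t0 t1 : ℝ) (h : t0 ≠ t1) (p q : E3) : ∃ A B : ℝ,
    (∀ t, ev s (lerp t0 t1 t p q) = A + t * B) ∧ ev s p = A + t0 * B ∧ ev s q = A + t1 * B := by
  have h' : t1 - t0 ≠ 0 := sub_ne_zero.2 h.symm
  refine ⟨ev s p - t0 * ((ev s q - ev s p) / (t1 - t0)), (ev s q - ev s p) / (t1 - t0), ?_, ?_, ?_⟩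
  · intro t
    rw [ev_lerp]; field_simp; ring
  · ring
  · field_simp; ring

/-- Lagrange expansion of the inner product with `U a b`. -/
theorem fa1_dot {a b c : ℝ} (hab : a ≠ b) (hac : a ≠ c) (hbc : b ≠ c) (v : E3) :
    dot v (U a b) = dot (U a b) (U a b) / ((c - a) * (c - b)) * ev c v +
      dot (U c b) (U a b) / ((a - c) * (a - b)) * ev a v +
      dot (U c a) (U a b) / ((b - c) * (b - a)) * ev b v := by
  have h1 : a - b ≠ 0 := sub_ne_zero.2 hab
  have h2 : b - a ≠ 0 := sub_ne_zero.2 hab.symm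
  have h3 : a - c ≠ 0 := sub_ne_zero.2 hac
  have h4 : c - a ≠ 0 := sub_ne_zero.2 hac.symm
  have h5 : b - c ≠ 0 := sub_ne_zero.2 hbc
  have h6 : c - b ≠ 0 := sub_ne_zero.2 hbc.symm
  have hv : v = (ev c v / ((c - a) * (c - b))) • U a b + (ev a v / ((a - c) * (a - b))) • U c b +
      (ev b v / ((b - c) * (b - a))) • U c a := by
    apply eq_of_ev hab hac hbc
    · simp only [ev_add, ev_smul, ev_U]; field_simp; ring
    · simp only [ev_add, ev_smul, ev_U]; field_simp; ring
    · simp only [ev_add, ev_smul, ev_U]; field_simp; ring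
  conv_lhs => rw [hv]
  simp only [dot_add_left, dot_smul_left]
  ring

/-- the two other indices -/
theorem fa1_idx (j : Fin 3) : ∃ lo hi : Fin 3, lo < hi ∧ lo ≠ j ∧ hi ≠ j ∧ sg j lo = 1 ∧
    sg j hi = -1 ∧ ∀ F : Fin 3 → ℝ, ∑ j' ∈ Finset.univ.filter (· ≠ j), F j' = F lo + F hi := by
  fin_cases j
  · refine ⟨1, 2, by decide, by decide, by decide, by simp [sg], by simp [sg], ?_⟩
    intro F
    have : Finset.univ.filter (· ≠ (0 : Fin 3)) = {1, 2} := by decide
    change ∑ j' ∈ Finset.univ.filter (· ≠ (0 : Fin 3)), F j' = _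
    rw [this, Finset.sum_pair (by decide)]
  · refine ⟨0, 2, by decide, by decide, by decide, by simp [sg], by simp [sg], ?_⟩
    intro F
    have : Finset.univ.filter (· ≠ (1 : Fin 3)) = {0, 2} := by decide
    change ∑ j' ∈ Finset.univ.filter (· ≠ (1 : Fin 3)), F j' = _
    rw [this, Finset.sum_pair (by decide)]
  · refine ⟨0, 1, by decide, by decide, by decide, by simp [sg], by simp [sg], ?_⟩
    intro F
    have : Finset.univ.filter (· ≠ (2 : Fin 3)) = {0, 1} := by decide
    change ∑ j' ∈ Finset.univ.filter (· ≠ (2 : Fin 3)), F j' = _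
    rw [this, Finset.sum_pair (by decide)]

theorem fa1_ext (α β tx ty tl th A B : ℝ) (h : tl < th) :
    ((β * (ty - th) - α * (th - tx)) / (th - tl)) * (A + tl * B) -
      ((β * (ty - tl) - α * (tl - tx)) / (th - tl)) * (A + th * B) =
      -(α * (A + tx * B) + β * (A + ty * B)) := by
  have : th - tl ≠ 0 := (sub_pos.2 h).ne'
  field_simp; ring

theorem fa1_ext1 (α tb tl th A B : ℝ) (h : tl < th) :
    (α * (tb - th) / (th - tl)) * (A + tl * B) - (α * (tb - tl) / (th - tl)) * (A + th * B) =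
      -(α * (A + tb * B)) := by
  have : th - tl ≠ 0 := (sub_pos.2 h).ne'
  field_simp; ring

theorem fa1_ext2 (α tb tl th A B : ℝ) (h : tl < th) :
    (α * (th - tb) / (th - tl)) * (A + tl * B) - (α * (tl - tb) / (th - tl)) * (A + th * B) =
      α * (A + tb * B) := by
  have : th - tl ≠ 0 := (sub_pos.2 h).ne'
  field_simp; ring

theorem len_identity (N : Nodes) (τ : Ty) :
    ∃ C1 C2 C3 C4 : Fin 3 → ℝ, (∀ i, 0 < C1 i ∧ 0 < C2 i ∧ 0 < C3 i ∧ 0 < C4 i) ∧
      ∀ (v : Copy → Fin 4 → E3) (κ : Kind),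
        dot (v (τ, κ) 2 - v (τ, κ) 1) (U (N.a τ.2.1) (N.b τ.2.2.1)) = 0 →
        ∑ j' ∈ Finset.univ.filter (· ≠ τ.2.1),
            sg τ.2.1 j' * (C1 j' * N.h1 v (τ, κ) j' + C3 j' * N.h2b v (τ, κ) j') +
          ∑ k' ∈ Finset.univ.filter (· ≠ τ.2.2.1),
            sg τ.2.2.1 k' * (C4 k' * N.h3 v (τ, κ) k' - C2 k' * N.h2a v (τ, κ) k') = 0 := by
  obtain ⟨i, j, k, l⟩ := τ
  obtain ⟨jl, jh, hjlt, hjl, hjh, sjl, sjh, sumj⟩ := fa1_idx j
  obtain ⟨kl, kh, hklt, hkl, hkh, skl, skh, sumk⟩ := fa1_idx k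
  have hajl : N.a jl < N.a jh := N.ha hjlt
  have hbkl : N.b kl < N.b kh := N.hb hklt
  have hx := N.x_pos i
  have ha := N.a_pos j
  have hb := N.b_pos k
  have hy := N.y_pos l
  have hxa := N.x_lt_a i j
  have hab := N.a_lt_b j k
  have hby := N.b_lt_y k l
  -- parameters
  set x := N.x i with hxdef
  set a := N.a j with hadef
  set b := N.b k with hbdef
  set y := N.y l with hydef
  have k1 : 0 < dot (U a b) (U a b) := dot_U_self_pos a b
  set kx := dot (U a b) (U a b) / ((x - a) * (x - b)) with hkx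
  set ky := dot (U a b) (U a b) / ((y - a) * (y - b)) with hky
  have hkx0 : 0 < kx := div_pos k1 (mul_pos_of_neg_of_neg (by linarith) (by linarith))
  have hky0 : 0 < ky := div_pos k1 (mul_pos (by linarith) (by linarith))
  have g1 := N.G1 i j k kh l hkh
  have g1' := N.G1 i j k kl l hkl
  have g2 := N.G2 i j jh k l hjh
  have g2' := N.G2 i j jl k l hjl
  rw [← hxdef, ← hadef, ← hbdef, ← hydef] at g1 g1' g2 g2'
  -- monotonicity facts
  have m1 : T x a (N.a jl) < T x a (N.a jh) := T_lt hx hajl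
  have m2 : T x a (N.a jl) < T x a b := T_lt hx (N.a_lt_b _ _)
  have m3 : T x a (N.a jh) < T x a b := T_lt hx (N.a_lt_b _ _)
  have m4 : T b y (N.b kl) < T b y (N.b kh) := T_lt hb hbkl
  have m5 : T b y a < T b y (N.b kl) := T_lt hb (N.a_lt_b _ _)
  have m6 : T b y a < T b y (N.b kh) := T_lt hb (N.a_lt_b _ _)
  have m7 : T a b (N.b kl) < T a b (N.b kh) := T_lt ha hbkl
  have m8 : T a b (N.a jl) < T a b (N.a jh) := T_lt ha hajl
  refine ⟨fun j' => if j' = jl then kx * (T x a b - T x a (N.a jh)) / (T x a (N.a jh) - T x a (N.a jl))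
      else kx * (T x a b - T x a (N.a jl)) / (T x a (N.a jh) - T x a (N.a jl)),
    fun k' => if k' = kl then (al2 a b y * (T a b y - T a b (N.b kh)) -
        al1 x a b * (T a b (N.b kh) - T a b x)) / (T a b (N.b kh) - T a b (N.b kl))
      else (al2 a b y * (T a b y - T a b (N.b kl)) -
        al1 x a b * (T a b (N.b kl) - T a b x)) / (T a b (N.b kh) - T a b (N.b kl)),
    fun j' => if j' = jl then (be2 a b y * (T a b y - T a b (N.a jh)) -
        be1 x a b * (T a b (N.a jh) - T a b x)) / (T a b (N.a jh) - T a b (N.a jl))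
      else (be2 a b y * (T a b y - T a b (N.a jl)) -
        be1 x a b * (T a b (N.a jl) - T a b x)) / (T a b (N.a jh) - T a b (N.a jl)),
    fun k' => if k' = kl then ky * (T b y (N.b kh) - T b y a) / (T b y (N.b kh) - T b y (N.b kl))
      else ky * (T b y (N.b kl) - T b y a) / (T b y (N.b kh) - T b y (N.b kl)), ?_, ?_⟩
  · intro i'
    refine ⟨?_, ?_, ?_, ?_⟩
    · dsimp only; split_ifs
      · exact div_pos (mul_pos hkx0 (by linarith)) (by linarith)
      · exact div_pos (mul_pos hkx0 (by linarith)) (by linarith)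
    · dsimp only; split_ifs
      · exact div_pos (by linarith) (by linarith)
      · exact div_pos (by linarith) (by linarith)
    · dsimp only; split_ifs
      · exact div_pos (by linarith) (by linarith)
      · exact div_pos (by linarith) (by linarith)
    · dsimp only; split_ifs
      · exact div_pos (mul_pos hky0 (by linarith)) (by linarith)
      · exact div_pos (mul_pos hky0 (by linarith)) (by linarith)
  · intro v κ hv
    dsimp only at hv ⊢
    rw [sumj, sumk, sjl, sjh, skl, skh, if_pos rfl, if_pos rfl, if_pos rfl, if_pos rfl,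
      if_neg hjlt.ne', if_neg hjlt.ne', if_neg hklt.ne', if_neg hklt.ne']
    have ne1 : T x a N.w ≠ T x a b := (T_lt hx ((N.w_lt_x i).trans (hxa.trans hab))).ne
    have ne2 : T a b x ≠ T a b y := (T_lt ha (hxa.trans (hab.trans hby))).ne
    have ne3 : T b y a ≠ T b y N.z := (T_lt hb (hab.trans (hby.trans (N.y_lt_z l)))).ne
    obtain ⟨A1, B1, f1, -, f1e⟩ := fa1_aff x _ _ ne1 (v ((i, j, k, l), κ) 0) (v ((i, j, k, l), κ) 1)
    obtain ⟨A2, B2, f2, f2s, f2e⟩ := fa1_aff a _ _ ne2 (v ((i, j, k, l), κ) 1) (v ((i, j, k, l), κ) 2)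
    obtain ⟨A3, B3, f3, f3s, f3e⟩ := fa1_aff b _ _ ne2 (v ((i, j, k, l), κ) 1) (v ((i, j, k, l), κ) 2)
    obtain ⟨A4, B4, f4, f4s, -⟩ := fa1_aff y _ _ ne3 (v ((i, j, k, l), κ) 2) (v ((i, j, k, l), κ) 3)
    have e1 : ∀ j', N.h1 v ((i, j, k, l), κ) j' = A1 + T x a (N.a j') * B1 := fun j' => f1 _
    have e2 : ∀ k', N.h2a v ((i, j, k, l), κ) k' = A2 + T a b (N.b k') * B2 := fun k' => f2 _
    have e3 : ∀ j', N.h2b v ((i, j, k, l), κ) j' = A3 + T a b (N.a j') * B3 := fun j' => f3 _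
    have e4 : ∀ k', N.h3 v ((i, j, k, l), κ) k' = A4 + T b y (N.b k') * B4 := fun k' => f4 _
    simp only [e1, e2, e3, e4]
    rw [dot_sub_left, fa1_dot hab.ne (hab.trans hby).ne
      hby.ne (v ((i, j, k, l), κ) 2),
      fa1_dot hab.ne hxa.ne' (hxa.trans hab).ne' (v ((i, j, k, l), κ) 1)] at hv
    have q1 : dot (U y b) (U a b) / ((a - y) * (a - b)) = al2 a b y := by
      unfold al2; rw [U_comm y b]; congr 1; ring
    have q2 : dot (U y a) (U a b) / ((b - y) * (b - a)) = - be2 a b y := by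
      unfold be2; rw [U_comm y a, ← div_neg]; congr 1; ring
    have q3 : dot (U x b) (U a b) / ((a - x) * (a - b)) = - al1 x a b := by
      unfold al1; rw [← div_neg]; congr 1; ring
    have q4 : dot (U x a) (U a b) / ((b - x) * (b - a)) = be1 x a b := by
      unfold be1; congr 1
    rw [q1, q2, q3, q4, ← hkx, ← hky, f1e, f2s, f2e, f3s, f3e, f4s] at hv
    have w1 := fa1_ext1 kx (T x a b) _ _ A1 B1 m1
    have w2 := fa1_ext (al1 x a b) (al2 a b y) (T a b x) (T a b y) _ _ A2 B2 m7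
    have w3 := fa1_ext (be1 x a b) (be2 a b y) (T a b x) (T a b y) _ _ A3 B3 m8
    have w4 := fa1_ext2 ky (T b y a) _ _ A4 B4 m4
    linear_combination hv + w1 - w2 + w3 + w4

end Pool.Agent.Helper53.Chain
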