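import Pool.Agent.Helper53.Chain.Alg

/-! # The sandwich: heights at crossings depend on the crossing only -/

namespace Pool.Agent.Helper53.Chain

open Set

/-- The data of one plane: three lines, crossing in pairs, with the copies on each line. -/
structure fa2_Fam {ι : Type*} (s : ℝ) (hu hv : Fin 3 → ι → Kind → Fin 3 → ℝ) : Prop where
  ord : ∀ j j' p p' κ κ', j ≠ j' → hu j p κ j' < hu j' p' κ' j → hv j p κ j' ≤ hv j' p' κ' j
  pm : ∀ j p j', j' ≠ j → |hu j p .plus j' - s * (sg j j' * ((j : ℕ) + 1))| < 1 / 4 ∧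
    |hu j p .minus j' + s * (sg j j' * ((j : ℕ) + 1))| < 1 / 4
  zero : ∀ j p κ, κ ≠ .plus → κ ≠ .minus → ∀ j', j' ≠ j → |hu j p κ j'| < 1 / 4
  hs : s = 1 ∨ s = -1

lemma fa2_sign {s : ℝ} (hs : s = 1 ∨ s = -1) (j j' : Fin 3) :
    s * sg j j' = 1 ∨ s * sg j j' = -1 := by
  unfold sg
  rcases hs with h | h <;> split_ifs <;> simp [h]

lemma fa2_between {ι : Type*} {s : ℝ} {hu hv : Fin 3 → ι → Kind → Fin 3 → ℝ}
    (F : fa2_Fam s hu hv) (j j' : Fin 3) (hj : j' ≠ j) (p p' : ι) (κ : Kind)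
    (h1 : κ ≠ .plus) (h2 : κ ≠ .minus) :
    s * sg j j' * hv j p .minus j' ≤ s * sg j j' * hv j' p' κ j ∧
      s * sg j j' * hv j' p' κ j ≤ s * sg j j' * hv j p .plus j' := by
  have hz := abs_lt.1 (F.zero j' p' κ h1 h2 j hj.symm)
  have hpm := F.pm j p j' hj
  have hp := abs_lt.1 hpm.1
  have hm := abs_lt.1 hpm.2
  have hc : (0 : ℝ) ≤ ((j : ℕ) : ℝ) := Nat.cast_nonneg _
  rcases fa2_sign F.hs j j' with h | h
  · have e : s * (sg j j' * (((j : ℕ) : ℝ) + 1)) = ((j : ℕ) : ℝ) + 1 := by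
      rw [← mul_assoc, h, one_mul]
    rw [e] at hp hm
    rw [h]
    constructor
    · have := F.ord j j' p p' .minus κ hj.symm (by linarith [hz.1, hz.2, hm.1, hm.2])
      linarith
    · have := F.ord j' j p' p κ .plus hj (by linarith [hz.1, hz.2, hp.1, hp.2])
      linarith
  · have e : s * (sg j j' * (((j : ℕ) : ℝ) + 1)) = -(((j : ℕ) : ℝ) + 1) := by
      rw [← mul_assoc, h]; ring
    rw [e] at hp hm
    rw [h]
    constructor
    · have := F.ord j' j p' p κ .minus hj (by linarith [hz.1, hz.2, hm.1, hm.2])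
      linarith
    · have := F.ord j j' p p' .plus κ hj.symm (by linarith [hz.1, hz.2, hp.1, hp.2])
      linarith

lemma fa2_nonneg {ι : Type*} [Nonempty ι] {s : ℝ} {hu hv : Fin 3 → ι → Kind → Fin 3 → ℝ}
    (F : fa2_Fam s hu hv) (j j' : Fin 3) (hj : j' ≠ j) (p : ι) :
    0 ≤ s * sg j j' * (hv j p .plus j' - hv j p .minus j') := by
  obtain ⟨p'⟩ := ‹Nonempty ι›
  have h := fa2_between F j j' hj p p' .zero (by decide) (by decide)
  have := h.1.trans h.2
  rw [mul_sub]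
  linarith

lemma fa2_rank {ι : Type*} {s : ℝ} {hu hv : Fin 3 → ι → Kind → Fin 3 → ℝ}
    (F : fa2_Fam s hu hv) (j j' : Fin 3) (hj : j < j') (p p' : ι)
    (heq : hv j' p' .plus j = hv j' p' .minus j) :
    hv j p .plus j' = hv j' p' .plus j := by
  have hne : j' ≠ j := hj.ne'
  have hpm := F.pm j p j' hne
  have hp := abs_lt.1 hpm.1
  have hpm' := F.pm j' p' j hne.symm
  have hp' := abs_lt.1 hpm'.1
  have hm' := abs_lt.1 hpm'.2
  have hlt : ((j : ℕ) : ℝ) + 1 ≤ ((j' : ℕ) : ℝ) := by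
    have : (j : ℕ) + 1 ≤ (j' : ℕ) := hj
    exact_mod_cast this
  have hc : (0 : ℝ) ≤ ((j : ℕ) : ℝ) := Nat.cast_nonneg _
  have hb : -(((j : ℕ) : ℝ) + 1) - 1 / 4 < hu j p .plus j' ∧
      hu j p .plus j' < ((j : ℕ) : ℝ) + 1 + 1 / 4 := by
    rcases fa2_sign F.hs j j' with h | h
    · have e : s * (sg j j' * (((j : ℕ) : ℝ) + 1)) = ((j : ℕ) : ℝ) + 1 := by
        rw [← mul_assoc, h, one_mul]
      rw [e] at hp
      constructor <;> linarith [hp.1, hp.2]
    · have e : s * (sg j j' * (((j : ℕ) : ℝ) + 1)) = -(((j : ℕ) : ℝ) + 1) := by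
        rw [← mul_assoc, h]; ring
      rw [e] at hp
      constructor <;> linarith [hp.1, hp.2]
  rcases fa2_sign F.hs j' j with h | h
  · have e : s * (sg j' j * (((j' : ℕ) : ℝ) + 1)) = ((j' : ℕ) : ℝ) + 1 := by
      rw [← mul_assoc, h, one_mul]
    rw [e] at hp' hm'
    have h1 := F.ord j' j p' p .minus .plus hne (by linarith [hb.1, hb.2, hm'.1, hm'.2])
    have h2 := F.ord j j' p p' .plus .plus hne.symm (by linarith [hb.1, hb.2, hp'.1, hp'.2])
    linarith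
  · have e : s * (sg j' j * (((j' : ℕ) : ℝ) + 1)) = -(((j' : ℕ) : ℝ) + 1) := by
      rw [← mul_assoc, h]; ring
    rw [e] at hp' hm'
    have h1 := F.ord j j' p p' .plus .minus hne.symm (by linarith [hb.1, hb.2, hm'.1, hm'.2])
    have h2 := F.ord j' j p' p .plus .plus hne (by linarith [hb.1, hb.2, hp'.1, hp'.2])
    linarith

lemma fa2_const {ι : Type*} [Nonempty ι] {s : ℝ} {hu hv : Fin 3 → ι → Kind → Fin 3 → ℝ}
    (F : fa2_Fam s hu hv)
    (heq : ∀ j p j', j' ≠ j → hv j p .plus j' = hv j p .minus j') :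
    ∃ Φ : Fin 3 → Fin 3 → ℝ, (∀ j j', Φ j j' = Φ j' j) ∧
      ∀ j p κ j', j' ≠ j → hv j p κ j' = Φ j j' := by
  obtain ⟨p₀⟩ := ‹Nonempty ι›
  have h1 : ∀ j j' p p' κ, j' ≠ j → κ ≠ Kind.plus → κ ≠ Kind.minus →
      hv j p .plus j' = hv j' p' κ j := by
    intro j j' p p' κ hj hk1 hk2
    have h := fa2_between F j j' hj p p' κ hk1 hk2
    rw [← heq j p j' hj] at h
    rcases fa2_sign F.hs j j' with hs | hs <;> rw [hs] at h <;> linarith [h.1, h.2]
  have h2 : ∀ j j', j < j' → hv j p₀ .plus j' = hv j' p₀ .plus j := by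
    intro j j' hj
    exact fa2_rank F j j' hj p₀ p₀ (heq j' p₀ j hj.ne)
  have h3 : ∀ j j', hv j p₀ .plus j' = hv j' p₀ .plus j := by
    intro j j'
    rcases lt_trichotomy j j' with h | h | h
    · exact h2 j j' h
    · rw [h]
    · exact (h2 j' j h).symm
  refine ⟨fun j j' => hv j p₀ .plus j', h3, ?_⟩
  intro j p κ j' hj
  have hplus : hv j p .plus j' = hv j p₀ .plus j' := by
    rw [h1 j j' p p₀ .zero hj (by decide) (by decide),
      h1 j j' p₀ p₀ .zero hj (by decide) (by decide)]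
  by_cases hk1 : κ = .plus
  · rw [hk1]; exact hplus
  by_cases hk2 : κ = .minus
  · rw [hk2, ← heq j p j' hj]; exact hplus
  show hv j p κ j' = hv j p₀ .plus j'
  rw [h3 j j']
  exact (h1 j' j p₀ p κ hj.symm hk1 hk2).symm

/-- The conclusion of the length identity (`len_identity`) for one type. -/
def fa2_LenId (N : Nodes) (τ : Ty) : Prop :=
    ∃ C1 C2 C3 C4 : Fin 3 → ℝ, (∀ i, 0 < C1 i ∧ 0 < C2 i ∧ 0 < C3 i ∧ 0 < C4 i) ∧
      ∀ (v : Copy → Fin 4 → E3) (κ : Kind),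
        dot (v (τ, κ) 2 - v (τ, κ) 1) (U (N.a τ.2.1) (N.b τ.2.2.1)) = 0 →
        ∑ j' ∈ Finset.univ.filter (· ≠ τ.2.1),
            sg τ.2.1 j' * (C1 j' * N.h1 v (τ, κ) j' + C3 j' * N.h2b v (τ, κ) j') +
          ∑ k' ∈ Finset.univ.filter (· ≠ τ.2.2.1),
            sg τ.2.2.1 k' * (C4 k' * N.h3 v (τ, κ) k' - C2 k' * N.h2a v (τ, κ) k') = 0

lemma fa2_len (N : Nodes) (v : Copy → Fin 4 → E3) (hl : N.Len v) (c : Copy) :
    dot (v c 2 - v c 1) (U (N.a c.1.2.1) (N.b c.1.2.2.1)) = 0 := by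
  have h := hl c 1
  have e1 : (1 : Fin 3).succ = (2 : Fin 4) := rfl
  have e2 : (1 : Fin 3).castSucc = (1 : Fin 4) := rfl
  rw [e1, e2, N.X₀_1, N.X₀_2, P_rot (N.x c.1.1), P_sub, dot_smul_right] at h
  have hne : T (N.a c.1.2.1) (N.b c.1.2.2.1) (N.y c.1.2.2.2) -
      T (N.a c.1.2.1) (N.b c.1.2.2.1) (N.x c.1.1) ≠ 0 := by
    apply sub_ne_zero.2
    exact T_ne (N.a_pos _) (((N.x_lt_a _ 0).trans (N.a_lt_b 0 0)).trans (N.b_lt_y 0 _)).ne'
  exact (mul_eq_zero.1 h).resolve_left hne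

lemma fa2_fam1 {N : Nodes} {e : ℝ} {u v : Copy → Fin 4 → E3} (hts : Hts N e u)
    (ho : N.Ord u v) (i : Fin 3) :
    fa2_Fam (ι := Fin 3 × Fin 7) 1 (fun j p κ j' => N.h1 u ((i, j, p.1, p.2), κ) j')
      (fun j p κ j' => N.h1 v ((i, j, p.1, p.2), κ) j') where
  ord := by
    intro j j' p p' κ κ' hj h
    exact ho.K1 i j j' p.1 p'.1 p.2 p'.2 κ κ' hj h
  pm := by
    intro j p j' hj
    rw [one_mul]
    exact hts.p1 (i, j, p.1, p.2) j' hj
  zero := by
    intro j p κ h1 h2 j' hj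
    exact hts.z1 (i, j, p.1, p.2) κ h1 h2 j' hj
  hs := Or.inl rfl

lemma fa2_fam2 {N : Nodes} {e : ℝ} {u v : Copy → Fin 4 → E3} (hts : Hts N e u)
    (ho : N.Ord u v) (j : Fin 3) :
    fa2_Fam (ι := Fin 3 × Fin 7) (-1) (fun k p κ k' => N.h2a u ((p.1, j, k, p.2), κ) k')
      (fun k p κ k' => N.h2a v ((p.1, j, k, p.2), κ) k') where
  ord := by
    intro k k' p p' κ κ' hk h
    exact ho.K2 p.1 p'.1 j k k' p.2 p'.2 κ κ' hk h
  pm := by
    intro k p k' hk
    have h := hts.p2 (p.1, j, k, p.2) k' hk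
    constructor
    · have h1 := h.1
      rw [neg_one_mul, sub_neg_eq_add]
      exact h1
    · have h2 := h.2
      rw [neg_one_mul, ← sub_eq_add_neg]
      exact h2
  zero := by
    intro k p κ h1 h2 k' hk
    exact hts.z2 (p.1, j, k, p.2) κ h1 h2 k' hk
  hs := Or.inr rfl

lemma fa2_fam3 {N : Nodes} {e : ℝ} {u v : Copy → Fin 4 → E3} (hts : Hts N e u)
    (ho : N.Ord u v) (k : Fin 3) :
    fa2_Fam (ι := Fin 3 × Fin 7) 1 (fun j p κ j' => N.h2b u ((p.1, j, k, p.2), κ) j')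
      (fun j p κ j' => N.h2b v ((p.1, j, k, p.2), κ) j') where
  ord := by
    intro j j' p p' κ κ' hj h
    exact ho.K3 p.1 p'.1 j j' k p.2 p'.2 κ κ' hj h
  pm := by
    intro j p j' hj
    rw [one_mul]
    exact hts.p3 (p.1, j, k, p.2) j' hj
  zero := by
    intro j p κ h1 h2 j' hj
    exact hts.z3 (p.1, j, k, p.2) κ h1 h2 j' hj
  hs := Or.inl rfl

lemma fa2_fam4 {N : Nodes} {e : ℝ} {u v : Copy → Fin 4 → E3} (hts : Hts N e u)
    (ho : N.Ord u v) (l : Fin 7) :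
    fa2_Fam (ι := Fin 3 × Fin 3) 1 (fun k p κ k' => N.h3 u ((p.1, p.2, k, l), κ) k')
      (fun k p κ k' => N.h3 v ((p.1, p.2, k, l), κ) k') where
  ord := by
    intro k k' p p' κ κ' hk h
    exact ho.K4 p.1 p'.1 p.2 p'.2 k k' l κ κ' hk h
  pm := by
    intro k p k' hk
    rw [one_mul]
    exact hts.p4 (p.1, p.2, k, l) k' hk
  zero := by
    intro k p κ h1 h2 k' hk
    exact hts.z4 (p.1, p.2, k, l) κ h1 h2 k' hk
  hs := Or.inl rfl

/-- The length identity forces the plus and the minus copies to agree. -/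
lemma fa2_pm_eq {N : Nodes} {e : ℝ} {u v : Copy → Fin 4 → E3} (hts : Hts N e u)
    (ho : N.Ord u v) (hl : N.Len v) (τ : Ty) (hlen : fa2_LenId N τ) :
    (∀ j', j' ≠ τ.2.1 → N.h1 v (τ, .plus) j' = N.h1 v (τ, .minus) j' ∧
      N.h2b v (τ, .plus) j' = N.h2b v (τ, .minus) j') ∧
    (∀ k', k' ≠ τ.2.2.1 → N.h2a v (τ, .plus) k' = N.h2a v (τ, .minus) k' ∧
      N.h3 v (τ, .plus) k' = N.h3 v (τ, .minus) k') := by
  obtain ⟨i, j, k, l⟩ := τ
  obtain ⟨C1, C2, C3, C4, hC, hid⟩ := hlen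
  have hp := hid v .plus (fa2_len N v hl _)
  have hm := hid v .minus (fa2_len N v hl _)
  dsimp only at hp hm ⊢
  have n1 : ∀ j', j' ≠ j → 0 ≤ sg j j' *
      (N.h1 v ((i, j, k, l), .plus) j' - N.h1 v ((i, j, k, l), .minus) j') := by
    intro j' hj
    have := fa2_nonneg (fa2_fam1 hts ho i) j j' hj (k, l)
    rw [one_mul] at this
    exact this
  have n2 : ∀ k', k' ≠ k → 0 ≤ sg k k' *
      (N.h2a v ((i, j, k, l), .minus) k' - N.h2a v ((i, j, k, l), .plus) k') := by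
    intro k' hk
    have := fa2_nonneg (fa2_fam2 hts ho j) k k' hk (i, l)
    dsimp only at this
    linarith
  have n3 : ∀ j', j' ≠ j → 0 ≤ sg j j' *
      (N.h2b v ((i, j, k, l), .plus) j' - N.h2b v ((i, j, k, l), .minus) j') := by
    intro j' hj
    have := fa2_nonneg (fa2_fam3 hts ho k) j j' hj (i, l)
    rw [one_mul] at this
    exact this
  have n4 : ∀ k', k' ≠ k → 0 ≤ sg k k' *
      (N.h3 v ((i, j, k, l), .plus) k' - N.h3 v ((i, j, k, l), .minus) k') := by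
    intro k' hk
    have := fa2_nonneg (fa2_fam4 hts ho l) k k' hk (i, j)
    rw [one_mul] at this
    exact this
  -- the two sums of nonnegative terms
  have hsum : ∑ j' ∈ Finset.univ.filter (· ≠ j),
        (C1 j' * (sg j j' *
          (N.h1 v ((i, j, k, l), .plus) j' - N.h1 v ((i, j, k, l), .minus) j')) +
        C3 j' * (sg j j' *
          (N.h2b v ((i, j, k, l), .plus) j' - N.h2b v ((i, j, k, l), .minus) j'))) +
      ∑ k' ∈ Finset.univ.filter (· ≠ k),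
        (C4 k' * (sg k k' *
          (N.h3 v ((i, j, k, l), .plus) k' - N.h3 v ((i, j, k, l), .minus) k')) +
        C2 k' * (sg k k' *
          (N.h2a v ((i, j, k, l), .minus) k' - N.h2a v ((i, j, k, l), .plus) k'))) = 0 := by
    have h := congrArg₂ (· - ·) hp hm
    simp only [sub_self] at h
    rw [← h, add_sub_add_comm, ← Finset.sum_sub_distrib, ← Finset.sum_sub_distrib]
    congr 1 <;> refine Finset.sum_congr rfl fun _ _ => ?_ <;> ring
  have t1 : ∀ j' ∈ Finset.univ.filter (· ≠ j), 0 ≤ (C1 j' * (sg j j' *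
          (N.h1 v ((i, j, k, l), .plus) j' - N.h1 v ((i, j, k, l), .minus) j')) +
        C3 j' * (sg j j' *
          (N.h2b v ((i, j, k, l), .plus) j' - N.h2b v ((i, j, k, l), .minus) j'))) := by
    intro j' hj
    have hj' : j' ≠ j := (Finset.mem_filter.1 hj).2
    exact add_nonneg (mul_nonneg (hC j').1.le (n1 j' hj')) (mul_nonneg (hC j').2.2.1.le (n3 j' hj'))
  have t2 : ∀ k' ∈ Finset.univ.filter (· ≠ k), 0 ≤ (C4 k' * (sg k k' *
          (N.h3 v ((i, j, k, l), .plus) k' - N.h3 v ((i, j, k, l), .minus) k')) +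
        C2 k' * (sg k k' *
          (N.h2a v ((i, j, k, l), .minus) k' - N.h2a v ((i, j, k, l), .plus) k'))) := by
    intro k' hk
    have hk' : k' ≠ k := (Finset.mem_filter.1 hk).2
    exact add_nonneg (mul_nonneg (hC k').2.2.2.le (n4 k' hk'))
      (mul_nonneg (hC k').2.1.le (n2 k' hk'))
  have s1 := Finset.sum_nonneg t1
  have s2 := Finset.sum_nonneg t2
  have z1 := (Finset.sum_eq_zero_iff_of_nonneg t1).1 (by linarith)
  have z2 := (Finset.sum_eq_zero_iff_of_nonneg t2).1 (by linarith)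
  have hsg : ∀ p q : Fin 3, sg p q ≠ 0 := by
    intro p q; unfold sg; split_ifs <;> norm_num
  constructor
  · intro j' hj
    have h := z1 j' (Finset.mem_filter.2 ⟨Finset.mem_univ _, hj⟩)
    have a1 := mul_nonneg (hC j').1.le (n1 j' hj)
    have a3 := mul_nonneg (hC j').2.2.1.le (n3 j' hj)
    have b1 : C1 j' * (sg j j' *
        (N.h1 v ((i, j, k, l), .plus) j' - N.h1 v ((i, j, k, l), .minus) j')) = 0 := by linarith
    have b3 : C3 j' * (sg j j' *
        (N.h2b v ((i, j, k, l), .plus) j' - N.h2b v ((i, j, k, l), .minus) j')) = 0 := by linarith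
    have c1 := (mul_eq_zero.1 ((mul_eq_zero.1 b1).resolve_left (hC j').1.ne')).resolve_left
      (hsg j j')
    have c3 := (mul_eq_zero.1 ((mul_eq_zero.1 b3).resolve_left (hC j').2.2.1.ne')).resolve_left
      (hsg j j')
    exact ⟨sub_eq_zero.1 c1, sub_eq_zero.1 c3⟩
  · intro k' hk
    have h := z2 k' (Finset.mem_filter.2 ⟨Finset.mem_univ _, hk⟩)
    have a4 := mul_nonneg (hC k').2.2.2.le (n4 k' hk)
    have a2 := mul_nonneg (hC k').2.1.le (n2 k' hk)
    have b4 : C4 k' * (sg k k' *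
        (N.h3 v ((i, j, k, l), .plus) k' - N.h3 v ((i, j, k, l), .minus) k')) = 0 := by linarith
    have b2 : C2 k' * (sg k k' *
        (N.h2a v ((i, j, k, l), .minus) k' - N.h2a v ((i, j, k, l), .plus) k')) = 0 := by linarith
    have c4 := (mul_eq_zero.1 ((mul_eq_zero.1 b4).resolve_left (hC k').2.2.2.ne')).resolve_left
      (hsg k k')
    have c2 := (mul_eq_zero.1 ((mul_eq_zero.1 b2).resolve_left (hC k').2.1.ne')).resolve_left
      (hsg k k')
    exact ⟨(sub_eq_zero.1 c2).symm, sub_eq_zero.1 c4⟩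

/-- **The sandwich**, from the length identity. -/
theorem sandwich_of_len (N : Nodes) (hlen : ∀ τ : Ty, fa2_LenId N τ)
    (e : ℝ) (u v : Copy → Fin 4 → E3) (hts : Hts N e u)
    (ho : N.Ord u v) (hl : N.Len v) :
    ∃ (Φ1 Φ2 Φ3 : Fin 3 → Fin 3 → Fin 3 → ℝ) (Φ4 : Fin 7 → Fin 3 → Fin 3 → ℝ),
      (∀ i j j', Φ1 i j j' = Φ1 i j' j) ∧ (∀ j k k', Φ2 j k k' = Φ2 j k' k) ∧
      (∀ k j j', Φ3 k j j' = Φ3 k j' j) ∧ (∀ l k k', Φ4 l k k' = Φ4 l k' k) ∧
      ∀ i j k l κ,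
        (∀ j', j' ≠ j → N.h1 v ((i, j, k, l), κ) j' = Φ1 i j j') ∧
        (∀ k', k' ≠ k → N.h2a v ((i, j, k, l), κ) k' = Φ2 j k k') ∧
        (∀ j', j' ≠ j → N.h2b v ((i, j, k, l), κ) j' = Φ3 k j j') ∧
        (∀ k', k' ≠ k → N.h3 v ((i, j, k, l), κ) k' = Φ4 l k k') := by
  have key := fun τ : Ty => fa2_pm_eq hts ho hl τ (hlen τ)
  choose Φ1 hs1 h1 using fun i => fa2_const (fa2_fam1 hts ho i)
    (fun j p j' hj => ((key (i, j, p.1, p.2)).1 j' hj).1)
  choose Φ2 hs2 h2 using fun j => fa2_const (fa2_fam2 hts ho j)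
    (fun k p k' hk => ((key (p.1, j, k, p.2)).2 k' hk).1)
  choose Φ3 hs3 h3 using fun k => fa2_const (fa2_fam3 hts ho k)
    (fun j p j' hj => ((key (p.1, j, k, p.2)).1 j' hj).2)
  choose Φ4 hs4 h4 using fun l => fa2_const (fa2_fam4 hts ho l)
    (fun k p k' hk => ((key (p.1, p.2, k, l)).2 k' hk).2)
  refine ⟨Φ1, Φ2, Φ3, Φ4, hs1, hs2, hs3, hs4, ?_⟩
  intro i j k l κ
  exact ⟨fun j' hj => h1 i j (k, l) κ j' hj, fun k' hk => h2 j k (i, l) κ k' hk,
    fun j' hj => h3 k j (i, l) κ j' hj, fun k' hk => h4 l k (i, j) κ k' hk⟩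

end Pool.Agent.Helper53.Chain
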