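import Pool.Agent.Helper53.Chain.Alg

/-! CH-FA3: affine functions on the planes. -/

namespace Pool.Agent.Helper53.Chain

open Set

theorem fa3_affv_P (A : Fin 3 → ℝ) (s c w : ℝ) :
    affv A (P s c w) = affv A (Nn s c) + T s c w * (A 0 - A 1 * (s + c)) := by
  rw [P, affv_line]
  simp only [U_0, U_1]
  ring

theorem fa3_exists (s : ℝ) (c : Fin 3 → ℝ) (hs : 0 < s) (hc : Function.Injective c)
    (Φ : Fin 3 → Fin 3 → ℝ) (hΦ : ∀ j j', Φ j j' = Φ j' j) :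
    ∃ A : Fin 3 → ℝ, ∀ j j', j' ≠ j → affv A (P s (c j) (c j')) = Φ j j' := by
  have h01 : c 0 ≠ c 1 := fun h => absurd (hc h) (by decide)
  have h02 : c 0 ≠ c 2 := fun h => absurd (hc h) (by decide)
  have h12 : c 1 ≠ c 2 := fun h => absurd (hc h) (by decide)
  set d1 := T s (c 0) (c 1) - T s (c 0) (c 2) with hd1
  set d2 := T s (c 1) (c 0) - T s (c 1) (c 2) with hd2
  have hd1' : d1 ≠ 0 := sub_ne_zero.2 (T_ne hs h12)
  have hd2' : d2 ≠ 0 := sub_ne_zero.2 (T_ne hs h02)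
  set m0 := (Φ 0 1 - Φ 0 2) / d1 with hm0
  set m1 := (Φ 0 1 - Φ 1 2) / d2 with hm1
  set A1 := (m0 - m1) / (c 1 - c 0) with hA1
  set A0 := m0 + A1 * (s + c 0) with hA0
  have e1 : A0 - A1 * (s + c 0) = m0 := by rw [hA0]; ring
  have e2 : A0 - A1 * (s + c 1) = m1 := by
    have : A1 * (c 1 - c 0) = m0 - m1 := div_mul_cancel₀ _ (sub_ne_zero.2 h01.symm)
    rw [hA0]; linear_combination -this
  set q : E3 := P s (c 0) (c 1) with hq
  let A : Fin 3 → ℝ := ![A0, A1, Φ 0 1 - A0 * q 0 - A1 * q 1]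
  have hA0' : A 0 = A0 := rfl
  have hA1' : A 1 = A1 := rfl
  have f01 : affv A (P s (c 0) (c 1)) = Φ 0 1 := by
    change A0 * q 0 + A1 * q 1 + (Φ 0 1 - A0 * q 0 - A1 * q 1) = Φ 0 1
    ring
  have f02 : affv A (P s (c 0) (c 2)) = Φ 0 2 := by
    rw [fa3_affv_P] at f01 ⊢
    rw [hA0', hA1', e1] at f01 ⊢
    have : m0 * d1 = Φ 0 1 - Φ 0 2 := div_mul_cancel₀ _ hd1'
    rw [hd1] at this
    linear_combination f01 - this
  have f12 : affv A (P s (c 1) (c 2)) = Φ 1 2 := by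
    have f10 : affv A (P s (c 1) (c 0)) = Φ 0 1 := by rw [P_comm23, f01]
    rw [fa3_affv_P] at f10 ⊢
    rw [hA0', hA1', e2] at f10 ⊢
    have : m1 * d2 = Φ 0 1 - Φ 1 2 := div_mul_cancel₀ _ hd2'
    rw [hd2] at this
    linear_combination f10 - this
  refine ⟨A, fun j j' h => ?_⟩
  fin_cases j <;> fin_cases j' <;> simp only [ne_eq, not_true_eq_false] at h
  · exact f01
  · exact f02
  · change affv A (P s (c 1) (c 0)) = Φ 1 0
    rw [P_comm23, f01, hΦ]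
  · exact f12
  · change affv A (P s (c 2) (c 0)) = Φ 2 0
    rw [P_comm23, f02, hΦ]
  · change affv A (P s (c 2) (c 1)) = Φ 2 1
    rw [P_comm23, f12, hΦ]

theorem fa3_line (A : Fin 3 → ℝ) (s c w0 w1 e1 e2 : ℝ) (p q : E3) (hs : 0 < s) (hw : w0 ≠ w1)
    (he : e1 ≠ e2)
    (h1 : ev s (lerp (T s c w0) (T s c w1) (T s c e1) p q) = affv A (P s c e1))
    (h2 : ev s (lerp (T s c w0) (T s c w1) (T s c e2) p q) = affv A (P s c e2)) :
    ev s p = affv A (P s c w0) ∧ ev s q = affv A (P s c w1) := by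
  have t1 : T s c w1 - T s c w0 ≠ 0 := sub_ne_zero.2 (T_ne hs hw.symm)
  have t2 : T s c e1 - T s c e2 ≠ 0 := sub_ne_zero.2 (T_ne hs he)
  rw [ev_lerp, fa3_affv_P] at h1 h2
  rw [fa3_affv_P, fa3_affv_P]
  set a := affv A (Nn s c)
  set β := A 0 - A 1 * (s + c)
  set x0 := T s c w0
  set x1 := T s c w1
  set y1 := T s c e1
  set y2 := T s c e2
  have g1 : (x1 - y1) * ev s p + (y1 - x0) * ev s q = (x1 - x0) * (a + y1 * β) := by
    field_simp at h1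
    linarith
  have g2 : (x1 - y2) * ev s p + (y2 - x0) * ev s q = (x1 - x0) * (a + y2 * β) := by
    field_simp at h2
    linarith
  have g3 : (y1 - y2) * (ev s q - ev s p - (x1 - x0) * β) = 0 := by linear_combination g1 - g2
  have g4 : ev s q - ev s p - (x1 - x0) * β = 0 := (mul_eq_zero.1 g3).resolve_left t2
  have g5 : (x1 - x0) * (ev s p - (a + x0 * β)) = 0 := by
    linear_combination g1 - (y1 - x0) * g4
  have g6 : ev s p - (a + x0 * β) = 0 := (mul_eq_zero.1 g5).resolve_left t1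
  constructor
  · linarith
  · linear_combination g4 + g6

theorem fa3_two (j : Fin 3) : ∃ j1 j2 : Fin 3, j1 ≠ j ∧ j2 ≠ j ∧ j1 ≠ j2 := by
  fin_cases j
  · exact ⟨1, 2, by decide, by decide, by decide⟩
  · exact ⟨0, 2, by decide, by decide, by decide⟩
  · exact ⟨0, 1, by decide, by decide, by decide⟩

theorem affine_planes (N : Nodes) (v : Copy → Fin 4 → E3)
    (Φ1 Φ2 Φ3 : Fin 3 → Fin 3 → Fin 3 → ℝ) (Φ4 : Fin 7 → Fin 3 → Fin 3 → ℝ)
    (s1 : ∀ i j j', Φ1 i j j' = Φ1 i j' j) (s2 : ∀ j k k', Φ2 j k k' = Φ2 j k' k)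
    (s3 : ∀ k j j', Φ3 k j j' = Φ3 k j' j) (s4 : ∀ l k k', Φ4 l k k' = Φ4 l k' k)
    (h : ∀ i j k l κ,
        (∀ j', j' ≠ j → N.h1 v ((i, j, k, l), κ) j' = Φ1 i j j') ∧
        (∀ k', k' ≠ k → N.h2a v ((i, j, k, l), κ) k' = Φ2 j k k') ∧
        (∀ j', j' ≠ j → N.h2b v ((i, j, k, l), κ) j' = Φ3 k j j') ∧
        (∀ k', k' ≠ k → N.h3 v ((i, j, k, l), κ) k' = Φ4 l k k')) :
    ∃ (Ax Aa Ab : Fin 3 → Fin 3 → ℝ) (Ay : Fin 7 → Fin 3 → ℝ), ∀ i j k l κ,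
      ev (N.x i) (v ((i, j, k, l), κ) 0) = affv (Ax i) (N.X₀ ((i, j, k, l), κ) 0) ∧
      ev (N.x i) (v ((i, j, k, l), κ) 1) = affv (Ax i) (N.X₀ ((i, j, k, l), κ) 1) ∧
      ev (N.a j) (v ((i, j, k, l), κ) 1) = affv (Aa j) (N.X₀ ((i, j, k, l), κ) 1) ∧
      ev (N.a j) (v ((i, j, k, l), κ) 2) = affv (Aa j) (N.X₀ ((i, j, k, l), κ) 2) ∧
      ev (N.b k) (v ((i, j, k, l), κ) 1) = affv (Ab k) (N.X₀ ((i, j, k, l), κ) 1) ∧
      ev (N.b k) (v ((i, j, k, l), κ) 2) = affv (Ab k) (N.X₀ ((i, j, k, l), κ) 2) ∧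
      ev (N.y l) (v ((i, j, k, l), κ) 2) = affv (Ay l) (N.X₀ ((i, j, k, l), κ) 2) ∧
      ev (N.y l) (v ((i, j, k, l), κ) 3) = affv (Ay l) (N.X₀ ((i, j, k, l), κ) 3) := by
  choose Ax hAx using fun i => fa3_exists (N.x i) N.a (N.x_pos i) N.ha.injective (Φ1 i) (s1 i)
  choose Aa hAa using fun j => fa3_exists (N.a j) N.b (N.a_pos j) N.hb.injective (Φ2 j) (s2 j)
  choose Ab hAb using fun k => fa3_exists (N.b k) N.a (N.b_pos k) N.ha.injective (Φ3 k) (s3 k)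
  choose Ay hAy using fun l => fa3_exists (N.y l) N.b (N.y_pos l) N.hb.injective (Φ4 l) (s4 l)
  refine ⟨Ax, Aa, Ab, Ay, fun i j k l κ => ?_⟩
  obtain ⟨g1, g2, g3, g4⟩ := h i j k l κ
  obtain ⟨j1, j2, hj1, hj2, hj12⟩ := fa3_two j
  obtain ⟨k1, k2, hk1, hk2, hk12⟩ := fa3_two k
  have na : N.a j1 ≠ N.a j2 := fun h => hj12 (N.ha.injective h)
  have nb : N.b k1 ≠ N.b k2 := fun h => hk12 (N.hb.injective h)
  -- plane x
  have hwb : N.w ≠ N.b k := ((N.w_lt_x i).trans ((N.x_lt_a i j).trans (N.a_lt_b j k))).ne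
  have hxy : N.x i ≠ N.y l := ((N.x_lt_a i j).trans ((N.a_lt_b j k).trans (N.b_lt_y k l))).ne
  have haz : N.a j ≠ N.z := ((N.a_lt_b j k).trans ((N.b_lt_y k l).trans (N.y_lt_z l))).ne
  have X := fa3_line (Ax i) (N.x i) (N.a j) N.w (N.b k) (N.a j1) (N.a j2)
    (v ((i, j, k, l), κ) 0) (v ((i, j, k, l), κ) 1) (N.x_pos i) hwb na
    (by rw [hAx i j j1 hj1, ← g1 j1 hj1]; rfl) (by rw [hAx i j j2 hj2, ← g1 j2 hj2]; rfl)
  have A := fa3_line (Aa j) (N.a j) (N.b k) (N.x i) (N.y l) (N.b k1) (N.b k2)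
    (v ((i, j, k, l), κ) 1) (v ((i, j, k, l), κ) 2) (N.a_pos j) hxy nb
    (by rw [hAa j k k1 hk1, ← g2 k1 hk1]; rfl) (by rw [hAa j k k2 hk2, ← g2 k2 hk2]; rfl)
  have B := fa3_line (Ab k) (N.b k) (N.a j) (N.x i) (N.y l) (N.a j1) (N.a j2)
    (v ((i, j, k, l), κ) 1) (v ((i, j, k, l), κ) 2) (N.b_pos k) hxy na
    (by
      rw [hAb k j j1 hj1, ← g3 j1 hj1, T_comm12, T_comm12 (N.b k) (N.a j) (N.y l),
        T_comm12 (N.b k) (N.a j) (N.a j1)]; rfl)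
    (by
      rw [hAb k j j2 hj2, ← g3 j2 hj2, T_comm12, T_comm12 (N.b k) (N.a j) (N.y l),
        T_comm12 (N.b k) (N.a j) (N.a j2)]; rfl)
  have Y := fa3_line (Ay l) (N.y l) (N.b k) (N.a j) N.z (N.b k1) (N.b k2)
    (v ((i, j, k, l), κ) 2) (v ((i, j, k, l), κ) 3) (N.y_pos l) haz nb
    (by
      rw [hAy l k k1 hk1, ← g4 k1 hk1, T_comm12, T_comm12 (N.y l) (N.b k) N.z,
        T_comm12 (N.y l) (N.b k) (N.b k1)]; rfl)
    (by
      rw [hAy l k k2 hk2, ← g4 k2 hk2, T_comm12, T_comm12 (N.y l) (N.b k) N.z,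
        T_comm12 (N.y l) (N.b k) (N.b k2)]; rfl)
  simp only [Nodes.X₀_0, Nodes.X₀_1, Nodes.X₀_2, Nodes.X₀_3]
  refine ⟨?_, ?_, ?_, ?_, ?_, ?_, ?_, ?_⟩
  · rw [P_rot]; exact X.1
  · exact X.2
  · rw [P_rot]; exact A.1
  · exact A.2
  · rw [P_comm13]; exact B.1
  · rw [P_comm12]; exact B.2
  · rw [P_comm13]; exact Y.1
  · rw [P_comm12]; exact Y.2

end Pool.Agent.Helper53.Chain
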