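import Pool.Agent.Helper53.Chain.Base

/-! # The cycle in the planes `a` -/

namespace Pool.Agent.Helper53.Chain

open Set

/-- The abstract cycle. -/
theorem fb5_cyc {d01 d12 d20 d10 d21 d02 w0 w1 w2 : ℝ} (p12 : 0 < d12) (p20 : 0 < d20)
    (p10 : 0 < d10) (p21 : 0 < d21) (p02 : 0 < d02)
    (hd : d10 * d21 * d02 < d01 * d12 * d20) (h0 : d01 * w0 ≤ d10 * w1) (h1 : d12 * w1 ≤ d21 * w2)
    (h2 : d20 * w2 ≤ d02 * w0) : w0 ≤ 0 ∧ w1 ≤ 0 ∧ w2 ≤ 0 := by
  have e0 : d01 * d12 * d20 * w0 ≤ d10 * d12 * d20 * w1 := by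
    have := mul_le_mul_of_nonneg_left h0 (mul_pos p12 p20).le
    nlinarith
  have e1 : d10 * d12 * d20 * w1 ≤ d10 * d21 * d20 * w2 := by
    have := mul_le_mul_of_nonneg_left h1 (mul_pos p10 p20).le
    nlinarith
  have e2 : d10 * d21 * d20 * w2 ≤ d10 * d21 * d02 * w0 := by
    have := mul_le_mul_of_nonneg_left h2 (mul_pos p10 p21).le
    nlinarith
  have w0' : w0 ≤ 0 := by
    by_contra hc
    push Not at hc
    have : (d01 * d12 * d20 - d10 * d21 * d02) * w0 ≤ 0 := by linarith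
    have h3 : 0 < (d01 * d12 * d20 - d10 * d21 * d02) * w0 := mul_pos (by linarith) hc
    linarith
  have w2' : w2 ≤ 0 := by
    by_contra hc
    push Not at hc
    have : 0 < d20 * w2 := mul_pos p20 hc
    have : d02 * w0 ≤ 0 := mul_nonpos_of_nonneg_of_nonpos p02.le w0'
    linarith
  have w1' : w1 ≤ 0 := by
    by_contra hc
    push Not at hc
    have : 0 < d12 * w1 := mul_pos p12 hc
    have : d21 * w2 ≤ 0 := mul_nonpos_of_nonneg_of_nonpos p21.le w2'
    linarith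
  exact ⟨w0', w1', w2'⟩

/-- The abstract core of the cycle argument: `h true` are the upward copies, `h false` the
downward ones. -/
theorem fb5_core (e : ℝ) (he : 0 < e) (d : Fin 3 → Fin 3 → ℝ) (hpos : ∀ i i', i ≠ i' → 0 < d i i')
    (hd : d 1 0 * d 2 1 * d 0 2 < d 0 1 * d 1 2 * d 2 0) (h : Bool → Fin 3 → Fin 3 → ℝ)
    (w : Bool → Fin 3 → ℝ)
    (hU : ∀ i i', i' ≠ i → |h true i i' - e * su i i'| < e / 4)
    (hD : ∀ i i', i' ≠ i → |h false i i' + 2 * e * su i i'| < e / 4)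
    (ord : ∀ X Y i i', i ≠ i' → h X i i' < h Y i' i → d i i' * w X i ≤ d i' i * w Y i') :
    ∀ X i, w X i = 0 := by
  have s01 : su 0 1 = -1 := by simp [su]
  have s12 : su 1 2 = -1 := by simp [su]
  have s20 : su 2 0 = -1 := by simp [su]
  have s10 : su 1 0 = 1 := by simp [su]
  have s21 : su 2 1 = 1 := by simp [su]
  have s02 : su 0 2 = 1 := by simp [su]
  have u01 := abs_lt.1 (hU 0 1 (by decide))
  have u12 := abs_lt.1 (hU 1 2 (by decide))
  have u20 := abs_lt.1 (hU 2 0 (by decide))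
  have u10 := abs_lt.1 (hU 1 0 (by decide))
  have u21 := abs_lt.1 (hU 2 1 (by decide))
  have u02 := abs_lt.1 (hU 0 2 (by decide))
  have v01 := abs_lt.1 (hD 0 1 (by decide))
  have v12 := abs_lt.1 (hD 1 2 (by decide))
  have v20 := abs_lt.1 (hD 2 0 (by decide))
  have v10 := abs_lt.1 (hD 1 0 (by decide))
  have v21 := abs_lt.1 (hD 2 1 (by decide))
  have v02 := abs_lt.1 (hD 0 2 (by decide))
  rw [s01] at u01 v01
  rw [s12] at u12 v12
  rw [s20] at u20 v20
  rw [s10] at u10 v10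
  rw [s21] at u21 v21
  rw [s02] at u02 v02
  have a0 := ord true true 0 1 (by decide) (by linarith)
  have a1 := ord true true 1 2 (by decide) (by linarith)
  have a2 := ord true true 2 0 (by decide) (by linarith)
  obtain ⟨U0, U1, U2⟩ := fb5_cyc (hpos 1 2 (by decide)) (hpos 2 0 (by decide))
    (hpos 1 0 (by decide)) (hpos 2 1 (by decide)) (hpos 0 2 (by decide)) hd a0 a1 a2
  have b0 := ord false false 1 0 (by decide) (by linarith)
  have b1 := ord false false 2 1 (by decide) (by linarith)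
  have b2 := ord false false 0 2 (by decide) (by linarith)
  obtain ⟨D0, D1, D2⟩ := fb5_cyc (w0 := -w false 0) (w1 := -w false 1) (w2 := -w false 2)
    (hpos 1 2 (by decide)) (hpos 2 0 (by decide))
    (hpos 1 0 (by decide)) (hpos 2 1 (by decide)) (hpos 0 2 (by decide)) hd
    (by linarith) (by linarith) (by linarith)
  have c0 := ord false true 1 0 (by decide) (by linarith)
  have c1 := ord false true 2 1 (by decide) (by linarith)
  have c2 := ord false true 0 2 (by decide) (by linarith)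
  have key : ∀ {p q s t : ℝ}, 0 < p → 0 < q → s ≤ 0 → -t ≤ 0 → p * t ≤ q * s → s = 0 ∧ t = 0 := by
    intro p q s t hp hq hs ht hst
    have h1 : q * s ≤ 0 := mul_nonpos_of_nonneg_of_nonpos hq.le hs
    have h2 : 0 ≤ p * t := mul_nonneg hp.le (by linarith)
    have h3 : q * s = 0 := by linarith
    have h4 : p * t = 0 := by linarith
    exact ⟨(mul_eq_zero.1 h3).resolve_left hq.ne', (mul_eq_zero.1 h4).resolve_left hp.ne'⟩
  obtain ⟨z0, z1'⟩ := key (hpos 1 0 (by decide)) (hpos 0 1 (by decide)) U0 D1 c0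
  obtain ⟨z1, z2'⟩ := key (hpos 2 1 (by decide)) (hpos 1 2 (by decide)) U1 D2 c1
  obtain ⟨z2, z0'⟩ := key (hpos 0 2 (by decide)) (hpos 2 0 (by decide)) U2 D0 c2
  intro X i
  cases X <;> fin_cases i
  · exact z0'
  · exact z1'
  · exact z2'
  · exact z0
  · exact z1
  · exact z2

theorem fb5_ev_lerp (s t0 t1 t : ℝ) (p q : E3) :
    ev s (lerp t0 t1 t p q) = ((t1 - t) / (t1 - t0)) * ev s p + ((t - t0) / (t1 - t0)) * ev s q := by
  simp [ev, lerp]; ring

theorem fb5_T_sub (a b c d : ℝ) : T a b c - T a b d = (c - d) * h2 a b c d := by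
  unfold T h2; ring

theorem fb5_T_lt {a b c d : ℝ} (ha : 0 < a) (hb : 0 < b) (hc : 0 < c) (hd : 0 < d) (h : d < c) :
    0 < T a b c - T a b d := by
  rw [fb5_T_sub]
  exact mul_pos (by linarith) (by unfold h2; positivity)

theorem fb5_x_pos (N : Nodes) (i : Fin 3) : 0 < N.x i :=
  (N.w_pos.trans N.wx).trans_le (N.hx.monotone (Fin.zero_le i))

theorem fb5_wx (N : Nodes) (i : Fin 3) : N.w < N.x i :=
  N.wx.trans_le (N.hx.monotone (Fin.zero_le i))

theorem fb5_xa (N : Nodes) (i j : Fin 3) : N.x i < N.a j := by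
  have h1 : N.x i ≤ N.x 2 := N.hx.monotone (by fin_cases i <;> decide)
  have h2 : N.a 0 ≤ N.a j := N.ha.monotone (Fin.zero_le j)
  exact h1.trans_lt (N.xa.trans_le h2)

theorem fb5_ab (N : Nodes) (i j : Fin 3) : N.a i < N.b j := by
  have h1 : N.a i ≤ N.a 2 := N.ha.monotone (by fin_cases i <;> decide)
  have h2 : N.b 0 ≤ N.b j := N.hb.monotone (Fin.zero_le j)
  exact h1.trans_lt (N.ab.trans_le h2)

theorem fb5_by (N : Nodes) (i : Fin 3) (l : Fin 7) : N.b i < N.y l := by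
  have h1 : N.b i ≤ N.b 2 := N.hb.monotone (by fin_cases i <;> decide)
  have h2 : N.y 0 ≤ N.y l := N.hy.monotone (Fin.zero_le l)
  exact h1.trans_lt (N.bY.trans_le h2)

theorem fb5_yz (N : Nodes) (l : Fin 7) : N.y l < N.z := by
  have h1 : N.y l ≤ N.y 6 := N.hy.monotone (by fin_cases l <;> decide)
  exact h1.trans_lt N.yz

theorem fb5_a_pos (N : Nodes) (j : Fin 3) : 0 < N.a j := (fb5_x_pos N 0).trans (fb5_xa N 0 j)

theorem fb5_b_pos (N : Nodes) (j : Fin 3) : 0 < N.b j := (fb5_a_pos N 0).trans (fb5_ab N 0 j)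

theorem fb5_y_pos (N : Nodes) (l : Fin 7) : 0 < N.y l := (fb5_b_pos N 0).trans (fb5_by N 0 l)

/-- The normalised weight of a copy. -/
noncomputable def fb5_w (N : Nodes) (v : Copy → Fin 4 → E3) (c : Copy) : ℝ :=
  ev (N.a c.1.2.1) (v c 0) /
    (T (N.x c.1.1) (N.a c.1.2.1) (N.b c.1.2.2.1) - T (N.x c.1.1) (N.a c.1.2.1) N.w)

theorem fb5_h5 (N : Nodes) (v : Copy → Fin 4 → E3) (h1 : ∀ c, v c 1 = 0) (i j k : Fin 3) (l : Fin 7)
    (κ : Kind) (i' : Fin 3) : N.h5 v ((i, j, k, l), κ) i' =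
      (T (N.x i) (N.a j) (N.b k) - T (N.x i) (N.a j) (N.x i')) * fb5_w N v ((i, j, k, l), κ) := by
  unfold Nodes.h5 Nodes.at1 fb5_w
  rw [fb5_ev_lerp, h1]
  have : ev (N.a j) (0 : E3) = 0 := by simp [ev]
  simp only [this]
  ring

theorem fb5_d_pos (N : Nodes) (i j k i' : Fin 3) :
    0 < T (N.x i) (N.a j) (N.b k) - T (N.x i) (N.a j) (N.x i') :=
  fb5_T_lt (fb5_x_pos N i) (fb5_a_pos N j) (fb5_b_pos N k) (fb5_x_pos N i')
    ((fb5_xa N i' 0).trans (fb5_ab N 0 k))

/-- The Menelaus inequality. -/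
theorem fb5_menelaus (N : Nodes) (j : Fin 3) :
    (T (N.x 1) (N.a j) (N.b 1) - T (N.x 1) (N.a j) (N.x 0)) *
      (T (N.x 2) (N.a j) (N.b 1) - T (N.x 2) (N.a j) (N.x 1)) *
      (T (N.x 0) (N.a j) (N.b 0) - T (N.x 0) (N.a j) (N.x 2)) <
    (T (N.x 0) (N.a j) (N.b 0) - T (N.x 0) (N.a j) (N.x 1)) *
      (T (N.x 1) (N.a j) (N.b 1) - T (N.x 1) (N.a j) (N.x 2)) *
      (T (N.x 2) (N.a j) (N.b 1) - T (N.x 2) (N.a j) (N.x 0)) := by
  have ha := fb5_a_pos N j
  have hx0 := fb5_x_pos N 0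
  have hx1 := fb5_x_pos N 1
  have hx2 := fb5_x_pos N 2
  have hb0 := fb5_b_pos N 0
  have hb1 := fb5_b_pos N 1
  have x12 : N.x 1 < N.x 2 := N.hx (by decide)
  have b01 : N.b 0 < N.b 1 := N.hb (by decide)
  have f1 := fb5_T_lt hx0 ha hb1 hb0 b01
  have f2 := fb5_T_lt hx0 ha hx2 hx1 x12
  have f3 := mul_pos f1 f2
  -- common factor
  have e1 : T (N.x 1) (N.a j) (N.b 1) - T (N.x 1) (N.a j) (N.x 0) =
      (N.b 1 - N.x 0) * h2 (N.x 0) (N.a j) (N.b 1) (N.x 1) := by unfold T h2; ring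
  have e2 : T (N.x 2) (N.a j) (N.b 1) - T (N.x 2) (N.a j) (N.x 1) =
      (N.b 1 - N.x 1) * h2 (N.x 1) (N.a j) (N.b 1) (N.x 2) := by unfold T h2; ring
  have e4 : T (N.x 1) (N.a j) (N.b 1) - T (N.x 1) (N.a j) (N.x 2) =
      (N.b 1 - N.x 2) * h2 (N.x 1) (N.a j) (N.b 1) (N.x 2) := by unfold T h2; ring
  have e5 : T (N.x 2) (N.a j) (N.b 1) - T (N.x 2) (N.a j) (N.x 0) =
      (N.b 1 - N.x 0) * h2 (N.x 0) (N.a j) (N.b 1) (N.x 2) := by unfold T h2; ring
  have g1 : (N.b 1 - N.x 1) * h2 (N.x 0) (N.a j) (N.b 1) (N.x 1) =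
      T (N.x 0) (N.a j) (N.b 1) - T (N.x 0) (N.a j) (N.x 1) := by unfold T h2; ring
  have g2 : (N.b 1 - N.x 2) * h2 (N.x 0) (N.a j) (N.b 1) (N.x 2) =
      T (N.x 0) (N.a j) (N.b 1) - T (N.x 0) (N.a j) (N.x 2) := by unfold T h2; ring
  set F := T (N.x 0) (N.a j) with hF
  have hc : 0 < (N.b 1 - N.x 0) * h2 (N.x 1) (N.a j) (N.b 1) (N.x 2) :=
    mul_pos (by linarith [fb5_xa N 0 0, fb5_ab N 0 1]) (by unfold h2; positivity)
  rw [e1, e2, e4, e5]
  have main : (F (N.b 1) - F (N.x 1)) * (F (N.b 0) - F (N.x 2)) <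
      (F (N.b 0) - F (N.x 1)) * (F (N.b 1) - F (N.x 2)) := by nlinarith
  have := mul_lt_mul_of_pos_left main hc
  calc (N.b 1 - N.x 0) * h2 (N.x 0) (N.a j) (N.b 1) (N.x 1) *
        ((N.b 1 - N.x 1) * h2 (N.x 1) (N.a j) (N.b 1) (N.x 2)) * (F (N.b 0) - F (N.x 2))
      = ((N.b 1 - N.x 0) * h2 (N.x 1) (N.a j) (N.b 1) (N.x 2)) *
        (((N.b 1 - N.x 1) * h2 (N.x 0) (N.a j) (N.b 1) (N.x 1)) * (F (N.b 0) - F (N.x 2))) := by ring
    _ = ((N.b 1 - N.x 0) * h2 (N.x 1) (N.a j) (N.b 1) (N.x 2)) *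
        ((F (N.b 1) - F (N.x 1)) * (F (N.b 0) - F (N.x 2))) := by rw [g1]
    _ < _ := this
    _ = ((N.b 1 - N.x 0) * h2 (N.x 1) (N.a j) (N.b 1) (N.x 2)) *
        ((F (N.b 0) - F (N.x 1)) *
          ((N.b 1 - N.x 2) * h2 (N.x 0) (N.a j) (N.b 1) (N.x 2))) := by rw [g2]
    _ = _ := by ring

theorem cycle_x (N : Nodes) (e : ℝ) (he : 0 < e) (u v : Copy → Fin 4 → E3) (hts : Hts N e u)
    (ho : N.Ord u v) (h1 : ∀ c, v c 1 = 0) : ∀ c, ev (N.a c.1.2.1) (v c 0) = 0 := by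
  -- the designated copies
  have hdes : ∀ (j : Fin 3) (l : Fin 7) (X : Bool) (i : Fin 3),
      fb5_w N v ((i, j, sel i, l), if X = true then Kind.up else Kind.dn) = 0 := by
    intro j l
    have := fb5_core e he
      (fun i i' => T (N.x i) (N.a j) (N.b (sel i)) - T (N.x i) (N.a j) (N.x i'))
      (fun i i' _ => fb5_d_pos N i j (sel i) i')
      (by
        have := fb5_menelaus N j
        simpa [sel] using this)
      (fun X i i' => N.h5 u ((i, j, sel i, l), if X = true then Kind.up else Kind.dn) i')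
      (fun X i => fb5_w N v ((i, j, sel i, l), if X = true then Kind.up else Kind.dn))
      (fun i i' hi => by simpa using (hts.u5 i j l i' hi).1)
      (fun i i' hi => by simpa using (hts.u5 i j l i' hi).2)
      (fun X Y i i' hi hlt => by
        have := ho.K5 i i' j (sel i) (sel i') l l _ _ hi hlt
        rwa [fb5_h5 N v h1, fb5_h5 N v h1] at this)
    exact this
  have hup : ∀ i j l, fb5_w N v ((i, j, sel i, l), Kind.up) = 0 := fun i j l => by
    simpa using hdes j l true i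
  have hdn : ∀ i j l, fb5_w N v ((i, j, sel i, l), Kind.dn) = 0 := fun i j l => by
    simpa using hdes j l false i
  -- all weights vanish
  have hw : ∀ c, fb5_w N v c = 0 := by
    rintro ⟨⟨i, j, k, l⟩, κ⟩
    by_cases hk : k = sel i ∧ (κ = Kind.up ∨ κ = Kind.dn)
    · obtain ⟨rfl, rfl | rfl⟩ := hk
      · exact hup i j l
      · exact hdn i j l
    · have hc : k = sel i → κ ≠ Kind.up ∧ κ ≠ Kind.dn := by
        intro h
        constructor
        · intro h'; exact hk ⟨h, Or.inl h'⟩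
        · intro h'; exact hk ⟨h, Or.inr h'⟩
      have ho5 := abs_lt.1 (hts.o5 i j k l κ hc)
      -- a sandwich between two vanishing copies
      have sand : ∀ (i' : Fin 3) (κ₁ κ₂ : Kind), i ≠ i' →
          fb5_w N v ((i', j, sel i', l), κ₁) = 0 → fb5_w N v ((i', j, sel i', l), κ₂) = 0 →
          N.h5 u ((i', j, sel i', l), κ₁) i < N.h5 u ((i, j, k, l), κ) i' →
          N.h5 u ((i, j, k, l), κ) i' < N.h5 u ((i', j, sel i', l), κ₂) i →
          fb5_w N v ((i, j, k, l), κ) = 0 := by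
        intro i' κ₁ κ₂ hi w1 w2 l1 l2
        have r1 := ho.K5 i' i j (sel i') k l l κ₁ κ hi.symm l1
        have r2 := ho.K5 i i' j k (sel i') l l κ κ₂ hi l2
        rw [fb5_h5 N v h1, fb5_h5 N v h1, w1, mul_zero] at r1
        rw [fb5_h5 N v h1, fb5_h5 N v h1, w2, mul_zero] at r2
        have := fb5_d_pos N i j k i'
        have r3 : (T (N.x i) (N.a j) (N.b k) - T (N.x i) (N.a j) (N.x i')) *
          fb5_w N v ((i, j, k, l), κ) = 0 := le_antisymm r2 r1
        exact (mul_eq_zero.1 r3).resolve_left this.ne'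
      fin_cases i
      · -- i = 0, crossing with the line 1
        have U := abs_lt.1 (hts.u5 1 j l 0 (by decide)).1
        have D := abs_lt.1 (hts.u5 1 j l 0 (by decide)).2
        have s : su 1 0 = 1 := by simp [su]
        have jj : jx 0 = 1 := by simp [jx]
        rw [s] at U D
        simp only [Fin.zero_eta, jj] at ho5
        exact sand 1 Kind.dn Kind.up (by decide) (hdn 1 j l) (hup 1 j l)
          (by simp only [Fin.zero_eta]; linarith) (by simp only [Fin.zero_eta]; linarith)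
      · have U := abs_lt.1 (hts.u5 0 j l 1 (by decide)).1
        have D := abs_lt.1 (hts.u5 0 j l 1 (by decide)).2
        have s : su 0 1 = -1 := by simp [su]
        have jj : jx 1 = 0 := by simp [jx]
        rw [s] at U D
        simp only [Fin.mk_one, jj] at ho5
        exact sand 0 Kind.up Kind.dn (by decide) (hup 0 j l) (hdn 0 j l)
          (by simp only [Fin.mk_one]; linarith) (by simp only [Fin.mk_one]; linarith)
      · have U := abs_lt.1 (hts.u5 0 j l 2 (by decide)).1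
        have D := abs_lt.1 (hts.u5 0 j l 2 (by decide)).2
        have s : su 0 2 = 1 := by simp [su]
        have jj : jx 2 = 0 := by simp [jx]
        rw [s] at U D
        simp only [Fin.reduceFinMk, jj] at ho5
        exact sand 0 Kind.dn Kind.up (by decide) (hdn 0 j l) (hup 0 j l)
          (by simp only [Fin.reduceFinMk]; linarith) (by simp only [Fin.reduceFinMk]; linarith)
  rintro ⟨⟨i, j, k, l⟩, κ⟩
  have := hw ((i, j, k, l), κ)
  unfold fb5_w at this
  have hpos : 0 < T (N.x i) (N.a j) (N.b k) - T (N.x i) (N.a j) N.w :=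
    fb5_T_lt (fb5_x_pos N i) (fb5_a_pos N j) (fb5_b_pos N k) N.w_pos
      ((fb5_wx N 0).trans ((fb5_xa N 0 0).trans (fb5_ab N 0 k)))
  rcases div_eq_zero_iff.1 this with h | h
  · exact h
  · exact absurd h hpos.ne'

end Pool.Agent.Helper53.Chain
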