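import Pool.Agent.Helper53.Chain.FB5

/-! # The cycle in the planes `b` -/

namespace Pool.Agent.Helper53.Chain

open Set

/-- The normalised weight of rod 3 of a copy. -/
noncomputable def fb6_w (N : Nodes) (v : Copy → Fin 4 → E3) (c : Copy) : ℝ :=
  ev (N.b c.1.2.2.1) (v c 3) /
    (T (N.b c.1.2.2.1) (N.y c.1.2.2.2) N.z - T (N.b c.1.2.2.1) (N.y c.1.2.2.2) (N.a c.1.2.1))

theorem fb6_h6 (N : Nodes) (v : Copy → Fin 4 → E3) (h2 : ∀ c, v c 2 = 0) (i j k : Fin 3) (l : Fin 7)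
    (κ : Kind) (l' : Fin 7) : N.h6 v ((i, j, k, l), κ) l' =
      (T (N.b k) (N.y l) (N.y l') - T (N.b k) (N.y l) (N.a j)) * fb6_w N v ((i, j, k, l), κ) := by
  unfold Nodes.h6 Nodes.at3 fb6_w
  rw [fb5_ev_lerp, h2]
  have : ev (N.b k) (0 : E3) = 0 := by simp [ev]
  simp only [this]
  ring

theorem fb6_d_pos (N : Nodes) (j k : Fin 3) (l l' : Fin 7) :
    0 < T (N.b k) (N.y l) (N.y l') - T (N.b k) (N.y l) (N.a j) :=
  fb5_T_lt (fb5_b_pos N k) (fb5_y_pos N l) (fb5_y_pos N l') (fb5_a_pos N j)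
    ((fb5_ab N j 0).trans (fb5_by N 0 l'))

/-- The Menelaus inequality. -/
theorem fb6_menelaus (N : Nodes) (k : Fin 3) (y : Fin 3 → ℝ) (hy : StrictMono y)
    (hby : ∀ l, N.b k < y l) :
    (T (N.b k) (y 1) (y 0) - T (N.b k) (y 1) (N.a 1)) *
      (T (N.b k) (y 2) (y 1) - T (N.b k) (y 2) (N.a 1)) *
      (T (N.b k) (y 0) (y 2) - T (N.b k) (y 0) (N.a 0)) <
    (T (N.b k) (y 0) (y 1) - T (N.b k) (y 0) (N.a 0)) *
      (T (N.b k) (y 1) (y 2) - T (N.b k) (y 1) (N.a 1)) *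
      (T (N.b k) (y 2) (y 0) - T (N.b k) (y 2) (N.a 1)) := by
  have hb := fb5_b_pos N k
  have hy0 : 0 < y 0 := hb.trans (hby 0)
  have hy1 : 0 < y 1 := hb.trans (hby 1)
  have hy2 : 0 < y 2 := hb.trans (hby 2)
  have ha0 := fb5_a_pos N 0
  have ha1 := fb5_a_pos N 1
  have y12 : y 1 < y 2 := hy (by decide)
  have a01 : N.a 0 < N.a 1 := N.ha (by decide)
  have f1 := fb5_T_lt hb hy0 ha1 ha0 a01
  have f2 := fb5_T_lt hb hy0 hy2 hy1 y12
  have f3 := mul_pos f1 f2
  have e1 : T (N.b k) (y 1) (y 0) - T (N.b k) (y 1) (N.a 1) =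
      (y 0 - N.a 1) * h2 (N.b k) (y 0) (N.a 1) (y 1) := by unfold T h2; ring
  have e2 : T (N.b k) (y 2) (y 1) - T (N.b k) (y 2) (N.a 1) =
      (y 1 - N.a 1) * h2 (N.b k) (y 1) (N.a 1) (y 2) := by unfold T h2; ring
  have e4 : T (N.b k) (y 1) (y 2) - T (N.b k) (y 1) (N.a 1) =
      (y 2 - N.a 1) * h2 (N.b k) (y 1) (N.a 1) (y 2) := by unfold T h2; ring
  have e5 : T (N.b k) (y 2) (y 0) - T (N.b k) (y 2) (N.a 1) =
      (y 0 - N.a 1) * h2 (N.b k) (y 0) (N.a 1) (y 2) := by unfold T h2; ring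
  have g1 : (y 1 - N.a 1) * h2 (N.b k) (y 0) (N.a 1) (y 1) =
      T (N.b k) (y 0) (y 1) - T (N.b k) (y 0) (N.a 1) := by unfold T h2; ring
  have g2 : (y 2 - N.a 1) * h2 (N.b k) (y 0) (N.a 1) (y 2) =
      T (N.b k) (y 0) (y 2) - T (N.b k) (y 0) (N.a 1) := by unfold T h2; ring
  set F := T (N.b k) (y 0) with hF
  have hc : 0 < (y 0 - N.a 1) * h2 (N.b k) (y 1) (N.a 1) (y 2) :=
    mul_pos (by linarith [fb5_ab N 1 k, hby 0]) (by unfold h2; positivity)
  rw [e1, e2, e4, e5]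
  have main : (F (y 1) - F (N.a 1)) * (F (y 2) - F (N.a 0)) <
      (F (y 1) - F (N.a 0)) * (F (y 2) - F (N.a 1)) := by nlinarith
  have := mul_lt_mul_of_pos_left main hc
  calc (y 0 - N.a 1) * h2 (N.b k) (y 0) (N.a 1) (y 1) *
        ((y 1 - N.a 1) * h2 (N.b k) (y 1) (N.a 1) (y 2)) * (F (y 2) - F (N.a 0))
      = ((y 0 - N.a 1) * h2 (N.b k) (y 1) (N.a 1) (y 2)) *
        (((y 1 - N.a 1) * h2 (N.b k) (y 0) (N.a 1) (y 1)) * (F (y 2) - F (N.a 0))) := by ring
    _ = ((y 0 - N.a 1) * h2 (N.b k) (y 1) (N.a 1) (y 2)) *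
        ((F (y 1) - F (N.a 1)) * (F (y 2) - F (N.a 0))) := by rw [g1]
    _ < _ := this
    _ = ((y 0 - N.a 1) * h2 (N.b k) (y 1) (N.a 1) (y 2)) *
        ((F (y 1) - F (N.a 0)) *
          ((y 2 - N.a 1) * h2 (N.b k) (y 0) (N.a 1) (y 2))) := by rw [g2]
    _ = _ := by ring

/-- extrapolation along rod 3 -/
theorem fb6_affine (N : Nodes) (u : Copy → Fin 4 → E3) (c : Copy) :
    ∃ A B : ℝ, ∀ l', N.h6 u c l' = A + B * T (N.b c.1.2.2.1) (N.y c.1.2.2.2) (N.y l') := by
  obtain ⟨t0, ht0⟩ : ∃ t, t = T (N.b c.1.2.2.1) (N.y c.1.2.2.2) (N.a c.1.2.1) := ⟨_, rfl⟩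
  obtain ⟨t1, ht1⟩ : ∃ t, t = T (N.b c.1.2.2.1) (N.y c.1.2.2.2) N.z := ⟨_, rfl⟩
  obtain ⟨p, hp⟩ : ∃ p, p = ev (N.b c.1.2.2.1) (u c 2) := ⟨_, rfl⟩
  obtain ⟨q, hq⟩ : ∃ q, q = ev (N.b c.1.2.2.1) (u c 3) := ⟨_, rfl⟩
  refine ⟨t1 / (t1 - t0) * p - t0 / (t1 - t0) * q, (q - p) / (t1 - t0), fun l' => ?_⟩
  unfold Nodes.h6 Nodes.at3
  rw [fb5_ev_lerp, ← ht0, ← ht1, ← hp, ← hq]
  ring

theorem cycle_y (N : Nodes) (e : ℝ) (he : 0 < e) (u v : Copy → Fin 4 → E3) (hts : Hts N e u)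
    (ho : N.Ord u v) (h2 : ∀ c, v c 2 = 0) : ∀ c, ev (N.b c.1.2.2.1) (v c 3) = 0 := by
  have y3m : StrictMono y3 := by
    intro p q h
    exact h
  have y3i : ∀ p q : Fin 3, p ≠ q → y3 p ≠ y3 q := fun p q h h' => h (y3m.injective h')
  -- the designated copies
  have hdes : ∀ (i k : Fin 3) (X : Bool) (l : Fin 3),
      fb6_w N v ((i, sel l, k, y3 l), if X = true then Kind.up' else Kind.dn') = 0 := by
    intro i k
    have := fb5_core e he
      (fun l l' => T (N.b k) (N.y (y3 l)) (N.y (y3 l')) - T (N.b k) (N.y (y3 l)) (N.a (sel l)))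
      (fun l l' _ => fb6_d_pos N (sel l) k (y3 l) (y3 l'))
      (by
        have := fb6_menelaus N k (fun l => N.y (y3 l)) (N.hy.comp y3m) (fun l => fb5_by N k _)
        simpa [sel] using this)
      (fun X l l' => N.h6 u ((i, sel l, k, y3 l), if X = true then Kind.up' else Kind.dn') (y3 l'))
      (fun X l => fb6_w N v ((i, sel l, k, y3 l), if X = true then Kind.up' else Kind.dn'))
      (fun l l' hl => by simpa using (hts.u6 i k l l' hl).1)
      (fun l l' hl => by simpa using (hts.u6 i k l l' hl).2)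
      (fun X Y l l' hl hlt => by
        have := ho.K6 i i (sel l) (sel l') k (y3 l) (y3 l') _ _ (y3i _ _ hl) hlt
        rwa [fb6_h6 N v h2, fb6_h6 N v h2] at this)
    exact this
  have hup : ∀ i k l, fb6_w N v ((i, sel l, k, y3 l), Kind.up') = 0 := fun i k l => by
    simpa using hdes i k true l
  have hdn : ∀ i k l, fb6_w N v ((i, sel l, k, y3 l), Kind.dn') = 0 := fun i k l => by
    simpa using hdes i k false l
  -- all weights vanish
  have hw : ∀ c, fb6_w N v c = 0 := by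
    rintro ⟨⟨i, j, k, l⟩, κ⟩
    by_cases hk : (∃ l₀ : Fin 3, l = y3 l₀ ∧ j = sel l₀) ∧ (κ = Kind.up' ∨ κ = Kind.dn')
    · obtain ⟨⟨l₀, rfl, rfl⟩, rfl | rfl⟩ := hk
      · exact hup i k l₀
      · exact hdn i k l₀
    · have hc : (∃ l₀ : Fin 3, l = y3 l₀ ∧ j = sel l₀) → κ ≠ Kind.up' ∧ κ ≠ Kind.dn' := by
        intro h
        constructor
        · intro h'; exact hk ⟨h, Or.inl h'⟩
        · intro h'; exact hk ⟨h, Or.inr h'⟩
      have ho6 := abs_lt.1 (hts.o6 i j k l κ hc)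
      -- a sandwich between two vanishing copies
      have sand : ∀ (l' : Fin 3) (κ₁ κ₂ : Kind), l ≠ y3 l' →
          fb6_w N v ((i, sel l', k, y3 l'), κ₁) = 0 → fb6_w N v ((i, sel l', k, y3 l'), κ₂) = 0 →
          N.h6 u ((i, sel l', k, y3 l'), κ₁) l < N.h6 u ((i, j, k, l), κ) (y3 l') →
          N.h6 u ((i, j, k, l), κ) (y3 l') < N.h6 u ((i, sel l', k, y3 l'), κ₂) l →
          fb6_w N v ((i, j, k, l), κ) = 0 := by
        intro l' κ₁ κ₂ hl w1 w2 l1 l2
        have r1 := ho.K6 i i (sel l') j k (y3 l') l κ₁ κ hl.symm l1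
        have r2 := ho.K6 i i j (sel l') k l (y3 l') κ κ₂ hl l2
        rw [fb6_h6 N v h2, fb6_h6 N v h2, w1, mul_zero] at r1
        rw [fb6_h6 N v h2, fb6_h6 N v h2, w2, mul_zero] at r2
        have := fb6_d_pos N j k l (y3 l')
        have r3 : (T (N.b k) (N.y l) (N.y (y3 l')) - T (N.b k) (N.y l) (N.a j)) *
          fb6_w N v ((i, j, k, l), κ) = 0 := le_antisymm r2 r1
        exact (mul_eq_zero.1 r3).resolve_left this.ne'
      have y30 : y3 0 = 0 := by decide
      have y31 : y3 1 = 1 := by decide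
      have y32 : y3 2 = 2 := by decide
      by_cases hl0 : l = 0
      · subst hl0
        have U := abs_lt.1 (hts.u6 i k 1 0 (by decide)).1
        have D := abs_lt.1 (hts.u6 i k 1 0 (by decide)).2
        have s : su 1 0 = 1 := by simp [su]
        have jj : jy 0 = 1 := by simp [jy]
        rw [s, y30] at U D
        rw [jj, ← y31] at ho6
        exact sand 1 Kind.dn' Kind.up' (by decide) (hdn i k 1) (hup i k 1) (by linarith)
          (by linarith)
      by_cases hl1 : l = 1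
      · subst hl1
        have U := abs_lt.1 (hts.u6 i k 0 1 (by decide)).1
        have D := abs_lt.1 (hts.u6 i k 0 1 (by decide)).2
        have s : su 0 1 = -1 := by simp [su]
        have jj : jy 1 = 0 := by simp [jy]
        rw [s, y31] at U D
        rw [jj, ← y30] at ho6
        exact sand 0 Kind.up' Kind.dn' (by decide) (hup i k 0) (hdn i k 0) (by linarith)
          (by linarith)
      · -- l ≥ 2
        have hl2 : (2 : Fin 7) ≤ l := by
          fin_cases l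
          · exact absurd rfl hl0
          · exact absurd rfl hl1
          all_goals decide
        have jj : jy l = 0 := by simp [jy, hl0]
        rw [jj, ← y30] at ho6
        have U1 := abs_lt.1 (hts.u6 i k 0 1 (by decide)).1
        have D1 := abs_lt.1 (hts.u6 i k 0 1 (by decide)).2
        have U2 := abs_lt.1 (hts.u6 i k 0 2 (by decide)).1
        have D2 := abs_lt.1 (hts.u6 i k 0 2 (by decide)).2
        have s1 : su 0 1 = -1 := by simp [su]
        have s2 : su 0 2 = 1 := by simp [su]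
        rw [s1, y31] at U1 D1
        rw [s2, y32] at U2 D2
        have hT12 : T (N.b k) (N.y (y3 0)) (N.y 1) < T (N.b k) (N.y (y3 0)) (N.y 2) := by
          have := fb5_T_lt (fb5_b_pos N k) (fb5_y_pos N (y3 0)) (fb5_y_pos N 2) (fb5_y_pos N 1)
            (N.hy (by decide))
          linarith
        have hT2l : T (N.b k) (N.y (y3 0)) (N.y 2) ≤ T (N.b k) (N.y (y3 0)) (N.y l) := by
          rcases hl2.eq_or_lt with h | h
          · rw [← h]
          · have := fb5_T_lt (fb5_b_pos N k) (fb5_y_pos N (y3 0)) (fb5_y_pos N l) (fb5_y_pos N 2)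
              (N.hy h)
            linarith
        have hUl : e / 2 < N.h6 u ((i, sel 0, k, y3 0), Kind.up') l := by
          obtain ⟨A, B, hAB⟩ := fb6_affine N u ((i, sel 0, k, y3 0), Kind.up')
          simp only at hAB
          rw [hAB] at U1 U2 ⊢
          have hB : 0 < B := by
            by_contra hc
            push Not at hc
            nlinarith
          nlinarith
        have hDl : N.h6 u ((i, sel 0, k, y3 0), Kind.dn') l < -(e / 2) := by
          obtain ⟨A, B, hAB⟩ := fb6_affine N u ((i, sel 0, k, y3 0), Kind.dn')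
          simp only at hAB
          rw [hAB] at D1 D2 ⊢
          have hB : B < 0 := by
            by_contra hc
            push Not at hc
            nlinarith
          nlinarith
        exact sand 0 Kind.dn' Kind.up' (by rw [y30]; exact hl0) (hdn i k 0) (hup i k 0)
          (by linarith) (by linarith)
  rintro ⟨⟨i, j, k, l⟩, κ⟩
  have := hw ((i, j, k, l), κ)
  unfold fb6_w at this
  have hpos : 0 < T (N.b k) (N.y l) N.z - T (N.b k) (N.y l) (N.a j) :=
    fb5_T_lt (fb5_b_pos N k) (fb5_y_pos N l) ((fb5_y_pos N 0).trans (fb5_yz N 0)) (fb5_a_pos N j)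
      ((fb5_ab N j 0).trans ((fb5_by N 0 0).trans (fb5_yz N 0)))
  rcases div_eq_zero_iff.1 this with h | h
  · exact h
  · exact absurd h hpos.ne'

end Pool.Agent.Helper53.Chain
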