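import Pool.Agent.Helper53.Chain.Base

/-! # CH-MRP: rigidity of a plane (helper87) -/

namespace Pool.Agent.Helper53.Chain

open Set Polynomial

lemma mrp_quartic (e4 e3 e2 e1 e0 : ℝ)
    (h : ∀ z : ℝ, e4 * z ^ 4 + e3 * z ^ 3 + e2 * z ^ 2 + e1 * z + e0 = 0) :
    e4 = 0 ∧ e3 = 0 ∧ e2 = 0 ∧ e1 = 0 ∧ e0 = 0 := by
  have h0 := h 0
  have h1 := h 1
  have h2 := h (-1)
  have h3 := h 2
  have h4 := h (-2)
  norm_num at h0 h1 h2 h3 h4
  refine ⟨?_, ?_, ?_, ?_, ?_⟩ <;> linarith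

lemma mrp_divide (D1 D2 s1 p1 s2 p2 : ℝ) (hD1 : D1 ≠ 0) (hD2 : D2 ≠ 0)
    (hcop : IsCoprime (X ^ 2 + C s1 * X + C p1 : ℝ[X]) (X ^ 2 + C s2 * X + C p2))
    (f1 f2 : Fin 5 → ℝ) (y : Fin 7 → ℝ) (hyi : Function.Injective y)
    (h : ∀ l, D1 * (y l ^ 2 + s1 * y l + p1) *
        (f2 4 * y l ^ 4 + f2 3 * y l ^ 3 + f2 2 * y l ^ 2 + f2 1 * y l + f2 0) =
      D2 * (y l ^ 2 + s2 * y l + p2) *
        (f1 4 * y l ^ 4 + f1 3 * y l ^ 3 + f1 2 * y l ^ 2 + f1 1 * y l + f1 0)) :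
    ∃ S2 S1 S0 : ℝ, ∀ z : ℝ,
      f1 4 * z ^ 4 + f1 3 * z ^ 3 + f1 2 * z ^ 2 + f1 1 * z + f1 0 =
        D1 * (z ^ 2 + s1 * z + p1) * (S2 * z ^ 2 + S1 * z + S0) ∧
      f2 4 * z ^ 4 + f2 3 * z ^ 3 + f2 2 * z ^ 2 + f2 1 * z + f2 0 =
        D2 * (z ^ 2 + s2 * z + p2) * (S2 * z ^ 2 + S1 * z + S0) := by
  set q1 : ℝ[X] := X ^ 2 + C s1 * X + C p1 with hq1
  set q2 : ℝ[X] := X ^ 2 + C s2 * X + C p2 with hq2
  set R1 : ℝ[X] := C (f1 4) * X ^ 4 + C (f1 3) * X ^ 3 + C (f1 2) * X ^ 2 + C (f1 1) * X + C (f1 0)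
    with hR1
  set R2 : ℝ[X] := C (f2 4) * X ^ 4 + C (f2 3) * X ^ 3 + C (f2 2) * X ^ 2 + C (f2 1) * X + C (f2 0)
    with hR2
  have hz : C D1 * q1 * R2 - C D2 * q2 * R1 = 0 := by
    refine Polynomial.eq_zero_of_natDegree_lt_card_of_eval_eq_zero _ hyi ?_ ?_
    · intro l
      have := h l
      simp only [hq1, hq2, hR1, hR2, eval_sub, eval_mul, eval_add, eval_pow, eval_C, eval_X]
      linarith
    · have : (C D1 * q1 * R2 - C D2 * q2 * R1).natDegree ≤ 6 := by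
        have e1 : q1.natDegree ≤ 2 := by rw [hq1]; compute_degree
        have e2 : q2.natDegree ≤ 2 := by rw [hq2]; compute_degree
        have e3 : R1.natDegree ≤ 4 := by rw [hR1]; compute_degree
        have e4 : R2.natDegree ≤ 4 := by rw [hR2]; compute_degree
        refine (natDegree_sub_le _ _).trans (max_le ?_ ?_)
        · refine natDegree_mul_le.trans ?_
          have := natDegree_C_mul_le D1 q1
          omega
        · refine natDegree_mul_le.trans ?_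
          have := natDegree_C_mul_le D2 q2
          omega
      simp only [Fintype.card_fin]
      omega
  have hz' : C D1 * q1 * R2 = C D2 * q2 * R1 := sub_eq_zero.mp hz
  have hm1 : q1.Monic := by
    rw [hq1]; monicity!
  have hn1 : q1.natDegree = 2 := by
    rw [hq1]; compute_degree!
  have hdvd : q1 ∣ R1 := by
    have : q1 ∣ R1 * q2 := by
      refine ⟨C (D2⁻¹) * C D1 * R2, ?_⟩
      have h5 : C (D2⁻¹) * C D2 = (1 : ℝ[X]) := by
        rw [← C_mul, inv_mul_cancel₀ hD2, C_1]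
      calc R1 * q2 = (C (D2⁻¹) * C D2) * (q2 * R1) := by rw [h5]; ring
        _ = C (D2⁻¹) * (C D2 * q2 * R1) := by ring
        _ = C (D2⁻¹) * (C D1 * q1 * R2) := by rw [hz']
        _ = _ := by ring
    exact hcop.dvd_of_dvd_mul_right this
  obtain ⟨S, hS⟩ := hdvd
  have hdegS : S.natDegree ≤ 2 := by
    by_cases h0 : S = 0
    · simp [h0]
    · have e3 : R1.natDegree ≤ 4 := by rw [hR1]; compute_degree
      rw [hS, hm1.natDegree_mul' h0, hn1] at e3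
      omega
  have hq1ne : q1 ≠ 0 := hm1.ne_zero
  have hR2S : C D1 * R2 = C D2 * q2 * S := by
    have : q1 * (C D1 * R2) = q1 * (C D2 * q2 * S) := by
      calc q1 * (C D1 * R2) = C D1 * q1 * R2 := by ring
        _ = C D2 * q2 * R1 := hz'
        _ = C D2 * q2 * (q1 * S) := by rw [hS]
        _ = _ := by ring
    exact mul_left_cancel₀ hq1ne this
  have hSe : ∀ z : ℝ, S.eval z = S.coeff 2 * z ^ 2 + S.coeff 1 * z + S.coeff 0 := by
    intro z
    rw [Polynomial.eval_eq_sum_range' (lt_of_le_of_lt hdegS (by norm_num : 2 < 3))]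
    simp [Finset.sum_range_succ]
    ring
  refine ⟨S.coeff 2 / D1, S.coeff 1 / D1, S.coeff 0 / D1, fun z => ⟨?_, ?_⟩⟩
  · have h6 := congrArg (Polynomial.eval z) hS
    rw [eval_mul, hSe z] at h6
    simp only [hq1, hR1, eval_mul, eval_add, eval_pow, eval_C, eval_X] at h6
    rw [h6]
    field_simp
  · have h6 := congrArg (Polynomial.eval z) hR2S
    rw [eval_mul, eval_mul, eval_mul, hSe z] at h6
    simp only [hq2, hR2, eval_mul, eval_add, eval_pow, eval_C, eval_X] at h6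
    have h7 : D1 * (f2 4 * z ^ 4 + f2 3 * z ^ 3 + f2 2 * z ^ 2 + f2 1 * z + f2 0) =
        D1 * (D2 * (z ^ 2 + s2 * z + p2) *
        (S.coeff 2 / D1 * z ^ 2 + S.coeff 1 / D1 * z + S.coeff 0 / D1)) := by
      rw [h6]
      field_simp
    exact mul_left_cancel₀ hD1 h7

/-- `T` as a polynomial in its last variable, differences. -/
lemma mrp_T_sub (a b c d : ℝ) : T a b c - T a b d = (c - d) * h2 a b c d := by
  unfold T h2; ring

lemma mrp_coprime (a b0 b1 b2 : ℝ) (ha : 0 < a) (h12 : b1 ≠ b2) :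
    IsCoprime (X ^ 2 + C (a + b0 + b1) * X + C (a ^ 2 + b0 ^ 2 + b1 ^ 2 + a * b0 + a * b1 + b0 * b1) : ℝ[X])
      (X ^ 2 + C (a + b0 + b2) * X + C (a ^ 2 + b0 ^ 2 + b2 ^ 2 + a * b0 + a * b2 + b0 * b2)) := by
  -- q1 - q2 = (b1 - b2) (X + (a + b0 + b1 + b2)), q1 = (X + σ) (X - b2) + h, h > 0
  set σ := a + b0 + b1 + b2 with hσ
  -- value of q1 at -σ
  set v := σ ^ 2 - (a + b0 + b1) * σ + (a ^ 2 + b0 ^ 2 + b1 ^ 2 + a * b0 + a * b1 + b0 * b1) with hv
  have hvpos : 0 < v := by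
    have : v = (σ ^ 2 + a ^ 2 + b0 ^ 2 + b1 ^ 2 + b2 ^ 2) / 2 := by
      rw [hv, hσ]; ring
    rw [this]
    positivity
  have hd : b1 - b2 ≠ 0 := sub_ne_zero.mpr h12
  refine ⟨C (1 / v) * (1 - C (1 / (b1 - b2)) * (X - C b2)), C (1 / v) * (C (1 / (b1 - b2)) * (X - C b2)), ?_⟩
  apply Polynomial.funext
  intro r
  simp only [eval_mul, eval_add, eval_sub, eval_pow, eval_C, eval_X, eval_one]
  field_simp
  rw [hv, hσ]
  ring

lemma mrp_ext {p q : E3} (h0 : p 0 = q 0) (h1 : p 1 = q 1) (h2 : p 2 = q 2) : p = q := by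
  ext i
  fin_cases i
  · exact h0
  · exact h1
  · exact h2

lemma mrp_inf_add (ω t p u : E3) (r : ℝ) :
    inf ω t (p + r • u) = inf ω t p + r • inf ω 0 u := by
  apply mrp_ext <;> simp [inf] <;> ring

lemma mrp_P_symm (a b c : ℝ) : P a b c = Nn a c + T a b c • U a c := by
  apply mrp_ext <;> simp [P, Nn, U, T] <;> ring

lemma mrp_ev_add (s : ℝ) (p q : E3) (r : ℝ) : ev s (p + r • q) = ev s p + r * ev s q := by
  simp [ev]; ring

lemma mrp_ev_sub (s : ℝ) (p q : E3) : ev s (p - q) = ev s p - ev s q := by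
  simp [ev]; ring

lemma mrp_ev_Nn_left (a b : ℝ) : ev a (Nn a b) = a ^ 5 := by
  simp [ev, Nn]; ring

lemma mrp_ev_U_left (a b : ℝ) : ev a (U a b) = 0 := by
  simp [ev, U]; ring

lemma mrp_core (a b0 b1 b2 : ℝ) (ha : 0 < a) (h01 : b1 ≠ b0) (h02 : b2 ≠ b0) (h12 : b1 ≠ b2)
    (y : Fin 7 → ℝ) (hyi : Function.Injective y) (hya : ∀ l, y l ≠ a)
    (P1 N1 P2 N2 : E3) (eP1 : ev a P1 = 0) (eN1 : ev a N1 = 0) (eP2 : ev a P2 = 0)
    (eN2 : ev a N2 = 0) (d1 : dot N1 (U a b1) = 0) (d2 : dot N2 (U a b2) = 0)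
    (h : ∀ l, (b1 - b0) * h2 a b0 b1 (y l) * ev (y l) (P2 + T a b2 (y l) • N2) =
      (b2 - b0) * h2 a b0 b2 (y l) * ev (y l) (P1 + T a b1 (y l) • N1)) :
    P1 = 0 ∧ N1 = 0 ∧ P2 = 0 ∧ N2 = 0 := by
  have hD1 : b1 - b0 ≠ 0 := sub_ne_zero.mpr h01
  have hD2 : b2 - b0 ≠ 0 := sub_ne_zero.mpr h02
  have hP1 : P1 2 = -(a ^ 2 * P1 0 + a * P1 1) := by
    simp only [ev] at eP1; linarith
  have hN1 : N1 2 = -(a ^ 2 * N1 0 + a * N1 1) := by
    simp only [ev] at eN1; linarith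
  have hP2 : P2 2 = -(a ^ 2 * P2 0 + a * P2 1) := by
    simp only [ev] at eP2; linarith
  have hN2 : N2 2 = -(a ^ 2 * N2 0 + a * N2 1) := by
    simp only [ev] at eN2; linarith
  -- the quartics
  let F : ℝ → E3 → E3 → Fin 5 → ℝ := fun b p n =>
    ![(a ^ 3 + a ^ 2 * b + a * b ^ 2 + b ^ 3) * (a * n 0 + n 1) + a * p 0 + p 1,
      (a ^ 2 + a * b + b ^ 2) * (a * n 0 + n 1) + (a ^ 3 + a ^ 2 * b + a * b ^ 2 + b ^ 3) * n 0
        + p 0,
      (a + b) * (a * n 0 + n 1) + (a ^ 2 + a * b + b ^ 2) * n 0,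
      (a * n 0 + n 1) + (a + b) * n 0,
      n 0]
  obtain ⟨S2, S1, S0, hS⟩ := mrp_divide (b1 - b0) (b2 - b0) (a + b0 + b1)
    (a ^ 2 + b0 ^ 2 + b1 ^ 2 + a * b0 + a * b1 + b0 * b1) (a + b0 + b2)
    (a ^ 2 + b0 ^ 2 + b2 ^ 2 + a * b0 + a * b2 + b0 * b2) hD1 hD2
    (mrp_coprime a b0 b1 b2 ha h12) (F b1 P1 N1) (F b2 P2 N2) y hyi (by
      intro l
      have h1 := h l
      have hne : y l - a ≠ 0 := sub_ne_zero.mpr (hya l)
      apply mul_left_cancel₀ hne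
      simp only [ev, h2, T, PiLp.add_apply, PiLp.smul_apply, smul_eq_mul, hP1, hN1, hP2, hN2] at h1
      simp only [F, Matrix.cons_val]
      linear_combination h1)
  have c1 : ∀ z : ℝ, _ := fun z => (hS z).1
  have c2 : ∀ z : ℝ, _ := fun z => (hS z).2
  simp only [F, Matrix.cons_val] at c1 c2
  have k1 := mrp_quartic (N1 0 - (b1 - b0) * S2)
    ((a * N1 0 + N1 1) + (a + b1) * N1 0 - (b1 - b0) * (S1 + (a + b0 + b1) * S2))
    ((a + b1) * (a * N1 0 + N1 1) + (a ^ 2 + a * b1 + b1 ^ 2) * N1 0 -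
      (b1 - b0) * (S0 + (a + b0 + b1) * S1 +
        (a ^ 2 + b0 ^ 2 + b1 ^ 2 + a * b0 + a * b1 + b0 * b1) * S2))
    ((a ^ 2 + a * b1 + b1 ^ 2) * (a * N1 0 + N1 1) +
      (a ^ 3 + a ^ 2 * b1 + a * b1 ^ 2 + b1 ^ 3) * N1 0 + P1 0 -
      (b1 - b0) * ((a + b0 + b1) * S0 +
        (a ^ 2 + b0 ^ 2 + b1 ^ 2 + a * b0 + a * b1 + b0 * b1) * S1))
    ((a ^ 3 + a ^ 2 * b1 + a * b1 ^ 2 + b1 ^ 3) * (a * N1 0 + N1 1) + a * P1 0 + P1 1 -
      (b1 - b0) * ((a ^ 2 + b0 ^ 2 + b1 ^ 2 + a * b0 + a * b1 + b0 * b1) * S0))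
    (fun z => by linear_combination c1 z)
  have k2 := mrp_quartic (N2 0 - (b2 - b0) * S2)
    ((a * N2 0 + N2 1) + (a + b2) * N2 0 - (b2 - b0) * (S1 + (a + b0 + b2) * S2))
    ((a + b2) * (a * N2 0 + N2 1) + (a ^ 2 + a * b2 + b2 ^ 2) * N2 0 -
      (b2 - b0) * (S0 + (a + b0 + b2) * S1 +
        (a ^ 2 + b0 ^ 2 + b2 ^ 2 + a * b0 + a * b2 + b0 * b2) * S2))
    ((a ^ 2 + a * b2 + b2 ^ 2) * (a * N2 0 + N2 1) +
      (a ^ 3 + a ^ 2 * b2 + a * b2 ^ 2 + b2 ^ 3) * N2 0 + P2 0 -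
      (b2 - b0) * ((a + b0 + b2) * S0 +
        (a ^ 2 + b0 ^ 2 + b2 ^ 2 + a * b0 + a * b2 + b0 * b2) * S1))
    ((a ^ 3 + a ^ 2 * b2 + a * b2 ^ 2 + b2 ^ 3) * (a * N2 0 + N2 1) + a * P2 0 + P2 1 -
      (b2 - b0) * ((a ^ 2 + b0 ^ 2 + b2 ^ 2 + a * b0 + a * b2 + b0 * b2) * S0))
    (fun z => by linear_combination c2 z)
  obtain ⟨k14, k13, k12, k11, k10⟩ := k1
  obtain ⟨k24, k23, k22, k21, k20⟩ := k2
  -- N_j = D_j * M
  set M0 := S2 with hM0
  set M1 := S1 + (b0 - a) * S2 with hM1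
  set M2 := -(a ^ 2 * M0 + a * M1) with hM2
  have n10 : N1 0 = (b1 - b0) * M0 := by linarith
  have n11 : N1 1 = (b1 - b0) * M1 := by rw [hM1]; linear_combination k13 - (2 * a + b1) * k14
  have n12 : N1 2 = (b1 - b0) * M2 := by rw [hN1, n10, n11, hM2]; ring
  have n20 : N2 0 = (b2 - b0) * M0 := by linarith
  have n21 : N2 1 = (b2 - b0) * M1 := by rw [hM1]; linear_combination k23 - (2 * a + b2) * k24
  have n22 : N2 2 = (b2 - b0) * M2 := by rw [hN2, n20, n21, hM2]; ring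
  have e1 : M0 - (a + b1) * M1 + a * b1 * M2 = 0 := by
    simp only [dot, U, n10, n11, n12] at d1
    simp at d1
    apply mul_left_cancel₀ hD1
    linear_combination d1
  have e2 : M0 - (a + b2) * M1 + a * b2 * M2 = 0 := by
    simp only [dot, U, n20, n21, n22] at d2
    simp at d2
    apply mul_left_cancel₀ hD2
    linear_combination d2
  have hb12 : b1 - b2 ≠ 0 := sub_ne_zero.mpr h12
  have e3 : M1 = a * M2 := by
    apply mul_left_cancel₀ hb12
    linear_combination e2 - e1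
  have e4 : M0 = a ^ 2 * M2 := by
    rw [e3] at e1
    linear_combination e1
  have hM20 : M2 = 0 := by
    have h7 : M2 * (1 + a ^ 2 + a ^ 4) = 0 := by
      have := hM2
      rw [e3] at this
      rw [e4] at this
      linear_combination this
    have h8 : (1 + a ^ 2 + a ^ 4) ≠ 0 := by positivity
    exact (mul_eq_zero.mp h7).resolve_right h8
  have hM10 : M1 = 0 := by rw [e3, hM20, mul_zero]
  have hM00 : M0 = 0 := by rw [e4, hM20, mul_zero]
  have hN1z : N1 = 0 := by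
    apply mrp_ext
    · rw [n10, hM00]; simp
    · rw [n11, hM10]; simp
    · rw [n12, hM20]; simp
  have hN2z : N2 = 0 := by
    apply mrp_ext
    · rw [n20, hM00]; simp
    · rw [n21, hM10]; simp
    · rw [n22, hM20]; simp
  have hS2 : S2 = 0 := hM00
  have hS1 : S1 = 0 := by
    rw [hM1, hS2] at hM10; linarith
  have hN10 : N1 0 = 0 := by rw [hN1z]; simp
  have hN11 : N1 1 = 0 := by rw [hN1z]; simp
  have hN20 : N2 0 = 0 := by rw [hN2z]; simp
  have hN21 : N2 1 = 0 := by rw [hN2z]; simp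
  have hS0 : S0 = 0 := by
    rw [hN10, hN11, hS1, hM00] at k12
    have : (b1 - b0) * S0 = 0 := by linear_combination -k12
    exact (mul_eq_zero.mp this).resolve_left hD1
  have hP10 : P1 0 = 0 := by
    rw [hN10, hN11, hS1, hS0] at k11; linarith
  have hP11 : P1 1 = 0 := by
    rw [hN10, hN11, hS0, hP10] at k10; linarith
  have hP20 : P2 0 = 0 := by
    rw [hN20, hN21, hS1, hS0] at k21; linarith
  have hP21 : P2 1 = 0 := by
    rw [hN20, hN21, hS0, hP20] at k20; linarith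
  refine ⟨?_, hN1z, ?_, hN2z⟩
  · apply mrp_ext
    · rw [hP10]; simp
    · rw [hP11]; simp
    · rw [hP1, hP10, hP11]; simp
  · apply mrp_ext
    · rw [hP20]; simp
    · rw [hP21]; simp
    · rw [hP2, hP20, hP21]; simp

/-- Step (i): the infinitesimal isometry adapted to a line and to the affine function on the
plane `a`. -/
lemma mrp_adapt (a b0 b1 : ℝ) (h01 : b1 ≠ b0) (A : Fin 3 → ℝ) (W0 W1 : E3)
    (hperp : dot W1 (U a b0) = 0)
    (hA0 : ev a W0 = affv A (Nn a b0))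
    (hA1 : ev a W1 = A 0 - (a + b0) * A 1) :
    ∃ ω t₀ : E3, W0 = inf ω t₀ (Nn a b0) ∧ W1 = inf ω 0 (U a b0) ∧
      ∀ q, ev a q = a ^ 5 → affv A q = ev a (inf ω t₀ q) := by
  have hD : b1 - b0 ≠ 0 := sub_ne_zero.mpr h01
  set n : ℝ := 1 + (a + b0) ^ 2 + (a * b0) ^ 2 with hn
  have hnpos : 0 < n := by positivity
  have hn0 : n ≠ 0 := hnpos.ne'
  -- omega0 = U × W1 / n
  set o0 : ℝ := (-(a + b0) * W1 2 - a * b0 * W1 1) / n with ho0
  set o1 : ℝ := (a * b0 * W1 0 - W1 2) / n with ho1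
  set o2 : ℝ := (W1 1 + (a + b0) * W1 0) / n with ho2
  have k0 : n * o0 = -(a + b0) * W1 2 - a * b0 * W1 1 := by rw [ho0]; field_simp
  have k1 : n * o1 = a * b0 * W1 0 - W1 2 := by rw [ho1]; field_simp
  have k2 : n * o2 = W1 1 + (a + b0) * W1 0 := by rw [ho2]; field_simp
  have hp : W1 0 - (a + b0) * W1 1 + a * b0 * W1 2 = 0 := by
    simp only [dot, U] at hperp
    simp at hperp
    linear_combination hperp
  -- target for lambda
  set g : ℝ := ev a (inf !₂[o0, o1, o2] 0 (U a b1)) with hg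
  have hq : a ^ 4 + a ^ 2 + 1 ≠ 0 := by positivity
  set lam : ℝ := (A 0 - (a + b1) * A 1 - g) / ((b0 - b1) * (a ^ 4 + a ^ 2 + 1)) with hlam
  have hD' : b0 - b1 ≠ 0 := sub_ne_zero.mpr h01.symm
  have klam : lam * ((b0 - b1) * (a ^ 4 + a ^ 2 + 1)) = A 0 - (a + b1) * A 1 - g := by
    rw [hlam]
    exact div_mul_cancel₀ _ (mul_ne_zero hD' hq)
  set ω : E3 := !₂[o0 + lam, o1 - lam * (a + b0), o2 + lam * (a * b0)] with hω
  have w0 : ω 0 = o0 + lam := by rw [hω]; simp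
  have w1 : ω 1 = o1 - lam * (a + b0) := by rw [hω]; simp
  have w2 : ω 2 = o2 + lam * (a * b0) := by rw [hω]; simp
  have hW1 : W1 = inf ω 0 (U a b0) := by
    apply mrp_ext
    · simp [inf, U, w1, w2]
      apply mul_left_cancel₀ hn0
      linear_combination (-(a * b0)) * k1 - (a + b0) * k2 + W1 0 * hn + hp
    · simp [inf, U, w0, w2]
      apply mul_left_cancel₀ hn0
      linear_combination (a * b0) * k0 - k2 + W1 1 * hn - (a + b0) * hp
    · simp [inf, U, w0, w1]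
      apply mul_left_cancel₀ hn0
      linear_combination (a + b0) * k0 + k1 + W1 2 * hn + (a * b0) * hp
  set t₀ : E3 := W0 - inf ω 0 (Nn a b0) with ht
  have hinf : ∀ q, inf ω t₀ q = t₀ + inf ω 0 q := by
    intro q
    apply mrp_ext <;> simp [inf]
  have hW0 : W0 = inf ω t₀ (Nn a b0) := by
    rw [hinf, ht]; abel
  refine ⟨ω, t₀, hW0, hW1, ?_⟩
  intro q hq5
  -- decomposition of q - Nn a b0
  set d : E3 := q - Nn a b0 with hd
  have hqd : q = Nn a b0 + (1 : ℝ) • d := by rw [hd]; simp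
  have hed : ev a d = 0 := by
    rw [hd, mrp_ev_sub, hq5, mrp_ev_Nn_left, sub_self]
  have hd2 : d 2 = -(a ^ 2 * d 0 + a * d 1) := by
    simp only [ev] at hed; linarith
  -- linear part
  have hU0 : ev a (inf ω 0 (U a b0)) = A 0 - (a + b0) * A 1 := by rw [← hW1]; exact hA1
  have hU1 : ev a (inf ω 0 (U a b1)) = A 0 - (a + b1) * A 1 := by
    have : ev a (inf ω 0 (U a b1)) = g + lam * ((b0 - b1) * (a ^ 4 + a ^ 2 + 1)) := by
      rw [hg]
      simp only [ev, inf, U]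
      simp [w0, w1, w2]
      ring
    rw [this, klam]; ring
  have hlin : ev a (inf ω 0 d) = A 0 * d 0 + A 1 * d 1 := by
    -- d = s U a b0 + r U a b1
    have e1 : (b1 - b0) * ev a (inf ω 0 d) =
        (b1 * d 0 + d 1 + a * d 0) * ev a (inf ω 0 (U a b0)) -
        (b0 * d 0 + d 1 + a * d 0) * ev a (inf ω 0 (U a b1)) := by
      simp only [ev, inf, U, hd2]
      simp
      ring_nf
      try rw [hd2]
      try ring
    rw [hU0, hU1] at e1
    apply mul_left_cancel₀ hD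
    rw [e1]; ring
  have haff : affv A q = affv A (Nn a b0) + (A 0 * d 0 + A 1 * d 1) := by
    rw [hqd]; simp [affv]; ring
  rw [haff, hqd, mrp_inf_add, mrp_ev_add, ← hW0, hA0, hlin]; ring

/-- Rigidity of a plane. -/
theorem plane_rigid (a : ℝ) (b : Fin 3 → ℝ) (y : Fin 7 → ℝ) (ha : 0 < a) (hb : ∀ j, 0 < b j)
    (hy : ∀ l, 0 < y l) (hbi : Function.Injective b) (hyi : Function.Injective y)
    (hab : ∀ j, b j ≠ a) (hya : ∀ l, y l ≠ a) (hyb : ∀ l j, y l ≠ b j)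
    (A : Fin 3 → ℝ) (W0 W1 : Fin 3 → E3) (Ay : Fin 7 → Fin 3 → ℝ)
    (hperp : ∀ j, dot (W1 j) (U a (b j)) = 0)
    (hA : ∀ j, ∀ t : ℝ, ev a (W0 j + t • W1 j) = affv A (Nn a (b j) + t • U a (b j)))
    (hY : ∀ j l, ev (y l) (W0 j + T a (b j) (y l) • W1 j) = affv (Ay l) (P a (b j) (y l))) :
    ∃ ω t₀ : E3, (∀ j, ∀ t : ℝ, W0 j + t • W1 j = inf ω t₀ (Nn a (b j) + t • U a (b j))) ∧
      ∀ q, ev a q = a ^ 5 → affv A q = ev a (inf ω t₀ q) := by
  have hA0 : ∀ j, ev a (W0 j) = affv A (Nn a (b j)) := by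
    intro j
    have := hA j 0
    simpa using this
  have hA1 : ∀ j, ev a (W1 j) = A 0 - (a + b j) * A 1 := by
    intro j
    have h1 := hA j 1
    rw [mrp_ev_add, hA0 j] at h1
    simp [affv, U, Nn] at h1
    linarith
  have h10 : b 1 ≠ b 0 := fun h => by have := hbi h; revert this; decide
  have h20 : b 2 ≠ b 0 := fun h => by have := hbi h; revert this; decide
  have h12 : b 1 ≠ b 2 := fun h => by have := hbi h; revert this; decide
  obtain ⟨ω, t₀, hW0, hW1, hpl⟩ := mrp_adapt a (b 0) (b 1) h10 A (W0 0) (W1 0) (hperp 0) (hA0 0)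
    (hA1 0)
  set V0 : Fin 3 → E3 := fun j => W0 j - inf ω t₀ (Nn a (b j)) with hV0
  set V1 : Fin 3 → E3 := fun j => W1 j - inf ω 0 (U a (b j)) with hV1
  have eV0 : ∀ j, ev a (V0 j) = 0 := by
    intro j
    simp only [hV0]
    rw [mrp_ev_sub, hA0 j, hpl _ (mrp_ev_Nn_left a (b j)), sub_self]
  have eV1 : ∀ j, ev a (V1 j) = 0 := by
    intro j
    have h1 := hpl (Nn a (b j) + (1 : ℝ) • U a (b j)) (by
      rw [mrp_ev_add, mrp_ev_Nn_left, mrp_ev_U_left]; ring)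
    rw [mrp_inf_add, mrp_ev_add, ← hpl _ (mrp_ev_Nn_left a (b j))] at h1
    have h2 : affv A (Nn a (b j) + (1 : ℝ) • U a (b j)) =
        affv A (Nn a (b j)) + (A 0 - (a + b j) * A 1) := by
      simp [affv, U, Nn]; ring
    simp only [hV1]
    rw [mrp_ev_sub, hA1 j]
    linarith
  have dV1 : ∀ j, dot (V1 j) (U a (b j)) = 0 := by
    intro j
    have h1 := hperp j
    simp only [hV1]
    simp only [dot, U, inf] at h1 ⊢
    simp at h1 ⊢
    linear_combination h1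
  have hV00 : V0 0 = 0 := by simp only [hV0]; rw [← hW0, sub_self]
  have hV10 : V1 0 = 0 := by simp only [hV1]; rw [← hW1, sub_self]
  -- values on the planes y
  have hg : ∀ l, ∃ c0 c1 : ℝ, ∀ j, ev (y l) (V0 j + T a (b j) (y l) • V1 j) =
      c0 + c1 * T a (b j) (y l) := by
    intro l
    refine ⟨affv (Ay l) (Nn a (y l)) - ev (y l) (inf ω t₀ (Nn a (y l))),
      (Ay l 0 - (a + y l) * Ay l 1) - ev (y l) (inf ω 0 (U a (y l))), fun j => ?_⟩
    have e1 : V0 j + T a (b j) (y l) • V1 j =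
        (W0 j + T a (b j) (y l) • W1 j) - inf ω t₀ (P a (b j) (y l)) := by
      simp only [hV0, hV1, P, mrp_inf_add, smul_sub]
      abel
    rw [e1, mrp_ev_sub, hY j l, mrp_P_symm, mrp_inf_add, mrp_ev_add]
    simp only [affv, U, Nn]
    simp
    ring
  have key : ∀ l, (b 1 - b 0) * h2 a (b 0) (b 1) (y l) * ev (y l) (V0 2 + T a (b 2) (y l) • V1 2) =
      (b 2 - b 0) * h2 a (b 0) (b 2) (y l) * ev (y l) (V0 1 + T a (b 1) (y l) • V1 1) := by
    intro l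
    obtain ⟨c0, c1, hc⟩ := hg l
    have z0 := hc 0
    rw [hV00, hV10] at z0
    have z0' : c0 + c1 * T a (b 0) (y l) = 0 := by
      rw [← z0]; simp [ev]
    rw [hc 1, hc 2]
    have t1 : T a (b 1) (y l) - T a (b 0) (y l) = (b 1 - b 0) * h2 a (b 0) (b 1) (y l) := by
      unfold T h2; ring
    have t2 : T a (b 2) (y l) - T a (b 0) (y l) = (b 2 - b 0) * h2 a (b 0) (b 2) (y l) := by
      unfold T h2; ring
    have u1 : c0 + c1 * T a (b 1) (y l) = c1 * ((b 1 - b 0) * h2 a (b 0) (b 1) (y l)) := by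
      rw [← t1]; linear_combination z0'
    have u2 : c0 + c1 * T a (b 2) (y l) = c1 * ((b 2 - b 0) * h2 a (b 0) (b 2) (y l)) := by
      rw [← t2]; linear_combination z0'
    rw [u1, u2]; ring
  obtain ⟨q1, q2, q3, q4⟩ := mrp_core a (b 0) (b 1) (b 2) ha h10 h20 h12 y hyi hya
    (V0 1) (V1 1) (V0 2) (V1 2) (eV0 1) (eV1 1) (eV0 2) (eV1 2) (dV1 1) (dV1 2) key
  have hV0z : ∀ j, V0 j = 0 := by
    intro j; fin_cases j
    · exact hV00
    · exact q1
    · exact q3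
  have hV1z : ∀ j, V1 j = 0 := by
    intro j; fin_cases j
    · exact hV10
    · exact q2
    · exact q4
  refine ⟨ω, t₀, fun j t => ?_, hpl⟩
  rw [mrp_inf_add]
  have e0 : W0 j = inf ω t₀ (Nn a (b j)) := sub_eq_zero.mp (hV0z j)
  have e1 : W1 j = inf ω 0 (U a (b j)) := sub_eq_zero.mp (hV1z j)
  rw [e0, e1]

end Pool.Agent.Helper53.Chain
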