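import Pool.Agent.Helper53.Chain.Base
import Pool.Agent.Helper53.Chain.MRP

/-! # Gluing the planes: macro rigidity -/

namespace Pool.Agent.Helper53.Chain

open Set

theorem mrg_ext {p q : E3} (h0 : p 0 = q 0) (h1 : p 1 = q 1) (h2 : p 2 = q 2) : p = q := by
  ext i; fin_cases i <;> assumption

@[local simp] theorem mrg_U0 (a b : ℝ) : (U a b) 0 = 1 := by simp [U]
@[local simp] theorem mrg_U1 (a b : ℝ) : (U a b) 1 = -(a + b) := by simp [U]
@[local simp] theorem mrg_U2 (a b : ℝ) : (U a b) 2 = a * b := by simp [U]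
@[local simp] theorem mrg_N0 (a b : ℝ) : (Nn a b) 0 = 0 := by simp [Nn]
@[local simp] theorem mrg_N1 (a b : ℝ) :
    (Nn a b) 1 = a ^ 4 + a ^ 3 * b + a ^ 2 * b ^ 2 + a * b ^ 3 + b ^ 4 := by simp [Nn]
@[local simp] theorem mrg_N2 (a b : ℝ) :
    (Nn a b) 2 = -(a * b * (a ^ 3 + a ^ 2 * b + a * b ^ 2 + b ^ 3)) := by simp [Nn]
@[local simp] theorem mrg_inf0 (ω t q : E3) : (inf ω t q) 0 = t 0 + (ω 1 * q 2 - ω 2 * q 1) := by
  simp [inf]
@[local simp] theorem mrg_inf1 (ω t q : E3) : (inf ω t q) 1 = t 1 + (ω 2 * q 0 - ω 0 * q 2) := by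
  simp [inf]
@[local simp] theorem mrg_inf2 (ω t q : E3) : (inf ω t q) 2 = t 2 + (ω 0 * q 1 - ω 1 * q 0) := by
  simp [inf]

theorem mrg_U_symm (a b : ℝ) : U a b = U b a := by
  apply mrg_ext <;> simp <;> ring

theorem mrg_N_symm (a b : ℝ) : Nn a b = Nn b a := by
  apply mrg_ext <;> simp <;> ring

theorem mrg_T_symm12 (a b c : ℝ) : T a b c = T b a c := by unfold T; ring

theorem mrg_T_symm23 (a b c : ℝ) : T a b c = T a c b := by unfold T; ring

theorem mrg_P_symm12 (a b c : ℝ) : P a b c = P b a c := by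
  unfold P; rw [mrg_N_symm, mrg_U_symm, mrg_T_symm12]

theorem mrg_P_symm23 (a b c : ℝ) : P a b c = P a c b := by
  apply mrg_ext <;> simp [P, T] <;> ring

/-- Two vectors with the same values at `a ≠ b` and the same product with `U a b` agree. -/
theorem mrg_unique {a b : ℝ} (hab : a ≠ b) {p q : E3} (h1 : ev a p = ev a q)
    (h2 : ev b p = ev b q) (h3 : dot p (U a b) = dot q (U a b)) : p = q := by
  have hd : a - b ≠ 0 := sub_ne_zero.2 hab
  simp only [ev, dot, mrg_U0, mrg_U1, mrg_U2] at h1 h2 h3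
  -- differences
  set u0 := p 0 - q 0 with hu0
  set u1 := p 1 - q 1 with hu1
  set u2 := p 2 - q 2 with hu2
  have e1 : u0 * a ^ 2 + u1 * a + u2 = 0 := by rw [hu0, hu1, hu2]; linarith
  have e2 : u0 * b ^ 2 + u1 * b + u2 = 0 := by rw [hu0, hu1, hu2]; linarith
  have e3 : u0 - u1 * (a + b) + u2 * (a * b) = 0 := by rw [hu0, hu1, hu2]; linarith
  have e4 : (a - b) * (u0 * (a + b) + u1) = 0 := by linear_combination e1 - e2
  have e5 : u1 = -(u0 * (a + b)) := by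
    rcases mul_eq_zero.1 e4 with h | h
    · exact absurd h hd
    · linarith
  have e6 : u2 = u0 * (a * b) := by
    have := e1
    rw [e5] at this
    linear_combination this
  have e7 : u0 * (1 + (a + b) ^ 2 + (a * b) ^ 2) = 0 := by
    rw [e5, e6] at e3
    linear_combination e3
  have e8 : u0 = 0 := by
    rcases mul_eq_zero.1 e7 with h | h
    · exact h
    · nlinarith [sq_nonneg (a + b), sq_nonneg (a * b)]
  have e9 : u1 = 0 := by rw [e5, e8]; ring
  have e10 : u2 = 0 := by rw [e6, e8]; ring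
  apply mrg_ext
  · linarith
  · linarith
  · linarith

/-- A vector with prescribed values at `a ≠ b` and product with `U a b`. -/
theorem mrg_exists {a b : ℝ} (hab : a ≠ b) (α β γ : ℝ) :
    ∃ v : E3, ev a v = α ∧ ev b v = β ∧ dot v (U a b) = γ := by
  have hd : a - b ≠ 0 := sub_ne_zero.2 hab
  have hq : (1 + (a + b) ^ 2 + (a * b) ^ 2 : ℝ) ≠ 0 := by positivity
  obtain ⟨m, hm⟩ : ∃ m : ℝ, m * (a - b) = α - β := ⟨(α - β) / (a - b), by field_simp⟩
  obtain ⟨s, hs⟩ : ∃ s : ℝ, s * (1 + (a + b) ^ 2 + (a * b) ^ 2) =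
      γ - (-(m * (a + b)) + (β - m * b) * (a * b)) := ⟨_, div_mul_cancel₀ _ hq⟩
  refine ⟨!₂[s, m - s * (a + b), β - m * b + s * (a * b)], ?_, ?_, ?_⟩
  · simp [ev]; linear_combination hm
  · simp [ev]; ring
  · simp [dot]; linear_combination hs

theorem mrg_affv_line (A : Fin 3 → ℝ) (a b t : ℝ) :
    affv A (Nn a b + t • U a b) = affv A (Nn a b) + t * (A 0 - A 1 * (a + b)) := by
  simp [affv]; ring

/-- the affine field along the line `(a, b)` -/
theorem mrg_field {a b : ℝ} (hab : a ≠ b) (A B : Fin 3 → ℝ) (γ : ℝ) :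
    ∃ W0 W1 : E3, dot W1 (U a b) = 0 ∧
      (∀ t : ℝ, ev a (W0 + t • W1) = affv A (Nn a b + t • U a b)) ∧
      (∀ t : ℝ, ev b (W0 + t • W1) = affv B (Nn a b + t • U a b)) ∧
      (∀ t : ℝ, dot (W0 + t • W1) (U a b) = γ) := by
  obtain ⟨W0, h1, h2, h3⟩ := mrg_exists hab (affv A (Nn a b)) (affv B (Nn a b)) γ
  obtain ⟨W1, k1, k2, k3⟩ := mrg_exists hab (A 0 - A 1 * (a + b)) (B 0 - B 1 * (a + b)) 0
  have hev : ∀ (s : ℝ) (p q : E3) (t : ℝ), ev s (p + t • q) = ev s p + t * ev s q := by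
    intro s p q t; simp [ev]; ring
  have hdot : ∀ (r p q : E3) (t : ℝ), dot (p + t • q) r = dot p r + t * dot q r := by
    intro r p q t; simp [dot]; ring
  refine ⟨W0, W1, k3, ?_, ?_, ?_⟩
  · intro t; rw [hev, h1, k1, mrg_affv_line]
  · intro t; rw [hev, h2, k2, mrg_affv_line]
  · intro t; rw [hdot, h3, k3]; ring

theorem mrg_dot_inf (ω t p q : E3) : dot (inf ω t p - inf ω t q) (p - q) = 0 := by
  simp [dot]; ring

theorem mrg_inf_sub (ω t ω' t' q : E3) :
    inf ω' t' q - inf ω t q = inf (ω' - ω) (t' - t) q := by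
  apply mrg_ext <;> simp <;> ring

theorem mrg_P_sub (a b c d : ℝ) : P a b c - P a b d = ((c - d) * h2 a b c d) • U a b := by
  apply mrg_ext <;> simp [P, T, h2] <;> ring

theorem mrg_h2_pos {a b c d : ℝ} (ha : 0 < a) (hb : 0 < b) (hc : 0 < c) (hd : 0 < d) :
    0 < h2 a b c d := by unfold h2; positivity

theorem mrg_dot_smul (p q : E3) (c : ℝ) : dot p (c • q) = c * dot p q := by
  simp [dot]; ring

/-- orthogonal to three independent directions -/
theorem mrg_orth {a' b b' : ℝ} (h1 : a' ≠ b) (h2 : a' ≠ b') (h3 : b ≠ b') {u : E3}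
    (e1 : dot u (U a' b) = 0) (e2 : dot u (U b b') = 0) (e3 : dot u (U a' b') = 0) : u = 0 := by
  simp only [dot, mrg_U0, mrg_U1, mrg_U2] at e1 e2 e3
  have d1 : a' - b ≠ 0 := sub_ne_zero.2 h1
  have d2 : a' - b' ≠ 0 := sub_ne_zero.2 h2
  have d3 : b - b' ≠ 0 := sub_ne_zero.2 h3
  have f1 : (a' - b') * (u 1 - b * u 2) = 0 := by linear_combination e2 - e1
  have f2 : (b - b') * (u 1 - a' * u 2) = 0 := by linear_combination e3 - e1
  have g1 := (mul_eq_zero.1 f1).resolve_left d2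
  have g2 := (mul_eq_zero.1 f2).resolve_left d3
  have g3 : (a' - b) * u 2 = 0 := by linear_combination g1 - g2
  have k2 : u 2 = 0 := (mul_eq_zero.1 g3).resolve_left d1
  have k1 : u 1 = 0 := by rw [k2] at g1; linarith
  have k0 : u 0 = 0 := by rw [k2, k1] at e1; linarith
  apply mrg_ext <;> simp [k0, k1, k2]

/-- an infinitesimal isometry vanishing along two directions -/
theorem mrg_inf_zero {a a' b : ℝ} (h : a ≠ a') {ω t p : E3} (c c' : ℝ) (hc : c ≠ 0) (hc' : c' ≠ 0)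
    (h0 : inf ω t p = 0) (h1 : inf ω t (p + c • U a b) = 0)
    (h2 : inf ω t (p + c' • U a' b) = 0) : ω = 0 ∧ t = 0 := by
  have e00 : (inf ω t p) 0 = 0 := by rw [h0]; rfl
  have e01 : (inf ω t p) 1 = 0 := by rw [h0]; rfl
  have e02 : (inf ω t p) 2 = 0 := by rw [h0]; rfl
  have e10 : (inf ω t (p + c • U a b)) 0 = 0 := by rw [h1]; rfl
  have e11 : (inf ω t (p + c • U a b)) 1 = 0 := by rw [h1]; rfl
  have e12 : (inf ω t (p + c • U a b)) 2 = 0 := by rw [h1]; rfl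
  have e22 : (inf ω t (p + c' • U a' b)) 2 = 0 := by rw [h2]; rfl
  simp at e00 e01 e02 e10 e11 e12 e22
  have f1 : c * (ω 0 * (a + b) + ω 1) = 0 := by linear_combination e02 - e12
  have f2 : c' * (ω 0 * (a' + b) + ω 1) = 0 := by linear_combination e02 - e22
  have g1 := (mul_eq_zero.1 f1).resolve_left hc
  have g2 := (mul_eq_zero.1 f2).resolve_left hc'
  have g3 : (a - a') * ω 0 = 0 := by linear_combination g1 - g2
  have k0 : ω 0 = 0 := (mul_eq_zero.1 g3).resolve_left (sub_ne_zero.2 h)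
  have k1 : ω 1 = 0 := by rw [k0] at g1; linarith
  have f3 : c * (ω 2 - ω 0 * (a * b)) = 0 := by linear_combination e11 - e01
  have g4 := (mul_eq_zero.1 f3).resolve_left hc
  have k2 : ω 2 = 0 := by rw [k0] at g4; linarith
  have hω : ω = 0 := by apply mrg_ext <;> simp [k0, k1, k2]
  refine ⟨hω, ?_⟩
  rw [k1, k2] at e00
  rw [k2, k0] at e01
  rw [k0, k1] at e02
  apply mrg_ext
  · simpa using e00
  · simpa using e01
  · simpa using e02

/-- The tetrahedron step. -/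
theorem mrg_tetra {a a' b b' : ℝ} (ha : 0 < a) (ha' : 0 < a') (hb : 0 < b) (hb' : 0 < b')
    (haa : a ≠ a') (hbb : b ≠ b') (m1 : a ≠ b) (m2 : a ≠ b') (m3 : a' ≠ b) (m4 : a' ≠ b')
    (ωa ta ωa' ta' ωb tb ωb' tb' : E3)
    (hab : ∀ t : ℝ, inf ωa ta (Nn a b + t • U a b) = inf ωb tb (Nn a b + t • U a b))
    (hab' : ∀ t : ℝ, inf ωa ta (Nn a b' + t • U a b') = inf ωb' tb' (Nn a b' + t • U a b'))
    (ha'b : ∀ t : ℝ, inf ωa' ta' (Nn a' b + t • U a' b) = inf ωb tb (Nn a' b + t • U a' b))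
    (ha'b' : ∀ t : ℝ, inf ωa' ta' (Nn a' b' + t • U a' b') =
      inf ωb' tb' (Nn a' b' + t • U a' b')) :
    ωa = ωb ∧ ta = tb := by
  have r1 : ∀ s : ℝ, inf ωa ta (P a b s) = inf ωb tb (P a b s) := fun s => hab _
  have r2 : ∀ s : ℝ, inf ωa ta (P a b' s) = inf ωb' tb' (P a b' s) := fun s => hab' _
  have r3 : ∀ s : ℝ, inf ωa' ta' (P a' b s) = inf ωb tb (P a' b s) := fun s => ha'b _
  have r4 : ∀ s : ℝ, inf ωa' ta' (P a' b' s) = inf ωb' tb' (P a' b' s) := fun s => ha'b' _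
  set D : E3 → E3 := fun q => inf ωb tb q - inf ωa ta q with hD
  set D' : E3 → E3 := fun q => inf ωb' tb' q - inf ωa ta q with hD'
  have hDi : ∀ q, D q = inf (ωb - ωa) (tb - ta) q := fun q => mrg_inf_sub _ _ _ _ _
  have hDi' : ∀ q, D' q = inf (ωb' - ωa) (tb' - ta) q := fun q => mrg_inf_sub _ _ _ _ _
  -- T4 = P a' b b'
  have hT4 : D (P a' b b') = D' (P a' b b') := by
    have e1 := r3 b'
    have e2 := r4 b
    rw [mrg_P_symm23 a' b' b] at e2
    simp only [hD, hD']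
    rw [← e1, ← e2]
  -- T1 = P a a' b = P a b a' ; D vanishes
  have hT1 : D (P a b a') = 0 := by simp only [hD]; rw [r1]; simp
  have hT3 : D (P a b b') = 0 := by simp only [hD]; rw [r1]; simp
  have hT2 : D' (P a b' a') = 0 := by simp only [hD']; rw [r2]; simp
  have o1 : dot (D (P a' b b')) (P a' b b' - P a b a') = 0 := by
    have := mrg_dot_inf (ωb - ωa) (tb - ta) (P a' b b') (P a b a')
    rw [← hDi, ← hDi, hT1, sub_zero] at this
    exact this
  have o3 : dot (D (P a' b b')) (P a' b b' - P a b b') = 0 := by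
    have := mrg_dot_inf (ωb - ωa) (tb - ta) (P a' b b') (P a b b')
    rw [← hDi, ← hDi, hT3, sub_zero] at this
    exact this
  have o2 : dot (D (P a' b b')) (P a' b b' - P a b' a') = 0 := by
    have := mrg_dot_inf (ωb' - ωa) (tb' - ta) (P a' b b') (P a b' a')
    rw [← hDi', ← hDi', hT2, sub_zero, ← hT4] at this
    exact this
  -- rewrite the differences
  have s1 : P a' b b' - P a b a' = ((b' - a) * h2 a' b b' a) • U a' b := by
    have : P a b a' = P a' b a := by rw [mrg_P_symm12, mrg_P_symm23, mrg_P_symm12]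
    rw [this, mrg_P_sub]
  have s3 : P a' b b' - P a b b' = ((a' - a) * h2 b b' a' a) • U b b' := by
    have e1 : P a' b b' = P b b' a' := by rw [mrg_P_symm12, mrg_P_symm23]
    have e2 : P a b b' = P b b' a := by rw [mrg_P_symm12, mrg_P_symm23]
    rw [e1, e2, mrg_P_sub]
  have s2 : P a' b b' - P a b' a' = ((b - a) * h2 a' b' b a) • U a' b' := by
    have e1 : P a' b b' = P a' b' b := mrg_P_symm23 _ _ _
    have e2 : P a b' a' = P a' b' a := by rw [mrg_P_symm12, mrg_P_symm23, mrg_P_symm12]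
    rw [e1, e2, mrg_P_sub]
  rw [s1, mrg_dot_smul] at o1
  rw [s2, mrg_dot_smul] at o2
  rw [s3, mrg_dot_smul] at o3
  have n1 : (b' - a) * h2 a' b b' a ≠ 0 :=
    mul_ne_zero (sub_ne_zero.2 m2.symm) (mrg_h2_pos ha' hb hb' ha).ne'
  have n2 : (b - a) * h2 a' b' b a ≠ 0 :=
    mul_ne_zero (sub_ne_zero.2 m1.symm) (mrg_h2_pos ha' hb' hb ha).ne'
  have n3 : (a' - a) * h2 b b' a' a ≠ 0 :=
    mul_ne_zero (sub_ne_zero.2 haa.symm) (mrg_h2_pos hb hb' ha' ha).ne'
  have hT40 : D (P a' b b') = 0 :=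
    mrg_orth m3 m4 hbb ((mul_eq_zero.1 o1).resolve_left n1) ((mul_eq_zero.1 o3).resolve_left n3)
      ((mul_eq_zero.1 o2).resolve_left n2)
  -- D vanishes at P a b a', P a b b', P a' b b'
  have q1 : P a b b' = P a b a' + ((b' - a') * h2 a b b' a') • U a b := by
    rw [← mrg_P_sub]; abel
  have q2 : P a' b b' = P a b a' + ((b' - a) * h2 a' b b' a) • U a' b := by
    rw [← s1]; abel
  rw [hDi] at hT1 hT3 hT40
  rw [q1] at hT3
  rw [q2] at hT40
  have n4 : (b' - a') * h2 a b b' a' ≠ 0 :=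
    mul_ne_zero (sub_ne_zero.2 m4.symm) (mrg_h2_pos ha hb hb' ha').ne'
  obtain ⟨z1, z2⟩ := mrg_inf_zero haa _ _ n4 n1 hT1 hT3 hT40
  exact ⟨(sub_eq_zero.1 z1).symm, (sub_eq_zero.1 z2).symm⟩

/-- Two affine functions on the plane of `x` which agree at three points. -/
theorem mrg_plane (x a b a' b' : ℝ) (hx : 0 < x) (ha : 0 < a) (hb : 0 < b) (ha' : 0 < a')
    (hb' : 0 < b') (hab : a ≠ b) (haa : a ≠ a') (hbb : b ≠ b') (A : Fin 3 → ℝ) (ω t : E3)
    (e1 : affv A (P x a b) = ev x (inf ω t (P x a b)))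
    (e2 : affv A (P x a b') = ev x (inf ω t (P x a b')))
    (e3 : affv A (P x a' b) = ev x (inf ω t (P x a' b))) :
    ∀ q, ev x q = x ^ 5 → affv A q = ev x (inf ω t q) := by
  -- coefficients of the difference on the plane
  have key : ∃ c0 c1 c2 : ℝ, ∀ q : E3, ev x q = x ^ 5 →
      affv A q - ev x (inf ω t q) = c0 + c1 * q 0 + c2 * q 1 := by
    refine ⟨A 2 - (t 0 + ω 1 * x ^ 5) * x ^ 2 - (t 1 - ω 0 * x ^ 5) * x - t 2,
      A 0 + ω 1 * x ^ 2 * x ^ 2 - (ω 2 + ω 0 * x ^ 2) * x + ω 1,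
      A 1 + (ω 1 * x + ω 2) * x ^ 2 - ω 0 * x * x - ω 0, ?_⟩
    intro q hq
    have hq2 : q 2 = x ^ 5 - q 0 * x ^ 2 - q 1 * x := by
      unfold ev at hq; linarith
    simp [affv, ev]
    rw [hq2]
    ring
  obtain ⟨c0, c1, c2, key⟩ := key
  have hP : ∀ u v : ℝ, ev x (P x u v) = x ^ 5 := by
    intro u v; simp [ev, P, T]; ring
  have k1 := key _ (hP a b)
  have k2 := key _ (hP a b')
  have k3 := key _ (hP a' b)
  rw [e1, sub_self] at k1
  rw [e2, sub_self] at k2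
  rw [e3, sub_self] at k3
  have d1 : P x a b' = P x a b + ((b' - b) * h2 x a b' b) • U x a := by
    rw [← mrg_P_sub]; abel
  have d2 : P x a' b = P x a b + ((a' - a) * h2 x b a' a) • U x b := by
    rw [← mrg_P_sub, mrg_P_symm23 x b a', mrg_P_symm23 x b a]; abel
  have n1 : (b' - b) * h2 x a b' b ≠ 0 :=
    mul_ne_zero (sub_ne_zero.2 hbb.symm) (mrg_h2_pos hx ha hb' hb).ne'
  have n2 : (a' - a) * h2 x b a' a ≠ 0 :=
    mul_ne_zero (sub_ne_zero.2 haa.symm) (mrg_h2_pos hx hb ha' ha).ne'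
  rw [d1] at k2
  rw [d2] at k3
  simp only [PiLp.add_apply, PiLp.smul_apply, smul_eq_mul, mrg_U0, mrg_U1] at k2 k3
  have g1 : ((b' - b) * h2 x a b' b) * (c1 - c2 * (x + a)) = 0 := by
    linear_combination k1 - k2
  have g2 : ((a' - a) * h2 x b a' a) * (c1 - c2 * (x + b)) = 0 := by
    linear_combination k1 - k3
  have g3 := (mul_eq_zero.1 g1).resolve_left n1
  have g4 := (mul_eq_zero.1 g2).resolve_left n2
  have g5 : (a - b) * c2 = 0 := by linear_combination g4 - g3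
  have z2 : c2 = 0 := (mul_eq_zero.1 g5).resolve_left (sub_ne_zero.2 hab)
  have z1 : c1 = 0 := by rw [z2] at g3; linarith
  have z0 : c0 = 0 := by rw [z1, z2] at k1; linarith
  intro q hq
  have := key q hq
  rw [z0, z1, z2] at this
  linarith

theorem macro_rigid (x a b : Fin 3 → ℝ) (y : Fin 7 → ℝ) (hx : ∀ i, 0 < x i) (ha : ∀ i, 0 < a i)
    (hb : ∀ i, 0 < b i) (hy : ∀ i, 0 < y i) (hxi : Function.Injective x)
    (hai : Function.Injective a) (hbi : Function.Injective b) (hyi : Function.Injective y)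
    (hxa : ∀ i j, x i < a j) (hab : ∀ j k, a j < b k) (hby : ∀ k l, b k < y l)
    (V1 : Fin 3 → Fin 3 → Fin 3 → E3) (V2 : Fin 3 → Fin 3 → Fin 7 → E3)
    (Ax Aa Ab : Fin 3 → Fin 3 → ℝ) (Ay : Fin 7 → Fin 3 → ℝ)
    (h1x : ∀ i j k, ev (x i) (V1 i j k) = affv (Ax i) (P (x i) (a j) (b k)))
    (h1a : ∀ i j k, ev (a j) (V1 i j k) = affv (Aa j) (P (x i) (a j) (b k)))
    (h1b : ∀ i j k, ev (b k) (V1 i j k) = affv (Ab k) (P (x i) (a j) (b k)))
    (h2a : ∀ j k l, ev (a j) (V2 j k l) = affv (Aa j) (P (a j) (b k) (y l)))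
    (h2b : ∀ j k l, ev (b k) (V2 j k l) = affv (Ab k) (P (a j) (b k) (y l)))
    (h2y : ∀ j k l, ev (y l) (V2 j k l) = affv (Ay l) (P (a j) (b k) (y l)))
    (hlen : ∀ i j k l, dot (V2 j k l - V1 i j k) (U (a j) (b k)) = 0) :
    ∃ ω t : E3, (∀ i j k, V1 i j k = inf ω t (P (x i) (a j) (b k))) ∧
      (∀ j k l, V2 j k l = inf ω t (P (a j) (b k) (y l))) ∧
      (∀ i q, ev (x i) q = x i ^ 5 → affv (Ax i) q = ev (x i) (inf ω t q)) ∧
      (∀ l q, ev (y l) q = y l ^ 5 → affv (Ay l) q = ev (y l) (inf ω t q)) := by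
  have hsub : ∀ p q r : E3, dot (p - q) r = dot p r - dot q r := by
    intro p q r; simp [dot]; ring
  -- the products with `U` are constant
  have hc1 : ∀ j k l, dot (V2 j k l) (U (a j) (b k)) = dot (V1 0 j k) (U (a j) (b k)) := by
    intro j k l
    have := hlen 0 j k l
    rw [hsub] at this; linarith
  have hc2 : ∀ i j k, dot (V1 i j k) (U (a j) (b k)) = dot (V1 0 j k) (U (a j) (b k)) := by
    intro i j k
    have := hlen i j k 0
    rw [hsub] at this
    have := hc1 j k 0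
    linarith
  -- the fields on the lines
  choose W0 W1 hW1 hWa hWb hWd using fun j k =>
    mrg_field (hab j k).ne (Aa j) (Ab k) (dot (V1 0 j k) (U (a j) (b k)))
  have hPx : ∀ i j k, P (x i) (a j) (b k) = Nn (a j) (b k) + T (a j) (b k) (x i) • U (a j) (b k) := by
    intro i j k
    have : P (x i) (a j) (b k) = P (a j) (b k) (x i) := by
      rw [mrg_P_symm12, mrg_P_symm23]
    rw [this]; rfl
  have hV1 : ∀ i j k, V1 i j k = W0 j k + T (a j) (b k) (x i) • W1 j k := by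
    intro i j k
    apply mrg_unique (hab j k).ne
    · rw [hWa, h1a, hPx]
    · rw [hWb, h1b, hPx]
    · rw [hWd, hc2]
  have hV2 : ∀ j k l, V2 j k l = W0 j k + T (a j) (b k) (y l) • W1 j k := by
    intro j k l
    apply mrg_unique (hab j k).ne
    · rw [hWa, h2a]; rfl
    · rw [hWb, h2b]; rfl
    · rw [hWd, hc1]
  -- the planes `a`
  have hpa : ∀ j, ∃ ω t₀ : E3, ∀ k, ∀ t : ℝ,
      W0 j k + t • W1 j k = inf ω t₀ (Nn (a j) (b k) + t • U (a j) (b k)) := by
    intro j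
    obtain ⟨ω, t₀, h, -⟩ := plane_rigid (a j) b y (ha j) hb hy hbi hyi (fun k => (hab j k).ne')
      (fun l => ((hab j 0).trans (hby 0 l)).ne') (fun l k => (hby k l).ne') (Aa j) (W0 j) (W1 j) Ay
      (hW1 j) (hWa j) (fun k l => by rw [← hV2, h2y])
    exact ⟨ω, t₀, h⟩
  have hpb : ∀ k, ∃ ω t₀ : E3, ∀ j, ∀ t : ℝ,
      W0 j k + t • W1 j k = inf ω t₀ (Nn (a j) (b k) + t • U (a j) (b k)) := by
    intro k
    obtain ⟨ω, t₀, h, -⟩ := plane_rigid (b k) a y (hb k) ha hy hai hyi (fun j => (hab j k).ne)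
      (fun l => (hby k l).ne') (fun l j => ((hab j k).trans (hby k l)).ne') (Ab k)
      (fun j => W0 j k) (fun j => W1 j k) Ay
      (fun j => by rw [mrg_U_symm]; exact hW1 j k)
      (fun j t => by rw [hWb, mrg_N_symm, mrg_U_symm])
      (fun j l => by rw [mrg_T_symm12, ← hV2, h2y, mrg_P_symm12])
    refine ⟨ω, t₀, fun j t => ?_⟩
    rw [h, mrg_N_symm, mrg_U_symm]
  choose ωa ta hMa using hpa
  choose ωb tb hMb using hpb
  have hM : ∀ j k, ωa j = ωb k ∧ ta j = tb k := by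
    intro j k
    obtain ⟨j', hj'⟩ : ∃ j', j ≠ j' := ⟨j + 1, by fin_cases j <;> decide⟩
    obtain ⟨k', hk'⟩ : ∃ k', k ≠ k' := ⟨k + 1, by fin_cases k <;> decide⟩
    exact mrg_tetra (ha j) (ha j') (hb k) (hb k') (fun h => hj' (hai h)) (fun h => hk' (hbi h))
      (hab j k).ne (hab j k').ne (hab j' k).ne (hab j' k').ne (ωa j) (ta j) (ωa j') (ta j')
      (ωb k) (tb k) (ωb k') (tb k')
      (fun t => by rw [← hMa, ← hMb]) (fun t => by rw [← hMa, ← hMb])
      (fun t => by rw [← hMa, ← hMb]) (fun t => by rw [← hMa, ← hMb])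
  have hMM : ∀ j, ωa j = ωa 0 ∧ ta j = ta 0 := fun j =>
    ⟨(hM j 0).1.trans (hM 0 0).1.symm, (hM j 0).2.trans (hM 0 0).2.symm⟩
  have R1 : ∀ i j k, V1 i j k = inf (ωa 0) (ta 0) (P (x i) (a j) (b k)) := by
    intro i j k
    rw [hV1, hMa, (hMM j).1, (hMM j).2, hPx]
  have R2 : ∀ j k l, V2 j k l = inf (ωa 0) (ta 0) (P (a j) (b k) (y l)) := by
    intro j k l
    rw [hV2, hMa, (hMM j).1, (hMM j).2]; rfl
  have n01 : (0 : Fin 3) ≠ 1 := by decide
  refine ⟨ωa 0, ta 0, R1, R2, ?_, ?_⟩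
  · intro i
    refine mrg_plane (x i) (a 0) (b 0) (a 1) (b 1) (hx i) (ha 0) (hb 0) (ha 1) (hb 1) (hab 0 0).ne
      (fun h => n01 (hai h)) (fun h => n01 (hbi h)) (Ax i) _ _ ?_ ?_ ?_
    · rw [← h1x, R1]
    · rw [← h1x, R1]
    · rw [← h1x, R1]
  · intro l
    have sy : ∀ j k, P (y l) (a j) (b k) = P (a j) (b k) (y l) := by
      intro j k; rw [mrg_P_symm12, mrg_P_symm23]
    refine mrg_plane (y l) (a 0) (b 0) (a 1) (b 1) (hy l) (ha 0) (hb 0) (ha 1) (hb 1) (hab 0 0).ne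
      (fun h => n01 (hai h)) (fun h => n01 (hbi h)) (Ay l) _ _ ?_ ?_ ?_
    · rw [sy, ← h2y, R2]
    · rw [sy, ← h2y, R2]
    · rw [sy, ← h2y, R2]

end Pool.Agent.Helper53.Chain
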