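import Pool.Agent.Helper53.Chain.Alg
import Pool.Agent.Helper53.Chain.FA1
import Pool.Agent.Helper53.Chain.FA2
import Pool.Agent.Helper53.Chain.FA3
import Pool.Agent.Helper53.Chain.FB5
import Pool.Agent.Helper53.Chain.FB6
import Pool.Agent.Helper53.Chain.MRG

/-! # First order rigidity of a core -/

namespace Pool.Agent.Helper53.Chain

open Set

namespace Nodes

variable (N : Nodes)

lemma T1_ne (c : Copy) :
    T (N.x c.1.1) (N.a c.1.2.1) N.w ≠ T (N.x c.1.1) (N.a c.1.2.1) (N.b c.1.2.2.1) :=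
  T_ne (N.x_pos _) (((N.w_lt_x c.1.1).trans (N.x_lt_a _ c.1.2.1)).trans (N.a_lt_b _ _)).ne

lemma T2_ne (c : Copy) : T (N.a c.1.2.1) (N.b c.1.2.2.1) (N.x c.1.1) ≠
    T (N.a c.1.2.1) (N.b c.1.2.2.1) (N.y c.1.2.2.2) :=
  T_ne (N.a_pos _) (((N.x_lt_a c.1.1 c.1.2.1).trans (N.a_lt_b _ c.1.2.2.1)).trans
    (N.b_lt_y _ _)).ne

lemma T3_ne (c : Copy) : T (N.b c.1.2.2.1) (N.y c.1.2.2.2) (N.a c.1.2.1) ≠
    T (N.b c.1.2.2.1) (N.y c.1.2.2.2) N.z :=
  T_ne (N.b_pos _) (((N.a_lt_b c.1.2.1 c.1.2.2.1).trans (N.b_lt_y _ c.1.2.2.2)).trans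
    (N.y_lt_z _)).ne

lemma at1_inf (c : Copy) (ω t : E3) (s : ℝ) :
    N.at1 c (fun i => inf ω t (N.X₀ c i)) s = inf ω t (P (N.x c.1.1) (N.a c.1.2.1) s) := by
  simp only [at1, X₀_0, X₀_1]
  rw [P_rot N.w (N.x c.1.1) (N.a c.1.2.1)]
  simp only [P, inf_line]
  exact lerp_line _ _ _ (N.T1_ne c) _ _

lemma at2_inf (c : Copy) (ω t : E3) (s : ℝ) :
    N.at2 c (fun i => inf ω t (N.X₀ c i)) s =
      inf ω t (P (N.a c.1.2.1) (N.b c.1.2.2.1) s) := by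
  simp only [at2, X₀_1, X₀_2]
  rw [P_rot (N.x c.1.1) (N.a c.1.2.1) (N.b c.1.2.2.1)]
  simp only [P, inf_line]
  exact lerp_line _ _ _ (N.T2_ne c) _ _

lemma at3_inf (c : Copy) (ω t : E3) (s : ℝ) :
    N.at3 c (fun i => inf ω t (N.X₀ c i)) s =
      inf ω t (P (N.b c.1.2.2.1) (N.y c.1.2.2.2) s) := by
  simp only [at3, X₀_2, X₀_3]
  rw [P_rot (N.a c.1.2.1) (N.b c.1.2.2.1) (N.y c.1.2.2.2)]
  simp only [P, inf_line]
  exact lerp_line _ _ _ (N.T3_ne c) _ _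

lemma at1_sub (c : Copy) (v v' : Fin 4 → E3) (s : ℝ) :
    N.at1 c (fun i => v i - v' i) s = N.at1 c v s - N.at1 c v' s := by
  simp only [at1, lerp_sub]
lemma at2_sub (c : Copy) (v v' : Fin 4 → E3) (s : ℝ) :
    N.at2 c (fun i => v i - v' i) s = N.at2 c v s - N.at2 c v' s := by
  simp only [at2, lerp_sub]
lemma at3_sub (c : Copy) (v v' : Fin 4 → E3) (s : ℝ) :
    N.at3 c (fun i => v i - v' i) s = N.at3 c v s - N.at3 c v' s := by
  simp only [at3, lerp_sub]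

/-- Subtracting an infinitesimal isometry does not change the order conditions. -/
lemma Ord_sub_inf {u v : Copy → Fin 4 → E3} (ho : N.Ord u v) (ω t : E3) :
    N.Ord u (fun c i => v c i - inf ω t (N.X₀ c i)) where
  K1 := by
    intro i j j' k k' l l' κ κ' hj h
    have := ho.K1 i j j' k k' l l' κ κ' hj h
    simp only [h1, at1_sub, at1_inf, ev_sub] at this ⊢
    rw [P_comm23 (N.x i) (N.a j') (N.a j)]
    linarith
  K2 := by
    intro i i' j k k' l l' κ κ' hj h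
    have := ho.K2 i i' j k k' l l' κ κ' hj h
    simp only [h2a, at2_sub, at2_inf, ev_sub] at this ⊢
    rw [P_comm23 (N.a j) (N.b k') (N.b k)]
    linarith
  K3 := by
    intro i i' j j' k l l' κ κ' hj h
    have := ho.K3 i i' j j' k l l' κ κ' hj h
    simp only [h2b, at2_sub, at2_inf, ev_sub] at this ⊢
    rw [P_comm13 (N.a j') (N.b k) (N.a j)]
    linarith
  K4 := by
    intro i i' j j' k k' l κ κ' hj h
    have := ho.K4 i i' j j' k k' l κ κ' hj h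
    simp only [h3, at3_sub, at3_inf, ev_sub] at this ⊢
    rw [P_comm13 (N.b k') (N.y l) (N.b k)]
    linarith
  K5 := by
    intro i i' j k k' l l' κ κ' hj h
    have := ho.K5 i i' j k k' l l' κ κ' hj h
    simp only [h5, at1_sub, at1_inf, ev_sub] at this ⊢
    rw [P_comm13 (N.x i') (N.a j) (N.x i)]
    linarith
  K6 := by
    intro i i' j j' k l l' κ κ' hj h
    have := ho.K6 i i' j j' k l l' κ κ' hj h
    simp only [h6, at3_sub, at3_inf, ev_sub] at this ⊢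
    rw [P_comm23 (N.b k) (N.y l') (N.y l)]
    linarith

lemma Len_sub_inf {v : Copy → Fin 4 → E3} (hl : N.Len v) (ω t : E3) :
    N.Len (fun c i => v c i - inf ω t (N.X₀ c i)) := by
  intro c r
  have h := hl c r
  have e : (v c r.succ - inf ω t (N.X₀ c r.succ)) - (v c r.castSucc - inf ω t (N.X₀ c r.castSucc))
      = (v c r.succ - v c r.castSucc) - inf ω 0 (N.X₀ c r.succ - N.X₀ c r.castSucc) := by
    rw [← inf_sub ω t]; abel
  simp only [e, dot_sub_left, h, dot_inf_self, sub_zero]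

lemma hdir1 (c : Copy) : N.X₀ c 1 - N.X₀ c 0 =
    (T (N.x c.1.1) (N.a c.1.2.1) (N.b c.1.2.2.1) - T (N.x c.1.1) (N.a c.1.2.1) N.w) •
      U (N.x c.1.1) (N.a c.1.2.1) := by
  rw [X₀_0, X₀_1, P_rot N.w, P_sub]

lemma hdir2 (c : Copy) : N.X₀ c 2 - N.X₀ c 1 =
    (T (N.a c.1.2.1) (N.b c.1.2.2.1) (N.y c.1.2.2.2) -
      T (N.a c.1.2.1) (N.b c.1.2.2.1) (N.x c.1.1)) • U (N.a c.1.2.1) (N.b c.1.2.2.1) := by
  rw [X₀_1, X₀_2, P_rot (N.x _), P_sub]

lemma hdir3 (c : Copy) : N.X₀ c 3 - N.X₀ c 2 =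
    (T (N.b c.1.2.2.1) (N.y c.1.2.2.2) N.z -
      T (N.b c.1.2.2.1) (N.y c.1.2.2.2) (N.a c.1.2.1)) • U (N.b c.1.2.2.1) (N.y c.1.2.2.2) := by
  rw [X₀_2, X₀_3, P_rot (N.a _), P_sub]

lemma Len1 {v : Copy → Fin 4 → E3} (hl : N.Len v) (c : Copy) :
    dot (v c 1 - v c 0) (U (N.x c.1.1) (N.a c.1.2.1)) = 0 := by
  have h := hl c 0
  have h' : dot (v c 1 - v c 0) (N.X₀ c 1 - N.X₀ c 0) = 0 := h
  rw [hdir1, dot_smul_right] at h'
  exact (mul_eq_zero.1 h').resolve_left (sub_ne_zero.2 (N.T1_ne c).symm)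

lemma Len2 {v : Copy → Fin 4 → E3} (hl : N.Len v) (c : Copy) :
    dot (v c 2 - v c 1) (U (N.a c.1.2.1) (N.b c.1.2.2.1)) = 0 := by
  have h := hl c 1
  have h' : dot (v c 2 - v c 1) (N.X₀ c 2 - N.X₀ c 1) = 0 := h
  rw [hdir2, dot_smul_right] at h'
  exact (mul_eq_zero.1 h').resolve_left (sub_ne_zero.2 (N.T2_ne c).symm)

lemma Len3 {v : Copy → Fin 4 → E3} (hl : N.Len v) (c : Copy) :
    dot (v c 3 - v c 2) (U (N.b c.1.2.2.1) (N.y c.1.2.2.2)) = 0 := by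
  have h := hl c 2
  have h' : dot (v c 3 - v c 2) (N.X₀ c 3 - N.X₀ c 2) = 0 := h
  rw [hdir3, dot_smul_right] at h'
  exact (mul_eq_zero.1 h').resolve_left (sub_ne_zero.2 (N.T3_ne c).symm)

end Nodes

/-- A vector orthogonal to `U a b` with value `0` at `a` and `b` is zero. -/
lemma eq_zero_of_perp {a b : ℝ} (hab : a ≠ b) {p : E3} (h1 : ev a p = 0) (h2 : ev b p = 0)
    (h : dot p (U a b) = 0) : p = 0 := by
  have e := eq_smul_U hab h1 h2
  rw [e, dot_smul_left] at h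
  have := (mul_eq_zero.1 h).resolve_right (dot_U_self_pos a b).ne'
  rw [e, this, zero_smul]

/-- First order rigidity of a core. -/
theorem first_order_rigid (N : Nodes) (e : ℝ) (he : 0 < e) (u v : Copy → Fin 4 → E3)
    (hts : Hts N e u) (ho : N.Ord u v) (hl : N.Len v) :
    ∃ ω t : E3, ∀ c i, v c i = inf ω t (N.X₀ c i) := by
  obtain ⟨Φ1, Φ2, Φ3, Φ4, s1, s2, s3, s4, hΦ⟩ :=
    sandwich_of_len N (fun τ => len_identity N τ) e u v hts ho hl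
  obtain ⟨Ax, Aa, Ab, Ay, hA⟩ := affine_planes N v Φ1 Φ2 Φ3 Φ4 s1 s2 s3 s4 hΦ
  simp only [Nodes.X₀_0, Nodes.X₀_1, Nodes.X₀_2, Nodes.X₀_3] at hA
  -- displacements depend on the macro point only
  have e1 : ∀ i j k l κ, v ((i, j, k, l), κ) 1 = v ((i, j, k, 0), .zero) 1 := by
    intro i j k l κ
    obtain ⟨-, p1, p2, -, p3, -, -, -⟩ := hA i j k l κ
    obtain ⟨-, q1, q2, -, q3, -, -, -⟩ := hA i j k 0 .zero
    refine eq_of_ev (N.x_lt_a i j).ne ((N.x_lt_a i j).trans (N.a_lt_b j k)).ne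
      (N.a_lt_b j k).ne ?_ ?_ ?_
    · rw [p1, q1]
    · rw [p2, q2]
    · rw [p3, q3]
  have e2 : ∀ i j k l κ, v ((i, j, k, l), κ) 2 = v ((0, j, k, l), .zero) 2 := by
    intro i j k l κ
    obtain ⟨-, -, -, p1, -, p2, p3, -⟩ := hA i j k l κ
    obtain ⟨-, -, -, q1, -, q2, q3, -⟩ := hA 0 j k l .zero
    refine eq_of_ev (N.a_lt_b j k).ne ((N.a_lt_b j k).trans (N.b_lt_y k l)).ne
      (N.b_lt_y k l).ne ?_ ?_ ?_
    · rw [p1, q1]
    · rw [p2, q2]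
    · rw [p3, q3]
  obtain ⟨ω, t, m1, m2, mx, my⟩ := macro_rigid N.x N.a N.b N.y N.x_pos N.a_pos N.b_pos N.y_pos
    N.hx.injective N.ha.injective N.hb.injective N.hy.injective N.x_lt_a N.a_lt_b N.b_lt_y
    (fun i j k => v ((i, j, k, 0), .zero) 1) (fun j k l => v ((0, j, k, l), .zero) 2)
    Ax Aa Ab Ay (fun i j k => (hA i j k 0 .zero).2.1) (fun i j k => (hA i j k 0 .zero).2.2.1)
    (fun i j k => (hA i j k 0 .zero).2.2.2.2.1) (fun j k l => (hA 0 j k l .zero).2.2.2.1)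
    (fun j k l => (hA 0 j k l .zero).2.2.2.2.2.1) (fun j k l => (hA 0 j k l .zero).2.2.2.2.2.2.1)
    (by
      intro i j k l
      have h := N.Len2 hl ((i, j, k, l), .zero)
      rw [e1 i j k l, e2 i j k l] at h
      exact h)
  refine ⟨ω, t, ?_⟩
  obtain ⟨v', hv'⟩ : ∃ v' : Copy → Fin 4 → E3, v' = fun c i => v c i - inf ω t (N.X₀ c i) :=
    ⟨_, rfl⟩
  have hvc : ∀ c i, v' c i = v c i - inf ω t (N.X₀ c i) := fun c i => by rw [hv']
  have ho' : N.Ord u v' := by rw [hv']; exact N.Ord_sub_inf ho ω t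
  have hl' : N.Len v' := by rw [hv']; exact N.Len_sub_inf hl ω t
  have z1 : ∀ c, v' c 1 = 0 := by
    rintro ⟨⟨i, j, k, l⟩, κ⟩
    rw [hvc, sub_eq_zero, Nodes.X₀_1, e1]
    exact m1 i j k
  have z2 : ∀ c, v' c 2 = 0 := by
    rintro ⟨⟨i, j, k, l⟩, κ⟩
    rw [hvc, sub_eq_zero, Nodes.X₀_2, e2]
    exact m2 j k l
  have z0 : ∀ c, v' c 0 = 0 := by
    rintro ⟨⟨i, j, k, l⟩, κ⟩
    have c1 := cycle_x N e he u v' hts ho' z1 ((i, j, k, l), κ)
    have c2 : ev (N.x i) (v' ((i, j, k, l), κ) 0) = 0 := by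
      rw [hvc, ev_sub, (hA i j k l κ).1, Nodes.X₀_0, mx i _ (ev_P_mid _ _ _), sub_self]
    have c3 := N.Len1 hl' ((i, j, k, l), κ)
    rw [z1, zero_sub] at c3
    refine eq_zero_of_perp (N.x_lt_a i j).ne c2 c1 ?_
    have : dot (v' ((i, j, k, l), κ) 0) (U (N.x i) (N.a j)) =
      -dot (-v' ((i, j, k, l), κ) 0) (U (N.x i) (N.a j)) := by simp [dot]; ring
    rw [this, c3, neg_zero]
  have z3 : ∀ c, v' c 3 = 0 := by
    rintro ⟨⟨i, j, k, l⟩, κ⟩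
    have c1 := cycle_y N e he u v' hts ho' z2 ((i, j, k, l), κ)
    have c2 : ev (N.y l) (v' ((i, j, k, l), κ) 3) = 0 := by
      rw [hvc, ev_sub, (hA i j k l κ).2.2.2.2.2.2.2, Nodes.X₀_3, my l _ (ev_P_mid _ _ _),
        sub_self]
    have c3 := N.Len3 hl' ((i, j, k, l), κ)
    rw [z2, sub_zero] at c3
    exact eq_zero_of_perp (N.b_lt_y k l).ne c1 c2 c3
  intro c i
  rw [← sub_eq_zero, ← hvc]
  fin_cases i
  · exact z0 c
  · exact z1 c
  · exact z2 c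
  · exact z3 c

end Pool.Agent.Helper53.Chain
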