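import Pool.Agent.Helper53.Chain.Base

/-! # The four-partite Kővári–Sós–Turán theorem -/

namespace Pool.Agent.Helper53.Chain

open Set

open Classical in
/-- One coordinate at a time. -/
theorem kst_step (ε : ℝ) (hε : 0 < ε) (t : ℕ) : ∃ m₀ : ℕ, ∃ ε' : ℝ, 0 < ε' ∧
    ∀ m : ℕ, m₀ ≤ m → ∀ (β : Type) [Fintype β] (S : Finset (Fin m × β)),
      ε * (m : ℝ) * (Fintype.card β : ℝ) ≤ (S.card : ℝ) →
      ∃ X : Fin t → Fin m, StrictMono X ∧ ∃ S' : Finset β,
        ε' * (Fintype.card β : ℝ) ≤ (S'.card : ℝ) ∧ ∀ b ∈ S', ∀ i, (X i, b) ∈ S := by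
  obtain ⟨m₁, hm₁⟩ := exists_nat_ge (4 * (t : ℝ) / ε)
  refine ⟨max m₁ (t + 1), ε / 2 * (ε / 4) ^ t, by positivity, ?_⟩
  intro m hm β _ S hS
  have hmt : t < m := lt_of_lt_of_le (Nat.lt_succ_self t) ((le_max_right _ _).trans hm)
  have hmpos : (0 : ℝ) < m := by exact_mod_cast lt_of_le_of_lt (Nat.zero_le t) hmt
  have hm4 : (t : ℝ) ≤ ε * m / 4 := by
    have h1 : (m₁ : ℝ) ≤ m := by exact_mod_cast (le_max_left _ _).trans hm
    have h2 : 4 * (t : ℝ) / ε ≤ m := hm₁.trans h1
    rw [div_le_iff₀ hε] at h2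
    linarith
  -- neighbourhoods
  set nb : β → Finset (Fin m) := fun b => Finset.univ.filter fun x => (x, b) ∈ S with hnb
  have hcount : ∑ b : β, ((nb b).card : ℝ) = (S.card : ℝ) := by
    have h1 : ∑ b : β, (nb b).card = S.card := by
      rw [Finset.card_eq_sum_card_fiberwise (f := Prod.snd) (t := Finset.univ)
        (fun x _ => Finset.mem_univ _)]
      refine Finset.sum_congr rfl fun b _ => ?_
      rw [hnb]
      refine Finset.card_bij (fun x _ => (x, b)) ?_ ?_ ?_
      · intro x hx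
        rw [Finset.mem_filter] at hx ⊢
        exact ⟨hx.2, rfl⟩
      · intro x _ y _ hxy
        exact (Prod.mk.inj hxy).1
      · rintro ⟨x, b'⟩ hx
        rw [Finset.mem_filter] at hx
        obtain ⟨hx1, hx2⟩ := hx
        simp only at hx2
        subst hx2
        exact ⟨x, by rw [Finset.mem_filter]; exact ⟨Finset.mem_univ _, hx1⟩, rfl⟩
    exact_mod_cast h1
  -- many vertices with large neighbourhoods
  set G : Finset β := Finset.univ.filter fun b => ε * m / 2 ≤ ((nb b).card : ℝ) with hG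
  have hGcard : ε / 2 * (Fintype.card β : ℝ) ≤ (G.card : ℝ) := by
    have h1 : ∑ b : β, ((nb b).card : ℝ) ≤
        (G.card : ℝ) * m + (Fintype.card β : ℝ) * (ε * m / 2) := by
      rw [← Finset.sum_filter_add_sum_filter_not Finset.univ
        (fun b => ε * m / 2 ≤ ((nb b).card : ℝ))]
      refine add_le_add ?_ ?_
      · rw [← nsmul_eq_mul, ← Finset.sum_const]
        refine Finset.sum_le_sum fun b _ => ?_
        have : (nb b).card ≤ m := by
          have := Finset.card_le_univ (nb b)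
          rwa [Fintype.card_fin] at this
        exact_mod_cast this
      · calc ∑ b with ¬ (ε * m / 2 ≤ ((nb b).card : ℝ)), ((nb b).card : ℝ)
            ≤ ∑ b with ¬ (ε * m / 2 ≤ ((nb b).card : ℝ)), (ε * m / 2) := by
              refine Finset.sum_le_sum fun b hb => ?_
              rw [Finset.mem_filter] at hb
              exact (not_le.mp hb.2).le
          _ ≤ (Fintype.card β : ℝ) * (ε * m / 2) := by
              rw [Finset.sum_const, nsmul_eq_mul]
              refine mul_le_mul_of_nonneg_right ?_ (by positivity)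
              exact_mod_cast Finset.card_le_univ _
    rw [hcount] at h1
    have h2 : ε * (m : ℝ) * (Fintype.card β : ℝ) ≤
        (G.card : ℝ) * m + (Fintype.card β : ℝ) * (ε * m / 2) := hS.trans h1
    have h3 : (ε / 2 * (Fintype.card β : ℝ)) * m ≤ (G.card : ℝ) * m := by linarith
    exact le_of_mul_le_mul_right h3 hmpos
  -- count pairs
  have hpair : ∑ T ∈ Finset.powersetCard t (Finset.univ : Finset (Fin m)),
      ((Finset.univ.filter fun b : β => T ⊆ nb b).card : ℝ) =
      ∑ b : β, (((nb b).card.choose t : ℕ) : ℝ) := by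
    have h1 : ∑ T ∈ Finset.powersetCard t (Finset.univ : Finset (Fin m)),
        (Finset.univ.filter fun b : β => T ⊆ nb b).card =
        ∑ b : β, (nb b).card.choose t := by
      simp only [Finset.card_filter]
      rw [Finset.sum_comm]
      refine Finset.sum_congr rfl fun b _ => ?_
      rw [← Finset.card_filter, ← Finset.card_powersetCard]
      congr 1
      ext T
      simp only [Finset.mem_filter, Finset.mem_powersetCard, Finset.subset_univ, true_and]
      tauto
    exact_mod_cast h1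
  have hfac : (0 : ℝ) < (t.factorial : ℝ) := by exact_mod_cast Nat.factorial_pos t
  have hlow : (ε / 2 * (Fintype.card β : ℝ)) * ((ε * m / 4) ^ t / (t.factorial : ℝ)) ≤
      ∑ b : β, (((nb b).card.choose t : ℕ) : ℝ) := by
    calc (ε / 2 * (Fintype.card β : ℝ)) * ((ε * m / 4) ^ t / (t.factorial : ℝ))
        ≤ (G.card : ℝ) * ((ε * m / 4) ^ t / (t.factorial : ℝ)) :=
          mul_le_mul_of_nonneg_right hGcard (by positivity)
      _ = ∑ b ∈ G, ((ε * m / 4) ^ t / (t.factorial : ℝ)) := by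
          rw [Finset.sum_const, nsmul_eq_mul]
      _ ≤ ∑ b ∈ G, (((nb b).card.choose t : ℕ) : ℝ) := by
          refine Finset.sum_le_sum fun b hb => ?_
          rw [hG, Finset.mem_filter] at hb
          have h1 : (t : ℝ) ≤ ((nb b).card : ℝ) := by
            have : ε * m / 4 ≤ ε * m / 2 := by
              have : 0 ≤ ε * m := by positivity
              linarith
            linarith [hb.2]
          have h1' : t ≤ (nb b).card := by exact_mod_cast h1
          have h2 := Nat.pow_le_choose t (nb b).card (α := ℝ)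
          rw [div_le_iff₀ hfac, mul_comm (((nb b).card.choose t : ℕ) : ℝ)]
          rw [div_le_iff₀ hfac] at h2
          refine le_trans ?_ (h2.trans (le_of_eq (mul_comm _ _)))
          refine pow_le_pow_left₀ (by positivity) ?_ t
          rw [Nat.cast_sub (by omega)]
          push_cast
          linarith [hb.2]
      _ ≤ ∑ b : β, (((nb b).card.choose t : ℕ) : ℝ) :=
          Finset.sum_le_sum_of_subset_of_nonneg (Finset.subset_univ _)
            (fun _ _ _ => Nat.cast_nonneg _)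
  -- pigeonhole
  have hne : (Finset.powersetCard t (Finset.univ : Finset (Fin m))).Nonempty := by
    rw [Finset.powersetCard_nonempty, Finset.card_univ, Fintype.card_fin]
    exact hmt.le
  obtain ⟨T, hT, hTc⟩ : ∃ T ∈ Finset.powersetCard t (Finset.univ : Finset (Fin m)),
      ε / 2 * (ε / 4) ^ t * (Fintype.card β : ℝ) ≤
        ((Finset.univ.filter fun b : β => T ⊆ nb b).card : ℝ) := by
    by_contra hcon
    push Not at hcon
    have h1 := Finset.sum_lt_sum_of_nonempty hne hcon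
    rw [Finset.sum_const, nsmul_eq_mul, Finset.card_powersetCard, Finset.card_univ,
      Fintype.card_fin, hpair] at h1
    have h2 : ((m.choose t : ℕ) : ℝ) ≤ (m : ℝ) ^ t / (t.factorial : ℝ) :=
      Nat.choose_le_pow_div t m
    have h3 : ((m.choose t : ℕ) : ℝ) * (ε / 2 * (ε / 4) ^ t * (Fintype.card β : ℝ)) ≤
        (m : ℝ) ^ t / (t.factorial : ℝ) * (ε / 2 * (ε / 4) ^ t * (Fintype.card β : ℝ)) :=
      mul_le_mul_of_nonneg_right h2 (by positivity)
    have h4 : (m : ℝ) ^ t / (t.factorial : ℝ) * (ε / 2 * (ε / 4) ^ t * (Fintype.card β : ℝ)) =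
        (ε / 2 * (Fintype.card β : ℝ)) * ((ε * m / 4) ^ t / (t.factorial : ℝ)) := by
      have : (ε * m / 4) ^ t = (ε / 4) ^ t * (m : ℝ) ^ t := by rw [← mul_pow]; ring
      rw [this]; ring
    linarith
  rw [Finset.mem_powersetCard] at hT
  refine ⟨T.orderEmbOfFin hT.2, (T.orderEmbOfFin hT.2).strictMono, _, hTc, ?_⟩
  intro b hb i
  rw [Finset.mem_filter] at hb
  have h1 := hb.2 (Finset.orderEmbOfFin_mem T hT.2 i)
  rw [hnb, Finset.mem_filter] at h1
  exact h1.2

theorem kst (ε : ℝ) (hε : 0 < ε) : ∃ m : ℕ, 0 < m ∧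
    ∀ S : Finset (Fin m × Fin m × Fin m × Fin m), ε * (m : ℝ) ^ 4 ≤ (S.card : ℝ) →
      ∃ (X A B : Fin 3 → Fin m) (Y : Fin 7 → Fin m), StrictMono X ∧ StrictMono A ∧ StrictMono B ∧
        StrictMono Y ∧ ∀ i j k l, (X i, A j, B k, Y l) ∈ S := by
  classical
  obtain ⟨m₁, ε₁, hε₁, H1⟩ := kst_step ε hε 3
  obtain ⟨m₂, ε₂, hε₂, H2⟩ := kst_step ε₁ hε₁ 3
  obtain ⟨m₃, ε₃, hε₃, H3⟩ := kst_step ε₂ hε₂ 3
  obtain ⟨m₄, ε₄, hε₄, H4⟩ := kst_step ε₃ hε₃ 7
  set m := m₁ + m₂ + m₃ + m₄ + 1 with hm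
  refine ⟨m, by omega, fun S hS => ?_⟩
  obtain ⟨X, hX, S1, hS1, hX'⟩ := H1 m (by omega) (Fin m × Fin m × Fin m) S (by
    rw [Fintype.card_prod, Fintype.card_prod, Fintype.card_fin]
    push_cast
    calc _ = ε * (m : ℝ) ^ 4 := by ring
      _ ≤ _ := hS)
  obtain ⟨A, hA, S2, hS2, hA'⟩ := H2 m (by omega) (Fin m × Fin m) S1 (by
      rw [Fintype.card_prod, Fintype.card_prod, Fintype.card_fin] at hS1
      rw [Fintype.card_prod, Fintype.card_fin]
      push_cast at hS1 ⊢
      calc _ = ε₁ * ((m : ℝ) * ((m : ℝ) * (m : ℝ))) := by ring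
        _ ≤ _ := hS1)
  obtain ⟨B, hB, S3, hS3, hB'⟩ := H3 m (by omega) (Fin m) S2 (by
      rw [Fintype.card_prod, Fintype.card_fin] at hS2
      rw [Fintype.card_fin]
      push_cast at hS2 ⊢
      calc _ = ε₂ * ((m : ℝ) * (m : ℝ)) := by ring
        _ ≤ _ := hS2)
  obtain ⟨Y, hY, S4, hS4, hY'⟩ := H4 m (by omega) Unit (S3.map ⟨fun b => (b, ()), fun a b h =>
      (Prod.mk.inj h).1⟩) (by
      rw [Fintype.card_fin] at hS3
      rw [Fintype.card_unit, Nat.cast_one, mul_one, Finset.card_map]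
      exact hS3)
  refine ⟨X, A, B, Y, hX, hA, hB, hY, ?_⟩
  rw [Fintype.card_unit, Nat.cast_one, mul_one] at hS4
  have hpos : 0 < S4.card := by
    have := lt_of_lt_of_le hε₄ hS4
    exact_mod_cast this
  obtain ⟨b, hb⟩ := Finset.card_pos.mp hpos
  intro i j k l
  have h1 := hY' b hb l
  rw [Finset.mem_map] at h1
  obtain ⟨y, hy, hy'⟩ := h1
  have hy2 : y = Y l := (Prod.mk.inj hy').1
  subst hy2
  exact hX' _ (hA' _ (hB' _ hy k) j) i

end Pool.Agent.Helper53.Chain
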